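import Pool.Agent.Lib.PSV.LChain1
import Pool.Agent.Lib.PSV.LPei1

set_option autoImplicit false
set_option linter.unusedSectionVars false

/-! Long chains do not exist. -/

namespace Pool.Agent.Lib.MP_bf45aa_co

open Subgroup Module

theorem LChain_cube {n : ℕ} (hn : 10 ≤ n) : n ^ 3 ≤ 2 ^ n := by
  induction n, hn using Nat.le_induction with
  | base => norm_num
  | succ n hn ih =>
    have h1 : 10 * n ^ 2 ≤ n ^ 3 := by
      rw [pow_succ n 2, mul_comm]
      exact Nat.mul_le_mul_left _ hn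
    have h2 : 10 * n ≤ n ^ 2 := by
      rw [pow_two]
      exact Nat.mul_le_mul_right _ hn
    have h3 : (n + 1) ^ 3 = n ^ 3 + 3 * n ^ 2 + 3 * n + 1 := by ring
    rw [h3, pow_succ 2 n]
    omega

theorem LChain_sq (l : ℕ) : l ^ 2 ≤ 2 * 2 ^ l := by
  induction l with
  | zero => simp
  | succ l ih =>
    have h1 : l < 2 ^ l := Nat.lt_two_pow_self
    have h3 : (l + 1) ^ 2 = l ^ 2 + 2 * l + 1 := by ring
    rw [h3, pow_succ 2 l]
    omega

theorem LChain_rev {I : Finset ℕ} {l : ℕ} (hl : l ≤ I.card) :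
    ∃ g : ℕ → ℕ, (∀ i < l, g i ∈ I) ∧ ∀ i k, i < k → k < l → g k < g i := by
  obtain ⟨J, hJ, hc⟩ := Finset.exists_subset_card_eq hl
  refine ⟨fun i => if h : i < l then J.orderEmbOfFin hc ⟨l - 1 - i, by omega⟩ else 0,
    fun i hi => ?_, fun i k hik hk => ?_⟩
  · simp only [dif_pos hi]
    exact hJ (J.orderEmbOfFin_mem hc _)
  · simp only [dif_pos hk, dif_pos (hik.trans hk)]
    exact (J.orderEmbOfFin hc).strictMono (Fin.mk_lt_mk.2 (by omega))

namespace LD

variable {p : ℕ} [Fact p.Prime] {H X V : Type} [Group H] [MulAction H X] [AddCommGroup V]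
  [Module (ZMod p) V] {D : LD p H X V}

variable {σ R m : ℕ} {y : ℕ → X} {x η : ℕ → End (ZMod p) V}

/-- Few members of a chain are bad. Let `M t = Vb (y t) (r₀ - 2 σ t)`, `E t = rk (x t * η t) (M t)`,
`N t = rk (x t - x t * η t * x t) (M t)`. By `rk_add_rk`, `E t + N t ≤ rk (x t) (M t)`; for
`t + 1 < m`, `M (t + 1) ≤ M t ≤ Vb o R` and `rk_le_rk` gives `rk (x (t + 1)) (M t) ≤ E t`. So
`∑ t < m, N t ≤ finrank (M 0) ≤ c (r₀ + 1)`. -/
theorem Chain.few (h : D.Chain σ R m y x η) {ν a r₀ : ℕ} (hr : a + 2 * σ * m ≤ r₀)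
    (hR : r₀ + σ ≤ R) :
    ((Finset.range m).filter fun t => ν < rk (x t - x t * η t * x t) (D.Vb (y t) a)).card * (ν + 1) ≤
      D.c * (r₀ + 1) := by
  classical
  obtain ⟨ρ, hρ⟩ : ∃ ρ : ℕ → ℕ, ∀ t, ρ t = r₀ - 2 * σ * t := ⟨_, fun _ => rfl⟩
  have hle : ∀ t ≤ m, 2 * σ * t ≤ 2 * σ * m := fun t ht => Nat.mul_le_mul_left _ ht
  obtain ⟨N, hN⟩ : ∃ N : ℕ → ℕ, ∀ t, N t = rk (x t - x t * η t * x t) (D.Vb (y t) (ρ t)) :=
    ⟨_, fun _ => rfl⟩
  have h1 : ∀ t < m, rk (x t * η t) (D.Vb (y t) (ρ t)) + N t ≤ rk (x t) (D.Vb (y t) (ρ t)) :=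
    fun t ht => hN t ▸ (h.par t ht).rk_add_rk (ρ t)
  have h2 : ∀ t, t + 1 < m →
      rk (x (t + 1)) (D.Vb (y (t + 1)) (ρ (t + 1))) ≤ rk (x t * η t) (D.Vb (y t) (ρ t)) := by
    intro t ht
    have ht' : t < m := by omega
    have e1 : D.Vb (y (t + 1)) (ρ (t + 1)) ≤ D.Vb (y t) (ρ t) := by
      refine D.Vb_near ((h.near _ ht).symm.trans (h.near _ ht')) ?_
      have := hle _ ht.le
      rw [hρ, hρ]
      rw [mul_add, mul_one] at this ⊢
      omega
    have e2 : D.Vb (y t) (ρ t) ≤ D.Vb D.o R := by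
      refine D.Vb_near (h.near _ ht').symm ?_
      rw [hρ]
      omega
    exact (rk_mono _ e1).trans ((h.par t ht').rk_le_rk (h.pa t _ (Nat.lt_succ_self t) ht) _
      (fun v hv => h.p2 t _ (Nat.lt_succ_self t) ht v (e2 hv))
      (fun v hv => h.p0 t _ (Nat.lt_succ_self t) ht v (e2 hv))
      (fun v hv => h.q t ht v (e2 hv)))
  have h3 : ∀ t < m, ∑ s ∈ Finset.range t, N s + rk (x t) (D.Vb (y t) (ρ t)) ≤
      D.c * (r₀ + 1) := by
    intro t
    induction t with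
    | zero =>
      intro _
      rw [Finset.sum_range_zero, zero_add, hρ, mul_zero, Nat.sub_zero]
      exact (rk_le _ _).trans (D.rank_le _ _)
    | succ t ih =>
      intro ht
      have a1 := ih (by omega)
      have a2 := h1 t (by omega)
      have a3 := h2 t ht
      rw [Finset.sum_range_succ]
      omega
  have h4 : ∑ s ∈ Finset.range m, N s ≤ D.c * (r₀ + 1) := by
    rcases m with _ | m
    · simp
    · have a1 := h3 m (Nat.lt_succ_self m)
      have a2 := h1 m (Nat.lt_succ_self m)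
      rw [Finset.sum_range_succ]
      omega
  refine le_trans ?_ ((Finset.sum_le_sum_of_subset (Finset.filter_subset
    (fun t => ν < rk (x t - x t * η t * x t) (D.Vb (y t) a)) _)).trans h4)
  rw [← smul_eq_mul]
  refine Finset.card_nsmul_le_sum _ _ _ fun t ht => ?_
  obtain ⟨a1, a2⟩ := Finset.mem_filter.1 ht
  have := hle t (Finset.mem_range.1 a1).le
  rw [hN]
  exact a2.trans_le (rk_mono _ (D.Vb_mono _ (by rw [hρ]; omega)))

theorem Chain.mono (h : D.Chain σ R m y x η) {σ' : ℕ} (hσ : σ ≤ σ') : D.Chain σ' R m y x η :=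
  { h with near := fun t ht => (h.near t ht).mono hσ }

end LD

end Pool.Agent.Lib.MP_bf45aa_co
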