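import Pool.Agent.Lib.PSV.LPart
import Pool.Agent.Lib.PSV.LPei0

set_option autoImplicit false
set_option linter.unusedSectionVars false

/-! Existence of thick partners for all odd primes. -/

namespace Pool.Agent.Lib.MP_bf45aa_co

open Subgroup Module Polynomial

theorem NPart_ring {A : Type*} [Ring A] {x y t a N : A} (hx : x * x = 0) (hy : y * y = 0)
    (ht : t = tau x y) (htt : t * t = -t) (ha : a = 1 + t - t * x - t * y)
    (hN : N = (1 + t) * (x + x + y)) :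
    (1 + x) * (1 + y) * (1 + x) = a + N ∧ a * N = N ∧ N * a = N ∧ N * N = 0 ∧
      a * a * (a * a) = 1 ∧ (1 - a * a) * (x - a) = t * y + t * y := by
  have c1 : x * t = t * x := by rw [ht]; exact (tau_comm_left hx).eq.symm
  have c2 : y * t = t * y := by rw [ht]; exact (tau_comm_right hy).eq.symm
  have c3 : y * x = t - x * y := by rw [ht, tau, add_sub_cancel_left]
  have d1 : ∀ z, x * (t * z) = t * (x * z) := fun z => by rw [← mul_assoc, c1, mul_assoc]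
  have d2 : ∀ z, y * (t * z) = t * (y * z) := fun z => by rw [← mul_assoc, c2, mul_assoc]
  have d4 : ∀ z, x * (x * z) = 0 := fun z => by rw [← mul_assoc, hx, zero_mul]
  have d6 : ∀ z, t * (t * z) = -(t * z) := fun z => by rw [← mul_assoc, htt, neg_mul]
  have e : a * a = 1 + t + t := by
    rw [ha]
    simp only [mul_add, add_mul, mul_sub, sub_mul, mul_assoc, mul_neg, mul_one, one_mul, mul_zero,
      c1, c2, c3, d1, d2, d6, hx, hy, htt]
    abel
  rw [e]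
  subst ha hN
  clear ht e
  refine ⟨?_, ?_, ?_, ?_, ?_, ?_⟩ <;>
  · simp only [mul_add, add_mul, mul_sub, sub_mul, mul_assoc, mul_neg, mul_one, one_mul, mul_zero,
      c1, c2, c3, d1, d2, d4, d6, hx, hy, htt]
    abel

theorem NPart_pow {A : Type*} [Ring A] {a N : A} (h1 : a * N = N) (h2 : N * a = N)
    (h3 : N * N = 0) (k : ℕ) : a ^ k * N = N ∧ (a + N) ^ k = a ^ k + (k : A) * N := by
  induction k with
  | zero => simp
  | succ k ih =>
    refine ⟨by rw [pow_succ, mul_assoc, h1, ih.1], ?_⟩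
    rw [pow_succ, ih.2, add_mul, mul_add, mul_add, mul_assoc, mul_assoc, h2, h3, ih.1, ← pow_succ,
      Nat.cast_succ, add_mul, one_mul, mul_zero]
    abel

theorem NPart_two {p : ℕ} [Fact p.Prime] (hp : p ≠ 2) : (2 : ZMod p) ≠ 0 := fun h =>
  hp ((Nat.prime_dvd_prime_iff_eq Fact.out Nat.prime_two).1
    ((ZMod.natCast_eq_zero_iff 2 p).1 (by exact_mod_cast h)))

theorem NPart_smul {F V : Type*} [Field F] [AddCommGroup V] [Module F V] {M : Submodule F V}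
    {a : End F M} {b : End F V} (h : LPart1_R M a b) (c : F) : LPart1_R M (c • a) (c • b) :=
  fun v => by rw [LinearMap.smul_apply, LinearMap.smul_apply, Submodule.coe_smul, h]

/-- Put `x = ρ u - 1`, `y = ρ u' - 1`, `t = tau x y` (it commutes with `x`, `y`; `x y x = t x`,
`y x y = t y`), `a = 1 + t - t x - t y`, `N = (1 + t) (2 x + y)`. Then `ρ (u u' u) = a + N`,
`a N = N a = N`, `N N = 0`, `a a = 1 + 2 t`, `a ^ 4 = 1`. So `(a + N) ^ k = a ^ k + k N`, and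
`p ^ 2 % 4 = 1`, `(p : A) = 0`. -/
theorem quad_weyl {p : ℕ} [Fact p.Prime] {G A : Type*} [Group G] [Ring A] [Algebra (ZMod p) A]
    (hp : p ≠ 2) (ρ : G →* A) {u u' : G} (hu : (ρ u - 1) * (ρ u - 1) = 0)
    (hu' : (ρ u' - 1) * (ρ u' - 1) = 0)
    (h : tau (ρ u - 1) (ρ u' - 1) * tau (ρ u - 1) (ρ u' - 1) = -tau (ρ u - 1) (ρ u' - 1)) :
    ρ ((u * u' * u) ^ p ^ 2) = 1 + tau (ρ u - 1) (ρ u' - 1) -
      tau (ρ u - 1) (ρ u' - 1) * (ρ u - 1) - tau (ρ u - 1) (ρ u' - 1) * (ρ u' - 1) := by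
  obtain ⟨e1, e2, e3, e4, e5, -⟩ := NPart_ring hu hu' rfl h rfl rfl
  obtain ⟨k, hk⟩ := (Fact.out : p.Prime).odd_of_ne_two hp
  have h0 : (p : A) = 0 := by
    rw [← map_natCast (algebraMap (ZMod p) A), ZMod.natCast_self, map_zero]
  rw [add_sub_cancel, add_sub_cancel] at e1
  rw [map_pow, map_mul, map_mul, e1, (NPart_pow e2 e3 e4 _).2, Nat.cast_pow, h0,
    zero_pow two_ne_zero, zero_mul, add_zero, show p ^ 2 = 2 * 2 * (k * k + k) + 1 by rw [hk]; ring,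
    pow_succ, pow_mul, pow_mul, sq, sq, e5, one_pow, one_mul]

namespace LD

variable {p : ℕ} [Fact p.Prime] {H X V : Type} [Group H] [MulAction H X] [AddCommGroup V]
  [Module (ZMod p) V] (D : LD p H X V)

/-- The partner in terms of the Weyl element. -/
noncomputable def eta (x : End (ZMod p) V) (w : H) : End (ZMod p) V :=
  (2 : ZMod p)⁻¹ • ((1 - D.ρ w * D.ρ w) * (x - D.ρ w))

/-- As `partner_fin` (file `LPart1`), with `quad_weyl` in place of `quad_realise`. On `M = Vb y r`: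
`ρ w = 1 + τ - τ x - τ y₀`, `1 - ρ w ρ w = - 2 τ`, so `eta x w = τ y₀` (use `LPart1_R`; add a lemma
for scalar multiples), and `LPart1_ring` gives the identities. If `j = 0` take `w = 1`. -/
theorem partner_fin3 (hp : p ≠ 2) {y : X} {x : End (ZMod p) V} (h : D.Bd y x) (hx : x * x = 0)
    (j r : ℕ) (hr : 2 * j ≤ r) :
    ∃ w ∈ St H y, (∀ v ∈ D.Vb y r, (D.eta x w * D.eta x w) v = 0 ∧
        (D.eta x w * x * D.eta x w) v = D.eta x w v ∧
        D.ρ w v = (1 - x * D.eta x w - D.eta x w * x + x * D.eta x w * x - D.eta x w) v) ∧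
      j ≤ 2 * D.β * rk (x * D.eta x w) (D.Vb y (2 * j)) := by
  obtain ⟨u, y', hadj, h1, h2, h3, hρ⟩ := h
  have hxu : D.ρ u - 1 = x := by rw [hρ, add_sub_cancel_left]
  have hu : (D.ρ u - 1) * (D.ρ u - 1) = 0 := by rw [hxu, hx]
  have hu1 : u ∈ St H y := mem_St.2 h1
  rcases Nat.eq_zero_or_pos j with rfl | hj
  · exact ⟨1, one_mem _, fun v _ => by simp [eta], Nat.zero_le _⟩
  obtain ⟨b, hb, hn, I, hI, hI'⟩ := D.LPart1_pigeon hp hadj h1 h2 h3 hu hj hr
  obtain ⟨g, hg, e1, e2⟩ := D.LPart1_newton hu1 hb hu hn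
  have hu2 : g * u * g⁻¹ ∈ St H y := mul_mem (mul_mem hg hu1) (inv_mem hg)
  have Rx := (D.LPart1_res_R y r ⟨u, hu1⟩).sub LPart1_R.one
  have Ry := (D.LPart1_res_R y r ⟨g * u * g⁻¹, hu2⟩).sub LPart1_R.one
  have Rt : LPart1_R _ _ (D.tg u g) := Rx.tau Ry
  have q1 := ((Rx.mul Rx).eq_iff LPart1_R.zero).2 fun v _ => congrArg (fun a => a v) hu
  have q2 := ((Ry.mul Ry).eq_iff LPart1_R.zero).2 fun v _ =>
    congrArg (fun a => a v) (conj_sq D.ρ hu g)
  have q3 := ((Rt.mul Rt).eq_iff Rt.neg).2 e1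
  have f1 := quad_weyl hp (D.LPart1_res y r) q1 q2 q3
  obtain ⟨r1, r2, r3, r4⟩ := LPart1_ring q1 q2 q3
  have r5 := (NPart_ring q1 q2 rfl q3 rfl rfl).2.2.2.2.2
  generalize ((⟨u, hu1⟩ : St H y) * ⟨g * u * g⁻¹, hu2⟩ * ⟨u, hu1⟩) ^ p ^ 2 = w at f1
  have R2 := D.LPart1_res_R y r w
  rw [f1] at R2
  have Rx' : LPart1_R _ _ x := hxu ▸ Rx
  have Rη : LPart1_R _ _ (D.eta x w) :=
    NPart_smul ((LPart1_R.one.sub (R2.mul R2)).mul (Rx'.sub R2)) (2 : ZMod p)⁻¹
  rw [r5, ← two_smul (ZMod p), smul_smul, inv_mul_cancel₀ (NPart_two hp), one_smul] at Rη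
  have s1 := ((Rη.mul Rη).eq_iff LPart1_R.zero).1 r1
  have s2 := (((Rη.mul Rx').mul Rη).eq_iff Rη).1 r2
  have s3 := (R2.eq_iff ((((LPart1_R.one.sub (Rx'.mul Rη)).sub (Rη.mul Rx')).add
    ((Rx'.mul Rη).mul Rx')).sub Rη)).1 (by linear_combination (norm := abel1) r3 + r4)
  have s4 := (Rt.eq_iff ((Rx'.mul Rη).add (Rη.mul Rx')).neg).1 r4
  refine ⟨w, w.2, fun v hv => ⟨s1 v hv, s2 v hv, s3 v hv⟩, ?_⟩
  have hxP : x ∈ D.PA y := D.mem_PA_of_real hu1 hρ
  have hle : D.Vb y (2 * j) ≤ D.Vb y r := D.Vb_mono y hr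
  have k1 : I.card ≤ rk (D.tg u g) (D.Vb y (2 * j)) :=
    card_le_finrank (A := (D.Vb y (2 * j)).map (D.tg u g)) (fun i => D.Vb y (2 * i))
      (fun _ _ hi => D.Vb_mono y (by omega)) I fun i hi => by
        obtain ⟨hi1, hi2⟩ := hI' i hi
        obtain ⟨v, hv, h4⟩ := e2 _ _ (by omega) hi2
        exact ⟨_, ⟨v, D.Vb_mono y (by omega) hv, rfl⟩, D.LPart1_tg_mem hu1 hg _ v hv, h4⟩
  have k2 : rk (D.tg u g) (D.Vb y (2 * j)) ≤ rk (x * D.eta x w) (D.Vb y (2 * j)) +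
      rk (D.eta x w * x) (D.Vb y (2 * j)) := by
    rw [rk_congr fun v hv => s4 v (hle hv), rk_neg]
    exact rk_add_le _ _ _
  have k3 : rk (D.eta x w * x) (D.Vb y (2 * j)) ≤ rk (D.eta x w) (D.Vb y (2 * j)) :=
    rk_mul_le_left _ (hxP (2 * j))
  have k4 : rk (D.eta x w) (D.Vb y (2 * j)) ≤ rk (x * D.eta x w) (D.Vb y (2 * j)) := by
    rw [← rk_congr fun v hv => s2 v (hle hv), mul_assoc]
    exact rk_mul_le_right _ _ _
  calc j ≤ D.β * I.card := hI
    _ ≤ D.β * (2 * rk (x * D.eta x w) (D.Vb y (2 * j))) :=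
        Nat.mul_le_mul_left _ (by omega)
    _ = _ := by ring

/-- For `p ≥ 5`: `exists_partner5` and `Partner5.partner`. For `p = 3` (`prime_cases`): `compact`
(ignore `b`) as in `exists_partner5`; if `ρ a = ρ a'` on `Vb y r` then `eta x a = eta x a'` there. -/
theorem exists_partner (hp : p ≠ 2) {y : X} {x : End (ZMod p) V} (h : D.Bd y x) (hx : x * x = 0)
    (j : ℕ) : ∃ η, D.Partner y x η ∧ j ≤ 2 * D.β * rk (x * η) (D.Vb y (2 * j)) := by
  rcases prime_cases Fact.out hp with h3 | h5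
  swap
  · obtain ⟨η, h1, h2⟩ := D.exists_partner5 h5 h hx j
    exact ⟨η, h1.partner h5, h2⟩
  obtain ⟨u, y', -, hu, -, -, hux⟩ := id h
  have hxP : x ∈ D.PA y := D.mem_PA_of_real (mem_St.2 hu) hux
  obtain ⟨a, ha, -, -, hP⟩ := D.compact y (fun r a _ =>
      (∀ v ∈ D.Vb y r, (D.eta x a * D.eta x a) v = 0 ∧
        (D.eta x a * x * D.eta x a) v = D.eta x a v ∧
        D.ρ a v = (1 - x * D.eta x a - D.eta x a * x + x * D.eta x a * x - D.eta x a) v) ∧
      (2 * j ≤ r → j ≤ 2 * D.β * rk (x * D.eta x a) (D.Vb y (2 * j))))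
    (fun r => by
      obtain ⟨a, ha, h1, h2⟩ := D.partner_fin3 hp h hx j (max r (2 * j)) (le_max_right _ _)
      exact ⟨a, ha, a, ha, fun v hv => h1 v (D.Vb_mono y (le_max_left _ _) hv), fun _ => h2⟩)
    (fun r r' a b hr h1 => ⟨fun v hv => h1.1 v (D.Vb_mono y hr hv), fun h2 => h1.2 (h2.trans hr)⟩)
    (fun r a b a' b' ha _ _ _ he h1 => by
      have m0 := D.ρ_mem_PA ha
      have e1 : ∀ v ∈ D.Vb y r, D.eta x a' v = D.eta x a v := fun v hv => by
        have m2 := sub_mem (hxP r v hv) (m0 r v hv)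
        simp only [eta, LinearMap.smul_apply, End.mul_apply, LinearMap.sub_apply, End.one_apply]
        rw [← (he v hv).1, ← (he _ m2).1, ← (he _ (m0 r _ m2)).1]
      have m1 : ∀ v ∈ D.Vb y r, D.eta x a v ∈ D.Vb y r :=
        Subalgebra.smul_mem _ (mul_mem (sub_mem (one_mem (D.PA y)) (mul_mem m0 m0))
          (sub_mem hxP m0)) _ r
      refine ⟨fun v hv => ?_, fun h2 => ?_⟩
      · obtain ⟨k1, k2, k3⟩ := h1.1 v hv
        simp only [End.mul_apply, LinearMap.add_apply, LinearMap.sub_apply] at k1 k2 k3 ⊢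
        refine ⟨?_, ?_, ?_⟩
        · rw [e1 v hv, e1 _ (m1 v hv), k1]
        · rw [e1 v hv, e1 _ (hxP r _ (m1 v hv)), k2]
        · rw [e1 v hv, e1 _ (hxP r v hv), ← (he v hv).1, k3]
      · rw [rk_congr (b := x * D.eta x a) fun v hv => by
          rw [End.mul_apply, End.mul_apply, e1 v (D.Vb_mono y h2 hv)]]
        exact h1.2 h2)
  exact ⟨D.eta x a, ⟨hx, D.ext_Vb y fun k v hv => ((hP k).1 v hv).1,
    D.ext_Vb y fun k v hv => ((hP k).1 v hv).2.1, ⟨u, mem_St.2 hu, hux⟩,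
    ⟨a, ha, D.ext_Vb y fun k v hv => ((hP k).1 v hv).2.2⟩, Or.inl h3, NPart_two hp⟩,
    (hP (2 * j)).2 le_rfl⟩

end LD

end Pool.Agent.Lib.MP_bf45aa_co
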