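import Pool.Agent.Lib.PSV.NP0
import Pool.Agent.Lib.PSV.NPart

set_option autoImplicit false
set_option linter.unusedSectionVars false

/-! Chains of partners. -/

namespace Pool.Agent.Lib.MP_bf45aa_co

open Subgroup Module

theorem LChain0_cover {F M T : Type*} [Field F] [Finite F] [AddCommGroup M] [Module F M]
    {B₁ B₂ : Submodule F M} [Module.Finite F B₁] (hle : B₂ ≤ B₁) (t : Finset T) (s : B₁ → T)
    (hs : ∀ a, s a ∈ t) (h : ∀ a a', s a = s a' → (a : M) - a' ∈ B₂) :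
    finrank F B₁ ≤ finrank F B₂ + t.card := by
  have e1 := Submodule.finrank_quotient_add_finrank (B₂.comap B₁.subtype)
  rw [(Submodule.comapSubtypeEquivOfLe hle).finrank_eq] at e1
  have e2 : Nat.card (B₁ ⧸ B₂.comap B₁.subtype) ≤ Nat.card t := by
    refine Nat.card_le_card_of_injective (fun q => ⟨s q.out, hs _⟩) fun q q' e => ?_
    rw [← q.out_eq, ← q'.out_eq]
    exact (Submodule.Quotient.eq _).2 (h _ _ (congrArg Subtype.val e))
  rw [Module.natCard_eq_pow_finrank (K := F), Nat.card_eq_finsetCard] at e2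
  have e3 := Nat.lt_pow_self (n := finrank F (B₁ ⧸ B₂.comap B₁.subtype))
    (Finite.one_lt_card (α := F))
  omega

namespace LD

variable {p : ℕ} [Fact p.Prime] {H X V : Type} [Group H] [MulAction H X] [AddCommGroup V]
  [Module (ZMod p) V] {D : LD p H X V}

variable (D) in
/-- A chain in Peirce-1 position. -/
structure Chain (σ R m : ℕ) (y : ℕ → X) (x η : ℕ → End (ZMod p) V) : Prop where
  near : ∀ t < m, Near D.Γ σ D.o (y t)
  par : ∀ t < m, D.Partner (y t) (x t) (η t)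
  bd : ∀ t < m, D.Bd (y t) (x t)
  pa : ∀ t t', t < t' → t' < m → x t' ∈ D.PA (y t)
  p2 : ∀ t t', t < t' → t' < m → ∀ v ∈ D.Vb D.o R, (x t * η t * x t' * (η t * x t)) v = 0
  p0 : ∀ t t', t < t' → t' < m → ∀ v ∈ D.Vb D.o R,
    ((1 - x t * η t) * x t' * (1 - η t * x t)) v = 0
  q : ∀ t, t + 1 < m → ∀ v ∈ D.Vb D.o R,
    ((1 - x t * η t) * (x (t + 1) * η t * x (t + 1)) * (1 - η t * x t)) v = 0

variable {σ n : ℕ} {w : X} {Z C : Submodule (ZMod p) V} {B : Submodule (ZMod p) (End (ZMod p) V)}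

/-- Let `A` be the group of all `g ∈ D.Q w` with `ρ g - 1 ∈ B₁` (`Fr.mul`, `ρ_inv`). A non-zero
`a ∈ B₁` is non-zero on `Vb o σ ≤ Vb w (2 σ)`, so by `cent` `A` is not contained in
`Kn (2 σ + 3) w`. Let `k + 1` be largest with `A ≤ Kn (k + 1) w` (`Q_le`), `k + 1 ≤ 2 σ + 2`; some
`g₀ ∈ A` moves a neighbour of a vertex `y` with `Near k w y'`, `Adj y' y` (as in `boundary`).
`A ≤ Q y'` by induction along the walk (`Q_adj`, `Kn_near`), so `A ⊓ Kn 1 y ≤ Q y`. Put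
`B₂ = B₁ ⊓ D.RL y h.le`. If `ρ g₀ = ρ g'` with `g' ∈ Q y` then `g'⁻¹ g₀ ∈ Kn 1 y` by `deep`, false; so
`B₂ < B₁`. By `Q_idx`, `B₁` is covered by `β` cosets of `B₂`, so
`p ^ finrank B₁ ≤ β * p ^ finrank B₂` and `β < p ^ β`. -/
theorem Fam.greedy (h : D.Fam σ n w Z C B) {B₁ : Submodule (ZMod p) (End (ZMod p) V)}
    (h1 : B₁ ≤ B) (h2 : B₁ ≠ ⊥) :
    ∃ y B₂, Near D.Γ (3 * σ + 2) D.o y ∧ B₂ < B₁ ∧
      finrank (ZMod p) B₁ ≤ finrank (ZMod p) B₂ + D.β ∧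
      (∀ a ∈ B₂, ∃ g ∈ D.Q y, D.ρ g = 1 + a) ∧ ∀ a ∈ B₁, a ∉ B₂ → D.Bd y a := by
  classical
  have := h.fin
  have : Module.Finite (ZMod p) B₁ := Submodule.finiteDimensional_of_le h1
  obtain ⟨A, hA⟩ : ∃ A : H → Prop, ∀ g, A g ↔ g ∈ D.Q w ∧ ∃ a ∈ B₁, D.ρ g = 1 + a :=
    ⟨_, fun _ => Iff.rfl⟩
  have real : ∀ a ∈ B₁, ∃ g, A g ∧ D.ρ g = 1 + a := fun a ha =>
    let ⟨g, g1, g2⟩ := h.real a (h1 ha)
    ⟨g, (hA g).2 ⟨g1, a, ha, g2⟩, g2⟩
  have mul0 : ∀ a ∈ B₁, ∀ b ∈ B₁, a * b = 0 := fun a ha b hb =>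
    Fr.mul h.le (h.fr a (h1 ha)) (h.fr b (h1 hb))
  have quo : ∀ a ∈ B₁, ∀ b ∈ B₁, ∀ g g' : H, D.ρ g = 1 + a → D.ρ g' = 1 + b →
      D.ρ (g'⁻¹ * g) = 1 + (a - b) := by
    intro a ha b hb g g' e e'
    rw [map_mul, ρ_inv e' (mul0 b hb b hb), e, sub_mul, one_mul, mul_add, mul_one, mul0 b hb a ha]
    abel
  have ex : ∃ j, ¬ ∀ g, A g → g ∈ Kn H D.Γ j w := by
    refine ⟨2 * σ + 3, fun hc => h2 ?_⟩
    refine (Submodule.eq_bot_iff _).2 fun a ha => h.faith a (h1 ha) fun v hv => ?_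
    obtain ⟨g, g1, g2⟩ := real a ha
    have e := D.cent w (2 * σ) g (hc g g1) v (D.Vb_near h.near (by omega) hv)
    rw [g2, LinearMap.add_apply, End.one_apply] at e
    exact add_eq_left.1 e
  have j1 : Nat.find ex ≤ 2 * σ + 3 := by
    refine Nat.find_le fun hc => h2 ?_
    refine (Submodule.eq_bot_iff _).2 fun a ha => h.faith a (h1 ha) fun v hv => ?_
    obtain ⟨g, g1, g2⟩ := real a ha
    have e := D.cent w (2 * σ) g (hc g g1) v (D.Vb_near h.near (by omega) hv)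
    rw [g2, LinearMap.add_apply, End.one_apply] at e
    exact add_eq_left.1 e
  have j2 : 2 ≤ Nat.find ex := by
    by_contra hc
    exact Nat.find_spec ex fun g hg => Kn_anti (by omega) w (D.Q_le w ((hA g).1 hg).1)
  obtain ⟨k, hk⟩ : ∃ k, Nat.find ex = k + 2 := ⟨Nat.find ex - 2, by omega⟩
  have k1 : ∀ g, A g → g ∈ Kn H D.Γ (k + 1) w := by
    by_contra hc
    exact Nat.find_min ex (m := k + 1) (by omega) hc
  have k2 := Nat.find_spec ex
  rw [hk] at k2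
  push Not at k2
  obtain ⟨g₀, g1, g2⟩ := k2
  rw [mem_Kn_iff] at g2
  push Not at g2
  obtain ⟨z, z1, z2⟩ := g2
  have fix : ∀ g, A g → ∀ x, Near D.Γ (k + 1) w x → g • x = x := fun g hg =>
    mem_Kn_iff.1 (k1 g hg)
  rcases near_succ' z1 with rfl | ⟨y, y1, y2⟩
  · exact absurd (fix g₀ g1 _ (Near.refl _ _)) z2
  rcases near_succ' y1 with rfl | ⟨y', y3, y4⟩
  · exact absurd (fix g₀ g1 _ ((Near.of_adj y2).mono (by omega))) z2
  have inQ : ∀ g, A g → ∀ m x, Near D.Γ m w x → m ≤ k → g ∈ D.Q x := by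
    intro g hg m
    induction m with
    | zero =>
      intro x hx _
      rw [← near_zero hx]
      exact ((hA g).1 hg).1
    | succ m ih =>
      intro x hx hm
      rcases near_succ' hx with rfl | ⟨u, u1, u2⟩
      · exact ((hA g).1 hg).1
      · exact D.Q_adj u2 g (ih u u1 (by omega)) (Kn_near hx (Kn_anti (by omega) w (k1 g hg)))
  have fy' : ∀ g, A g → g • y' = y' := fun g hg => fix g hg y' (y3.mono (by omega))
  refine ⟨y, B₁ ⊓ D.RL y h.le, (h.near.trans y1).mono (by omega), ?_, ?_,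
    fun a ha => (mem_RL.1 ha.2).2, fun a ha hn => ?_⟩
  · obtain ⟨-, a, ha, e⟩ := (hA g₀).1 g1
    refine lt_of_le_of_ne inf_le_left fun hc => z2 ?_
    obtain ⟨g', q1, q2⟩ := (mem_RL.1 (hc.ge ha).2).2
    have q3 := mem_K1.1 (D.Q_le y q1)
    have q4 : g'⁻¹ * g₀ ∈ Kn H D.Γ (0 + 1) y := by
      refine D.deep y4.symm ?_ ?_ fun v _ => ?_
      · rw [mul_smul, fix g₀ g1 y y1, inv_smul_eq_iff, q3.1]
      · rw [mul_smul, fy' g₀ g1, inv_smul_eq_iff, q3.2 y' y4.symm]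
      · rw [quo a ha a ha g₀ g' e q2, sub_self, add_zero, End.one_apply]
    have q5 := (mem_K1.1 q4).2 z y2
    rwa [mul_smul, inv_smul_eq_iff, q3.2 z y2] at q5
  · obtain ⟨t, t1, -, t3⟩ := D.Q_idx y
    choose g g3 g4 using fun a : B₁ => real a a.2
    choose s s1 s2 using fun a : B₁ => t3 (g a) (mem_St.2 (fix _ (g3 a) y y1))
    refine (LChain0_cover inf_le_left t s s1 fun a a' e => ?_).trans (Nat.add_le_add_left t1 _)
    have hm := sub_mem a.2 a'.2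
    refine ⟨hm, mem_RL.2 ⟨h.fr _ (h1 hm), (g a')⁻¹ * g a, ?_, quo _ a.2 _ a'.2 _ _ (g4 a) (g4 a')⟩⟩
    have := mul_mem (inv_mem (s2 a')) (s2 a)
    rwa [e, mul_inv_rev, inv_inv, mul_assoc, mul_inv_cancel_left] at this
  · obtain ⟨g, q1, q2⟩ := real a ha
    refine ⟨g, y', y4.symm, fix g q1 y y1, fy' g q1, fun hc => hn ⟨ha, ?_⟩, q2⟩
    exact mem_RL.2 ⟨h.fr a (h1 ha), g, D.Q_adj y4 g (inQ g q1 k y' y3 le_rfl) hc, q2⟩

/-- Iterate `greedy` `2 k + 1` times: `B₁ = A 0 > A 1 > ... > A (2 k + 1)`. Take a complement `K`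
of `A (2 k + 1)` in `B₁`; `2 k + 1 ≤ finrank K`, and `exists_isotropic` on `K` with values in `S`
gives `x ≠ 0`. Let `i` be least with `x ∉ A (i + 1)`; take the vertex of that step and
`B₂ = A (i + 1)`. -/
theorem Fam.select (h : D.Fam σ n w Z C B) {B₁ : Submodule (ZMod p) (End (ZMod p) V)}
    (h1 : B₁ ≤ B) {E : Type} [AddCommGroup E] [Module (ZMod p) E]
    (q : End (ZMod p) V →ₗ[ZMod p] End (ZMod p) V →ₗ[ZMod p] E) (S : Submodule (ZMod p) E)
    [Module.Finite (ZMod p) S] {k : ℕ} (hS : finrank (ZMod p) S ≤ k)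
    (hq : ∀ a ∈ B₁, ∀ b ∈ B₁, q a b ∈ S) (hk : D.β * (2 * k + 1) < finrank (ZMod p) B₁) :
    ∃ y, ∃ x ∈ B₁, ∃ B₂ ≤ B₁, Near D.Γ (3 * σ + 2) D.o y ∧ x ≠ 0 ∧ q x x = 0 ∧ D.Bd y x ∧
      finrank (ZMod p) B₁ ≤ finrank (ZMod p) B₂ + D.β * (2 * k + 1) ∧
      ∀ a ∈ B₂, ∃ g ∈ D.Q y, D.ρ g = 1 + a := by
  classical
  have := h.fin
  have : Module.Finite (ZMod p) B₁ := Submodule.finiteDimensional_of_le h1
  have : Nonempty X := ⟨D.o⟩
  choose! Y N g1 g2 g3 g4 g5 using fun B₁ h1 h2 => h.greedy (B₁ := B₁) h1 h2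
  have key : ∀ i ≤ 2 * k + 1, N^[i] B₁ ≤ B₁ ∧
      finrank (ZMod p) B₁ ≤ finrank (ZMod p) (N^[i] B₁) + D.β * i ∧
      finrank (ZMod p) (N^[i] B₁) + i ≤ finrank (ZMod p) B₁ ∧ N^[i] B₁ ≠ ⊥ := by
    have ne : ∀ i ≤ 2 * k + 1, finrank (ZMod p) B₁ ≤ finrank (ZMod p) (N^[i] B₁) + D.β * i →
        N^[i] B₁ ≠ ⊥ := by
      intro i hi e hc
      rw [hc, finrank_bot] at e
      have := Nat.mul_le_mul_left D.β hi
      omega
    intro i
    induction i with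
    | zero => exact fun hi => ⟨le_rfl, le_rfl, le_rfl, ne 0 hi le_rfl⟩
    | succ i ih =>
      intro hi
      obtain ⟨e1, e2, e3, e4⟩ := ih (by omega)
      have : Module.Finite (ZMod p) (N^[i] B₁) := Submodule.finiteDimensional_of_le e1
      have e5 := g2 _ (e1.trans h1) e4
      have e6 := g3 _ (e1.trans h1) e4
      have e7 := Submodule.finrank_lt_finrank_of_lt e5
      rw [← Function.iterate_succ_apply' N] at e5 e6 e7
      have e8 : finrank (ZMod p) B₁ ≤ finrank (ZMod p) (N^[i + 1] B₁) + D.β * (i + 1) := by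
        rw [mul_add, mul_one]
        exact e2.trans (by simp only [Nat.succ_eq_add_one] at e6; omega)
      exact ⟨e5.le.trans e1, e8, by simp only [Nat.succ_eq_add_one] at e7; omega, ne _ hi e8⟩
  obtain ⟨e1, -, e3, -⟩ := key _ le_rfl
  obtain ⟨K, d1, d2⟩ := IsModularLattice.exists_disjoint_and_sup_eq e1
  have hK : K ≤ B₁ := d2 ▸ le_sup_right
  have : Module.Finite (ZMod p) K := Submodule.finiteDimensional_of_le hK
  have : Module.Finite (ZMod p) (N^[2 * k + 1] B₁) := Submodule.finiteDimensional_of_le e1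
  have e4 := Submodule.finrank_add_le_finrank_add_finrank (N^[2 * k + 1] B₁) K
  rw [d2] at e4
  obtain ⟨x, x1, x2⟩ := exists_isotropic (p := p) (M := K) (E := S)
    (LinearMap.mk₂ (ZMod p) (fun a b => ⟨q a b, hq _ (hK a.2) _ (hK b.2)⟩)
      (fun _ _ _ => Subtype.ext (by simp)) (fun _ _ _ => Subtype.ext (by simp))
      (fun _ _ _ => Subtype.ext (by simp)) fun _ _ _ => Subtype.ext (by simp)) (by omega)
  have x3 : (x : End (ZMod p) V) ≠ 0 := fun e => x1 (Subtype.ext e)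
  have ex : ∃ i, (x : End (ZMod p) V) ∉ N^[i + 1] B₁ :=
    ⟨2 * k, fun hc => x3 (Submodule.disjoint_def.1 d1 _ hc x.2)⟩
  have i1 : Nat.find ex ≤ 2 * k :=
    Nat.find_le fun hc => x3 (Submodule.disjoint_def.1 d1 _ hc x.2)
  have i2 := Nat.find_spec ex
  have i3 : (x : End (ZMod p) V) ∈ N^[Nat.find ex] B₁ := by
    rcases Nat.eq_zero_or_pos (Nat.find ex) with e | e
    · rw [e]
      exact hK x.2
    · have := Nat.find_min ex (m := Nat.find ex - 1) (by omega)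
      rwa [not_not, Nat.sub_add_cancel e] at this
  obtain ⟨f1, -, -, f4⟩ := key (Nat.find ex) (by omega)
  obtain ⟨f5, f6, -, -⟩ := key (Nat.find ex + 1) (by omega)
  rw [Function.iterate_succ_apply'] at i2 f5 f6
  refine ⟨Y (N^[Nat.find ex] B₁), x, hK x.2, _, f5, g1 _ (f1.trans h1) f4, x3,
    congrArg Subtype.val x2, g5 _ (f1.trans h1) f4 _ i3 i2, f6.trans ?_, g4 _ (f1.trans h1) f4⟩
  exact Nat.add_le_add_left (Nat.mul_le_mul_left _ (by omega)) _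

end LD

end Pool.Agent.Lib.MP_bf45aa_co
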