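import Pool.Agent.Lib.PSV.LChain0

set_option autoImplicit false
set_option linter.unusedSectionVars false

/-! The dichotomy. -/

namespace Pool.Agent.Lib.MP_bf45aa_co

open Subgroup Module

namespace LD

variable {p : ℕ} [Fact p.Prime] {H X V : Type} [Group H] [MulAction H X] [AddCommGroup V]
  [Module (ZMod p) V] {D : LD p H X V}

variable {σ n : ℕ} {w : X} {Z C : Submodule (ZMod p) V} {B : Submodule (ZMod p) (End (ZMod p) V)}

theorem LChain1_ext {α : Type*} (f : ℕ → α) (t : ℕ) (a : α) :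
    ∃ g : ℕ → α, (∀ i < t, g i = f i) ∧ g t = a :=
  ⟨Function.update f t a, fun _ hi => Function.update_of_ne hi.ne _ _, Function.update_self _ _ _⟩

theorem LChain1_two (hp : p ≠ 2) : (2 : ZMod p) ≠ 0 := by
  intro h
  have h1 : ((2 : ℕ) : ZMod p) = 0 := by exact_mod_cast h
  exact hp ((Nat.prime_dvd_prime_iff_eq Fact.out Nat.prime_two).1
    ((ZMod.natCast_eq_zero_iff 2 p).1 h1))

variable (D) in
/-- Restriction to a ball space. -/
def LChain1_r (R : ℕ) : End (ZMod p) V →ₗ[ZMod p] (D.Vb D.o R →ₗ[ZMod p] V) where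
  toFun a := a ∘ₗ (D.Vb D.o R).subtype
  map_add' _ _ := rfl
  map_smul' _ _ := rfl

theorem LChain1_r_eq {R : ℕ} {a : End (ZMod p) V} :
    D.LChain1_r R a = 0 ↔ ∀ v ∈ D.Vb D.o R, a v = 0 :=
  ⟨fun h v hv => LinearMap.congr_fun h ⟨v, hv⟩, fun h => LinearMap.ext fun v => h v.1 v.2⟩

variable (D) in
/-- The elements of `RL` fixed by `a ↦ u a v`. -/
def LChain1_L (y : X) (h : Z ≤ C) (u v : End (ZMod p) V) : Submodule (ZMod p) (End (ZMod p) V) :=
  D.RL y h ⊓ LinearMap.ker (LinearMap.mulLeftRight (ZMod p) (u, v) - LinearMap.id)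

theorem LChain1_mem {y : X} {h : Z ≤ C} {u v a : End (ZMod p) V} :
    a ∈ D.LChain1_L y h u v ↔ a ∈ D.RL y h ∧ u * a * v = a := by
  simp [LChain1_L, sub_eq_zero]

theorem LChain1_fix {u v : End (ZMod p) V} (hu : u * u = u) (hv : v * v = v)
    (a : End (ZMod p) V) : u * (u * a * v) * v = u * a * v := by
  rw [← mul_assoc, ← mul_assoc, hu, mul_assoc, hv]

theorem LChain1_idem {u : End (ZMod p) V} (hu : u * u = u) : (1 - u) * (1 - u) = 1 - u := by
  rw [mul_sub, mul_one, sub_mul, one_mul, hu, sub_self, sub_zero]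

variable (D) in
/-- The bilinear form of a step. -/
def LChain1_q (R : ℕ) (u η v : End (ZMod p) V) :
    End (ZMod p) V →ₗ[ZMod p] End (ZMod p) V →ₗ[ZMod p] (D.Vb D.o R →ₗ[ZMod p] V) :=
  LinearMap.mk₂ (ZMod p) (fun a b => D.LChain1_r R (u * (a * η * b + b * η * a) * v))
    (fun a a' b => by rw [← map_add]; congr 1; noncomm_ring)
    (fun c a b => by
      rw [← map_smul]
      simp only [smul_add, mul_smul_comm, smul_mul_assoc, mul_add, add_mul])
    (fun a b b' => by rw [← map_add]; congr 1; noncomm_ring)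
    (fun c a b => by
      rw [← map_smul]
      simp only [smul_add, mul_smul_comm, smul_mul_assoc, mul_add, add_mul])

theorem LChain1_q_apply (R : ℕ) (u η v a b : End (ZMod p) V) :
    D.LChain1_q R u η v a b = D.LChain1_r R (u * (a * η * b + b * η * a) * v) := rfl

/-- One step of the construction. -/
theorem LChain1_step (hp : p ≠ 2) (h : D.Fam σ n w Z C B) (k R j : ℕ) (hR : 3 * σ + 2 ≤ R)
    (h1 : ¬ ∃ y, ∃ x ∈ B, ∃ η B', Near D.Γ (3 * σ + 2) D.o y ∧ x ≠ 0 ∧ D.Partner y x η ∧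
      j ≤ 2 * D.β * rk (x * η) (D.Vb y (2 * j)) ∧
      (D.Fam R k y (Z.map (1 - x * η)) C B' ∨
        D.Fam R k y (LinearMap.range (x * η)) (LinearMap.ker (η * x)) B'))
    {B₁ : Submodule (ZMod p) (End (ZMod p) V)} (hB : B₁ ≤ B)
    (q : End (ZMod p) V →ₗ[ZMod p] End (ZMod p) V →ₗ[ZMod p] (D.Vb D.o R →ₗ[ZMod p] V))
    (S : Submodule (ZMod p) (D.Vb D.o R →ₗ[ZMod p] V)) [Module.Finite (ZMod p) S]
    (hS : finrank (ZMod p) S ≤ k) (hq : ∀ a ∈ B₁, ∀ b ∈ B₁, q a b ∈ S)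
    (hk : D.β * (2 * k + 1) < finrank (ZMod p) B₁) :
    ∃ y, ∃ x ∈ B₁, ∃ η, ∃ B₃ ≤ B₁, Near D.Γ (3 * σ + 2) D.o y ∧ D.Partner y x η ∧ D.Bd y x ∧
      q x x = 0 ∧ finrank (ZMod p) B₁ ≤ finrank (ZMod p) B₃ + (D.β * (2 * k + 1) + 2 * k + 1) ∧
      (∀ a ∈ B₃, a ∈ D.PA y ∧ (∀ v ∈ D.Vb D.o R, (x * η * a * (η * x)) v = 0) ∧
        ∀ v ∈ D.Vb D.o R, ((1 - x * η) * a * (1 - η * x)) v = 0) ∧
      ∃ S' : Submodule (ZMod p) (D.Vb D.o R →ₗ[ZMod p] V), Module.Finite (ZMod p) S' ∧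
        finrank (ZMod p) S' ≤ k ∧
        ∀ a ∈ B₃, ∀ b ∈ B₃, D.LChain1_q R (1 - x * η) η (1 - η * x) a b ∈ S' := by
  obtain ⟨y, x, hx, B₂, b1, b2, b3, b4, b5, b6, b7⟩ := h.select hB q S hS hq hk
  have fx : Fr Z C x := h.fr x (hB hx)
  obtain ⟨η, P, hj⟩ := D.exists_partner hp b5 (Fr.mul h.le fx fx) j
  have hRL : ∀ a ∈ B₂, a ∈ D.RL y h.le := fun a ha => ⟨h.fr a (hB (b1 ha)), b7 a ha⟩
  have i0 := LChain1_idem P.e_idem
  have i1 := LChain1_idem P.f_idem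
  rcases faithful_or_small (D.LChain1_r R) (D.LChain1_L y h.le (1 - x * η) (1 - η * x)) k with
    ⟨B', c1, c2, c3, c4⟩ | ⟨c1, c2⟩
  · refine absurd ⟨y, x, hB hx, η, B', b2, b3, P, hj, Or.inl ⟨b2.mono hR, ?_,
      fun a ha => (LChain1_mem.1 (c1 ha)).1.2, fun a ha => ⟨fun v => ?_,
        (LChain1_mem.1 (c1 ha)).1.1.2⟩, c2, c3, fun a ha e => c4 a ha (LChain1_r_eq.2 e)⟩⟩ h1
    · rintro _ ⟨z, hz, rfl⟩
      exact h.le (sub_mem hz (fx.1 (η z)))
    · obtain ⟨d1, d2⟩ := LChain1_mem.1 (c1 ha)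
      exact ⟨a ((1 - η * x) v), d1.1.1 _, LinearMap.congr_fun d2 v⟩
  rcases faithful_or_small (D.LChain1_r R) (D.LChain1_L y h.le (x * η) (η * x)) k with
    ⟨B', c1, c2, c3, c4⟩ | ⟨c3, c4⟩
  · refine absurd ⟨y, x, hB hx, η, B', b2, b3, P, hj, Or.inr ⟨b2.mono hR, ?_,
      fun a ha => (LChain1_mem.1 (c1 ha)).1.2, fun a ha => ⟨fun v => ?_, fun v hv => ?_⟩,
        c2, c3, fun a ha e => c4 a ha (LChain1_r_eq.2 e)⟩⟩ h1
    · rintro _ ⟨z, rfl⟩
      have : η * x * (x * η) = 0 := by rw [mul_assoc, ← mul_assoc x, P.xx, zero_mul, mul_zero]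
      exact LinearMap.congr_fun this z
    · exact ⟨a ((η * x) v), LinearMap.congr_fun (LChain1_mem.1 (c1 ha)).2 v⟩
    · rw [← (LChain1_mem.1 (c1 ha)).2, End.mul_apply, LinearMap.mem_ker.1 hv, map_zero]
  have := h.fin
  have f2 : Module.Finite (ZMod p) B₂ := Submodule.finiteDimensional_of_le (b1.trans hB)
  have k1 := finrank_le_ker_add
    (D.LChain1_r R ∘ₗ LinearMap.mulLeftRight (ZMod p) (x * η, η * x)) B₂
    ((D.LChain1_L y h.le (x * η) (η * x)).map (D.LChain1_r R)) fun a ha =>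
      ⟨_, LChain1_mem.2 ⟨P.P2_mem fx (hRL a ha), LChain1_fix P.e_idem P.f_idem a⟩, rfl⟩
  obtain ⟨B₃, hB₃⟩ : ∃ B₃, B₃ = B₂ ⊓ LinearMap.ker
    (D.LChain1_r R ∘ₗ LinearMap.mulLeftRight (ZMod p) (x * η, η * x)) := ⟨_, rfl⟩
  rw [← hB₃] at k1
  have l3 : B₃ ≤ B₂ := hB₃ ▸ inf_le_left
  have f3 : Module.Finite (ZMod p) B₃ := Submodule.finiteDimensional_of_le l3
  have k2 := finrank_le_ker_add
    (D.LChain1_r R ∘ₗ LinearMap.mulLeftRight (ZMod p) (1 - x * η, 1 - η * x)) B₃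
    ((D.LChain1_L y h.le (1 - x * η) (1 - η * x)).map (D.LChain1_r R)) fun a ha =>
      ⟨_, LChain1_mem.2 ⟨P.P0_mem fx (hRL a (l3 ha)), LChain1_fix i0 i1 a⟩, rfl⟩
  refine ⟨y, x, hx, η, B₃ ⊓ LinearMap.ker
    (D.LChain1_r R ∘ₗ LinearMap.mulLeftRight (ZMod p) (1 - x * η, 1 - η * x)),
    inf_le_left.trans (l3.trans b1), b2, P, b5, b4, by omega, fun a ha => ⟨?_, ?_, ?_⟩,
    _, c1, c2.le, fun a ha b hb => ⟨_, LChain1_mem.2 ⟨?_, LChain1_fix i0 i1 _⟩, rfl⟩⟩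
  · obtain ⟨g, hg, e⟩ := b7 a (l3 ha.1)
    exact D.mem_PA_of_real (D.Q_le_St y hg) e
  · have := ha.1
    rw [hB₃] at this
    exact LChain1_r_eq.1 this.2
  · exact LChain1_r_eq.1 ha.2
  · have ha' := hRL a (l3 ha.1)
    have hb' := hRL b (l3 hb.1)
    have := sub_mem (sub_mem (P.Q_mem fx (add_mem ha' hb')) (P.Q_mem fx ha'))
      (P.Q_mem fx hb')
    convert this using 1
    noncomm_ring

/-- Suppose the first alternative fails. Let `r : End V →ₗ (Vb o R →ₗ V)` be the restriction and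
`c = β (2 k + 1) + 2 k + 1`. By induction on `t ≤ m` build a chain of length `t` with all `x i ∈ B`,
and `B_t ≤ B` with `n ≤ finrank B_t + t c` such that each `a ∈ B_t` lies in `RL (y i) h.le` and has
`r (e a f) = 0`, `r ((1 - e) a (1 - f)) = 0` for `e = x i * η i`, `f = η i * x i`, `i < t`; keep also
that for `i = t - 1` the image under `r` of `L₀ = {a ∈ RL (y i) | (1 - e) a (1 - f) = a}` is finite
of rank `< k`. Step: `select` with `q a b = r ((1 - e) (a η b + b η a) (1 - f))`, whose values lie in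
`L₀.map r` (`Q_mem` for `a + b`, `a`, `b`; for `t = 0` take `q = 0`), then `exists_partner`. By
`faithful_or_small`, either `L₀` or `L₂ = {a ∈ RL y | e a f = a}` contains a family as in the first
alternative (`f e = 0`, `e v ∈ Z ≤ C`), or both images have rank `< k`; cut `B₂` by two kernels
(`finrank_le_ker_add`, `P0_mem`, `P2_mem`). `q x x = 2 • r (..)` and `2 ≠ 0`. (Extend the functions
`y`, `x`, `η` with `Function.update`.) -/
theorem Fam.step (hp : p ≠ 2) (h : D.Fam σ n w Z C B) (m k R j : ℕ)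
    (hn : m * (D.β * (2 * k + 1) + 2 * k + 1) ≤ n) (hR : 3 * σ + 2 ≤ R) :
    (∃ y, ∃ x ∈ B, ∃ η B', Near D.Γ (3 * σ + 2) D.o y ∧ x ≠ 0 ∧ D.Partner y x η ∧
      j ≤ 2 * D.β * rk (x * η) (D.Vb y (2 * j)) ∧
      (D.Fam R k y (Z.map (1 - x * η)) C B' ∨
        D.Fam R k y (LinearMap.range (x * η)) (LinearMap.ker (η * x)) B')) ∨
    ∃ y x η, D.Chain (3 * σ + 2) R m y x η := by
  refine or_iff_not_imp_left.2 fun h1 => ?_
  have key : ∀ t ≤ m, ∃ y x η, ∃ B₁ ≤ B, D.Chain (3 * σ + 2) R t y x η ∧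
      n ≤ finrank (ZMod p) B₁ + t * (D.β * (2 * k + 1) + 2 * k + 1) ∧
      (∀ i < t, ∀ a ∈ B₁, a ∈ D.PA (y i) ∧
        (∀ v ∈ D.Vb D.o R, (x i * η i * a * (η i * x i)) v = 0) ∧
        ∀ v ∈ D.Vb D.o R, ((1 - x i * η i) * a * (1 - η i * x i)) v = 0) ∧
      ∃ q : End (ZMod p) V →ₗ[ZMod p] End (ZMod p) V →ₗ[ZMod p] (D.Vb D.o R →ₗ[ZMod p] V),
      ∃ S : Submodule (ZMod p) (D.Vb D.o R →ₗ[ZMod p] V), Module.Finite (ZMod p) S ∧
        finrank (ZMod p) S ≤ k ∧ (∀ a ∈ B₁, ∀ b ∈ B₁, q a b ∈ S) ∧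
        ∀ a, q a a = 0 → ∀ i, i + 1 = t → ∀ v ∈ D.Vb D.o R,
          ((1 - x i * η i) * (a * η i * a) * (1 - η i * x i)) v = 0 := by
    intro t
    induction t with
    | zero =>
      intro _
      refine ⟨fun _ => w, fun _ => 0, fun _ => 0, B, le_rfl, ⟨?_, ?_, ?_, ?_, ?_, ?_, ?_⟩,
        h.dim.trans (Nat.le_add_right _ _), fun i hi => absurd hi (by omega), 0, ⊥,
        inferInstance, by simp, fun _ _ _ _ => rfl, fun _ _ i hi => absurd hi (by omega)⟩ <;>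
      · intros
        omega
    | succ t ih =>
      intro ht
      obtain ⟨y, x, η, B₁, hB, ch, hd, hi, q, S, s1, s2, s3, s4⟩ := ih (by omega)
      have hm := Nat.mul_le_mul_right (D.β * (2 * k + 1) + 2 * k + 1) ht
      rw [Nat.add_mul, one_mul] at hm
      obtain ⟨y₀, x₀, hx, η₀, B₃, a1, a2, a3, a4, a5, a6, a7, S', a8, a9, a10⟩ :=
        LChain1_step hp h k R j hR h1 hB q S s2 s3 (by omega)
      obtain ⟨y', y1, y2⟩ := LChain1_ext y t y₀
      obtain ⟨x', x1, x2⟩ := LChain1_ext x t x₀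
      obtain ⟨η', η1, η2⟩ := LChain1_ext η t η₀
      refine ⟨y', x', η', B₃, a1.trans hB, ⟨fun i hi' => ?_, fun i hi' => ?_, fun i hi' => ?_,
        fun i l hil hl => ?_, fun i l hil hl => ?_, fun i l hil hl => ?_, fun i hi' => ?_⟩,
        by rw [Nat.add_mul]; omega, fun i hi' a ha => ?_, _, S', a8, a9, a10,
        fun a ha i hi' => ?_⟩
      · rcases Nat.lt_succ_iff_lt_or_eq.1 hi' with e | rfl
        · rw [y1 i e]; exact ch.near i e
        · rw [y2]; exact a2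
      · rcases Nat.lt_succ_iff_lt_or_eq.1 hi' with e | rfl
        · rw [y1 i e, x1 i e, η1 i e]; exact ch.par i e
        · rw [y2, x2, η2]; exact a3
      · rcases Nat.lt_succ_iff_lt_or_eq.1 hi' with e | rfl
        · rw [y1 i e, x1 i e]; exact ch.bd i e
        · rw [y2, x2]; exact a4
      · rcases Nat.lt_succ_iff_lt_or_eq.1 hl with e | rfl
        · rw [y1 i (by omega), x1 l e]; exact ch.pa i l hil e
        · rw [y1 i hil, x2]; exact (hi i hil x₀ hx).1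
      · rcases Nat.lt_succ_iff_lt_or_eq.1 hl with e | rfl
        · rw [x1 i (by omega), η1 i (by omega), x1 l e]; exact ch.p2 i l hil e
        · rw [x1 i hil, η1 i hil, x2]; exact (hi i hil x₀ hx).2.1
      · rcases Nat.lt_succ_iff_lt_or_eq.1 hl with e | rfl
        · rw [x1 i (by omega), η1 i (by omega), x1 l e]; exact ch.p0 i l hil e
        · rw [x1 i hil, η1 i hil, x2]; exact (hi i hil x₀ hx).2.2
      · rcases Nat.lt_succ_iff_lt_or_eq.1 hi' with e | e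
        · rw [x1 i (by omega), η1 i (by omega), x1 _ e]; exact ch.q i e
        · rw [x1 i (by omega), η1 i (by omega), e, x2]; exact s4 x₀ a5 i e
      · rcases Nat.lt_succ_iff_lt_or_eq.1 hi' with e | rfl
        · rw [y1 i e, x1 i e, η1 i e]; exact hi i e a (a1 ha)
        · rw [y2, x2, η2]; exact a7 a ha
      · obtain rfl : i = t := by omega
        rw [x2, η2]
        rw [LChain1_q_apply, ← two_smul (ZMod p), mul_smul_comm, smul_mul_assoc, map_smul] at ha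
        exact LChain1_r_eq.1 ((smul_eq_zero.1 ha).resolve_left (LChain1_two hp))
  obtain ⟨y, x, η, -, -, ch, -⟩ := key m le_rfl
  exact ⟨y, x, η, ch⟩

end LD

end Pool.Agent.Lib.MP_bf45aa_co
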