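import Pool.Agent.Lib.MP_bf45aa_co.Graph

set_option autoImplicit false
set_option linter.unusedSectionVars false

/-! Limit data: a group acting on a graph and on a module with linear growth. -/

namespace Pool.Agent.Lib.MP_bf45aa_co

open Subgroup Module

/-- There is a walk of length at most `n`. -/
def Near {X : Type*} (Γ : SimpleGraph X) (n : ℕ) (x y : X) : Prop :=
  ∃ w : Γ.Walk x y, w.length ≤ n

section Near

variable {X : Type*} {Γ : SimpleGraph X}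

theorem Near.refl (n : ℕ) (x : X) : Near Γ n x x := ⟨.nil, Nat.zero_le _⟩

theorem Near.mono {m n : ℕ} {x y : X} (h : Near Γ m x y) (hmn : m ≤ n) : Near Γ n x y :=
  let ⟨w, hw⟩ := h; ⟨w, hw.trans hmn⟩

theorem Near.symm {n : ℕ} {x y : X} (h : Near Γ n x y) : Near Γ n y x :=
  let ⟨w, hw⟩ := h; ⟨w.reverse, by rwa [w.length_reverse]⟩

theorem Near.trans {m n : ℕ} {x y z : X} (h : Near Γ m x y) (h' : Near Γ n y z) :
    Near Γ (m + n) x z :=
  let ⟨w, hw⟩ := h; let ⟨w', hw'⟩ := h'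
  ⟨w.append w', by rw [w.length_append]; omega⟩

theorem Near.of_adj {x y : X} (h : Γ.Adj x y) : Near Γ 1 x y := ⟨.cons h .nil, le_rfl⟩

theorem near_zero {x y : X} (h : Near Γ 0 x y) : x = y :=
  let ⟨w, hw⟩ := h; w.eq_of_length_eq_zero (Nat.le_zero.1 hw)

theorem near_succ {n : ℕ} {x y : X} (h : Near Γ (n + 1) x y) :
    x = y ∨ ∃ z, Γ.Adj x z ∧ Near Γ n z y := by
  obtain ⟨w, hw⟩ := h
  cases w with
  | nil => exact Or.inl rfl
  | cons h1 w => exact Or.inr ⟨_, h1, w, by simpa using hw⟩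

theorem near_succ' {n : ℕ} {x y : X} (h : Near Γ (n + 1) x y) :
    x = y ∨ ∃ z, Near Γ n x z ∧ Γ.Adj z y := by
  rcases near_succ h.symm with h | ⟨z, h1, h2⟩
  · exact Or.inl h.symm
  · exact Or.inr ⟨z, h2.symm, h1.symm⟩

variable {H : Type*} [Group H] [MulAction H X]

theorem Near.smul (adj : ∀ (g : H) {x y : X}, Γ.Adj x y → Γ.Adj (g • x) (g • y)) (g : H) {n : ℕ}
    {x y : X} (h : Near Γ n x y) : Near Γ n (g • x) (g • y) := by
  induction n generalizing x with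
  | zero => rw [near_zero h]; exact Near.refl _ _
  | succ n ih =>
    rcases near_succ h with rfl | ⟨z, h1, h2⟩
    · exact Near.refl _ _
    · exact ((Near.of_adj (adj g h1)).trans (ih h2)).mono (by omega)

theorem mem_Kn_iff {g : H} {k : ℕ} {x : X} : g ∈ Kn H Γ k x ↔ ∀ y, Near Γ k x y → g • y = y := by
  induction k generalizing x with
  | zero => exact ⟨fun h y hy => near_zero hy ▸ h, fun h => h x (Near.refl _ _)⟩
  | succ k ih =>
    rw [mem_Kn_succ]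
    refine ⟨fun h y hy => ?_, fun h => ⟨ih.2 fun y hy => h y (hy.mono (by omega)),
      fun z hz => ih.2 fun y hy => h y (((Near.of_adj hz).trans hy).mono (by omega))⟩⟩
    rcases near_succ hy with rfl | ⟨z, h1, h2⟩
    · exact Kn_le_St _ _ h.1
    · exact ih.1 (h.2 z h1) y h2

theorem Kn_near {g : H} {k n : ℕ} {x y : X} (h : Near Γ n x y) (hg : g ∈ Kn H Γ (k + n) x) :
    g ∈ Kn H Γ k y :=
  mem_Kn_iff.2 fun z hz => mem_Kn_iff.1 hg z ((h.trans hz).mono (by omega))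

theorem Kn_anti {k l : ℕ} (h : k ≤ l) (x : X) : Kn H Γ l x ≤ Kn H Γ k x := fun _ hg =>
  mem_Kn_iff.2 fun z hz => mem_Kn_iff.1 hg z (hz.mono h)

end Near

/-- The rank of an operator on a subspace. -/
noncomputable def rk {F V : Type*} [Field F] [AddCommGroup V] [Module F V] (a : End F V)
    (M : Submodule F V) : ℕ := finrank F (M.map a)

/-- Limit data. -/
structure LD (p : ℕ) (H X V : Type) [Group H] [MulAction H X] [AddCommGroup V]
    [Module (ZMod p) V] where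
  Γ : SimpleGraph X
  ρ : H →* End (ZMod p) V
  Vb : X → ℕ → Submodule (ZMod p) V
  Q : X → Subgroup H
  o : X
  c : ℕ
  β : ℕ
  adj : ∀ (g : H) {x y : X}, Γ.Adj x y → Γ.Adj (g • x) (g • y)
  nbr : ∀ x, ∃ y, Γ.Adj x y
  sp : ∀ (v : X) (N : Subgroup H), N ≤ St H v → St H v ≤ Nm N →
    Tr Γ N v ∨ ∀ n ∈ N, ∀ x, Γ.Adj v x → n • x = x → ∀ y, Γ.Adj v y → n • y = y
  vtx : ∀ x y : X, ∃ g : H, g • x = y
  mono : ∀ x k, Vb x k ≤ Vb x (k + 1)
  shift : ∀ {x y : X}, Γ.Adj x y → ∀ k, Vb x k ≤ Vb y (k + 1)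
  equi : ∀ (g : H) x k, ∀ v ∈ Vb x k, ρ g v ∈ Vb (g • x) k
  fd : ∀ x k, Module.Finite (ZMod p) (Vb x k)
  rank_le : ∀ x k, finrank (ZMod p) (Vb x k) ≤ c * (k + 1)
  exh : ∀ x v, ∃ k, v ∈ Vb x k
  cent : ∀ x k, ∀ g ∈ Kn H Γ (k + 3) x, ∀ v ∈ Vb x k, ρ g v = v
  layer : ∀ x k (N : Subgroup H), N ≤ St H x → Tr Γ N x →
    ∃ g ∈ N, ∃ v ∈ Vb x (k + 2), ρ g v - v ∉ Vb x k
  Q_le : ∀ x, Q x ≤ Kn H Γ 1 x
  Q_conj : ∀ (g : H) x, ∀ q ∈ Q x, g * q * g⁻¹ ∈ Q (g • x)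
  Q_adj : ∀ {x y : X}, Γ.Adj x y → ∀ q ∈ Q x, q ∈ Kn H Γ 1 y → q ∈ Q y
  Q_idx : ∀ x, ∃ t : Finset H, t.card ≤ β ∧ (∀ a ∈ t, a ∈ St H x) ∧
    ∀ g ∈ St H x, ∃ a ∈ t, a⁻¹ * g ∈ Q x
  Q_unip : ∀ x k, ∀ q ∈ Q x, ∃ n, ∀ v ∈ Vb x k, ρ (q ^ p ^ n) v = v
  fam : ∀ s, ∃ w, Near Γ (2 * s + 1) o w ∧ ∃ B : Subgroup H, B ≤ Q w ∧
    (∀ a ∈ B, ∀ b ∈ B, (ρ a - 1) * (ρ b - 1) = 0) ∧
    ∃ v ∈ Vb o 0, ∃ f : Fin (2 ^ s) → H, (∀ i, f i ∈ B) ∧ Function.Injective fun i => ρ (f i) v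
  clo : ∀ x (g : ℕ → H), (∀ r, g r ∈ St H x) →
    (∀ r r', r ≤ r' → ∀ v ∈ Vb x r, ρ (g r') v = ρ (g r) v) →
    ∃ h ∈ St H x, ∀ r, ∀ v ∈ Vb x r, ρ h v = ρ (g r) v
  cloQ : ∀ x (g : ℕ → H), (∀ r, g r ∈ Q x) →
    (∀ r r', r ≤ r' → ∀ v ∈ Vb x r, ρ (g r') v = ρ (g r) v) →
    ∃ h ∈ Q x, ∀ r, ∀ v ∈ Vb x r, ρ h v = ρ (g r) v

section Rk

variable {F V : Type*} [Field F] [AddCommGroup V] [Module F V]

theorem finrank_mono' {M N : Submodule F V} [Module.Finite F N] (h : M ≤ N) :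
    finrank F M ≤ finrank F N := Submodule.finrank_mono h

theorem rk_mono (a : End F V) {M N : Submodule F V} [Module.Finite F N] (h : M ≤ N) :
    rk a M ≤ rk a N := finrank_mono' (Submodule.map_mono h)

theorem rk_le (a : End F V) (M : Submodule F V) [Module.Finite F M] : rk a M ≤ finrank F M :=
  Submodule.finrank_map_le a M

theorem rk_le_of_le {a : End F V} {M N : Submodule F V} [Module.Finite F N]
    (h : ∀ v ∈ M, a v ∈ N) : rk a M ≤ finrank F N :=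
  finrank_mono' (Submodule.map_le_iff_le_comap.2 h)

theorem rk_congr {a b : End F V} {M : Submodule F V} (h : ∀ v ∈ M, a v = b v) : rk a M = rk b M := by
  have : M.map a = M.map b := by
    ext w
    exact ⟨fun ⟨v, hv, e⟩ => ⟨v, hv, (h v hv).symm.trans e⟩, fun ⟨v, hv, e⟩ => ⟨v, hv, (h v hv).trans e⟩⟩
  rw [rk, rk, this]

theorem rk_mul (a b : End F V) (M : Submodule F V) : rk (a * b) M = rk a (M.map b) := by
  rw [rk, rk, ← Submodule.map_comp]; rfl

theorem rk_mul_le_right (a b : End F V) (M : Submodule F V) [Module.Finite F M] :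
    rk (a * b) M ≤ rk b M := by
  rw [rk_mul]; exact rk_le _ _

theorem rk_mul_le_left (a : End F V) {b : End F V} {M N : Submodule F V} [Module.Finite F N]
    (h : ∀ v ∈ M, b v ∈ N) : rk (a * b) M ≤ rk a N := by
  rw [rk_mul]; exact rk_mono _ (Submodule.map_le_iff_le_comap.2 h)

theorem rk_add_le (a b : End F V) (M : Submodule F V) [Module.Finite F M] :
    rk (a + b) M ≤ rk a M + rk b M := by
  refine le_trans (finrank_mono' (N := M.map a ⊔ M.map b) ?_) (Submodule.finrank_add_le_finrank_add_finrank _ _)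
  rintro _ ⟨v, hv, rfl⟩
  exact Submodule.add_mem_sup ⟨v, hv, rfl⟩ ⟨v, hv, rfl⟩

theorem rk_neg (a : End F V) (M : Submodule F V) : rk (-a) M = rk a M := by
  rw [rk, rk, Submodule.map_neg]

theorem rk_sub_le (a b : End F V) (M : Submodule F V) [Module.Finite F M] :
    rk (a - b) M ≤ rk a M + rk b M := by
  rw [sub_eq_add_neg, ← rk_neg b]; exact rk_add_le _ _ _

/-- A strictly growing trace on a chain bounds the dimension from below. -/
theorem card_le_finrank {A : Submodule F V} [Module.Finite F A] (W : ℕ → Submodule F V)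
    (hW : Monotone W) (I : Finset ℕ) (h : ∀ i ∈ I, ∃ v ∈ A, v ∈ W (i + 1) ∧ v ∉ W i) :
    I.card ≤ finrank F A := by
  classical
  have key : ∀ n, (I.filter (· < n)).card ≤ finrank F (A ⊓ W n : Submodule F V) := by
    intro n
    induction n with
    | zero => simp
    | succ n ih =>
      have hle : A ⊓ W n ≤ A ⊓ W (n + 1) := inf_le_inf_left _ (hW (Nat.le_succ n))
      have : Module.Finite F (A ⊓ W (n + 1) : Submodule F V) := Submodule.finiteDimensional_of_le inf_le_left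
      by_cases hn : n ∈ I
      · obtain ⟨v, h1, h2, h3⟩ := h n hn
        have hlt : A ⊓ W n < A ⊓ W (n + 1) :=
          lt_of_le_of_ne hle fun e => h3 (e.ge ⟨h1, h2⟩).2
        have h4 := Submodule.finrank_lt_finrank_of_lt hlt
        have h5 : I.filter (· < n + 1) ⊆ insert n (I.filter (· < n)) := by
          intro i hi
          simp only [Finset.mem_filter, Finset.mem_insert] at hi ⊢
          by_cases e : i = n
          · exact Or.inl e
          · exact Or.inr ⟨hi.1, by omega⟩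
        have h6 := (Finset.card_le_card h5).trans (Finset.card_insert_le _ _)
        omega
      · have h5 : I.filter (· < n + 1) = I.filter (· < n) := by
          ext i
          simp only [Finset.mem_filter]
          refine ⟨fun hi => ⟨hi.1, ?_⟩, fun hi => ⟨hi.1, by omega⟩⟩
          have : i ≠ n := fun e => hn (e ▸ hi.1)
          omega
        rw [h5]
        exact ih.trans (finrank_mono' hle)
  have h1 := key (I.sup id + 1)
  rw [Finset.filter_true_of_mem (p := (· < I.sup id + 1))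
    fun i hi => Nat.lt_succ_of_le (Finset.le_sup (f := id) hi)] at h1
  exact h1.trans (finrank_mono' inf_le_left)

end Rk

namespace LD

variable {p : ℕ} [Fact p.Prime] {H X V : Type} [Group H] [MulAction H X] [AddCommGroup V]
  [Module (ZMod p) V] (D : LD p H X V)

instance (x : X) (k : ℕ) : Module.Finite (ZMod p) (D.Vb x k) := D.fd x k

theorem Vb_mono (x : X) : Monotone (D.Vb x) := monotone_nat_of_le_succ (D.mono x)

theorem Vb_near {n : ℕ} {x y : X} (h : Near D.Γ n x y) {k l : ℕ} (hl : k + n ≤ l) :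
    D.Vb x k ≤ D.Vb y l := by
  induction n generalizing x k with
  | zero => rw [near_zero h]; exact D.Vb_mono y hl
  | succ n ih =>
    rcases near_succ h with rfl | ⟨z, h1, h2⟩
    · exact D.Vb_mono x (by omega)
    · exact (D.shift h1 k).trans (ih h2 (by omega))

theorem near_smul (g : H) {n : ℕ} {x y : X} (h : Near D.Γ n x y) : Near D.Γ n (g • x) (g • y) :=
  h.smul D.adj g

theorem Kn_conj {k : ℕ} {x : X} {a : H} (g : H) (ha : a ∈ Kn H D.Γ k x) :
    g * a * g⁻¹ ∈ Kn H D.Γ k (g • x) := by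
  refine mem_Kn_iff.2 fun y hy => ?_
  have h1 := D.near_smul g⁻¹ hy
  rw [inv_smul_smul] at h1
  rw [mul_smul, mul_smul, mem_Kn_iff.1 ha _ h1, smul_inv_smul]

theorem Q_le_St (x : X) : D.Q x ≤ St H x := (D.Q_le x).trans (Kn_le_St 1 x)

theorem Q_conj_St {x : X} {g q : H} (hg : g ∈ St H x) (hq : q ∈ D.Q x) : g * q * g⁻¹ ∈ D.Q x := by
  have := D.Q_conj g x q hq
  rwa [mem_St.1 hg] at this

theorem ρ_mul_inv (g : H) : D.ρ g * D.ρ g⁻¹ = 1 := by rw [← map_mul, mul_inv_cancel, map_one]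

theorem ρ_inv_mul (g : H) : D.ρ g⁻¹ * D.ρ g = 1 := by rw [← map_mul, inv_mul_cancel, map_one]

/-- The operators preserving all ball spaces with centre `y`. -/
def PA (y : X) : Subalgebra (ZMod p) (End (ZMod p) V) where
  carrier := {a | ∀ k, ∀ v ∈ D.Vb y k, a v ∈ D.Vb y k}
  mul_mem' := fun ha hb k v hv => ha k _ (hb k v hv)
  add_mem' := fun ha hb k v hv => add_mem (ha k v hv) (hb k v hv)
  algebraMap_mem' := fun r _ _ hv => Submodule.smul_mem _ r hv

theorem ρ_mem_PA {y : X} {g : H} (hg : g ∈ St H y) : D.ρ g ∈ D.PA y := fun k v hv => by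
  have := D.equi g y k v hv
  rwa [mem_St.1 hg] at this

theorem mem_PA_of_real {y : X} {g : H} (hg : g ∈ St H y) {a : End (ZMod p) V}
    (h : D.ρ g = 1 + a) : a ∈ D.PA y := by
  have := sub_mem (D.ρ_mem_PA hg) (one_mem (D.PA y))
  rwa [h, add_sub_cancel_left] at this

theorem PA_shift {y z : X} {a : End (ZMod p) V} (ha : a ∈ D.PA y) {n : ℕ} (h : Near D.Γ n z y)
    {k l : ℕ} (hl : k + 2 * n ≤ l) {v : V} (hv : v ∈ D.Vb z k) : a v ∈ D.Vb z l :=
  D.Vb_near h.symm (by omega) (ha (k + n) v (D.Vb_near h le_rfl hv))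

theorem ext_Vb (x : X) {a b : End (ZMod p) V} (h : ∀ k, ∀ v ∈ D.Vb x k, a v = b v) : a = b :=
  LinearMap.ext fun v => let ⟨k, hk⟩ := D.exh x v; h k v hk

theorem sp_K {v x : X} {N : Subgroup H} (h1 : N ≤ St H v) (h2 : St H v ≤ Nm N)
    (h3 : ¬ Tr D.Γ N v) (hx : D.Γ.Adj v x) {n : H} (hn : n ∈ N) (hnx : n • x = x) :
    n ∈ Kn H D.Γ 1 v := by
  rcases D.sp v N h1 h2 with h | h
  · exact absurd h h3
  · exact mem_K1.2 ⟨h1 hn, h n hn x hx hnx⟩

/-- The centraliser in a vertex stabiliser of a layer. -/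
def CL (y : X) (k : ℕ) : Subgroup H where
  carrier := {g | g ∈ St H y ∧ ∀ v ∈ D.Vb y (k + 2), D.ρ g v - v ∈ D.Vb y k}
  one_mem' := ⟨one_mem _, fun v _ => by simp⟩
  mul_mem' := fun {a b} ha hb => ⟨mul_mem ha.1 hb.1, fun v hv => by
    have h1 := add_mem (D.ρ_mem_PA ha.1 k _ (hb.2 v hv)) (ha.2 v hv)
    rwa [map_sub, sub_add_sub_cancel, ← End.mul_apply, ← map_mul] at h1⟩
  inv_mem' := fun {a} ha => ⟨inv_mem ha.1, fun v hv => by
    have h1 := neg_mem (ha.2 _ (D.ρ_mem_PA (inv_mem ha.1) _ v hv))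
    rwa [← End.mul_apply, D.ρ_mul_inv, End.one_apply, neg_sub] at h1⟩

theorem CL_le (y : X) (k : ℕ) : D.CL y k ≤ St H y := fun _ h => h.1

theorem St_le_Nm_CL (y : X) (k : ℕ) : St H y ≤ Nm (D.CL y k) := by
  refine le_Nm_of_conj fun g hg a ha => ⟨mul_mem (mul_mem hg ha.1) (inv_mem hg), fun v hv => ?_⟩
  have h1 := D.ρ_mem_PA hg k _ (ha.2 _ (D.ρ_mem_PA (inv_mem hg) _ v hv))
  rwa [map_sub, ← End.mul_apply (D.ρ g) (D.ρ g⁻¹), D.ρ_mul_inv, End.one_apply, ← End.mul_apply,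
    ← End.mul_apply, ← map_mul, ← map_mul] at h1

theorem not_tr_CL (y : X) (k : ℕ) : ¬ Tr D.Γ (D.CL y k) y := fun t =>
  let ⟨_, hg, v, hv, h⟩ := D.layer y k _ (D.CL_le y k) t; h (hg.2 v hv)

/-- An element fixing an edge at `y` and moving a neighbour of `y` is non-trivial on each layer. -/
theorem layer_ne {y y' : X} (h : D.Γ.Adj y y') {g : H} (h1 : g • y = y) (h2 : g • y' = y')
    (h3 : g ∉ Kn H D.Γ 1 y) (k : ℕ) : ∃ v ∈ D.Vb y (k + 2), D.ρ g v - v ∉ D.Vb y k := by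
  by_contra hc
  push Not at hc
  exact h3 (D.sp_K (D.CL_le y k) (D.St_le_Nm_CL y k) (D.not_tr_CL y k) h ⟨h1, hc⟩ h2)

theorem boundary {x x' : X} (h : D.Γ.Adj x x') {g : H} (h1 : g • x = x) (h2 : g • x' = x')
    {k : ℕ} (h3 : g ∉ Kn H D.Γ (k + 1) x) :
    ∃ y y', Near D.Γ k x y ∧ D.Γ.Adj y y' ∧ g • y = y ∧ g • y' = y' ∧ g ∉ Kn H D.Γ 1 y := by
  induction k with
  | zero => exact ⟨x, x', Near.refl _ _, h, h1, h2, h3⟩
  | succ k ih =>
    by_cases h4 : g ∈ Kn H D.Γ (k + 1) x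
    · rw [mem_Kn_iff] at h3 h4
      push Not at h3
      obtain ⟨z, hz, h5⟩ := h3
      rcases near_succ' hz with rfl | ⟨y, hy, hyz⟩
      · exact absurd h1 h5
      · have h6 : g ∉ Kn H D.Γ 1 y := fun h6 => h5 ((mem_K1.1 h6).2 z hyz)
        rcases near_succ' hy with rfl | ⟨y', hy', hyy⟩
        · exact ⟨x, x', Near.refl _ _, h, h1, h2, h6⟩
        · exact ⟨y, y', hy, hyy.symm, h4 y hy, h4 y' (hy'.mono (by omega)), h6⟩
    · obtain ⟨y, y', hy, h5⟩ := ih h4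
      exact ⟨y, y', hy.mono (by omega), h5⟩

/-- Rank at a boundary vertex. -/
theorem thick0 {y y' : X} (h : D.Γ.Adj y y') {g : H} (h1 : g • y = y) (h2 : g • y' = y')
    (h3 : g ∉ Kn H D.Γ 1 y) (j : ℕ) : j ≤ rk (D.ρ g - 1) (D.Vb y (2 * j)) := by
  have := card_le_finrank (A := (D.Vb y (2 * j)).map (D.ρ g - 1)) (fun i => D.Vb y (2 * i))
    (fun _ _ hi => D.Vb_mono y (by omega)) (Finset.range j) fun i hi => by
      obtain ⟨v, hv, h4⟩ := D.layer_ne h h1 h2 h3 (2 * i)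
      have hi' := Finset.mem_range.1 hi
      exact ⟨_, ⟨v, D.Vb_mono y (by omega) hv, rfl⟩, sub_mem (D.ρ_mem_PA h1 _ v hv) hv, h4⟩
  rwa [Finset.card_range] at this

/-- Elements fixing an edge are thick. -/
theorem thick {x x' : X} (h : D.Γ.Adj x x') {g : H} (h1 : g • x = x) (h2 : g • x' = x')
    {r j R : ℕ} (hR : r + 2 + 2 * j ≤ R) (hj : rk (D.ρ g - 1) (D.Vb x R) < j) :
    ∀ v ∈ D.Vb x r, D.ρ g v = v := by
  by_cases h3 : g ∈ Kn H D.Γ (r + 2 + 1) x
  · exact D.cent x r g h3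
  · obtain ⟨y, y', hy, h4, h5, h6, h7⟩ := D.boundary h h1 h2 h3
    have := (D.thick0 h4 h5 h6 h7 j).trans (rk_mono _ (D.Vb_near hy.symm (l := R) (by omega)))
    omega

/-- Elements fixing an edge and trivial on a ball space fix a ball. -/
theorem deep {x x' : X} (h : D.Γ.Adj x x') {g : H} (h1 : g • x = x) (h2 : g • x' = x')
    {k : ℕ} (h3 : ∀ v ∈ D.Vb x (k + 2), D.ρ g v = v) : g ∈ Kn H D.Γ (k + 1) x := by
  by_contra h4
  obtain ⟨y, y', hy, h4, h5, h6, h7⟩ := D.boundary h h1 h2 h4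
  obtain ⟨v, hv, h8⟩ := D.layer_ne h4 h5 h6 h7 0
  rw [h3 v (D.Vb_near hy.symm (by omega) hv), sub_self] at h8
  exact h8 (zero_mem _)

/-- A split partner of the quadratic operator `x` at the vertex `y`. -/
structure Partner5 (y : X) (x η : End (ZMod p) V) : Prop where
  xx : x * x = 0
  sq : η * η = 0
  yxy : η * x * η = η
  r0 : ∃ g ∈ St H y, D.ρ g = 1 + x
  r1 : ∃ g ∈ St H y, D.ρ g = 1 + η
  r2 : ∃ g ∈ St H y, D.ρ g = 1 + x * η * x

/-- A partner of the quadratic operator `x` at the vertex `y`. -/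
structure Partner (y : X) (x η : End (ZMod p) V) : Prop where
  xx : x * x = 0
  sq : η * η = 0
  yxy : η * x * η = η
  r0 : ∃ g ∈ St H y, D.ρ g = 1 + x
  rw : ∃ w ∈ St H y, D.ρ w = 1 - x * η - η * x + x * η * x - η
  alt : p = 3 ∨ (5 ≤ p ∧ D.Partner5 y x η)
  two : (2 : ZMod p) ≠ 0

/-- `a` maps into `Z` and kills `C`. -/
def Fr (Z C : Submodule (ZMod p) V) (a : End (ZMod p) V) : Prop :=
  (∀ v, a v ∈ Z) ∧ ∀ v ∈ C, a v = 0

/-- A quadratic family of dimension `n` with centre `w`, faithful at radius `σ`. -/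
structure Fam (σ n : ℕ) (w : X) (Z C : Submodule (ZMod p) V)
    (B : Submodule (ZMod p) (End (ZMod p) V)) : Prop where
  near : Near D.Γ σ D.o w
  le : Z ≤ C
  real : ∀ a ∈ B, ∃ g ∈ D.Q w, D.ρ g = 1 + a
  fr : ∀ a ∈ B, Fr Z C a
  fin : Module.Finite (ZMod p) B
  dim : n ≤ finrank (ZMod p) B
  faith : ∀ a ∈ B, (∀ v ∈ D.Vb D.o σ, a v = 0) → a = 0

/-- `x` is realised by an element fixing an edge at `y` and moving a neighbour of `y`. -/
def Bd (y : X) (x : End (ZMod p) V) : Prop :=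
  ∃ u y', D.Γ.Adj y y' ∧ u • y = y ∧ u • y' = y' ∧ u ∉ Kn H D.Γ 1 y ∧ D.ρ u = 1 + x

end LD

end Pool.Agent.Lib.MP_bf45aa_co
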