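import Pool.Agent.Lib.PSV.LDef

set_option autoImplicit false
set_option linter.unusedSectionVars false

/-! The entropy inequality for a triangular system of idempotents. -/

namespace Pool.Agent.Lib.MP_bf45aa_co

open Module

variable {F V : Type*} [Field F] [AddCommGroup V] [Module F V]

/-- All lists of length `n`. -/
def LL' : ℕ → Finset (List Bool)
  | 0 => {[]}
  | n + 1 => (LL' n).image (true :: ·) ∪ (LL' n).image (false :: ·)

theorem LEnt0_length {n : ℕ} {l : List Bool} (h : l ∈ LL' n) : l.length = n := by
  induction n generalizing l with
  | zero => simpa [LL'] using h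
  | succ n ih =>
    simp only [LL', Finset.mem_union, Finset.mem_image] at h
    rcases h with ⟨l', h, rfl⟩ | ⟨l', h, rfl⟩ <;> simp [ih h]

theorem LEnt0_rn (T : End F V) (M : Submodule F V) [Module.Finite F M] :
    finrank F (M.map T) + finrank F (M ⊓ LinearMap.ker T : Submodule F V) = finrank F M := by
  have h := LinearMap.finrank_range_add_finrank_ker (T.domRestrict M)
  rw [LinearMap.range_domRestrict, LinearMap.ker_domRestrict,
    ← Submodule.finrank_map_subtype_eq, Submodule.map_comap_subtype] at h
  exact h

end Pool.Agent.Lib.MP_bf45aa_co
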