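import Pool.Agent.Lib.PSV.LDef

set_option autoImplicit false
set_option linter.unusedSectionVars false

/-! Finite data with large critical distance. -/

namespace Pool.Agent.Lib.MP_bf45aa_co

open Subgroup

/-- Finite data, valid up to radius about `b`. -/
structure FD (p c β d b : ℕ) (G V : Type) [Group G] [MulAction G V] where
  Γ : SimpleGraph V
  W : V → ℕ → Subgroup G
  Q : V → Subgroup G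
  o : V
  finG : Finite G
  finV : Finite V
  deg : ∀ x, (Γ.neighborSet x).ncard ≤ d
  adj : ∀ (g : G) {x y : V}, Γ.Adj x y → Γ.Adj (g • x) (g • y)
  nbr : ∀ x, ∃ y, Γ.Adj x y
  sp : ∀ (v : V) (N : Subgroup G), N ≤ St G v → St G v ≤ Nm N →
    Tr Γ N v ∨ ∀ n ∈ N, ∀ x, Γ.Adj v x → n • x = x → ∀ y, Γ.Adj v y → n • y = y
  vtx : ∀ x y : V, ∃ g : G, g • x = y
  W_le : ∀ x k, k ≤ b → W x k ≤ St G x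
  mono : ∀ x k, W x k ≤ W x (k + 1)
  shift : ∀ {x y : V}, Γ.Adj x y → ∀ k, W x k ≤ W y (k + 1)
  equi : ∀ (g : G) x k, ∀ v ∈ W x k, g * v * g⁻¹ ∈ W (g • x) k
  comm : ∀ x k, k ≤ b → ∀ u ∈ W x k, ∀ v ∈ W x k, u * v = v * u
  pow : ∀ x k, k ≤ b → ∀ u ∈ W x k, u ^ p = 1
  card : ∀ x k, k ≤ b → Nat.card (W x k) ≤ p ^ (c * (k + 1))
  cent : ∀ x k, ∀ g ∈ Kn G Γ (k + 3) x, ∀ v ∈ W x k, g * v * g⁻¹ = v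
  layer : ∀ x k, k ≤ b → ∀ N : Subgroup G, N ≤ St G x → Tr Γ N x →
    ∃ g ∈ N, ∃ v ∈ W x (k + 2), g * v * g⁻¹ * v⁻¹ ∉ W x k
  Q_le : ∀ x, Q x ≤ Kn G Γ 1 x
  Q_conj : ∀ (g : G) x, ∀ q ∈ Q x, g * q * g⁻¹ ∈ Q (g • x)
  Q_adj : ∀ {x y : V}, Γ.Adj x y → ∀ q ∈ Q x, q ∈ Kn G Γ 1 y → q ∈ Q y
  Q_idx : ∀ x, (Q x).relIndex (St G x) ≤ β
  Q_unip : ∀ x k, k ≤ b → ∀ q ∈ Q x, ∀ v ∈ W x k,
    q ^ p ^ (c * (k + 1)) * v * (q ^ p ^ (c * (k + 1)))⁻¹ = v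
  fam : ∀ s ≤ b, ∃ w, Near Γ (2 * s + 1) o w ∧ ∃ B : Subgroup G, B ≤ Q w ∧
    (∀ k ≤ b, ∀ a ∈ B, ∀ a' ∈ B, ∀ v ∈ W o k, Commute a (a' * v * a'⁻¹ * v⁻¹)) ∧
    ∃ v ∈ W o 0, ∃ f : Fin (2 ^ s) → G, (∀ i, f i ∈ B) ∧
      Function.Injective fun i => f i * v * (f i)⁻¹

end Pool.Agent.Lib.MP_bf45aa_co
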