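import Pool.Agent.Lib.PSV.LFD
import Pool.Agent.Lib.MP_bf45aa_co.PSetup

set_option autoImplicit false
set_option linter.unusedSectionVars false

/-! Construction of finite data. -/

namespace Pool.Agent.Lib.MP_bf45aa_co

open Subgroup

variable {V G : Type} [Group G] [MulAction G V] {Γ : SimpleGraph V} [Finite G] [Finite V]
  {p : ℕ} [hp : Fact p.Prime]

/-- The subgroups generated over balls. -/
def WW (Γ : SimpleGraph V) (U : V → Subgroup G) (x : V) (k : ℕ) : Subgroup G :=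
  ⨆ y : {y // Near Γ k x y}, U y

theorem LFin0_pow {Y : Subgroup G} {a q : G} (ha : a ∈ Y) (hq : q ∈ Nm Y) (n : ℕ) :
    (a * q) ^ n * (q ^ n)⁻¹ ∈ Y := by
  induction n with
  | zero => simp
  | succ n ih =>
    have e : (a * q) ^ (n + 1) * (q ^ (n + 1))⁻¹ = a * (q * ((a * q) ^ n * (q ^ n)⁻¹) * q⁻¹) := by
      rw [pow_succ' (a * q), pow_succ' q]; group
    rw [e]
    exact mul_mem ha (conj_mem_of_Nm hq ih)

theorem LFin0_sub {A B Q : Subgroup G} (hSN : SN A B) (hQ : IsPGroup p Q)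
    (hB : ∀ b ∈ B, ∃ a ∈ A, ∃ q ∈ Q, b = a * q) :
    ∀ g ∈ B, Nat.Coprime (orderOf g) p → g ∈ A := by
  induction hSN with
  | refl => exact fun g hg _ => hg
  | @tail Y Z h1 h2 ih =>
    intro g hg hc
    refine ih (fun b hb => hB b (h2.1 hb)) g ?_ hc
    obtain ⟨a, ha, q, hq, e⟩ := hB g hg
    have haY : a ∈ Y := SN.le h1 ha
    have hqZ : q ∈ Z := by
      have : q = a⁻¹ * g := by rw [e]; group
      rw [this]; exact mul_mem (inv_mem (h2.1 haY)) hg
    obtain ⟨k, hk⟩ := hQ ⟨q, hq⟩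
    have hk' : q ^ p ^ k = 1 := by simpa using congrArg Subtype.val hk
    have h3 := LFin0_pow haY (h2.2 hqZ) (p ^ k)
    rw [hk', inv_one, mul_one, ← e] at h3
    have h4 : g ∈ zpowers (g ^ p ^ k) :=
      mem_zpowers_pow_iff.2 (Nat.Coprime.pow_left k hc.symm)
    exact zpowers_le.2 h3 h4

/-- The subgroup generated by the elements of order prime to `p`. -/
def LFin0_O (p : ℕ) (A : Subgroup G) : Subgroup G :=
  closure {a | a ∈ A ∧ Nat.Coprime (orderOf a) p}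

theorem LFin0_O_le (A : Subgroup G) : LFin0_O p A ≤ A := (closure_le _).2 fun _ h => h.1

theorem LFin0_norm {A K Q : Subgroup G} (hSN : SN A K) (hQ : IsPGroup p Q) (h1 : Q ≤ K)
    (h2 : K ≤ Nm Q) : Q ≤ Nm (LFin0_O p A) := by
  have h3 := LFin0_sub (hSN.of_le le_sup_left (sup_le hSN.le h1)) hQ
    fun b hb => mem_sup_of_left_Nm (hSN.le.trans h2) hb
  refine le_Nm_of_cj_le fun g hg => ?_
  rw [cj_le_iff]
  refine (closure_le _).2 fun a ha => ?_
  have h4 : orderOf (g * a * g⁻¹) = orderOf a :=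
    orderOf_injective (MulAut.conj g).toMonoidHom (MulAut.conj g).injective a
  have h5 : g * a * g⁻¹ ∈ LFin0_O p A := by
    refine subset_closure ⟨h3 _ ?_ (by rw [h4]; exact ha.2), by rw [h4]; exact ha.2⟩
    exact mul_mem (mul_mem (mem_sup_right hg) (mem_sup_left ha.1)) (mem_sup_right (inv_mem hg))
  show a ∈ cj g⁻¹ (LFin0_O p A)
  rw [mem_cj, inv_inv]
  exact h5

theorem LFin0_tr (c : Ctx G Γ) {α β : V} (h : Γ.Adj α β)
    (h0 : QQ G Γ p α ⊓ QQ G Γ p β ≠ ⊥) {x y : V} (hxy : Γ.Adj x y) :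
    Tr Γ (JN Γ (QQ G Γ p) x ⊓ St G x) x := by
  have hn : ¬ QQ G Γ p y ≤ Kn G Γ 1 x := by
    intro hle
    have h1 : QQ G Γ p y ≤ QQ G Γ p x :=
      (le_inf (le_sup_right : QQ G Γ p y ≤ RR G Γ p x y) hle).trans (c.RR_inf_K hxy)
    obtain ⟨g, g1, g2⟩ := c.arc hxy hxy.symm
    have h2 := cj_mono g h1
    rw [c.cj_QQ, c.cj_QQ, g1, g2] at h2
    have h3 : QQ G Γ p x = QQ G Γ p y := le_antisymm h2 h1
    have h4 := c.L0 hxy ((QQ_le_K (p := p) x).trans (Kn_le_St 1 x))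
      ((QQ_le_K x).trans (Kn_le_St_adj 0 hxy))
      ((c.tr_St x).mono (le_inf (c.St_le_Nm_QQ x) le_rfl))
      ((c.tr_St y).mono (le_inf (by rw [h3]; exact c.St_le_Nm_QQ y) le_rfl))
    obtain ⟨k, k1, -⟩ := c.arc h hxy
    rw [← k1, ← c.cj_QQ, cj_eq_bot] at h4
    exact h0 (by rw [h4, bot_inf_eq])
  obtain ⟨a, ha, h5⟩ := SetLike.not_le_iff_exists.1 hn
  have h6 : JN Γ (QQ G Γ p) x ≤ St G x :=
    JN_le fun z hz => (QQ_le_K z).trans (Kn_le_St_adj 0 hz.symm)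
  rw [inf_of_le_left h6]
  exact c.sp_tr h6 (c.Nm_JN fun g _ z => c.cj_QQ p g z) hxy (le_JN hxy ha)
    (Kn_le_St 1 y (QQ_le_K y ha)) h5

theorem LFin0_orb {H C : Subgroup G} {w : G} (hC : ∀ a ∈ C, a * w * a⁻¹ = w) :
    {u | ∃ s ∈ H, u = s * w * s⁻¹}.ncard ≤ C.relIndex H := by
  let f : H ⧸ C.subgroupOf H → G := fun q => (q.out : G) * w * (q.out : G)⁻¹
  have h1 : {u | ∃ s ∈ H, u = s * w * s⁻¹} ⊆ f '' Set.univ := by
    rintro _ ⟨s, hs, rfl⟩
    refine ⟨QuotientGroup.mk ⟨s, hs⟩, Set.mem_univ _, ?_⟩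
    obtain ⟨a, ha⟩ := QuotientGroup.mk_out_eq_mul (C.subgroupOf H) ⟨s, hs⟩
    have h2 := hC _ (mem_subgroupOf.1 a.2)
    show ((QuotientGroup.mk ⟨s, hs⟩ : H ⧸ C.subgroupOf H).out : G) * w *
      ((QuotientGroup.mk ⟨s, hs⟩ : H ⧸ C.subgroupOf H).out : G)⁻¹ = _
    rw [ha]
    show s * ((a : H) : G) * w * (s * ((a : H) : G))⁻¹ = _
    calc s * ((a : H) : G) * w * (s * ((a : H) : G))⁻¹
        = s * (((a : H) : G) * w * ((a : H) : G)⁻¹) * s⁻¹ := by group
      _ = _ := by rw [h2]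
  refine (Set.ncard_le_ncard h1 (Set.toFinite _)).trans ((Set.ncard_image_le (Set.toFinite _)).trans ?_)
  rw [Set.ncard_univ]
  exact le_rfl

theorem LFin0_card {E : Subgroup G} (hE : EA p E) (T : Finset G) (hT : ∀ t ∈ T, t ∈ E) :
    Nat.card (closure (T : Set G)) ≤ p ^ T.card := by
  classical
  induction T using Finset.induction_on with
  | empty => simp
  | insert a T ha ih =>
    have h1 : closure (T : Set G) ≤ E :=
      (closure_le _).2 fun t ht => hT t (Finset.mem_insert_of_mem ht)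
    have h2 : a ∈ E := hT a (Finset.mem_insert_self a T)
    have h3 : zpowers a ≤ Nm (closure (T : Set G)) :=
      (zpowers_le.2 (Cn_anti h1 (hE.2 h2))).trans (Cn_le_Nm _)
    have h4 := card_sup_mul_card_inf h3
    have h5 : Nat.card (zpowers a) ≤ p := by
      rw [Nat.card_zpowers]
      exact orderOf_le_of_pow_eq_one hp.out.pos (hE.1 a h2)
    have h6 : closure ((insert a T : Finset G) : Set G) = zpowers a ⊔ closure (T : Set G) := by
      rw [Finset.coe_insert, Set.insert_eq, Subgroup.closure_union, zpowers_eq_closure]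
    rw [h6, Finset.card_insert_of_notMem ha, pow_succ']
    refine le_trans (Nat.le_mul_of_pos_right _ Nat.card_pos) (h4.le.trans ?_)
    exact Nat.mul_le_mul h5 (ih fun t ht => hT t (Finset.mem_insert_of_mem ht))

/-- Let `S` be the closure of the elements of `A = Kn 3 x` of order prime to `p`. If `A` is
subnormal in `K = Kn 1 z` (true for `z` within `2` of `x`, `SN_Kn`), every `p'`-element of
`A ⊔ QQ z` lies in `A` (induction along the subnormal chain `SN A (A ⊔ QQ z)`, all indices divide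
the `p`-power `A.relIndex (A ⊔ QQ z)`), so `QQ z` normalises `S`. For an edge `x y` the joins
`JN Γ (QQ G Γ p) x`, `JN Γ (QQ G Γ p) y` normalise `S` and are transitive (`sp_tr`: `QQ y` is not
contained in `Kn 1 x`, otherwise `QQ y ≤ QQ x` by `RR_inf_K`, then equality by conjugacy and `L0`
gives `QQ x = ⊥`). So `S = ⊥` by `L0`, `A` is a `p`-group, and `le_core` applies. -/
theorem Ctx.Kn3_le (c : Ctx G Γ) {α β : V} (h : Γ.Adj α β)
    (h0 : QQ G Γ p α ⊓ QQ G Γ p β ≠ ⊥) (x : V) : Kn G Γ 3 x ≤ QQ G Γ p x := by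
  obtain ⟨y, hxy⟩ := c.has_nbr h x
  have hN : ∀ z, SN (Kn G Γ 3 x) (Kn G Γ 1 z) → QQ G Γ p z ≤ Nm (LFin0_O p (Kn G Γ 3 x)) :=
    fun z hz => LFin0_norm hz (QQ_pg z) (QQ_le_K z) ((Kn_le_St 1 z).trans (c.St_le_Nm_QQ z))
  have h1 : LFin0_O p (Kn G Γ 3 x) = ⊥ := by
    refine c.L0 hxy ((LFin0_O_le _).trans (Kn_le_St 3 x))
      ((LFin0_O_le _).trans (Kn_le_St_adj 2 hxy)) ?_ ?_
    · refine (LFin0_tr c h h0 hxy).mono (inf_le_inf_right _ (JN_le fun z hz => hN z ?_))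
      exact (c.SN_Kn_adj 1 hz).trans (c.SN_Kn_self 1 1 z)
    · refine (LFin0_tr c h h0 hxy.symm).mono (inf_le_inf_right _ (JN_le fun z hz => hN z ?_))
      exact (c.SN_Kn_adj 1 hxy).trans (c.SN_Kn_adj 0 hz)
  refine le_core (Kn_add_le 1 2 x) ((Kn_le_St 1 x).trans (c.St_le_Nm_Kn 3 x)) fun q hq hd => ?_
  by_contra hne
  have := Fact.mk hq
  obtain ⟨a, ha⟩ := exists_prime_orderOf_dvd_card' q hd
  have ha' : orderOf (a : G) = q := by rw [orderOf_coe, ha]
  have h2 : (a : G) ∈ LFin0_O p (Kn G Γ 3 x) :=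
    subset_closure ⟨a.2, by rw [ha']; exact (Nat.coprime_primes hq hp.out).2 hne⟩
  rw [h1, mem_bot, ← orderOf_eq_one_iff, ha'] at h2
  exact hq.one_lt.ne' h2

/-- Take `z` from `exists_z`, `U x = closure {g z g⁻¹ | g • α = x ∨ g • β = x}`. The generators
form at most two orbits of `St G x`, each centralised by `QQ x`, so there are at most `2 cb d 3`
of them. Intransitivity as in `CY_intr`. -/
theorem Ctx.exists_U (c : Ctx G Γ) {d : ℕ} (hd : ∀ v, (Γ.neighborSet v).ncard ≤ d) {α β : V}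
    (h : Γ.Adj α β) (h0 : QQ G Γ p α ⊓ QQ G Γ p β ≠ ⊥) :
    ∃ U : V → Subgroup G, (∀ (g : G) x, cj g (U x) = U (g • x)) ∧ (∀ x, U x ≤ YY G Γ p x) ∧
      (∀ x, Nat.card (U x) ≤ p ^ (2 * cb d 3)) ∧ (∀ x, U x ≠ ⊥) ∧
      ∀ x, ¬ Tr Γ (Cn (U x) ⊓ St G x) x := by
  obtain ⟨z, z1, z2, z3⟩ := c.exists_z h h0
  let T : V → Set G := fun x => {u | ∃ g : G, (g • α = x ∨ g • β = x) ∧ u = g * z * g⁻¹}
  have hY : ∀ x, ∀ u ∈ T x, u ∈ YY G Γ p x := by
    rintro x _ ⟨g, rfl | rfl, rfl⟩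
    · rw [← c.cj_YY]; exact conj_mem_cj z2
    · rw [← c.cj_YY]; exact conj_mem_cj z3
  have hE : ∀ (g : G) x, cj g (closure (T x)) = closure (T (g • x)) := by
    refine cj_eq_of_le (fun (g : G) (x : V) => g • x) act_inv (fun x => closure (T x)) ?_
    intro g x
    rw [cj_le_iff]
    refine (closure_le _).2 ?_
    rintro _ ⟨k, hk, rfl⟩
    show k * z * k⁻¹ ∈ cj g⁻¹ (closure (T (g • x)))
    rw [mem_cj, inv_inv]
    refine subset_closure ⟨g * k, ?_, by group⟩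
    rcases hk with hk | hk
    · exact Or.inl (by rw [mul_smul, hk])
    · exact Or.inr (by rw [mul_smul, hk])
  have hO : ∀ x γ : V, z ∈ YY G Γ p γ →
      {u | ∃ g : G, g • γ = x ∧ u = g * z * g⁻¹}.ncard ≤ cb d 3 := by
    intro x γ hz
    by_cases hex : ∃ g : G, g • γ = x
    · obtain ⟨g, rfl⟩ := hex
      have h1 : g * z * g⁻¹ ∈ YY G Γ p (g • γ) := by rw [← c.cj_YY]; exact conj_mem_cj hz
      refine le_trans ?_ ((LFin0_orb (H := St G (g • γ)) (C := Kn G Γ 3 (g • γ))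
        (w := g * z * g⁻¹) fun a ha => ?_).trans (c.relIndex_Kn hd 3 _))
      · refine Set.ncard_le_ncard ?_ (Set.toFinite _)
        rintro _ ⟨k, hk, rfl⟩
        exact ⟨k * g⁻¹, by rw [mem_St, mul_smul, inv_smul_smul, hk], by group⟩
      · have h2 := mem_Cn.1 (QQ_le_Cn_YY _ (c.Kn3_le h h0 _ ha)) _ h1
        rw [← h2, mul_inv_cancel_right]
    · have : {u | ∃ g : G, g • γ = x ∧ u = g * z * g⁻¹} = ∅ :=
        Set.eq_empty_of_forall_notMem fun u ⟨g, hg, _⟩ => hex ⟨g, hg⟩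
      rw [this, Set.ncard_empty]
      exact Nat.zero_le _
  refine ⟨fun x => closure (T x), hE, fun x => (closure_le _).2 (hY x), fun x => ?_, fun x => ?_,
    fun x t => ?_⟩
  · have h1 := LFin0_card (YY_EA (Γ := Γ) (p := p) x) (Set.toFinite (T x)).toFinset
      fun t ht => hY x t ((Set.Finite.mem_toFinset _).1 ht)
    rw [Set.Finite.coe_toFinset, ← Set.ncard_eq_toFinset_card _ (Set.toFinite (T x))] at h1
    refine h1.trans (Nat.pow_le_pow_right hp.out.pos ?_)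
    have h2 : T x ⊆ {u | ∃ g : G, g • α = x ∧ u = g * z * g⁻¹} ∪
        {u | ∃ g : G, g • β = x ∧ u = g * z * g⁻¹} := by
      rintro _ ⟨g, hg | hg, rfl⟩
      · exact Or.inl ⟨g, hg, rfl⟩
      · exact Or.inr ⟨g, hg, rfl⟩
    have h3 := (Set.ncard_le_ncard h2 (Set.toFinite _)).trans (Set.ncard_union_le _ _)
    have h4 := hO x α z2
    have h5 := hO x β z3
    omega
  · obtain ⟨y, hy⟩ := c.has_nbr h x
    obtain ⟨g, hg, -⟩ := c.arc h hy
    intro e
    have h1 : g * z * g⁻¹ ∈ closure (T x) := subset_closure ⟨g, Or.inl hg, rfl⟩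
    have e' : closure (T x) = ⊥ := e
    rw [e', mem_bot] at h1
    exact z1 (by simpa using h1)
  · obtain ⟨y, hy⟩ := c.has_nbr h x
    have := c.kill0 hE hy t h (Z := zpowers z)
      (zpowers_le.2 (subset_closure ⟨1, Or.inl (one_smul _ _), by simp⟩))
      (zpowers_le.2 (subset_closure ⟨1, Or.inr (one_smul _ _), by simp⟩))
      (zpowers_le.2 (Kn_le_St 1 α (QQ_le_K α (YY_le_QQ α z2))))
      (zpowers_le.2 (Kn_le_St 1 β (QQ_le_K β (YY_le_QQ β z3))))
    exact z1 (zpowers_eq_bot.1 this)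

end Pool.Agent.Lib.MP_bf45aa_co
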