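import Pool.Agent.Lib.PSV.LFin0

set_option autoImplicit false
set_option linter.unusedSectionVars false

/-! Critical pairs. -/

namespace Pool.Agent.Lib.MP_bf45aa_co

open Subgroup

variable {V G : Type} [Group G] [MulAction G V] {Γ : SimpleGraph V} [Finite G] [Finite V]
  {p : ℕ} [hp : Fact p.Prime]

/-- A critical pair for the family `U`. -/
structure CP (G : Type) [Group G] [MulAction G V] (Γ : SimpleGraph V) (p d : ℕ)
    (U : V → Subgroup G) (n : ℕ) (α α₁ α' : V) (u : G) : Prop where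
  c : Ctx G Γ
  deg : ∀ v, (Γ.neighborSet v).ncard ≤ d
  equi : ∀ (g : G) x, cj g (U x) = U (g • x)
  le : ∀ x, U x ≤ YY G Γ p x
  card : ∀ x, Nat.card (U x) ≤ p ^ (2 * cb d 3)
  ne : ∀ x, U x ≠ ⊥
  intr : ∀ x, ¬ Tr Γ (Cn (U x) ⊓ St G x) x
  short : ∀ x y, Near Γ n x y → U x ≤ QQ G Γ p y
  adj : Γ.Adj α α₁
  near : Near Γ n α₁ α'
  mem : u ∈ U α'
  notK : u ∉ Kn G Γ 1 α

theorem LFin1_le_W {U : V → Subgroup G} {x y : V} {k : ℕ} (h : Near Γ k x y) :
    U y ≤ WW Γ U x k := le_iSup (fun y : {y // Near Γ k x y} => U y) ⟨y, h⟩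

theorem LFin1_W_le {U : V → Subgroup G} {x : V} {k : ℕ} {X : Subgroup G}
    (h : ∀ y, Near Γ k x y → U y ≤ X) : WW Γ U x k ≤ X := iSup_le fun y => h y.1 y.2

theorem LFin1_W_mono {U : V → Subgroup G} {x y : V} {k l t : ℕ} (h : Near Γ t x y)
    (hl : t + k ≤ l) : WW Γ U y k ≤ WW Γ U x l :=
  LFin1_W_le fun _ hz => LFin1_le_W ((h.trans hz).mono hl)

theorem LFin1_EA_iSup {ι : Type} (A : ι → Subgroup G) (h1 : ∀ i, ∀ a ∈ A i, a ^ p = 1)
    (h2 : (⨆ i, A i) ≤ Cn (⨆ i, A i)) : EA p (⨆ i, A i) := by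
  refine ⟨fun a ha => ?_, h2⟩
  refine Subgroup.iSup_induction' A (C := fun a _ => a ^ p = 1) (fun i a ha => h1 i a ha)
    (one_pow p) (fun a b ha hb ea eb => ?_) ha
  have hc : Commute a b := mem_Cn.1 (h2 hb) a ha
  rw [hc.mul_pow, ea, eb, one_mul]

namespace CP

variable {d n : ℕ} {U : V → Subgroup G} {α α₁ α' : V} {u : G} (P : CP G Γ p d U n α α₁ α' u)
include P

/-- `Near.smul`, `P.equi`. -/
theorem W_equi (g : G) (x : V) (k : ℕ) : cj g (WW Γ U x k) = WW Γ U (g • x) k := by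
  refine cj_eq_of_le (fun (g : G) (x : V) => g • x) act_inv (fun x => WW Γ U x k) ?_ g x
  intro g x
  rw [cj_le_iff]
  refine LFin1_W_le fun y hy => ?_
  rw [← cj_le_iff, P.equi]
  exact LFin1_le_W (hy.smul P.c.adj g)

/-- `P.short`. -/
theorem W_le_Q {x y : V} {k t : ℕ} (h : Near Γ t x y) (hn : k + t ≤ n) :
    WW Γ U x k ≤ QQ G Γ p y :=
  LFin1_W_le fun z hz => P.short z y ((hz.symm.trans h).mono hn)

/-- `U x' ≤ QQ y' ≤ Cn (YY y') ≤ Cn (U y')`. -/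
theorem W_comm {x y : V} {k l t : ℕ} (h : Near Γ t x y) (hn : k + l + t ≤ n) :
    WW Γ U x k ≤ Cn (WW Γ U y l) := by
  rw [le_Cn_comm]
  refine LFin1_W_le fun z hz => ?_
  rw [le_Cn_comm]
  exact (P.W_le_Q (h.trans hz) (by omega)).trans ((QQ_le_Cn_YY z).trans (Cn_anti (P.le z)))

/-- Commuting generators of exponent `p`. -/
theorem W_EA (x : V) {k : ℕ} (hn : 2 * k ≤ n) : EA p (WW Γ U x k) :=
  LFin1_EA_iSup _ (fun y a ha => (YY_EA y.1).1 a (P.le y.1 ha))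
    (P.W_comm (Near.refl 0 x) (by omega))

/-- If the transitive `N` centralises `W x (k + 2)` modulo `W x k` it normalises `W y (k + 1)` for
each neighbour `y`, so these groups coincide, and `L0` kills them. -/
theorem W_layer (x : V) {k : ℕ} (hn : k + 2 ≤ n) (N : Subgroup G) (h1 : N ≤ St G x)
    (h2 : Tr Γ N x) : ∃ g ∈ N, ∃ v ∈ WW Γ U x (k + 2), g * v * g⁻¹ * v⁻¹ ∉ WW Γ U x k := by
  by_contra hc
  push Not at hc
  obtain ⟨y, hy⟩ : ∃ y, Γ.Adj x y := by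
    obtain ⟨w⟩ := P.c.conn x α
    cases w with
    | nil => exact ⟨α₁, P.adj⟩
    | cons h _ => exact ⟨_, h⟩
  have hN : N ≤ Nm (WW Γ U y (k + 1)) := by
    refine le_Nm_of_conj fun g hg v hv => ?_
    have h3 := hc g hg v (LFin1_W_mono (Near.of_adj hy) (by omega) hv)
    have h4 := mul_mem (LFin1_W_mono (l := k + 1) (Near.of_adj hy.symm) (by omega) h3) hv
    rwa [inv_mul_cancel_right] at h4
  have h0 : WW Γ U y (k + 1) = ⊥ := by
    refine P.c.L0 hy ?_ ?_ (h2.mono (le_inf hN h1)) ((P.c.tr_St y).mono (le_inf ?_ le_rfl))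
    · exact (P.W_le_Q (Near.of_adj hy.symm) (by omega)).trans ((QQ_le_K x).trans (Kn_le_St 1 x))
    · exact (P.W_le_Q (Near.refl 0 y) (by omega)).trans ((QQ_le_K y).trans (Kn_le_St 1 y))
    · exact St_le_Nm_of_equi (X := fun y => WW Γ U y (k + 1)) (fun g z => P.W_equi g z _) y
  exact P.ne y (le_bot_iff.1 (h0 ▸ LFin1_le_W (Near.refl (k + 1) y)))

end CP

end Pool.Agent.Lib.MP_bf45aa_co
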