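import Pool.Agent.Lib.PSV.LFin1

set_option autoImplicit false
set_option linter.unusedSectionVars false

/-! Linear growth. -/

namespace Pool.Agent.Lib.MP_bf45aa_co

open Subgroup

variable {V G : Type} [Group G] [MulAction G V] {Γ : SimpleGraph V} [Finite G] [Finite V]
  {p : ℕ} [hp : Fact p.Prime]

theorem LFin2_split {a b : ℕ} {x y : V} (h : Near Γ (a + b) x y) :
    ∃ z, Near Γ a x z ∧ Near Γ b z y := by
  induction a generalizing x with
  | zero => exact ⟨x, Near.refl _ _, by rwa [zero_add] at h⟩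
  | succ a ih =>
    rw [show a + 1 + b = a + b + 1 by omega] at h
    rcases near_succ h with rfl | ⟨z, h1, h2⟩
    · exact ⟨x, Near.refl _ _, Near.refl _ _⟩
    · obtain ⟨w, h3, h4⟩ := ih h2
      exact ⟨w, ((Near.of_adj h1).trans h3).mono (by omega), h4⟩

theorem LFin2_ball {d : ℕ} (hd : ∀ v, (Γ.neighborSet v).ncard ≤ d) (z : V) (m : ℕ) :
    ∃ B : Finset V, B.card ≤ (d + 1) ^ m ∧ ∀ y, Near Γ m z y → y ∈ B := by
  classical
  induction m with
  | zero => exact ⟨{z}, by simp, fun y hy => by simp [near_zero hy]⟩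
  | succ m ih =>
    obtain ⟨B, h1, h2⟩ := ih
    refine ⟨B.biUnion fun y => insert y (Set.toFinite (Γ.neighborSet y)).toFinset, ?_, ?_⟩
    · refine (Finset.card_biUnion_le_card_mul _ _ (d + 1) fun y _ => ?_).trans ?_
      · refine (Finset.card_insert_le _ _).trans (Nat.succ_le_succ ?_)
        rw [← Set.ncard_eq_toFinset_card]
        exact hd y
      · rw [pow_succ]
        exact Nat.mul_le_mul_right _ h1
    · intro y hy
      rcases near_succ' hy with rfl | ⟨w, h3, h4⟩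
      · exact Finset.mem_biUnion.2 ⟨z, h2 z (Near.refl _ _), Finset.mem_insert_self _ _⟩
      · exact Finset.mem_biUnion.2 ⟨w, h2 w h3, Finset.mem_insert_of_mem (by simpa using h4)⟩

theorem LFin2_W_near (U : V → Subgroup G) {x y : V} (h : Near Γ 1 x y) (k : ℕ) :
    WW Γ U y k ≤ WW Γ U x (k + 1) :=
  iSup_le fun z => le_iSup (fun z : {y // Near Γ (k + 1) x y} => U z)
    ⟨z.1, (h.trans z.2).mono (by omega)⟩

theorem LFin2_tr (c : Ctx G Γ) {α α₁ : V} {u : G} (h : Γ.Adj α α₁) (h1 : u • α = α)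
    (h2 : u • α₁ = α₁) (h3 : u ∉ Kn G Γ 1 α) {ι : Type} (t : ι → G) (ht : ∀ i, t i ∈ St G α)
    (hc : ∀ g ∈ St G α, ∃ i, (t i)⁻¹ * g ∈ Kn G Γ 1 α) (C : Subgroup G) (hC : C ≤ St G α)
    (hu : ∀ i, t i * u * (t i)⁻¹ ∈ C) : Tr Γ C α := by
  let M : Subgroup G := closure {a | ∃ g ∈ St G α, g * u * g⁻¹ = a}
  have hu0 : u ∈ St G α := h1
  have hM : M ≤ St G α := by
    refine (closure_le _).2 ?_
    rintro _ ⟨g, hg, rfl⟩
    exact mul_mem (mul_mem hg hu0) (inv_mem hg)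
  have hN : St G α ≤ Nm M := by
    refine le_Nm_of_cj_le fun g hg => cj_le_iff.2 ((closure_le _).2 ?_)
    rintro _ ⟨g', hg', rfl⟩
    refine mem_cj.2 (subset_closure ⟨g * g', mul_mem hg hg', ?_⟩)
    group
  have hT : Tr Γ M α := c.sp_tr hM hN h (subset_closure ⟨1, one_mem _, by group⟩) h2 h3
  have hle : M ≤ C ⊔ Kn G Γ 1 α := by
    refine (closure_le _).2 ?_
    rintro _ ⟨g, hg, rfl⟩
    obtain ⟨i, hi⟩ := hc g hg
    have k1 := conj_mem_of_Nm' (c.St_le_Nm_Kn 1 α hu0) hi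
    have k2 := conj_mem_of_Nm (c.St_le_Nm_Kn 1 α (ht i)) (mul_mem k1 (inv_mem hi))
    have k3 := mul_mem_sup (hu i) k2
    have k4 : g * u * g⁻¹ = t i * u * (t i)⁻¹ *
        (t i * (u⁻¹ * ((t i)⁻¹ * g) * u * ((t i)⁻¹ * g)⁻¹) * (t i)⁻¹) := by group
    rw [k4]
    exact k3
  intro x y hx hy
  obtain ⟨m, hm, e⟩ := hT x y hx hy
  obtain ⟨a, ha, b, hb, rfl⟩ := mem_sup_of_left_Nm (hC.trans (c.St_le_Nm_Kn 1 α)) (hle hm)
  refine ⟨a, ha, ?_⟩
  rwa [mul_smul, (mem_K1.1 hb).2 x hx] at e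

theorem LFin2_reps (c : Ctx G Γ) {d : ℕ} (hd : ∀ v, (Γ.neighborSet v).ncard ≤ d) (α : V) :
    ∃ (m : ℕ) (t : Fin m → G), m ≤ cb d 1 ∧ (∀ i, t i ∈ St G α) ∧
      ∀ g ∈ St G α, ∃ i, (t i)⁻¹ * g ∈ Kn G Γ 1 α := by
  let e := Finite.equivFin (St G α ⧸ (Kn G Γ 1 α).subgroupOf (St G α))
  refine ⟨_, fun i => ((e.symm i).out : St G α), c.relIndex_Kn hd 1 α, fun i => Subtype.prop _,
    fun g hg => ⟨e (QuotientGroup.mk ⟨g, hg⟩), ?_⟩⟩
  have h1 : (QuotientGroup.mk (⟨g, hg⟩ : St G α) :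
      St G α ⧸ (Kn G Γ 1 α).subgroupOf (St G α)).out⁻¹ * ⟨g, hg⟩ ∈
      (Kn G Γ 1 α).subgroupOf (St G α) := QuotientGroup.eq.1 (QuotientGroup.out_eq' _)
  rw [mem_subgroupOf] at h1
  simpa using h1

namespace CP

variable {d n : ℕ} {U : V → Subgroup G} {α α₁ α' : V} {u : G} (P : CP G Γ p d U n α α₁ α' u)
include P

theorem LFin2_conj {k : ℕ} (hn : k + 2 ≤ n) : ∃ S : Finset G,
    S.card ≤ (d + 1) ^ (k + 1) * p ^ (2 * cb d 3) ∧
      ∀ v ∈ WW Γ U α (k + 1), v * u * v⁻¹ ∈ S := by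
  classical
  have h1 : Near Γ (n - k - 1 + 1 + (k + 1)) α α' :=
    ((Near.of_adj P.adj).trans P.near).mono (by omega)
  obtain ⟨z, h2, h3⟩ := LFin2_split h1
  obtain ⟨B, h4, h5⟩ := LFin2_ball P.deg z (k + 1)
  refine ⟨B.biUnion fun y => (Set.toFinite (U y : Set G)).toFinset, ?_, fun v hv => ?_⟩
  · refine (Finset.card_biUnion_le_card_mul _ _ (p ^ (2 * cb d 3)) fun y _ => ?_).trans
      (Nat.mul_le_mul_right _ h4)
    rw [← Set.ncard_eq_toFinset_card, ← Nat.card_coe_set_eq]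
    exact P.card y
  · have h6 : v • z = z := by
      rcases near_succ' h2 with rfl | ⟨y, h7, h8⟩
      · exact (mem_K1.1 (QQ_le_K _ (P.W_le_Q (Near.refl 0 α) (by omega) hv))).1
      · exact (mem_K1.1 (QQ_le_K _ (P.W_le_Q h7 (by omega) hv))).2 z h8
    have h7 := h3.smul P.c.adj v
    rw [h6] at h7
    refine Finset.mem_biUnion.2 ⟨v • α', h5 _ h7, ?_⟩
    rw [Set.Finite.mem_toFinset, SetLike.mem_coe, ← P.equi]
    exact conj_mem_cj P.mem

theorem LFin2_base {k : ℕ} (hn : k + 2 ≤ n) :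
    Nat.card (WW Γ U α k) ≤ ((d + 1) ^ (k + 1) * p ^ (2 * cb d 3)) ^ (2 * cb d 1) := by
  classical
  obtain ⟨S, hS, hS'⟩ := P.LFin2_conj hn
  obtain ⟨m, t, hm, ht, hc⟩ := LFin2_reps P.c P.deg α
  obtain ⟨g₀, g1, g2⟩ := P.c.arc P.adj P.adj.symm
  have hu := mem_K1.1 (QQ_le_K _ (P.short α' α₁ P.near.symm P.mem))
  have hu1 : u • α = α := hu.2 α P.adj.symm
  have htr := LFin2_tr P.c P.adj hu1 hu.1 P.notK t ht hc
  let h : Fin m ⊕ Fin m → G := Sum.elim t fun i => g₀ * t i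
  have hh : ∀ i, Near Γ 1 α ((h i)⁻¹ • α) := by
    rintro (i | i)
    · have : (t i)⁻¹ • α = α := inv_mem (ht i)
      simp only [h, Sum.elim_inl, this]
      exact Near.refl _ _
    · have h1 : g₀⁻¹ • α = α₁ := inv_smul_eq_iff.2 g2.symm
      simp only [h, Sum.elim_inr, mul_inv_rev, mul_smul, h1]
      exact Near.of_adj (P.c.adj_St (inv_mem (ht i)) P.adj)
  have hW : ∀ i, ∀ v ∈ WW Γ U α k, (h i)⁻¹ * v * (h i)⁻¹⁻¹ ∈ WW Γ U α (k + 1) := by
    intro i v hv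
    refine LFin2_W_near U (hh i) k ?_
    rw [← P.W_equi]
    exact conj_mem_cj hv
  let Φ : WW Γ U α k → Fin m ⊕ Fin m → S := fun v i => ⟨_, hS' _ (hW i v v.2)⟩
  have hΦ : Function.Injective Φ := by
    intro v v' e
    have hw : (v'⁻¹ * v : WW Γ U α k).1 ∈ Kn G Γ 1 α :=
      QQ_le_K _ (P.W_le_Q (Near.refl 0 α) (by omega) (v'⁻¹ * v).2)
    set w : G := (v'⁻¹ * v : WW Γ U α k).1 with hw'
    have hw1 : w = (v' : G)⁻¹ * v := rfl
    have hN : ∀ i, h i * u * (h i)⁻¹ ∈ Nm (zpowers w) := by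
      intro i
      have e1 : (h i)⁻¹ * v * (h i)⁻¹⁻¹ * u * ((h i)⁻¹ * v * (h i)⁻¹⁻¹)⁻¹ =
          (h i)⁻¹ * v' * (h i)⁻¹⁻¹ * u * ((h i)⁻¹ * v' * (h i)⁻¹⁻¹)⁻¹ :=
        congrArg Subtype.val (congrFun e i)
      have e2 : w * (h i * u * (h i)⁻¹) * w⁻¹ = h i * u * (h i)⁻¹ := by
        have e3 : w * (h i * u * (h i)⁻¹) * w⁻¹ = (v' : G)⁻¹ * h i *
            ((h i)⁻¹ * v * (h i)⁻¹⁻¹ * u * ((h i)⁻¹ * v * (h i)⁻¹⁻¹)⁻¹) * (h i)⁻¹ * v' := by
          rw [hw1]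
          group
        rw [e3, e1]
        group
      rw [mem_Nm_iff, cj_zpowers]
      congr 1
      rw [mul_inv_eq_iff_eq_mul] at e2 ⊢
      exact e2.symm
    have hx : zpowers w ≤ St G α := zpowers_le.2 (mem_K1.1 hw).1
    have hy : zpowers w ≤ St G α₁ := zpowers_le.2 ((mem_K1.1 hw).2 _ P.adj)
    have hc1 : ∀ i, t i * u * (t i)⁻¹ ∈ St G α := fun i =>
      mul_mem (mul_mem (ht i) hu1) (inv_mem (ht i))
    have tx : Tr Γ (Nm (zpowers w) ⊓ St G α) α :=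
      htr _ inf_le_right fun i => ⟨hN (Sum.inl i), hc1 i⟩
    have ty : Tr Γ (Nm (zpowers w) ⊓ St G α₁) α₁ := by
      have h1 : g₀⁻¹ • α₁ = α := inv_smul_eq_iff.2 g1.symm
      have h2 := P.c.tr_cj (htr (cj g₀⁻¹ (Nm (zpowers w) ⊓ St G α₁)) ?_ fun i => ?_) g₀
      · rwa [cj_cj_inv, g1] at h2
      · rw [cj_inf, cj_St, h1]
        exact inf_le_right
      · rw [cj_inf, cj_St, h1]
        refine ⟨mem_cj.2 ?_, hc1 i⟩
        convert hN (Sum.inr i) using 1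
        simp only [h, Sum.elim_inr]
        group
    have h0 := P.c.L0 P.adj hx hy tx ty
    rw [zpowers_eq_bot, hw1, inv_mul_eq_one] at h0
    exact (Subtype.ext h0).symm
  refine (Nat.card_le_card_of_injective Φ hΦ).trans ?_
  rw [Nat.card_fun, Nat.card_sum, Nat.card_eq_finsetCard, Nat.card_fin]
  refine (Nat.pow_le_pow_left hS _).trans (Nat.pow_le_pow_right ?_ (by omega))
  exact Nat.mul_pos (Nat.pow_pos (Nat.succ_pos d)) (Nat.pow_pos hp.out.pos)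

/-- Linear growth. It suffices to take `x = α`. For `v ∈ W α (k + 1)` the conjugate `v u v⁻¹` lies
in `U (v • α')`, and `v` fixes a vertex `z` (depending only on `k`) within `k + 1` of `α'` on the
walk, so there are at most `(d + 1) ^ (k + 1) * p ^ (2 cb d 3)` such conjugates. Let `t` run over
representatives of the cosets of `Kn 1 α` in `St G α` (at most `cb d 1`): the `t u t⁻¹` generate a
subgroup of `St G α` transitive on the neighbours (`sp_tr` for the normal closure). With `g₀`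
swapping `α` and `α₁`, an element `v ∈ W α k ≤ W α₁ (k + 1)` commuting with all `t u t⁻¹` and all
`g₀ t u t⁻¹ g₀⁻¹` is trivial by `L0` for `zpowers v`. So `v ↦` (its `2 cb d 1` conjugates) is
injective on `W α k`. Finally `d + 1 ≤ p ^ d`. -/
theorem W_card (x : V) {k : ℕ} (hn : k + 2 ≤ n) :
    Nat.card (WW Γ U x k) ≤ p ^ (2 * cb d 1 * (2 * d + 2 * cb d 3) * (k + 1)) := by
  have h1 : ∃ g : G, g • α = x := by
    obtain ⟨w⟩ := P.c.conn x α
    cases w with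
    | nil => exact ⟨1, one_smul _ _⟩
    | cons h2 _ =>
      obtain ⟨g, h3, -⟩ := P.c.arc P.adj h2
      exact ⟨g, h3⟩
  obtain ⟨g, rfl⟩ := h1
  rw [← P.W_equi, card_cj]
  refine (P.LFin2_base hn).trans ?_
  have h2 : d + 1 ≤ p ^ d := Nat.lt_pow_self hp.out.one_lt
  refine (Nat.pow_le_pow_left (Nat.mul_le_mul_right _ (Nat.pow_le_pow_left h2 _)) _).trans ?_
  rw [← pow_mul, ← pow_add, ← pow_mul]
  refine Nat.pow_le_pow_right hp.out.pos ?_
  rw [mul_comm, mul_assoc (2 * cb d 1)]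
  refine Nat.mul_le_mul_left _ ?_
  nlinarith [Nat.zero_le (d * k), Nat.zero_le (cb d 3 * k)]

end CP

end Pool.Agent.Lib.MP_bf45aa_co
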