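import Pool.Agent.Lib.PSV.LP21

set_option autoImplicit false
set_option linter.unusedSectionVars false

/-! Two consecutive Peirce-2 steps lose dimension. -/

namespace Pool.Agent.Lib.MP_bf45aa_co

open Subgroup Module Polynomial
open scoped MatrixGroups

/-- The ring relations used below. -/
structure LP2_Rel {A : Type*} [Ring A] (x η a ζ : A) : Prop where
  xx : x * x = 0
  sq : η * η = 0
  yxy : η * x * η = η
  ha : x * η * a * (η * x) = a
  zaz : ζ * a * ζ = ζ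

namespace LP2_Rel

variable {A : Type*} [Ring A] {x η a ζ : A} (h : LP2_Rel x η a ζ)
include h

theorem r1 (z : A) : x * (x * z) = 0 := by rw [← mul_assoc, h.xx, zero_mul]

theorem r2 (z : A) : η * (η * z) = 0 := by rw [← mul_assoc, h.sq, zero_mul]

theorem r3 (z : A) : η * (x * (η * z)) = η * z := by rw [← mul_assoc, ← mul_assoc, h.yxy]

theorem r3' : η * (x * η) = η := by rw [← mul_assoc, h.yxy]

theorem r4' : x * (η * a) = a :=
  calc x * (η * a) = x * (η * (x * η * a * (η * x))) := by rw [h.ha]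
    _ = x * η * a * (η * x) := by simp only [mul_assoc, h.r3]
    _ = a := h.ha

theorem r4 (z : A) : x * (η * (a * z)) = a * z := by
  rw [← mul_assoc η, ← mul_assoc x, h.r4']

theorem r5' : a * (η * x) = a :=
  calc a * (η * x) = x * η * a * (η * x) * (η * x) := by rw [h.ha]
    _ = x * η * a * (η * x) := by simp only [mul_assoc, h.r3]
    _ = a := h.ha

theorem r5 (z : A) : a * (η * (x * z)) = a * z := by
  rw [← mul_assoc η, ← mul_assoc a, h.r5']

theorem r6' : x * a = 0 := by rw [← h.r4', h.r1]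

theorem r6 (z : A) : x * (a * z) = 0 := by rw [← mul_assoc, h.r6', zero_mul]

theorem r7' : a * x = 0 := by rw [← h.r5', mul_assoc, mul_assoc, h.xx, mul_zero, mul_zero]

theorem r7 (z : A) : a * (x * z) = 0 := by rw [← mul_assoc, h.r7', zero_mul]

theorem r8' : a * a = 0 := by
  have : a * a = a * (x * (η * a)) := by rw [h.r4']
  rw [this, h.r7]

theorem r8 (z : A) : a * (a * z) = 0 := by rw [← mul_assoc, h.r8', zero_mul]

theorem r9 (z : A) : ζ * (a * (ζ * z)) = ζ * z := by rw [← mul_assoc, ← mul_assoc, h.zaz]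

theorem r9' : ζ * (a * ζ) = ζ := by rw [← mul_assoc, h.zaz]

theorem cη : Commute η (tau a η) := by
  simp only [Commute, SemiconjBy, tau, mul_add, add_mul, mul_assoc, h.r2, h.sq, mul_zero,
    add_zero, zero_add]

theorem ce : Commute (x * η) (tau a η) := by
  simp only [Commute, SemiconjBy, tau, mul_add, add_mul, mul_assoc, h.r2, h.r3', h.r4, h.r7,
    mul_zero, add_zero]

theorem cf : Commute (η * x) (tau a η) := by
  simp only [Commute, SemiconjBy, tau, mul_add, add_mul, mul_assoc, h.r2, h.r3, h.r5', h.r6,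
    mul_zero, zero_add]

theorem xt : x * η * x * tau a η = a := by
  simp only [tau, mul_add, mul_assoc, h.r6, h.r4', mul_zero, zero_add]

theorem eft : tau a η = x * η * tau a η + η * x * tau a η := by
  simp only [tau, mul_add, mul_assoc, h.r2, h.r3, h.r4, h.r6, mul_zero, add_zero, zero_add]

theorem c_split : x * η * x - a * ζ * (x * η * x) * (ζ * a) =
    x * η * x * (1 - ζ * a) + (1 - a * ζ) * (x * η * x * (ζ * a)) := by
  noncomm_ring

theorem c_e : (x * η * x - a * ζ * (x * η * x) * (ζ * a)) * (x * η) = 0 := by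
  simp only [sub_mul, mul_assoc, h.r1, h.r7, mul_zero, sub_zero]

theorem c_η : (x * η * x - a * ζ * (x * η * x) * (ζ * a)) * η =
    x * η - a * ζ * (x * η * x) * ζ * (x * η * tau a η) := by
  simp only [tau, sub_mul, mul_add, mul_assoc, h.r2, h.r3', h.r4, mul_zero, add_zero]

theorem f_back : ζ * a = ζ * a * η * (x * η * x * (ζ * a)) := by
  simp only [mul_assoc, h.r3, h.r5, h.r9]

theorem e_fac : a * ζ = a * (ζ * a * ζ) := by rw [h.zaz]

theorem indep : ζ * a * η * (x * η * x * (1 - ζ * a)) = 0 := by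
  simp only [mul_sub, mul_one, mul_assoc, h.r3, h.r5, h.r5', h.r9, sub_self]

theorem Be {u m₀ m₁ m₂ m₃ : A} :
    u * (m₀ * (x * η) + m₁ * (x * η * x) + m₂ * η + m₃ * (η * x)) * (x * η) =
      u * m₀ * (x * η) + u * m₂ * η := by
  simp only [mul_add, add_mul, mul_assoc, h.r1, h.r3', mul_zero, add_zero]

theorem fe : η * x * (x * η) = 0 := by simp only [mul_assoc, h.r1, mul_zero]

theorem fη : η * x * η = η := h.yxy

theorem ee' : x * η * (a * ζ) = a * ζ := by simp only [mul_assoc, h.r4]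

theorem e'e' : a * ζ * (a * ζ) = a * ζ := by simp only [mul_assoc, h.r9']

theorem ex' : x * η * x = x * η * (x * η * x) := by simp only [mul_assoc, h.r3]

theorem ηx' : η * (x * η * x) = η * x := by simp only [mul_assoc, h.r3]

theorem x'η : x * η * x * η = x * η := by simp only [mul_assoc, h.r3']

theorem ff : η * x * (η * x) = η * x := by simp only [mul_assoc, h.r3]

end LP2_Rel

section Lin

variable {F V : Type*} [Field F] [AddCommGroup V] [Module F V]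

theorem LP2_null (a : End F V) (W : Submodule F V) [Module.Finite F W] {W' : Submodule F V}
    (h1 : W' ≤ W) (h2 : ∀ v ∈ W', a v = 0) : rk a W + finrank F W' ≤ finrank F W := by
  have h3 := (a.domRestrict W).finrank_range_add_finrank_ker
  rw [LinearMap.range_domRestrict] at h3
  have h4 : finrank F W' ≤ finrank F (LinearMap.ker (a.domRestrict W)) := by
    rw [← Submodule.finrank_map_subtype_eq W]
    exact finrank_mono' fun v hv => ⟨⟨v, h1 hv⟩, h2 v hv, rfl⟩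
  unfold rk
  omega

theorem LP2_disj {A B W : Submodule F V} [Module.Finite F W] (hA : A ≤ W) (hB : B ≤ W)
    (h : ∀ v ∈ A, v ∈ B → v = 0) : finrank F A + finrank F B ≤ finrank F W := by
  have := Submodule.finiteDimensional_of_le hA
  have := Submodule.finiteDimensional_of_le hB
  have h1 : A ⊓ B = ⊥ := (Submodule.eq_bot_iff _).2 fun v hv => h v hv.1 hv.2
  rw [← Submodule.finrank_sup_add_finrank_inf_eq, h1, finrank_bot, add_zero]
  exact finrank_mono' (sup_le hA hB)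

theorem LP2_part1 {x η a ζ : End F V} (h : LP2_Rel x η a ζ) {M W W' : Submodule F V}
    [Module.Finite F M] [Module.Finite F W] (ha : ∀ v ∈ M, a v ∈ M) (hζ : ∀ v ∈ M, ζ v ∈ M)
    (hW : ∀ v ∈ M, (x * η * x) v ∈ W) (h1 : W' ≤ M) (h2 : W' ≤ W) (h3 : ∀ v ∈ W', (a * ζ) v = v)
    {θ : ℕ} (hlt : finrank F W < finrank F W' + θ) :
    rk (x * η * x * (1 - ζ * a)) M < θ ∧
      rk (x * η * x - a * ζ * (x * η * x) * (ζ * a)) M + 2 ≤ 2 * θ := by
  have hf : ∀ v ∈ M, (ζ * a) v ∈ M := fun v hv => hζ _ (ha v hv)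
  have hf' : ∀ v ∈ M, (1 - ζ * a : End F V) v ∈ M := fun v hv => sub_mem hv (hf v hv)
  have k1 : rk (x * η * x * (1 - ζ * a)) M + rk (x * η * x * (ζ * a)) M ≤ finrank F W := by
    refine LP2_disj ?_ ?_ ?_
    · rintro _ ⟨v, hv, rfl⟩
      exact hW _ (hf' v hv)
    · rintro _ ⟨v, hv, rfl⟩
      exact hW _ (hf v hv)
    · rintro _ ⟨u, -, rfl⟩ ⟨v, -, e⟩
      have e1 : (ζ * a) v = 0 := by
        rw [h.f_back, End.mul_apply, e, ← End.mul_apply, h.indep, LinearMap.zero_apply]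
      rw [← e, End.mul_apply, e1, map_zero]
  have k2 : rk (ζ * a) M ≤ rk (x * η * x * (ζ * a)) M := by
    conv_lhs => rw [h.f_back]
    exact rk_mul_le_right _ _ _
  have k3 : rk (a * ζ) M ≤ rk (ζ * a) M := by
    rw [h.e_fac]
    exact (rk_mul_le_right _ _ _).trans (rk_mul_le_left _ hζ)
  have k4 : finrank F W' ≤ rk (a * ζ) M := finrank_mono' fun v hv => ⟨v, h1 hv, h3 v hv⟩
  have k5 : rk (1 - a * ζ) W + finrank F W' ≤ finrank F W :=
    LP2_null _ W h2 fun v hv => by rw [LinearMap.sub_apply, h3 v hv, End.one_apply, sub_self]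
  have k6 : rk ((1 - a * ζ) * (x * η * x * (ζ * a))) M ≤ rk (1 - a * ζ) W :=
    rk_mul_le_left _ fun v hv => hW _ (hf v hv)
  have k7 := rk_add_le (x * η * x * (1 - ζ * a)) ((1 - a * ζ) * (x * η * x * (ζ * a))) M
  rw [h.c_split]
  omega

theorem LP2_ind {L t : End F V} {M : Submodule F V} (hn : NilOn t M ⊥)
    (h : ∀ v ∈ M, ∃ u ∈ M, (∀ j : ℕ, (t ^ (j + 1)) v = 0 → (t ^ j) u = 0) ∧ (L u = 0 → L v = 0)) :
    ∀ v ∈ M, L v = 0 := by
  have key : ∀ j : ℕ, ∀ v ∈ M, (t ^ j) v = 0 → L v = 0 := by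
    intro j
    induction j with
    | zero =>
      intro v _ hv
      rw [pow_zero, End.one_apply] at hv
      rw [hv, map_zero]
    | succ j ih =>
      intro v hv e
      obtain ⟨u, hu, h1, h2⟩ := h v hv
      exact h2 (ih u hu (h1 j e))
  obtain ⟨n, hn⟩ := hn
  exact fun v hv => key n v hv ((Submodule.mem_bot F).1 (hn v hv))

theorem LP2_comm {u t : End F V} (h : Commute u t) (m : F[X]) : Commute u (aeval t m) :=
  Algebra.commute_of_mem_adjoin_singleton_of_commute (aeval_mem_adjoin_singleton F t) h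

theorem LP2_unit {L t : End F V} {M : Submodule F V} (hn : NilOn t M ⊥)
    (ht : ∀ v ∈ M, t v ∈ M) (hq : ∀ q : F[X], ∀ v ∈ M, aeval t q v ∈ M) {m : F[X]}
    (hm : m.coeff 0 ≠ 0) (hL : ∀ v ∈ M, L (aeval t m v) = 0) : ∀ v ∈ M, L v = 0 := by
  refine LP2_ind hn fun v hv => ⟨aeval t m.divX (t v), hq _ _ (ht v hv), fun j e => ?_,
    fun e => ?_⟩
  · rw [← End.mul_apply, ((LP2_comm (Commute.refl t) m.divX).pow_left j).eq, End.mul_apply,
      ← End.mul_apply (t ^ j), ← pow_succ, e, map_zero]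
  · have e1 := hL v hv
    rw [← divX_mul_X_add m, map_add, map_mul, aeval_X, aeval_C, LinearMap.add_apply, map_add,
      End.mul_apply, e, zero_add, Module.algebraMap_end_apply, map_smul] at e1
    exact (smul_eq_zero.1 e1).resolve_left hm

theorem LP2_eta {x η a ζ : End F V} (h : LP2_Rel x η a ζ) {M : Submodule F V}
    (hx : ∀ v ∈ M, x v ∈ M) {k : ℕ} (hk : 1 ≤ k) (h0 : ∀ v ∈ M, (η * tau a η ^ k) v = 0) :
    ∀ v ∈ M, (tau a η ^ k) v = 0 := by
  intro v hv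
  obtain ⟨k, rfl⟩ := Nat.exists_eq_add_of_le' hk
  have e1 : tau a η ^ (k + 1) = x * (η * tau a η ^ (k + 1)) + η * tau a η ^ (k + 1) * x := by
    have e2 : η * tau a η ^ (k + 1) * x = η * x * tau a η ^ (k + 1) := by
      rw [(h.cη.pow_right _).eq, (h.cf.pow_right _).eq, mul_assoc]
    rw [e2, ← mul_assoc, pow_succ', ← mul_assoc, ← mul_assoc, ← add_mul, ← h.eft]
  rw [e1, LinearMap.add_apply, End.mul_apply x, h0 v hv, End.mul_apply _ x, h0 _ (hx v hv),
    map_zero, add_zero]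

/-- The commutation relation forces `t ^ n = 0`. -/
theorem LP2_part2 {x η a ζ : End F V} (h : LP2_Rel x η a ζ) {M : Submodule F V}
    (hx : ∀ v ∈ M, x v ∈ M) (hη : ∀ v ∈ M, η v ∈ M) (hn : NilOn (tau a η) M ⊥)
    (ht : ∀ v ∈ M, tau a η v ∈ M) (hq : ∀ q : F[X], ∀ v ∈ M, aeval (tau a η) q v ∈ M)
    {n : ℕ} (h1 : 1 ≤ n) {m₀ m₁ m₂ m₃ : F[X]} (hm : m₂.coeff 0 ≠ 0) {c N : End F V}
    (hc : c = x * η * x - a * ζ * (x * η * x) * (ζ * a))
    (hN : N = tau a η ^ n * (aeval (tau a η) m₀ * (x * η) + aeval (tau a η) m₁ * (x * η * x) +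
        aeval (tau a η) m₂ * η + aeval (tau a η) m₃ * (η * x)))
    (hcN : ∀ v ∈ M, c (N v) = N (c v)) : ∀ v ∈ M, (tau a η ^ n) v = 0 := by
  have ce : c * (x * η) = 0 := by rw [hc, h.c_e]
  have e1 : c * (N * (x * η)) = c * η * tau a η ^ n * aeval (tau a η) m₂ := by
    rw [hN, h.Be, mul_add, ← ((h.ce.pow_right n).mul_right (LP2_comm h.ce m₀)).eq,
      ← ((h.cη.pow_right n).mul_right (LP2_comm h.cη m₂)).eq, ← mul_assoc c, ce, zero_mul,
      zero_add, ← mul_assoc, ← mul_assoc]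
  have k1 : ∀ v ∈ M, (c * η * tau a η ^ n) v = 0 := by
    refine LP2_unit hn ht hq hm fun v hv => ?_
    rw [← End.mul_apply, ← e1, End.mul_apply, End.mul_apply, hcN ((x * η) v) (hx _ (hη v hv)),
      ← End.mul_apply c, ce, LinearMap.zero_apply, map_zero]
  have k2 : ∀ v ∈ M, (x * η * tau a η ^ n) v = 0 := by
    refine LP2_ind hn fun v hv => ⟨tau a η v, ht v hv, fun j e => ?_, fun e => ?_⟩
    · rw [← End.mul_apply, ← pow_succ, e]
    · have e2 := k1 v hv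
      rw [hc, h.c_η, sub_mul, LinearMap.sub_apply, sub_eq_zero] at e2
      rw [e2, mul_assoc _ _ (tau a η ^ n), mul_assoc _ _ (tau a η ^ n), ← pow_succ', pow_succ,
        ← mul_assoc (x * η), End.mul_apply, End.mul_apply _ (tau a η), e, map_zero]
  refine LP2_eta h hx h1 fun v hv => ?_
  have e3 : η * tau a η ^ n = η * (x * η * tau a η ^ n) := by
    rw [← mul_assoc, h.r3']
  rw [e3, End.mul_apply, k2 v hv, map_zero]

/-- If the congruence element is trivial then `t ^ n = 0`. -/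
theorem LP2_part3 {x η a ζ : End F V} (h : LP2_Rel x η a ζ) {M : Submodule F V}
    (hx : ∀ v ∈ M, x v ∈ M) (hη : ∀ v ∈ M, η v ∈ M) (hn : NilOn (tau a η) M ⊥)
    (ht : ∀ v ∈ M, tau a η v ∈ M) (hq : ∀ q : F[X], ∀ v ∈ M, aeval (tau a η) q v ∈ M)
    {n : ℕ} (h1 : 1 ≤ n) {m₀ m₁ m₂ m₃ : F[X]} (hm : m₂.coeff 0 ≠ 0) {N : End F V}
    (hN : N = tau a η ^ n * (aeval (tau a η) m₀ * (x * η) + aeval (tau a η) m₁ * (x * η * x) +
        aeval (tau a η) m₂ * η + aeval (tau a η) m₃ * (η * x)))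
    (h0 : ∀ v ∈ M, N v = 0) : ∀ v ∈ M, (tau a η ^ n) v = 0 := by
  have e1 : η * x * (N * (x * η)) = η * tau a η ^ n * aeval (tau a η) m₂ := by
    rw [hN, h.Be, mul_add, ← ((h.ce.pow_right n).mul_right (LP2_comm h.ce m₀)).eq,
      ← ((h.cη.pow_right n).mul_right (LP2_comm h.cη m₂)).eq, ← mul_assoc (η * x), h.fe, zero_mul,
      zero_add, ← mul_assoc (η * x), h.fη, ← mul_assoc]
  refine LP2_eta h hx h1 (LP2_unit hn ht hq hm fun v hv => ?_)
  rw [← End.mul_apply, ← e1, End.mul_apply, End.mul_apply N, h0 ((x * η) v) (hx _ (hη v hv)),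
    map_zero]

/-- The kernel of `t` is small. -/
theorem LP2_part4 {x η a ζ : End F V} (h : LP2_Rel x η a ζ) {M₁ M : Submodule F V}
    [Module.Finite F M] (hle : M₁ ≤ M) (hx : ∀ v ∈ M₁, x v ∈ M₁) (hη : ∀ v ∈ M₁, η v ∈ M₁)
    {N : End F V} (h1 : ∀ v ∈ M₁, N v ∈ M₁) (h2 : ∀ v ∈ M₁, tau a η (N v) = 0)
    (h3 : N = x * η * N + η * x * N) : rk N M₁ ≤ 2 * rk (x * η * x * (1 - ζ * a)) M := by
  set S := M.map (η * (x * η * x * (1 - ζ * a))) with hS
  have k1 : ∀ u ∈ M₁, tau a η u = 0 → (η * x) u = u → u ∈ S := by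
    intro u hu e1 e2
    refine ⟨u, hle hu, ?_⟩
    have e3 : a u = 0 := by rw [← h.xt, End.mul_apply, e1, map_zero]
    rw [← mul_assoc, h.ηx', End.mul_apply, LinearMap.sub_apply, End.mul_apply ζ, e3, map_zero,
      sub_zero, End.one_apply, e2]
  have k2 : rk N M₁ ≤ finrank F (S.map (x * η * x) ⊔ S : Submodule F V) := by
    refine rk_le_of_le fun v hv => ?_
    rw [h3, LinearMap.add_apply, End.mul_apply _ N, End.mul_apply _ N]
    refine Submodule.add_mem_sup ⟨η (N v), k1 _ (hη _ (h1 v hv)) ?_ ?_, ?_⟩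
      (k1 _ (hη _ (hx _ (h1 v hv))) ?_ ?_)
    · rw [← End.mul_apply, ← h.cη.eq, End.mul_apply, h2 v hv, map_zero]
    · rw [← End.mul_apply, h.fη]
    · rw [← End.mul_apply, h.x'η]
    · rw [← End.mul_apply, ← h.cf.eq, End.mul_apply, h2 v hv, map_zero]
    · rw [← End.mul_apply, h.ff]
  have k3 := Submodule.finrank_add_le_finrank_add_finrank (S.map (x * η * x)) S
  have k4 := Submodule.finrank_map_le (x * η * x) S
  have k5 : finrank F S ≤ rk (x * η * x * (1 - ζ * a)) M := rk_mul_le_right _ _ _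
  omega

end Lin

namespace LD

variable {p : ℕ} [Fact p.Prime] {H X V : Type} [Group H] [MulAction H X] [AddCommGroup V]
  [Module (ZMod p) V] {D : LD p H X V}

namespace Partner

variable {w : X} {x η : End (ZMod p) V} (P : D.Partner w x η)
include P

/-- Notation as in `cong`, `e' = a ζ`, `f' = ζ a`, `c' = x' - e' x' f' = x' (1 - f') + (1 - e') x' f'`.
Suppose the inequality fails, and let `M = Vb y (R' + σ)`, so `Vb o R' ≤ M ≤ Vb w (R' + 3 σ)`,
`x' M ≤ range e ⊓ Vb o R` and `Vb w (R' - σ) ≤ M`. (1) `ker x' = ker f ≤ ker f'` (`f' f = f'`), so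
`x' (1 - f') M` and `x' f' M` are independent in `x' M` and `rk (x' f') M = rk f' M ≥ rk e' M ≥
finrank (range e' ⊓ Vb o R')`; hence `rk (x' (1 - f')) M < θ`. Also `1 - e'` kills
`range e' ⊓ Vb o R ≤ range e ⊓ Vb o R`, so `rk ((1 - e') x' f') M < θ`, and `rk c' M ≤ 2 θ - 2`.
(2) Let `n` be least with `t ^ n = 0` on `M₀ = Vb w (16 σ + 2)` (`tau_nil`); `n ≥ 2` because
`x' t = a` is non-zero on `Vb o σ`. Take `h` from `cong` for `n` and `g` from `thin_elt`. By `deep`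
`h ∈ Kn (16 σ + 1) w`, so `k = g⁻¹ h⁻¹ g h ∈ Kn 1 w` (`Kn_conj`, `Kn_near`), and
`ρ k - 1 = ρ (g⁻¹ h⁻¹) (c' ρ h - ρ h c')` has rank `< 4 θ` on `Vb w (r₁ + 8 θ + 2)`,
`r₁ = 16 σ + 4 θ + 4`. By `thick`, `c'` commutes with `N = ρ h - 1` on `M₁ = Vb w r₁`. As
`c' = e c' f`, `f e = 0`, `η e = η`: `0 = (c' N - N c') e = c' η t ^ n m₂(t)` after multiplying by `e`
on the left; `m₂(t)` maps `M₁` onto `M₁` (`t` is nilpotent there), and `c' η = e - e' x' ζ e t`.
So `e t ^ n = e' x' ζ e t ^ (n + 1)` on `M₁`, and downward induction from the nilpotency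
exponent gives `e t ^ n = 0`, then `η t ^ n = 0`, `f t ^ n = 0`, `t ^ n = t ^ n (e + f) = 0` on `M₁`.
(3) Take `h'` from `cong` for `n - 1`, `N' = ρ h' - 1`. It is non-zero on `M₀` (otherwise
`f N' e = t ^ (n - 1) m₂(t) η` vanishes and so does `t ^ (n - 1)`), so by `thick`
`2 θ ≤ rk N' M₁`. But `N' M₁ ≤ (ker t ⊓ e M₁) ⊔ (ker t ⊓ f M₁)`; on `ker t ⊓ f M₁` we have
`a = x' t = 0`, `x' = x' (1 - f')` is injective, so its dimension is `< θ`, and `η` embeds
`ker t ⊓ e M₁` into it. -/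
theorem drop5 (hp : 5 ≤ p) {y : X} {a ζ : End (ZMod p) V} (P' : D.Partner y a ζ)
    (ha : x * η * a * (η * x) = a) (hQ : ∃ g ∈ D.Q w, D.ρ g = 1 + a) {σ θ R R' : ℕ}
    (hw : Near D.Γ σ D.o w) (hy : Near D.Γ σ D.o y) (h0 : ∃ v ∈ D.Vb D.o σ, a v ≠ 0)
    (hR' : 25 * σ + 12 * θ + 10 ≤ R') (hR : R' + 4 * σ ≤ R) :
    finrank (ZMod p) (LinearMap.range (a * ζ) ⊓ D.Vb D.o R' : Submodule (ZMod p) V) + θ ≤
      finrank (ZMod p) (LinearMap.range (x * η) ⊓ D.Vb D.o R : Submodule (ZMod p) V) := by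
  classical
  have h : LP2_Rel x η a ζ := ⟨P.xx, P.sq, P.yxy, ha, P'.yxy⟩
  by_contra hlt
  have hyw : Near D.Γ (σ + σ) y w := hy.symm.trans hw
  have xP := P.x_PA
  have ηP := P.η_PA
  have aP : a ∈ D.PA w := let ⟨_, hg, e⟩ := hQ; D.mem_PA_of_real (D.Q_le_St w hg) e
  have tP : tau a η ∈ D.PA w := add_mem (mul_mem aP ηP) (mul_mem ηP aP)
  have qP : ∀ q : (ZMod p)[X], aeval (tau a η) q ∈ D.PA w := fun q =>
    Algebra.adjoin_le (Set.singleton_subset_iff.2 tP) (aeval_mem_adjoin_singleton _ _)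
  have BP : ∀ m₀ m₁ m₂ m₃ : (ZMod p)[X], aeval (tau a η) m₀ * (x * η) +
      aeval (tau a η) m₁ * (x * η * x) + aeval (tau a η) m₂ * η + aeval (tau a η) m₃ * (η * x) ∈
        D.PA w := fun _ _ _ _ =>
    add_mem (add_mem (add_mem (mul_mem (qP _) (mul_mem xP ηP))
      (mul_mem (qP _) (mul_mem (mul_mem xP ηP) xP))) (mul_mem (qP _) ηP))
      (mul_mem (qP _) (mul_mem ηP xP))
  have : Module.Finite (ZMod p) (LinearMap.range (x * η) ⊓ D.Vb D.o R : Submodule (ZMod p) V) :=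
    Submodule.finiteDimensional_of_le inf_le_right
  obtain ⟨k1, k2⟩ := LP2_part1 h (M := D.Vb y (R' + σ))
    (W := LinearMap.range (x * η) ⊓ D.Vb D.o R) (W' := LinearMap.range (a * ζ) ⊓ D.Vb D.o R')
    (P'.x_PA _) (P'.η_PA _)
    (fun v hv => ⟨⟨(x * η * x) v, by rw [← End.mul_apply, ← h.ex']⟩,
      D.Vb_near hw.symm (k := R' + 3 * σ) (by omega)
        (mul_mem (mul_mem xP ηP) xP _ v (D.Vb_near hyw (by omega) hv))⟩)
    (fun v hv => D.Vb_near hy le_rfl hv.2)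
    (by
      rintro _ ⟨⟨v, rfl⟩, hv⟩
      exact ⟨⟨(a * ζ) v, by rw [← End.mul_apply, h.ee']⟩, D.Vb_mono _ (by omega) hv⟩)
    (by
      rintro _ ⟨⟨v, rfl⟩, -⟩
      rw [← End.mul_apply, h.e'e'])
    (not_le.1 hlt)
  obtain ⟨w', hw'⟩ := D.nbr w
  have hex : ∃ n : ℕ, ∀ v ∈ D.Vb w (16 * σ + 2), (tau a η ^ n) v = 0 := by
    obtain ⟨n, hn⟩ := P.tau_nil hQ (16 * σ + 2)
    exact ⟨n, fun v hv => (Submodule.mem_bot _).1 (hn v hv)⟩
  obtain ⟨n, hn, hmin⟩ : ∃ n : ℕ, (∀ v ∈ D.Vb w (16 * σ + 2), (tau a η ^ n) v = 0) ∧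
      ∀ m < n, ¬ ∀ v ∈ D.Vb w (16 * σ + 2), (tau a η ^ m) v = 0 :=
    ⟨Nat.find hex, Nat.find_spec hex, fun m hm => Nat.find_min hex hm⟩
  have hn2 : 2 ≤ n := by
    by_contra h2
    obtain ⟨v, hv, hv0⟩ := h0
    have e := hn v (D.Vb_near hw (by omega) hv)
    rcases (show n = 0 ∨ n = 1 by omega) with rfl | rfl
    · rw [pow_zero, End.one_apply] at e
      exact hv0 (by rw [e, map_zero])
    · rw [pow_one] at e
      exact hv0 (by rw [← h.xt, End.mul_apply, e, map_zero])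
  obtain ⟨n, rfl⟩ := Nat.exists_eq_add_of_le' (show 1 ≤ n by omega)
  have tn : ∀ v ∈ D.Vb w (16 * σ + 4 * θ + 4), (tau a η ^ (n + 1)) v = 0 := by
    obtain ⟨u, hu, m₀, m₁, m₂, m₃, hm, eu⟩ := P.cong ha hQ (n + 1) (by omega)
    obtain ⟨g, hg, eg⟩ := P.thin_elt hp P' ha hw hy
    obtain ⟨N, hN⟩ : ∃ N, N = tau a η ^ (n + 1) * (aeval (tau a η) m₀ * (x * η) +
      aeval (tau a η) m₁ * (x * η * x) + aeval (tau a η) m₂ * η +
        aeval (tau a η) m₃ * (η * x)) := ⟨_, rfl⟩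
    obtain ⟨c, hc⟩ : ∃ c, c = x * η * x - a * ζ * (x * η * x) * (ζ * a) := ⟨_, rfl⟩
    rw [← hN] at eu
    rw [← hc] at eg k2
    have u1 := mem_K1.1 (D.Q_le w hu)
    have u2 : u ∈ Kn H D.Γ (16 * σ + 1) w := D.deep hw' u1.1 (u1.2 w' hw') fun v hv => by
      rw [eu, LinearMap.add_apply, End.one_apply, hN, End.mul_apply, hn _ (BP _ _ _ _ _ v hv),
        add_zero]
    have u3 : g⁻¹ * u⁻¹ * g⁻¹⁻¹ ∈ Kn H D.Γ 1 w := by
      have e := D.near_smul g⁻¹ hg
      rw [inv_smul_smul] at e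
      exact Kn_near e (by rw [add_comm]; exact D.Kn_conj g⁻¹ (inv_mem u2))
    rw [inv_inv] at u3
    have u4 := mem_K1.1 (mul_mem u3 (D.Q_le w hu))
    have e1 : D.ρ (g⁻¹ * u⁻¹ * g * u) - 1 = D.ρ (g⁻¹ * u⁻¹) * (c * D.ρ u - D.ρ u * c) := by
      have e2 : c * D.ρ u - D.ρ u * c = D.ρ g * D.ρ u - D.ρ u * D.ρ g := by
        rw [eg]; noncomm_ring
      rw [e2, mul_sub, ← map_mul, ← map_mul, ← map_mul, ← map_mul]
      congr 1
      · rw [mul_assoc (g⁻¹ * u⁻¹)]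
      · rw [← map_one D.ρ]
        congr 1
        group
    have hM : D.Vb w (16 * σ + 4 * θ + 4 + 2 + 2 * (4 * θ)) ≤ D.Vb y (R' + σ) :=
      D.Vb_near hyw.symm (by omega)
    have r1 : rk (D.ρ (g⁻¹ * u⁻¹ * g * u) - 1) (D.Vb w (16 * σ + 4 * θ + 4 + 2 + 2 * (4 * θ))) <
        4 * θ := by
      have s1 := rk_mul_le_right (D.ρ (g⁻¹ * u⁻¹)) (c * D.ρ u - D.ρ u * c)
        (D.Vb w (16 * σ + 4 * θ + 4 + 2 + 2 * (4 * θ)))
      have s2 := rk_sub_le (c * D.ρ u) (D.ρ u * c) (D.Vb w (16 * σ + 4 * θ + 4 + 2 + 2 * (4 * θ)))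
      have s3 : rk (c * D.ρ u) (D.Vb w (16 * σ + 4 * θ + 4 + 2 + 2 * (4 * θ))) ≤
          rk c (D.Vb y (R' + σ)) :=
        rk_mul_le_left _ fun v hv => hM (D.ρ_mem_PA (D.Q_le_St w hu) _ v hv)
      have s4 : rk (D.ρ u * c) (D.Vb w (16 * σ + 4 * θ + 4 + 2 + 2 * (4 * θ))) ≤
          rk c (D.Vb y (R' + σ)) := (rk_mul_le_right _ _ _).trans (rk_mono _ hM)
      rw [e1]
      omega
    have r2 := D.thick hw' u4.1 (u4.2 w' hw') le_rfl r1
    refine LP2_part2 h (xP _) (ηP _) (P.tau_nil hQ _) (tP _) (fun q => qP q _) (by omega) hm hc hN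
      fun v hv => ?_
    have e3 : D.ρ (u * g) * D.ρ (g⁻¹ * u⁻¹ * g * u) = D.ρ g * D.ρ u := by
      rw [← map_mul, ← map_mul]
      congr 1
      group
    have e4 : (D.ρ g * D.ρ u) v = (D.ρ u * D.ρ g) v := by
      rw [← e3, End.mul_apply, r2 v hv, map_mul]
    rw [eg, eu] at e4
    simp only [End.mul_apply, LinearMap.add_apply, End.one_apply, map_add] at e4
    have e5 : c (N v) - N (c v) = 0 := by
      rw [← sub_eq_zero] at e4
      rw [← e4]
      abel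
    exact sub_eq_zero.1 e5
  obtain ⟨u, hu, m₀, m₁, m₂, m₃, hm, eu⟩ := P.cong ha hQ n (by omega)
  obtain ⟨N, hN⟩ : ∃ N, N = tau a η ^ n * (aeval (tau a η) m₀ * (x * η) +
      aeval (tau a η) m₁ * (x * η * x) + aeval (tau a η) m₂ * η +
        aeval (tau a η) m₃ * (η * x)) := ⟨_, rfl⟩
  rw [← hN] at eu
  have NP : N ∈ D.PA w := by rw [hN]; exact mul_mem (pow_mem tP n) (BP _ _ _ _)
  have r3 : rk N (D.Vb w (16 * σ + 4 * θ + 4)) ≤
      2 * rk (x * η * x * (1 - ζ * a)) (D.Vb y (R' + σ)) := by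
    refine LP2_part4 h (D.Vb_near hyw.symm (by omega)) (xP _) (ηP _) (NP _) (fun v hv => ?_) ?_
    · rw [hN, End.mul_apply, ← End.mul_apply (tau a η), ← pow_succ', tn _ (BP _ _ _ _ _ v hv)]
    · obtain ⟨n, rfl⟩ := Nat.exists_eq_add_of_le' (show 1 ≤ n by omega)
      rw [hN, pow_succ', mul_assoc (tau a η), ← mul_assoc (x * η), ← mul_assoc (η * x), ← add_mul,
        ← h.eft]
  have u1 := mem_K1.1 (D.Q_le w hu)
  have r4 := D.thick hw' u1.1 (u1.2 w' hw') (r := 16 * σ + 2) (j := 2 * θ)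
    (R := 16 * σ + 4 * θ + 4) (by omega) (by rw [eu, add_sub_cancel_left]; omega)
  refine hmin n (by omega) (LP2_part3 h (xP _) (ηP _) (P.tau_nil hQ _) (tP _) (fun q => qP q _)
    (by omega) hm hN fun v hv => ?_)
  have e := r4 v hv
  rwa [eu, LinearMap.add_apply, End.one_apply, add_eq_left] at e

end Partner

end LD

end Pool.Agent.Lib.MP_bf45aa_co
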