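import Pool.Agent.Lib.PSV.LP20

set_option autoImplicit false
set_option linter.unusedSectionVars false

/-! The thin element. -/

namespace Pool.Agent.Lib.MP_bf45aa_co

open Subgroup Module Polynomial
open scoped MatrixGroups

namespace LD

variable {p : ℕ} [Fact p.Prime] {H X V : Type} [Group H] [MulAction H X] [AddCommGroup V]
  [Module (ZMod p) V] {D : LD p H X V}

theorem LP21_mul {F A : Type*} [Field F] [Ring A] [Algebra F A] {b e f : A} (h1 : b * b = 0)
    (h2 : b * e = 0) (h3 : f * b = 0) (h4 : f * e = 0) (m n : F) :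
    (1 + m • e) * b * (1 + m • f) * ((1 + n • e) * b * (1 + n • f)) = 0 := by
  have h5 : (1 + m • f) * ((1 + n • e) * b) = (1 + n • e) * b := by
    rw [add_mul, one_mul, smul_mul_assoc, ← mul_assoc f, mul_add f, mul_one, mul_smul_comm, h4,
      smul_zero, add_zero, h3, smul_zero, add_zero]
  have h6 : b * ((1 + n • e) * b) = 0 := by
    rw [← mul_assoc, mul_add, mul_one, mul_smul_comm, h2, smul_zero, add_zero, h1]
  rw [mul_assoc _ (1 + m • f), ← mul_assoc (1 + m • f), h5, ← mul_assoc, mul_assoc _ b, h6,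
    mul_zero, zero_mul]

theorem LP21_near (D : LD p H X V) {w z : X} {h : H} {n : ℕ} (h1 : h • z = z)
    (h2 : Near D.Γ n w z) : Near D.Γ (n + n) w (h • w) :=
  h2.trans (h1 ▸ D.near_smul h h2).symm

theorem LP21_conj (D : LD p H X V) {s g : H} {b : End (ZMod p) V} (h : D.ρ g = 1 + b) :
    D.ρ (s * g * s⁻¹) = 1 + D.ρ s * b * D.ρ s⁻¹ := by
  rw [map_mul, map_mul, h, mul_add, add_mul, mul_one, D.ρ_mul_inv]

namespace Partner

variable {w : X} {x η : End (ZMod p) V} (P : D.Partner w x η)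
include P

/-- Use `exists_filtration` for `St H w`, `Q w`, `Vb w r`: `a` lowers the filtration and `η`
preserves it. -/
theorem tau_nil {a : End (ZMod p) V} (hQ : ∃ g ∈ D.Q w, D.ρ g = 1 + a) (r : ℕ) :
    NilOn (tau a η) (D.Vb w r) ⊥ := by
  obtain ⟨A, l, h0, hl, -, h1, h2⟩ := exists_filtration D.ρ (St H w) (D.Q w) (D.Q_le_St w)
    (fun g hg q hq => D.Q_conj_St hg hq) (D.Vb w r) (fun g hg => D.ρ_mem_PA hg r) (D.Q_unip w r)
  obtain ⟨g, hg, e⟩ := hQ
  have ha : ∀ i, ∀ v ∈ A i, a v ∈ A (i + 1) := fun i v hv => by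
    simpa [e] using h2 i g hg v hv
  have hη : ∀ i, ∀ v ∈ A i, η v ∈ A i := fun i => (P.pres (h1 i)).2
  have key : ∀ n, ∀ v ∈ A 0, (tau a η ^ n) v ∈ A n := by
    intro n v hv
    induction n with
    | zero => exact hv
    | succ n ih =>
      rw [pow_succ', End.mul_apply]
      exact add_mem (ha n _ (hη n _ ih)) (hη _ _ (ha n _ ih))
  exact ⟨l, fun v hv => hl ▸ key l v (h0 ▸ hv)⟩

/-- The thin element. `x' = x η x` is realised by `g ∈ St H w`; with the torus element `s` of `P'`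
(`torus_conj`), `c' = x' - e' x' f'` is a combination of `x'`, `s x' s⁻¹`, `s² x' s⁻²`, so it is
realised by a product of powers of `g`, `s g s⁻¹`, `s² g s⁻²`. These fix `w`, `s w`, `s² w`, which
are within `4 σ` of `w`. -/
theorem thin_elt (hp : 5 ≤ p) {y : X} {a ζ : End (ZMod p) V} (P' : D.Partner y a ζ)
    (ha : x * η * a * (η * x) = a) {σ : ℕ} (hw : Near D.Γ σ D.o w) (hy : Near D.Γ σ D.o y) :
    ∃ g : H, Near D.Γ (16 * σ) w (g • w) ∧
      D.ρ g = 1 + (x * η * x - a * ζ * (x * η * x) * (ζ * a)) := by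
  obtain ⟨g, hg, e⟩ := (P.alt.resolve_left (by omega)).2.r2
  obtain ⟨s, hs, -, hc⟩ := (P'.alt.resolve_left (by omega)).2.torus_conj hp
  have hax : a * x = 0 := by rw [← ha, mul_assoc, mul_assoc η, P.xx, mul_zero, mul_zero]
  have hxa : x * a = 0 := by
    rw [← ha]
    simp only [← mul_assoc, P.xx, zero_mul]
  have hab : a * (x * η * x) = 0 := by rw [← mul_assoc, ← mul_assoc, hax, zero_mul, zero_mul]
  have hba : x * η * x * a = 0 := by rw [mul_assoc, hxa, mul_zero]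
  have hbb : x * η * x * (x * η * x) = 0 := by
    rw [mul_assoc, ← mul_assoc x, ← mul_assoc x, P.xx, zero_mul, zero_mul, mul_zero]
  generalize x * η * x = b at *
  have hm := LP21_mul (F := ZMod p) (e := a * ζ) (f := ζ * a) hbb
    (by rw [← mul_assoc, hba, zero_mul]) (by rw [mul_assoc, hab, mul_zero])
    (by rw [mul_assoc, ← mul_assoc a, P'.xx, zero_mul, mul_zero])
  have e0 : D.ρ g = 1 + (1 + (0 : ZMod p) • (a * ζ)) * b * (1 + (0 : ZMod p) • (ζ * a)) := by
    simp [e]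
  have e1 : D.ρ (s * g * s⁻¹) =
      1 + (1 + (1 : ZMod p) • (a * ζ)) * b * (1 + (1 : ZMod p) • (ζ * a)) := by
    rw [D.LP21_conj e, hc b hba hab, one_smul, one_smul]
  have e2 : D.ρ (s * (s * g * s⁻¹) * s⁻¹) =
      1 + (1 + (3 : ZMod p) • (a * ζ)) * b * (1 + (3 : ZMod p) • (ζ * a)) := by
    have h3 : ∀ t : End (ZMod p) V, t * t = t → (1 + t) * (1 + t) = 1 + (3 : ZMod p) • t :=
      fun t ht => by
        rw [add_mul, mul_add t, ht, one_mul, mul_one]
        module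
    rw [D.LP21_conj e1, one_smul, one_smul, hc, ← mul_assoc, ← mul_assoc, h3 _ P'.e_idem,
      mul_assoc, h3 _ P'.f_idem]
    · rw [mul_assoc, add_mul 1 (ζ * a), one_mul, mul_assoc ζ, P'.xx, mul_zero, add_zero, mul_assoc,
        hba, mul_zero]
    · rw [← mul_assoc, ← mul_assoc, mul_add a, mul_one, ← mul_assoc, P'.xx, zero_mul, add_zero,
        hab, zero_mul]
  have h6 : (6 : ZMod p) ≠ 0 := by
    have h2 : ∀ n : ℕ, 0 < n → n < p → (n : ZMod p) ≠ 0 := fun n h1 h2 h3 =>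
      absurd (Nat.le_of_dvd h1 ((ZMod.natCast_eq_zero_iff n p).1 h3)) (by omega)
    have := mul_ne_zero (h2 2 (by omega) (by omega)) (h2 3 (by omega) (by omega))
    rwa [← Nat.cast_mul] at this
  have hwy : Near D.Γ (σ + σ) y w := hy.symm.trans hw
  have n1 : ∀ t ∈ St H y, Near D.Γ (σ + σ + (σ + σ)) w (t • w) := fun t ht =>
    D.LP21_near (mem_St.1 ht) hwy.symm
  have f0 : ∀ n : ℕ, g ^ n • w = w := fun n => mem_St.1 (pow_mem hg n)
  have f1 : ∀ n : ℕ, (s * g * s⁻¹) ^ n • s • w = s • w := fun n => by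
    rw [conj_pow, mul_smul, inv_smul_smul, mul_smul, f0]
  have f2 : ∀ n : ℕ, (s * (s * g * s⁻¹) * s⁻¹) ^ n • (s * s) • w = (s * s) • w := fun n => by
    rw [conj_pow, mul_smul, mul_smul s s, inv_smul_smul, mul_smul, f1]
  refine ⟨(s * (s * g * s⁻¹) * s⁻¹) ^ (-(6 : ZMod p)⁻¹).val *
    ((s * g * s⁻¹) ^ (3 * (6 : ZMod p)⁻¹).val * g ^ (4 * (6 : ZMod p)⁻¹).val), ?_, ?_⟩
  · rw [mul_smul, mul_smul, f0]
    exact ((D.LP21_near (f2 _) (n1 _ (mul_mem hs hs))).trans
      (D.near_smul _ (D.LP21_near (f1 _) (n1 s hs)))).mono (by omega)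
  · rw [map_mul, map_mul, ρ_pow e0 (hm _ _), ρ_pow e1 (hm _ _), ρ_pow e2 (hm _ _)]
    have h7 : ∀ (k l m : ZMod p) (u v t : End (ZMod p) V), u * v = 0 → u * t = 0 → v * t = 0 →
        (1 + k • u) * ((1 + l • v) * (1 + m • t)) = 1 + k • u + l • v + m • t :=
      fun k l m u v t h h' h'' => by
        simp only [add_mul, mul_add, one_mul, mul_one, smul_mul_smul_comm, h, h', h'', smul_zero,
          add_zero]
    rw [h7 _ _ _ _ _ _ (hm _ _) (hm _ _) (hm _ _)]
    simp only [ZMod.natCast_val, ZMod.cast_id', id_eq, mul_add, add_mul, one_mul, mul_one,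
      smul_mul_assoc, mul_smul_comm]
    have h8 : (6 : ZMod p) * (6 : ZMod p)⁻¹ = 1 := mul_inv_cancel₀ h6
    linear_combination (norm := module) h8 • (b - a * ζ * b * (ζ * a))

end Partner

end LD

end Pool.Agent.Lib.MP_bf45aa_co
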