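import Pool.Agent.Lib.PSV.LPart1

set_option autoImplicit false
set_option linter.unusedSectionVars false

/-! Compactness. -/

namespace Pool.Agent.Lib.MP_bf45aa_co

open Subgroup Module Polynomial

namespace LD

variable {p : ℕ} [Fact p.Prime] {H X V : Type} [Group H] [MulAction H X] [AddCommGroup V]
  [Module (ZMod p) V] (D : LD p H X V)

/-- Choose `a s`, `b s` by `h0`. For each `r` the pairs of restrictions of `ρ (a s)`, `ρ (b s)` to
the finite set `Vb y r` take finitely many values, so they are constant on a set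
`S r ∈ hyperfilter ℕ` (`Ultrafilter.finite_biUnion_mem_iff` or `Ultrafilter.eq_pure_of_finite` for
the image filter). Choose `s r ≥ r` in `S 0 ∩ ... ∩ S r` and apply `clo` to `a (s r)`, `b (s r)`. -/
theorem compact (y : X) (P : ℕ → H → H → Prop)
    (h0 : ∀ r, ∃ a ∈ St H y, ∃ b ∈ St H y, P r a b)
    (h1 : ∀ r r' a b, r ≤ r' → P r' a b → P r a b)
    (h2 : ∀ r a b a' b', a ∈ St H y → b ∈ St H y → a' ∈ St H y → b' ∈ St H y →
      (∀ v ∈ D.Vb y r, D.ρ a v = D.ρ a' v ∧ D.ρ b v = D.ρ b' v) → P r a b → P r a' b') :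
    ∃ a ∈ St H y, ∃ b ∈ St H y, ∀ r, P r a b := by
  choose a ha b hb hP using h0
  let F : ∀ r, ℕ → (D.Vb y r → D.Vb y r) × (D.Vb y r → D.Vb y r) := fun r s =>
    (fun v => ⟨D.ρ (a s) v, D.ρ_mem_PA (ha s) r v v.2⟩,
      fun v => ⟨D.ρ (b s) v, D.ρ_mem_PA (hb s) r v v.2⟩)
  have hS : ∀ r, ∃ c, {s | F r s = c} ∈ Filter.hyperfilter ℕ := fun r => by
    have : Finite (D.Vb y r) := Module.finite_of_finite (ZMod p)
    obtain ⟨c, hc⟩ := Ultrafilter.eq_pure_of_finite ((Filter.hyperfilter ℕ).map (F r))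
    refine ⟨c, ?_⟩
    have h3 : ({c} : Set _) ∈ (Filter.hyperfilter ℕ).map (F r) := by
      rw [hc]
      exact Ultrafilter.mem_pure.2 rfl
    exact h3
  choose c hc using hS
  have hT : ∀ r, ∃ s, r ≤ s ∧ ∀ i ≤ r, F i s = c i := fun r => by
    have h3 : {s | r ≤ s} ∈ Filter.hyperfilter ℕ :=
      Filter.mem_hyperfilter_of_finite_compl ((Set.finite_lt_nat r).subset fun s hs => by
        simpa using hs)
    have h4 : (⋂ i ∈ Set.Iic r, {s | F i s = c i}) ∈ (Filter.hyperfilter ℕ : Filter ℕ) :=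
      (Filter.biInter_mem (Set.finite_Iic r)).2 fun i _ => hc i
    obtain ⟨s, h5, h6⟩ := Ultrafilter.nonempty_of_mem (Filter.inter_mem h3 h4)
    exact ⟨s, h5, fun i hi => Set.mem_iInter₂.1 h6 i hi⟩
  choose s hs hF using hT
  have key : ∀ r r', r ≤ r' → F r (s r') = F r (s r) := fun r r' h =>
    (hF r' r h).trans (hF r r le_rfl).symm
  obtain ⟨a', ha', e1⟩ := D.clo y (fun r => a (s r)) (fun r => ha _) fun r r' h v hv =>
    congrArg Subtype.val (congrFun (congrArg Prod.fst (key r r' h)) ⟨v, hv⟩)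
  obtain ⟨b', hb', e2⟩ := D.clo y (fun r => b (s r)) (fun r => hb _) fun r r' h v hv =>
    congrArg Subtype.val (congrFun (congrArg Prod.snd (key r r' h)) ⟨v, hv⟩)
  exact ⟨a', ha', b', hb', fun r => h2 r _ _ _ _ (ha _) (hb _) ha' hb'
    (fun v hv => ⟨(e1 r v hv).symm, (e2 r v hv).symm⟩) (h1 r _ _ _ (hs r) (hP (s r)))⟩

/-- `compact` for `P r a b` : the three equations of `partner_fin` hold on `Vb y r`, and
`2 j ≤ r` implies the rank inequality; then `ext_Vb`. -/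
theorem exists_partner5 (hp : 5 ≤ p) {y : X} {x : End (ZMod p) V} (h : D.Bd y x) (hx : x * x = 0)
    (j : ℕ) : ∃ η, D.Partner5 y x η ∧ j ≤ 2 * D.β * rk (x * η) (D.Vb y (2 * j)) := by
  obtain ⟨u, y', -, hu, -, -, hux⟩ := id h
  have hxP : x ∈ D.PA y := D.mem_PA_of_real (mem_St.2 hu) hux
  obtain ⟨a, ha, b, hb, hP⟩ := D.compact y (fun r a b =>
      (∀ v ∈ D.Vb y r, ((D.ρ a - 1) * (D.ρ a - 1)) v = 0 ∧
        ((D.ρ a - 1) * x * (D.ρ a - 1)) v = (D.ρ a - 1) v ∧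
        D.ρ b v = (1 + x * (D.ρ a - 1) * x) v) ∧
      (2 * j ≤ r → j ≤ 2 * D.β * rk (x * (D.ρ a - 1)) (D.Vb y (2 * j))))
    (fun r => by
      obtain ⟨a, ha, b, hb, h1, h2⟩ := D.partner_fin hp h hx j (max r (2 * j)) (le_max_right _ _)
      exact ⟨a, ha, b, hb, fun v hv => h1 v (D.Vb_mono y (le_max_left _ _) hv), fun _ => h2⟩)
    (fun r r' a b hr h1 => ⟨fun v hv => h1.1 v (D.Vb_mono y hr hv), fun h2 => h1.2 (h2.trans hr)⟩)
    (fun r a b a' b' ha _ _ _ he h1 => by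
      have e1 : ∀ v ∈ D.Vb y r, (D.ρ a' - 1) v = (D.ρ a - 1) v := fun v hv => by
        simp only [LinearMap.sub_apply, (he v hv).1]
      have m1 : ∀ v ∈ D.Vb y r, (D.ρ a - 1) v ∈ D.Vb y r :=
        sub_mem (D.ρ_mem_PA ha) (one_mem (D.PA y)) r
      refine ⟨fun v hv => ?_, fun h2 => ?_⟩
      · obtain ⟨k1, k2, k3⟩ := h1.1 v hv
        simp only [End.mul_apply, LinearMap.add_apply] at k1 k2 k3 ⊢
        refine ⟨?_, ?_, ?_⟩
        · rw [e1 v hv, e1 _ (m1 v hv), k1]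
        · rw [e1 v hv, e1 _ (hxP r _ (m1 v hv)), k2]
        · rw [e1 _ (hxP r v hv), ← (he v hv).2, k3]
      · rw [rk_congr (b := x * (D.ρ a - 1)) fun v hv => by
          rw [End.mul_apply, End.mul_apply, e1 v (D.Vb_mono y h2 hv)]]
        exact h1.2 h2)
  refine ⟨D.ρ a - 1, ⟨hx, D.ext_Vb y fun k v hv => ((hP k).1 v hv).1,
    D.ext_Vb y fun k v hv => ((hP k).1 v hv).2.1, ⟨u, mem_St.2 hu, hux⟩,
    ⟨a, ha, (add_sub_cancel _ _).symm⟩, ⟨b, hb, D.ext_Vb y fun k v hv => ((hP k).1 v hv).2.2⟩⟩,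
    (hP (2 * j)).2 le_rfl⟩

end LD

end Pool.Agent.Lib.MP_bf45aa_co
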