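import Pool.Agent.Lib.MP_bf45aa_co.LDick

set_option autoImplicit false

/-! Dickson's theorem in characteristic three. -/

namespace Pool.Agent.Lib.MP_bf45aa_co

open scoped MatrixGroups

section count

open Finset

variable {G P : Type*} [Group G] [Fintype G] [MulAction G P] [DecidableEq P] [DecidableEq G]

theorem NDick_count (o : P) {m : G} (hm1 : m ≠ 1) (hm2 : m ^ 2 = 1) (hm3 : ∀ x : P, m • x = x)
    (par : G → Prop) [DecidablePred par] (hp1 : ¬ par 1) (hpm : ¬ par m)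
    (hconj : ∀ g h, par g → par (h * g * h⁻¹))
    (hpar : ∀ g, par g → ∃ h : G, ∀ z : P, g • z = z ↔ z = h • o)
    (hss : ∀ g : G, g ≠ 1 → g ≠ m → ¬ par g →
      ∃ x y : P, x ≠ y ∧ ∀ z : P, g • z = z ↔ z = x ∨ z = y)
    {k : ℕ} (hk : #{g | par g ∧ g • o = o} = 2 * (k + 1)) :
    ∃ e, Fintype.card G = 2 * e * (2 + #(univ.image fun g : G => g • o) * k) ∧
      ∀ (g : G) (x : P), g ≠ 1 → g ≠ m → g • x = x → (∃ h : G, h • o = x) ∨ g ^ (2 * e) = 1 := by
  have h0 : ∀ g : G, ∃ F : Finset P, g ≠ 1 → g ≠ m →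
      (∀ z, z ∈ F ↔ g • z = z) ∧ #F + (if par g then 1 else 0) = 2 := by
    intro g
    by_cases h1 : g ≠ 1 ∧ g ≠ m
    · by_cases h2 : par g
      · obtain ⟨h, hh⟩ := hpar g h2
        exact ⟨{h • o}, fun _ _ => ⟨fun z => by rw [hh, mem_singleton], by simp [h2]⟩⟩
      · obtain ⟨x, y, hxy, hh⟩ := hss g h1.1 h1.2 h2
        exact ⟨{x, y}, fun _ _ => ⟨fun z => by rw [hh, mem_insert, mem_singleton],
          by simp [h2, card_pair hxy]⟩⟩
    · exact ⟨∅, fun a b => absurd ⟨a, b⟩ h1⟩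
  choose F hF using h0
  obtain ⟨N, hN⟩ : ∃ N : Finset G, N = univ.filter fun g => g ≠ 1 ∧ g ≠ m := ⟨_, rfl⟩
  have mN : ∀ g, g ∈ N ↔ g ≠ 1 ∧ g ≠ m := fun g => by simp [hN]
  obtain ⟨T, hT⟩ : ∃ T : Finset P, T = N.biUnion F := ⟨_, rfl⟩
  have mT : ∀ x, x ∈ T ↔ ∃ g ∈ N, g • x = x := fun x => by
    rw [hT, mem_biUnion]
    exact exists_congr fun g => and_congr_right fun hg =>
      (hF g ((mN g).1 hg).1 ((mN g).1 hg).2).1 x
  obtain ⟨O, hO⟩ : ∃ O : Finset P, O = univ.image fun g : G => g • o := ⟨_, rfl⟩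
  have s1 : ∀ x : P, #{g ∈ N | g • x = x} + 2 = #{g : G | g • x = x} := by
    intro x
    rw [← card_pair hm1.symm, ← card_union_of_disjoint]
    · congr 1
      ext g
      simp only [mem_union, mem_filter, mN, mem_insert, mem_singleton, mem_univ, true_and]
      constructor
      · rintro (h | rfl | rfl)
        · exact h.2
        · exact one_smul _ _
        · exact hm3 x
      · intro h
        by_cases h1 : g = 1 ∨ g = m
        · exact Or.inr h1
        · exact Or.inl ⟨not_or.1 h1, h⟩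
    · rw [disjoint_left]
      intro g hg h
      rw [mem_filter, mN] at hg
      rw [mem_insert, mem_singleton] at h
      exact h.elim hg.1.1 hg.1.2
  have s2 : #N + 2 = Fintype.card G := by
    rw [← card_pair hm1.symm, ← card_univ, ← card_union_of_disjoint]
    · congr 1
      ext g
      simp only [mem_union, mN, mem_insert, mem_singleton, mem_univ, iff_true]
      tauto
    · rw [disjoint_left]
      intro g hg h
      rw [mN] at hg
      rw [mem_insert, mem_singleton] at h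
      exact h.elim hg.1 hg.2
  have s3 : ∀ x : P, x ∈ T ↔ 2 < #{g : G | g • x = x} := fun x => by
    rw [mT, ← s1, lt_add_iff_pos_left, card_pos]
    exact ⟨fun ⟨g, h1, h2⟩ => ⟨g, mem_filter.2 ⟨h1, h2⟩⟩, fun ⟨g, h⟩ => ⟨g, mem_filter.1 h⟩⟩
  have s4 : ∀ (h : G), ∀ x ∈ T, h • x ∈ T := fun h x hx => by rwa [s3, LDick_st, ← s3]
  have pN : ∀ g, par g → g ∈ N := fun g hg =>
    (mN g).2 ⟨fun e => hp1 (e ▸ hg), fun e => hpm (e ▸ hg)⟩
  have s5 : O ⊆ T := by
    intro x hx
    obtain ⟨h, -, rfl⟩ := mem_image.1 (hO ▸ hx)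
    obtain ⟨g, hg⟩ := card_pos.1 (show 0 < #{g | par g ∧ g • o = o} by omega)
    simp only [mem_filter, mem_univ, true_and] at hg
    exact s4 h o ((mT o).2 ⟨g, pN g hg.1, hg.2⟩)
  have s6 : #{g | par g} = #O * (2 * (k + 1)) := by
    have e1 : ∑ x ∈ O, #{g | par g ∧ g • x = x} = #O * (2 * (k + 1)) := by
      rw [← smul_eq_mul, ← sum_const]
      refine sum_congr rfl fun y hy => ?_
      obtain ⟨h, -, rfl⟩ := mem_image.1 (hO ▸ hy)
      rw [LDick_conj par hconj, hk]
    rw [← e1]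
    simp only [card_filter]
    rw [sum_comm]
    refine sum_congr rfl fun g _ => ?_
    by_cases hg : par g
    · obtain ⟨h, hh⟩ := hpar g hg
      have : h • o ∈ O := hO ▸ mem_image_of_mem _ (mem_univ h)
      simp [hg, hh, this]
    · simp [hg]
  have s7 : ∑ x ∈ T, #{g ∈ N | g • x = x} + #{g | par g} = 2 * #N := by
    have e1 : #{g | par g} = ∑ g ∈ N, if par g then 1 else 0 := by
      rw [← card_filter]
      congr 1
      ext g
      simp only [mem_filter, mem_univ, true_and]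
      exact ⟨fun h => ⟨pN g h, h⟩, fun h => h.2⟩
    rw [e1]
    simp only [card_filter]
    rw [sum_comm, ← sum_add_distrib, mul_comm, ← smul_eq_mul, ← sum_const]
    refine sum_congr rfl fun g hg => ?_
    obtain ⟨a1, a2⟩ := hF g ((mN g).1 hg).1 ((mN g).1 hg).2
    rw [← a2, ← card_filter]
    congr 2
    ext z
    rw [mem_filter, a1]
    exact ⟨fun h => h.2, fun h => ⟨(mT z).2 ⟨g, hg, h⟩, h⟩⟩
  have s8 : ∑ x ∈ T, #{g : G | g • x = x} = ∑ x ∈ T, #{g ∈ N | g • x = x} + 2 * #T := by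
    rw [mul_comm, ← smul_eq_mul, ← sum_const, ← sum_add_distrib]
    exact sum_congr rfl fun x _ => (s1 x).symm
  have s9 := sum_sdiff (f := fun x : P => #{g : G | g • x = x}) s5
  have s10 := card_sdiff_add_card_eq_card s5
  have s11 : ∑ x ∈ O, #{g : G | g • x = x} = Fintype.card G := hO ▸ LDick_orb_sum o
  rw [← hO]
  have s12 : ∑ x ∈ T \ O, #{g : G | g • x = x} + 4 + 2 * (#O * k) =
      Fintype.card G + 2 * #(T \ O) := by
    have : #O * (2 * (k + 1)) = 2 * (#O * k) + 2 * #O := by ring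
    omega
  have s13 : ∀ x ∈ T \ O, (univ.image fun g : G => g • x) ⊆ T \ O := by
    intro x hx y hy
    obtain ⟨h, -, rfl⟩ := mem_image.1 hy
    rw [mem_sdiff] at hx ⊢
    refine ⟨s4 h x hx.1, fun h1 => hx.2 ?_⟩
    obtain ⟨h', -, e⟩ := mem_image.1 (hO ▸ h1)
    exact hO ▸ mem_image.2 ⟨h⁻¹ * h', mem_univ _, by rw [mul_smul, e, inv_smul_smul]⟩
  have s14 : ∀ (g : G) (x : P), g ≠ 1 → g ≠ m → g • x = x → (∃ h : G, h • o = x) ∨ x ∈ T \ O := by
    intro g x a1 a2 a3
    by_cases h : x ∈ O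
    · obtain ⟨h, -, e⟩ := mem_image.1 (hO ▸ h)
      exact Or.inl ⟨h, e⟩
    · exact Or.inr (mem_sdiff.2 ⟨(mT x).2 ⟨g, (mN g).2 ⟨a1, a2⟩, a3⟩, h⟩)
  rcases (T \ O).eq_empty_or_nonempty with h | ⟨x, hx⟩
  · rw [h, sum_empty, card_empty] at s12
    refine ⟨1, by omega, fun g x a1 a2 a3 => (s14 g x a1 a2 a3).imp_right fun h1 => ?_⟩
    rw [h] at h1
    exact absurd h1 (notMem_empty _)
  · by_cases h : T \ O ⊆ univ.image fun g : G => g • x
    · have e1 := Subset.antisymm h (s13 x hx)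
      obtain ⟨e, he⟩ := LDick_even hm1 hm2 (hm3 x)
      have e2 := LDick_orb (G := G) x
      rw [e1, LDick_orb_sum] at s12
      refine ⟨e, ?_, fun g y a1 a2 a3 => (s14 g y a1 a2 a3).imp_right fun h1 => ?_⟩
      · rw [← e2, he, mul_comm]
        congr 1
        omega
      · obtain ⟨u, -, rfl⟩ := mem_image.1 (h h1)
        have h2 : Nat.card (MulAction.stabilizer G (u • x)) = #{g : G | g • u • x = u • x} :=
          Nat.subtype_card _ fun g => by simp
        rw [← he, ← LDick_st u x, ← h2]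
        exact orderOf_dvd_iff_pow_eq_one.1 (Subgroup.orderOf_dvd_natCard _ a3)
    · exfalso
      obtain ⟨y, hy, hyx⟩ := not_subset.1 h
      have e1 : Disjoint (univ.image fun g : G => g • x) (univ.image fun g : G => g • y) := by
        rw [disjoint_left]
        intro z h1 h2
        obtain ⟨a, -, rfl⟩ := mem_image.1 h1
        obtain ⟨b, -, e⟩ := mem_image.1 h2
        exact hyx (mem_image.2 ⟨b⁻¹ * a, mem_univ _, by rw [mul_smul, ← e, inv_smul_smul]⟩)
      have e2 := sum_le_sum_of_subset (f := fun x : P => #{g : G | g • x = x})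
        (union_subset (s13 x hx) (s13 y hy))
      rw [sum_union e1, LDick_orb_sum, LDick_orb_sum] at e2
      have e3 := card_nsmul_le_sum (T \ O) (fun x : P => #{g : G | g • x = x}) 4 fun z hz => by
        have a1 := (s3 z).1 (mem_sdiff.1 hz).1
        obtain ⟨e, he⟩ := LDick_even hm1 hm2 (hm3 z)
        omega
      rw [smul_eq_mul] at e3
      omega

end count

theorem NDick_arith {n β e r : ℕ} (hn : n = 1 + r * 3) (hr : 1 ≤ r) (hc : β ≤ 6) (he : 1 ≤ e)
    (h : n * β = e * (2 + n * (3 - 2))) : r = 1 ∨ e = 5 := by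
  have h1 : e < 6 := by
    by_contra h1
    have h2 : 6 * (2 + n * (3 - 2)) ≤ e * (2 + n * (3 - 2)) := Nat.mul_le_mul_right _ (by omega)
    have h3 : n * β ≤ n * 6 := Nat.mul_le_mul_left _ hc
    omega
  subst hn
  interval_cases β <;> interval_cases e <;> omega

theorem NDick_ten {K : Type*} [Field K] (two : (2 : K) ≠ 0) {g : SL(2, K)} (h : g ^ (2 * 5) = 1)
    (hb : g 0 1 ≠ 0) : (g 0 0 + g 1 1) ^ 4 - 3 * (g 0 0 + g 1 1) ^ 2 + 1 = 0 := by
  have h1 : (g ^ 5) 0 1 = ((g 0 0 + g 1 1) ^ 4 - 3 * (g 0 0 + g 1 1) ^ 2 + 1) * g 0 1 := by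
    simp only [pow_succ g, pow_zero, one_mul, LDick_mul]
    linear_combination (g 0 1 * (-3 * (g 0 0 + g 1 1) ^ 2 + (g 0 0 * g 1 1 - g 0 1 * g 1 0) + 1)) *
      LDick_det g
  rw [mul_comm, pow_mul, sq] at h
  generalize g ^ 5 = u at h h1
  have h2 := LDick_mul u u 0 0
  have h3 := LDick_mul u u 0 1
  rw [h, LDick_one.1] at h2
  rw [h, LDick_one.2.1] at h3
  have h4 : 2 * u 0 1 = 0 := by
    linear_combination -u 0 1 * LDick_det u + u 0 1 * h2 - u 0 0 * h3
  rw [(mul_eq_zero.1 h4).resolve_left two] at h1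
  exact (mul_eq_zero.1 h1.symm).resolve_right hb

section main

open Finset Matrix.SpecialLinearGroup OnePoint

variable {K : Type*} [Field K]

theorem NDick_main [IsAlgClosed K] {p : ℕ} [Fact p.Prime] [CharP K p]
    (hp : p = 3) (G : Subgroup SL(2, K)) [Finite G] (hm : -1 ∈ G) (h1 : xU 1 ∈ G) {τ : K}
    (hτ : τ ≠ 0) (h2 : yL τ ∈ G) : (∀ g ∈ G, g 1 0 ≠ 0 → xU (g 0 0 / g 1 0) ∈ G) ∨
      ∀ g ∈ G, g 0 1 ≠ 0 → (g 0 0 + g 1 1) * ((g 0 0 + g 1 1) ^ 2 - 4) *
        ((g 0 0 + g 1 1) ^ 4 - 3 * (g 0 0 + g 1 1) ^ 2 + 1) = 0 := by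
  classical
  have : Fintype G := Fintype.ofFinite G
  let _ : MulAction G (OnePoint K) := MulAction.compHom _ (toGL.comp G.subtype)
  have hs : ∀ (g : G) (x : OnePoint K), g • x = toGL g.1 • x := fun _ _ => rfl
  have two : (2 : K) ≠ 0 := fun h => by
    have := Nat.le_of_dvd two_pos ((CharP.cast_eq_zero_iff K p 2).1 (by exact_mod_cast h))
    omega
  have odd : Odd p := (Fact.out : p.Prime).odd_of_ne_two (by omega)
  let Λ : AddSubgroup K :=
    { carrier := {b | xU b ∈ G}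
      add_mem' := fun {a b} ha hb => by
        change xU (a + b) ∈ G
        rw [LDick_xU_add]
        exact mul_mem ha hb
      zero_mem' := by
        change xU 0 ∈ G
        rw [LDick_xU_zero]
        exact one_mem _
      neg_mem' := fun {a} ha => by
        change xU (-a) ∈ G
        rw [LDick_xU_neg]
        exact inv_mem ha }
  have mΛ : ∀ b, b ∈ Λ ↔ xU b ∈ G := fun _ => Iff.rfl
  obtain ⟨m, hm'⟩ : ∃ m : G, m = ⟨-1, hm⟩ := ⟨_, rfl⟩
  have m0 : m.1 = -1 := by rw [hm']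
  have m1 : m ≠ 1 := fun h => LDick_ne two (m0 ▸ congrArg Subtype.val h)
  have m2 : m ^ 2 = 1 := Subtype.ext (by simp [m0])
  have m3 : ∀ x : OnePoint K, m • x = x := fun x => by rw [hs, m0, LDick_neg_one]
  have m4 : ∀ g : G, (m * g).1 = -g.1 := fun g => by simp [m0]
  obtain ⟨L, hL⟩ : ∃ L : Finset K,
    L = (univ.filter fun g : G => g.1 1 0 = 0 ∧ g.1 0 0 = 1).image fun g => g.1 0 1 := ⟨_, rfl⟩
  have mL : ∀ b, b ∈ L ↔ b ∈ Λ := fun b => by
    simp only [hL, mem_image, mem_filter, mem_univ, true_and, mΛ]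
    constructor
    · rintro ⟨g, ⟨a1, a2⟩, rfl⟩
      exact LDick_eq_xU a1 a2 ▸ g.2
    · exact fun h => ⟨⟨_, h⟩, ⟨rfl, rfl⟩, rfl⟩
  have cL : #L = #{g : G | g.1 1 0 = 0 ∧ g.1 0 0 = 1} := by
    rw [hL]
    refine card_image_of_injOn fun g hg g' hg' e => Subtype.ext ?_
    simp only [coe_filter, mem_univ, true_and, Set.mem_ofPred_eq] at hg hg' e
    rw [LDick_eq_xU hg.1 hg.2, LDick_eq_xU hg'.1 hg'.2, e]
  have cU : #{g : G | g.1 1 0 = 0 ∧ g.1 0 0 * g.1 0 0 = 1} = 2 * #L := by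
    have e1 : #{g : G | g.1 1 0 = 0 ∧ g.1 0 0 = -1} = #L := by
      rw [cL]
      refine card_bij' (fun g _ => m * g) (fun g _ => m * g) ?_ ?_ ?_ ?_
      · intro g hg
        simp only [mem_filter, mem_univ, true_and, m4, LDick_neg] at hg ⊢
        simp [hg]
      · intro g hg
        simp only [mem_filter, mem_univ, true_and, m4, LDick_neg] at hg ⊢
        simp [hg]
      · intro g _
        rw [← mul_assoc, ← sq, m2, one_mul]
      · intro g _
        rw [← mul_assoc, ← sq, m2, one_mul]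
    rw [two_mul]
    nth_rewrite 1 [cL]
    rw [← e1, ← card_union_of_disjoint]
    · congr 1
      ext g
      simp only [mem_filter, mem_univ, true_and, mem_union, mul_self_eq_one_iff]
      tauto
    · rw [disjoint_left]
      intro g a1 a2
      simp only [mem_filter, mem_univ, true_and] at a1 a2
      exact two (by linear_combination a2.2 - a1.2)
  have pL : p ∣ #L := by
    rw [← Nat.subtype_card L mL, CharP.eq K (‹_› : CharP K p) (CharP.addOrderOf_one K)]
    exact Λ.addOrderOf_dvd_natCard h1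
  have q3 : 3 ≤ #L := hp.ge.trans (Nat.le_of_dvd (card_pos.2 ⟨1, (mL 1).2 h1⟩) pL)
  obtain ⟨A, hA⟩ : ∃ A : Finset K,
    A = (univ.filter fun g : G => g.1 1 0 ≠ 0).image fun g => g.1 0 0 / g.1 1 0 := ⟨_, rfl⟩
  have mA : ∀ a, a ∈ A ↔ ∃ g : G, g.1 1 0 ≠ 0 ∧ g.1 0 0 / g.1 1 0 = a := fun a => by simp [hA]
  have aA : ∀ a ∈ A, ∀ b ∈ Λ, a + b ∈ A := by
    intro a ha b hb
    obtain ⟨g, e1, rfl⟩ := (mA a).1 ha
    refine (mA _).2 ⟨⟨_, hb⟩ * g, ?_, ?_⟩
    · simpa [LDick_mul, LDick_xU] using e1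
    · simp only [Subgroup.coe_mul, LDick_mul, LDick_xU, one_mul, zero_mul, zero_add]
      rw [add_div, mul_div_cancel_right₀ _ e1]
  obtain ⟨r, hr⟩ := LDick_dvd Λ mL aA
  have cO : #(univ.image fun g : G => g • (∞ : OnePoint K)) = 1 + r * #L := by
    rw [mul_comm, ← hr, add_comm, ← card_image_of_injective A (OnePoint.coe_injective (X := K)),
      ← card_insert_of_notMem (a := ∞) (by simp)]
    congr 1
    ext x
    simp only [mem_image, mem_univ, true_and, mem_insert, mA, hs, LDick_inf]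
    constructor
    · rintro ⟨g, rfl⟩
      split_ifs with h
      · exact Or.inl rfl
      · exact Or.inr ⟨_, ⟨g, h, rfl⟩, rfl⟩
    · rintro (rfl | ⟨_, ⟨g, h, rfl⟩, rfl⟩)
      · exact ⟨1, by simp⟩
      · exact ⟨g, if_neg h⟩
  have pO : ¬ p ∣ #(univ.image fun g : G => g • (∞ : OnePoint K)) := fun h => by
    rw [cO] at h
    have := Nat.le_of_dvd one_pos ((Nat.dvd_add_left (pL.mul_left r)).1 h)
    omega
  let par : G → Prop := fun g => g ≠ 1 ∧ g ≠ m ∧ (g.1 0 0 + g.1 1 1) ^ 2 = 4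
  have hpar : ∀ g, par g → ∃ h : G, ∀ z : OnePoint K, g • z = z ↔ z = h • ∞ := by
    intro g ⟨a1, a2, a3⟩
    obtain ⟨x, hx⟩ := LDick_one_fix two (fun e => a1 (Subtype.ext e))
      (fun e => a2 (Subtype.ext (e.trans m0.symm))) a3
    obtain ⟨h, hh⟩ := LDick_fix ∞ pO (u := g) fun x => by
      rcases sq_eq_sq_iff_eq_or_eq_neg.1 (a3.trans (show (4 : K) = 2 ^ 2 by norm_num)) with e | e
      · rw [show g ^ p = 1 from Subtype.ext (LDick_pow_p e), one_smul]
      · have e1 : (-g.1) ^ p = 1 := LDick_pow_p (by rw [LDick_neg, LDick_neg]; linear_combination -e)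
        rw [odd.neg_pow, neg_eq_iff_eq_neg, ← m0] at e1
        rw [show g ^ p = m from Subtype.ext e1, m3]
    exact ⟨h, fun z => by rw [(hx _).1 hh]; exact hx z⟩
  have A0 : (0 : K) ∈ A := by
    obtain ⟨h, hh⟩ := hpar ⟨_, h2⟩ ⟨fun e => hτ (by
      have := congrArg (fun g : G => g.1 1 0) e
      simpa [LDick_yL] using this), fun e => hτ (by
      have := congrArg (fun g : G => g.1 1 0) e
      simpa [LDick_yL, m0, LDick_neg] using this), by
      simp only [LDick_yL]
      norm_num⟩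
    have e := (hh ((0 : K) : OnePoint K)).1 (by rw [hs, LDick_fix_some]; simp [LDick_yL])
    rw [hs, LDick_inf] at e
    split_ifs at e with h3
    · exact absurd e (coe_ne_infty _)
    · exact (mA 0).2 ⟨h, h3, (coe_eq_coe.1 e).symm⟩
  have cP : #{g | par g ∧ g • (∞ : OnePoint K) = ∞} = 2 * (#L - 2 + 1) := by
    have e1 : #{g | par g ∧ g • (∞ : OnePoint K) = ∞} + 2 = 2 * #L := by
      refine (congrArg _ (card_pair m1.symm).symm).trans ?_
      rw [← cU, ← card_union_of_disjoint]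
      · congr 1
        ext g
        simp only [mem_union, mem_filter, mem_univ, true_and, mem_insert, mem_singleton, hs,
          LDick_fix_inf]
        have hd := LDick_det g.1
        constructor
        · rintro (⟨⟨-, -, a3⟩, a4⟩ | rfl | rfl)
          · refine ⟨a4, ?_⟩
            have : (g.1 1 1 - g.1 0 0) ^ 2 = 0 := by
              linear_combination a3 - 4 * hd - 4 * g.1 0 1 * a4
            linear_combination hd + g.1 0 1 * a4 -
              g.1 0 0 * (pow_eq_zero_iff two_ne_zero |>.1 this)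
          · simp
          · simp [m0, LDick_neg]
        · rintro ⟨a1, a2⟩
          by_cases h : g = 1 ∨ g = m
          · exact Or.inr h
          · refine Or.inl ⟨⟨(not_or.1 h).1, (not_or.1 h).2, ?_⟩, a1⟩
            have : g.1 1 1 = g.1 0 0 := by
              linear_combination g.1 0 0 * hd + g.1 0 0 * g.1 0 1 * a1 - g.1 1 1 * a2
            rw [this]
            linear_combination 4 * a2
      · rw [disjoint_left]
        intro g a1 a2
        simp only [mem_filter, mem_univ, true_and, mem_insert, mem_singleton] at a1 a2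
        exact a2.elim a1.1.1 a1.1.2.1
    omega
  obtain ⟨e, he, hst⟩ := NDick_count (∞ : OnePoint K) m1 m2 m3 par (fun h => h.1 rfl)
    (fun h => h.2.1 rfl)
    (fun g h ⟨a1, a2, a3⟩ => ⟨fun e => a1 (by simpa using e), fun e => a2 (by
      rw [mul_inv_eq_iff_eq_mul, ← eq_inv_mul_iff_mul_eq] at e
      exact Subtype.ext (by simp [e, m0])), by
      simp only [Subgroup.coe_mul, Subgroup.coe_inv, LDick_tr, a3]⟩) hpar
    (fun g a1 a2 a3 => LDick_two_fix two fun h => a3 ⟨a1, a2, h⟩) cP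
  obtain ⟨β, hβ⟩ := LDick_even m1 m2 (m3 ∞)
  have sqL : ∀ g : G, g.1 1 0 = 0 → g.1 0 0 * g.1 0 0 ∈ L.erase 0 := by
    intro g hg
    have hd := LDick_det g.1
    rw [mem_erase, mL, mΛ]
    refine ⟨mul_self_ne_zero.2 fun h => one_ne_zero (α := K) ?_, ?_⟩
    · rw [← hd, h, hg, zero_mul, mul_zero, sub_zero]
    · have : xU (g.1 0 0 * g.1 0 0) = g.1 * xU 1 * g.1⁻¹ := by
        refine LDick_ext ?_ ?_ ?_ ?_ <;> simp only [LDick_mul, LDick_inv, LDick_xU, hg]
        · linear_combination -hd - g.1 0 1 * hg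
        · ring
        · ring
        · linear_combination -hd - g.1 0 1 * hg
      rw [this]
      exact mul_mem (mul_mem g.2 h1) (inv_mem g.2)
  have cB : #{g : G | g • (∞ : OnePoint K) = ∞} ≤ 2 * #L * #(L.erase 0) := by
    refine card_le_mul_card_image_of_maps_to (f := fun g : G => g.1 0 0 * g.1 0 0) ?_ _ ?_
    · intro g hg
      simp only [mem_filter, mem_univ, true_and, hs, LDick_fix_inf] at hg
      exact sqL g hg
    · intro t _
      rcases (filter (fun g : G => g.1 0 0 * g.1 0 0 = t)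
        {g : G | g • (∞ : OnePoint K) = ∞}).eq_empty_or_nonempty with h | ⟨g₀, h₀⟩
      · rw [h]
        exact Nat.zero_le _
      · rw [← cU]
        refine card_le_card_of_injOn (fun g => g * g₀⁻¹) (fun g hg => ?_)
          (mul_left_injective _).injOn
        simp only [coe_filter, mem_filter, mem_univ, true_and, Set.mem_ofPred_eq, hs,
          LDick_fix_inf, Subgroup.coe_mul, Subgroup.coe_inv, LDick_mul, LDick_inv] at hg h₀ ⊢
        have hd := LDick_det g₀.1
        rw [h₀.1] at hd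
        rw [hg.1, h₀.1]
        refine ⟨by ring, ?_⟩
        linear_combination g₀.1 1 1 ^ 2 * (hg.2 - h₀.2) + (g₀.1 0 0 * g₀.1 1 1 + 1) * hd
  have cG := LDick_orb (G := G) (∞ : OnePoint K)
  rw [card_erase_of_mem ((mL 0).2 (zero_mem _)), hβ, mul_assoc] at cB
  have r0 : 1 ≤ r := by
    have := card_pos.2 ⟨0, A0⟩
    rw [hr] at this
    exact Nat.pos_of_mul_pos_left this
  have e0 : 1 ≤ e := by
    have := Fintype.card_pos (α := G)
    rw [he, mul_assoc] at this
    exact Nat.pos_of_mul_pos_right (Nat.pos_of_mul_pos_left this)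
  rw [hβ, he, mul_left_comm, mul_assoc] at cG
  replace cG := Nat.eq_of_mul_eq_mul_left two_pos cG
  have r1 : r = 1 ∨ #L = 3 ∧ e = 5 := by
    by_cases q5 : 5 ≤ #L
    · refine Or.inl (LDick_arith (β := β) (e := e) q5 cO r0 ?_ e0 cG)
      obtain ⟨k, hk⟩ : ∃ k, #L = k + 1 := ⟨#L - 1, by omega⟩
      rw [hk, Nat.add_sub_cancel] at cB
      rw [hk]
      nlinarith
    · have q : #L = 3 := by
        rw [hp] at pL
        omega
      rw [q] at cB cO cG
      exact (NDick_arith cO r0 (by omega) e0 cG).imp_right fun h => ⟨q, h⟩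
  refine r1.imp (fun r1 => ?_) fun ⟨q, e5⟩ g hg hb => ?_
  swap
  · by_cases ht : (g 0 0 + g 1 1) ^ 2 = 4
    · rw [ht, sub_self, mul_zero, zero_mul]
    obtain ⟨x, y, -, hx⟩ := LDick_two_fix two ht
    rcases hst ⟨g, hg⟩ x (fun h => hb (by
        have := congrArg (fun g : G => g.1 0 1) h
        simpa using this)) (fun h => hb (by
        have := congrArg (fun g : G => g.1 0 1) h
        simpa [m0, LDick_neg] using this)) ((hx x).2 (Or.inl rfl)) with ⟨h, rfl⟩ | h
    · have a1 : (h⁻¹ * ⟨g, hg⟩ * h⁻¹⁻¹ : G) • (∞ : OnePoint K) = ∞ := by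
        rw [inv_inv, mul_smul, mul_smul, inv_smul_eq_iff]
        exact (hx _).2 (Or.inl rfl)
      rw [hs, LDick_fix_inf] at a1
      have a2 := sqL _ a1
      have a3 : ({0, 1, -1} : Finset K) = L := by
        refine eq_of_subset_of_card_le (fun b hb => (mL b).2 ?_) ?_
        · simp only [mem_insert, mem_singleton] at hb
          rcases hb with rfl | rfl | rfl
          exacts [zero_mem _, h1, neg_mem h1]
        · rw [q, card_eq_three.2 ⟨0, 1, -1, zero_ne_one, by simp,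
            fun h => two (by linear_combination h), rfl⟩]
      have a4 : (h⁻¹ * ⟨g, hg⟩ * h⁻¹⁻¹ : G).1 0 0 + (h⁻¹ * ⟨g, hg⟩ * h⁻¹⁻¹ : G).1 1 1 =
          g 0 0 + g 1 1 := LDick_tr g h⁻¹.1
      have a5 := LDick_det (h⁻¹ * ⟨g, hg⟩ * h⁻¹⁻¹ : G).1
      rw [a1, mul_zero, sub_zero] at a5
      rw [← a3] at a2
      simp only [mem_erase, mem_insert, mem_singleton] at a2
      rw [← a4] at ht ⊢
      generalize (h⁻¹ * ⟨g, hg⟩ * h⁻¹⁻¹ : G).1 0 0 = a at a2 a5 ht ⊢
      generalize (h⁻¹ * ⟨g, hg⟩ * h⁻¹⁻¹ : G).1 1 1 = d at a5 ht ⊢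
      rcases a2.2 with a6 | a6 | a6
      · exact absurd a6 a2.1
      · exact absurd (by linear_combination (3 + a * d) * a5 + (1 - d ^ 2) * a6) ht
      · rw [show a + d = 0 by linear_combination d * a6 - a * a5, zero_mul, zero_mul]
    · rw [e5] at h
      rw [NDick_ten two (congrArg Subtype.val h) hb, mul_zero]
  have eq : L = A := eq_of_subset_of_card_le (fun b hb => by
    simpa using aA 0 A0 b ((mL b).1 hb)) (by rw [hr, r1, mul_one])
  intro g hg h
  exact (mΛ _).1 ((mL _).1 (eq ▸ (mA _).2 ⟨⟨g, hg⟩, h, rfl⟩))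

end main

/-- Copy the proofs of `LDick_count`, `LDick_main`, `dickson` (file `LDick`). Strengthen the count:
besides `card G = 2 e (2 + n k)`, every point `x` outside the orbit `O` of `o` fixed by some
`g ∉ {1, m}` has a stabiliser with exactly `2 e` elements (in the proof `T \ O` is empty or a single
orbit). Let `q = #L`; `3 ∣ q`. If `q ≥ 5` use `LDick_arith` as before. If `q = 3` then `β ≤ 6`,
`n β = e (2 + n)`, `n = 1 + 3 r`, `n ∣ 2 e`, so `e < 6`, `n ≤ 10`, and `r = 1` (the first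
alternative, as before) or `n = 10`, `e = 5`. In the last case let `g ∈ G`, `g ≠ ± 1`, have trace
`t` with `t ^ 2 ≠ 4`. It fixes a point `x`. If `x ∈ O`, a conjugate `g'` has `g' 1 0 = 0` and
`a = g' 0 0` has `a ^ 2 ∈ L \ 0 = {1, -1}` (`L` has three elements and contains `0, 1, -1`), so
`t = a + a⁻¹ ∈ {2, -2, 0}`. Otherwise `g ^ 10 = 1` (the order divides the order of the stabiliser);
with `g ^ 2 = t g - 1` compute `g ^ 10 = U₁₀(t) g - U₉(t)`, and `g 0 1 ≠ 0` gives `U₁₀(t) = 0`,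
`U₉(t) = -1`, hence `t ^ 2 = t + 1` or `t ^ 2 = 1 - t` or `t = ± 2`. So in all cases
`t (t ^ 2 - 1) (t ^ 2 - t - 1) (t ^ 2 + t - 1) = 0` (note `2 = -1`). Apply this to
`xU 1 * yL τ` and `(xU 1)⁻¹ * yL τ` (upper right entries `± 1`), `t = 2 ± τ`: with
`P(t) = (t ^ 9 - t) / (t ^ 2 + 1)`, the greatest common divisor of `P(2 + τ)` and `P(2 - τ)` over
`ZMod 3` is `τ (τ ^ 4 - 1)` (find the Bezout coefficients by computer; `(3 : K) = 0`). -/
theorem dickson3 {K : Type*} [Field K] [IsAlgClosed K] [CharP K 3] (G : Subgroup SL(2, K))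
    [Finite G] (h1 : xU 1 ∈ G) {τ : K} (hτ : τ ≠ 0) (h2 : yL τ ∈ G) :
    ((∀ g ∈ G, g 1 0 ≠ 0 → xU (g 0 0 / g 1 0) ∈ G) ∧ yL 1 ∈ G) ∨ τ ^ 4 = 1 := by
  have odd : Odd 3 := by decide
  let G' : Subgroup SL(2, K) :=
    { carrier := {g | g ∈ G ∨ -g ∈ G}
      mul_mem' := by
        rintro a b (ha | ha) (hb | hb)
        · exact Or.inl (mul_mem ha hb)
        · exact Or.inr (mul_neg a b ▸ mul_mem ha hb)
        · exact Or.inr (neg_mul a b ▸ mul_mem ha hb)
        · exact Or.inl (neg_mul_neg a b ▸ mul_mem ha hb)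
      one_mem' := Or.inl (one_mem _)
      inv_mem' := by
        rintro a (ha | ha)
        · exact Or.inl (inv_mem ha)
        · refine Or.inr ?_
          rw [← inv_neg]
          exact inv_mem ha }
  have : Finite G' := by
    refine ((Set.finite_range fun g : G => g.1).union
      (Set.finite_range fun g : G => -g.1)).subset ?_
    rintro g (h | h)
    · exact Or.inl ⟨⟨_, h⟩, rfl⟩
    · exact Or.inr ⟨⟨_, h⟩, neg_neg g⟩
  refine (NDick_main (p := 3) rfl G' (Or.inr (by rw [neg_neg]; exact one_mem _)) (Or.inl h1) hτ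
    (Or.inl h2)).imp (fun H => ?_) fun H => ?_
  · have key : ∀ g ∈ G, g 1 0 ≠ 0 → xU (g 0 0 / g 1 0) ∈ G := fun g hg h => by
      rcases H g (Or.inl hg) h with e | e
      · exact e
      · have e1 := pow_mem e (3 + 1)
        rwa [odd.add_one.neg_pow, pow_succ, LDick_pow_p (by simp only [LDick_xU]; norm_num),
          one_mul] at e1
    exact ⟨key, LDick_y G h1 hτ h2 key⟩
  · have a1 := H _ (Or.inl (mul_mem h1 h2)) (by simp [LDick_mul, LDick_xU, LDick_yL])
    have a2 := H _ (Or.inl (mul_mem (inv_mem h1) h2))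
      (by simp [LDick_mul, LDick_inv, LDick_xU, LDick_yL])
    simp only [LDick_mul, LDick_inv, LDick_xU, LDick_yL] at a1 a2
    have a3 : (3 : K) = 0 := by exact_mod_cast CharP.cast_eq_zero K 3
    have a4 : τ ^ 2 * (τ ^ 4 - 1) = 0 := by
      linear_combination a1 + a2 - (127 * τ ^ 2 + 140 * τ ^ 4 + 9 * τ ^ 6) * a3
    exact sub_eq_zero.1 ((mul_eq_zero.1 a4).resolve_left (pow_ne_zero _ hτ))

end Pool.Agent.Lib.MP_bf45aa_co
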