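import Pool.Agent.Lib.MP_bf45aa_co.LAch
import Pool.Agent.Lib.PSV.NDick

set_option autoImplicit false

/-! Achievable polynomials for odd primes. -/

namespace Pool.Agent.Lib.MP_bf45aa_co

open Polynomial
open scoped MatrixGroups

theorem prime_cases {p : ℕ} (h : p.Prime) (hp : p ≠ 2) : p = 3 ∨ 5 ≤ p := by
  have h2 := h.two_le
  have h4 : p ≠ 4 := fun e => by rw [e] at h; norm_num at h
  omega

variable {p : ℕ} [Fact p.Prime]

theorem NAch_kill {τ : AlgebraicClosure (ZMod p)} (h0 : τ ≠ 0) (h1 : τ ≠ -1)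
    (hD : ∀ g ∈ GG p, evM τ g 1 0 ≠ 0 → ∃ m ∈ GG p, evM τ m = xU (evM τ g 0 0 / evM τ g 1 0)) :
    ∃ ψ, Ach p ψ ∧ aeval τ ψ = 0 ∧ aeval (-1 : AlgebraicClosure (ZMod p)) ψ ≠ 0 := by
  by_contra hcon
  have H : ∀ m ∈ GG p, evM τ m 1 0 = 0 → evM (-1) m 1 0 = 0 := by
    intro m hm h
    by_contra h'
    refine hcon ⟨_, ⟨m, hm, rfl⟩, ?_, ?_⟩
    · rw [map_neg, map_pow, ← LAch0_evM_apply, h]
      simp
    · rw [map_neg, map_pow, ← LAch0_evM_apply]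
      exact neg_ne_zero.2 (pow_ne_zero _ h')
  have A : ∀ k ∈ GG p, evM τ k 0 0 = 0 → evM (-1) k 0 0 = 0 := by
    intro k hk h
    have h2 := H (k⁻¹ * yL X * k) (mul_mem (mul_mem (inv_mem hk) LAch0_yL_mem) hk) (by
      rw [map_mul, map_mul, map_inv, LAch0_evM_yL, LAch0_conj, h]
      simp)
    rw [map_mul, map_mul, map_inv, LAch0_evM_yL, LAch0_conj] at h2
    simpa using h2
  have B : ∀ g ∈ GG p, evM τ g 1 0 ≠ 0 → ∃ m ∈ GG p, evM τ (m⁻¹ * g) 0 0 = 0 ∧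
      evM (-1) m 1 0 = 0 := by
    intro g hg h
    obtain ⟨m, hm, e⟩ := hD g hg h
    refine ⟨m, hm, ?_, H m hm (by rw [e]; simp [xU])⟩
    rw [map_mul, map_inv, LAch0_mul, (LAch0_inv _).1, (LAch0_inv _).2.1, e]
    simp [xU]
    field_simp
    ring
  obtain ⟨m₁, hm₁, e₁, -⟩ := B _ LAch0_yL_mem (by rw [LAch0_evM_yL]; simpa [yL] using h0)
  have hg₀ : m₁⁻¹ * yL X ∈ GG p := mul_mem (inv_mem hm₁) LAch0_yL_mem
  generalize m₁⁻¹ * yL X = g₀ at e₁ hg₀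
  have e₂ := A g₀ hg₀ e₁
  have hc : evM τ g₀ 1 0 ≠ 0 := by
    intro h
    have := LAch0_det (evM τ g₀)
    rw [e₁, h] at this
    simp at this
  have hh : yL X * (xU 1 * g₀) ∈ GG p := mul_mem LAch0_yL_mem (mul_mem LAch0_xU_mem hg₀)
  obtain ⟨m₂, hm₂, e₃, e₄⟩ := B _ hh (by
    rw [map_mul, map_mul, LAch0_evM_yL, LAch0_evM_xU]
    simp only [LAch0_mul, e₁]
    have : τ + 1 ≠ 0 := fun h => h1 (eq_neg_of_add_eq_zero_left h)
    have h5 := mul_ne_zero this hc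
    intro h
    apply h5
    simp [xU, yL] at h
    linear_combination h)
  have e₅ := A _ (mul_mem (inv_mem hm₂) hh) e₃
  have e₆ : evM (-1) (yL X * (xU 1 * g₀)) 1 0 = 0 := by
    rw [map_mul, map_mul, LAch0_evM_yL, LAch0_evM_xU]
    simp only [LAch0_mul, e₂]
    simp [xU, yL]
  have e₇ : evM (-1) (m₂⁻¹ * (yL X * (xU 1 * g₀))) 1 0 = 0 := by
    rw [map_mul, map_inv, LAch0_mul, (LAch0_inv _).2.2.1, e₄, e₆]
    simp
  have := LAch0_det (evM (-1) (m₂⁻¹ * (yL X * (xU 1 * g₀))))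
  rw [e₅, e₇] at this
  simp at this

theorem NAch_dickson {τ : AlgebraicClosure (ZMod 3)} (hτ : τ ≠ 0) :
    ((∀ g ∈ GG 3, evM τ g 1 0 ≠ 0 → ∃ m ∈ GG 3, evM τ m = xU (evM τ g 0 0 / evM τ g 1 0)) ∧
      ∃ m ∈ GG 3, evM τ m = yL 1) ∨ τ ^ 4 = 1 := by
  have := finite_evM τ
  rcases dickson3 ((GG 3).map (evM τ)) ⟨_, LAch0_xU_mem, LAch0_evM_xU τ⟩ hτ
    ⟨_, LAch0_yL_mem, LAch0_evM_yL τ⟩ with ⟨h1, h2⟩ | h
  · exact Or.inl ⟨fun g hg h => h1 _ ⟨g, hg, rfl⟩ h, h2⟩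
  · exact Or.inr h

theorem NAch_a1 : Ach p (-X ^ 2) := ⟨yL X, LAch0_yL_mem, rfl⟩

theorem NAch_a2 : Ach p (-(X ^ 2) ^ 2) := by
  refine ⟨yL X * (xU 1)⁻¹ * (yL X)⁻¹,
    mul_mem (mul_mem LAch0_yL_mem (inv_mem LAch0_xU_mem)) (inv_mem LAch0_yL_mem), ?_⟩
  simp [xU, yL, Matrix.SpecialLinearGroup.coe_inv, Matrix.adjugate_fin_two, Matrix.mul_apply,
    Fin.sum_univ_two]
  ring

theorem NAch_a3 : Ach p (-(X + X ^ 3) ^ 2) := by
  refine ⟨yL X * xU 1 * (yL X)⁻¹ * (xU 1)⁻¹ * yL X, mul_mem (mul_mem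
    (mul_mem (mul_mem LAch0_yL_mem LAch0_xU_mem) (inv_mem LAch0_yL_mem)) (inv_mem LAch0_xU_mem))
    LAch0_yL_mem, ?_⟩
  simp [xU, yL, Matrix.SpecialLinearGroup.coe_inv, Matrix.adjugate_fin_two, Matrix.mul_apply,
    Fin.sum_univ_two]
  ring

theorem NAch_a4 : Ach p (-(2 * X - 2 * X ^ 2) ^ 2) := by
  refine ⟨yL X * (xU 1)⁻¹ * (xU 1)⁻¹ * yL X, mul_mem (mul_mem
    (mul_mem LAch0_yL_mem (inv_mem LAch0_xU_mem)) (inv_mem LAch0_xU_mem)) LAch0_yL_mem, ?_⟩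
  simp [xU, yL, Matrix.SpecialLinearGroup.coe_inv, Matrix.adjugate_fin_two, Matrix.mul_apply,
    Fin.sum_univ_two]
  ring

theorem ach_norm' (hp : p ≠ 2) {τ : AlgebraicClosure (ZMod p)} (hτ : τ ≠ 0) :
    ∃ ψ, Ach p ψ ∧ aeval τ ψ = -1 := by
  rcases prime_cases Fact.out hp with rfl | h5
  · rcases NAch_dickson hτ with ⟨-, m, hm, e⟩ | h
    · refine ⟨_, ⟨m, hm, rfl⟩, ?_⟩
      rw [map_neg, map_pow, ← LAch0_evM_apply, e]
      simp [yL]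
    · exact ⟨_, NAch_a2, by simp [← pow_mul, h]⟩
  · exact ach_norm h5 hτ

theorem ach_kill' (hp : p ≠ 2) {τ : AlgebraicClosure (ZMod p)} (h0 : τ ≠ 0) (h1 : τ ≠ -1) :
    ∃ ψ, Ach p ψ ∧ aeval τ ψ = 0 ∧ aeval (-1 : AlgebraicClosure (ZMod p)) ψ ≠ 0 := by
  rcases prime_cases Fact.out hp with rfl | h5
  · rcases NAch_dickson h0 with ⟨h, -⟩ | h
    · exact NAch_kill h0 h1 h
    · have h3 : (3 : AlgebraicClosure (ZMod 3)) = 0 := CharP.cast_eq_zero _ 3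
      have h4 : (τ + 1) * ((τ - 1) * (τ ^ 2 + 1)) = 0 := by linear_combination h
      rcases mul_eq_zero.1 ((mul_eq_zero.1 h4).resolve_left fun e =>
        h1 (eq_neg_of_add_eq_zero_left e)) with e | e
      · refine ⟨_, NAch_a4, ?_, ?_⟩
        · simp only [map_neg, map_pow, map_sub, map_mul, aeval_X, map_ofNat, sub_eq_zero.1 e]
          norm_num
        · simp only [map_neg, map_pow, map_sub, map_mul, aeval_X, map_ofNat]
          intro e1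
          exact one_ne_zero (α := AlgebraicClosure (ZMod 3)) (by linear_combination -e1 - 5 * h3)
      · refine ⟨_, NAch_a3, ?_, ?_⟩
        · simp only [map_neg, map_pow, map_add, aeval_X]
          linear_combination (-τ ^ 2 * (τ ^ 2 + 1)) * e
        · simp only [map_neg, map_pow, map_add, aeval_X]
          intro e1
          exact one_ne_zero (α := AlgebraicClosure (ZMod 3)) (by linear_combination -e1 - h3)
  · exact ach_kill h5 h0 h1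

theorem ach_sep' (hp : p ≠ 2) (T : Finset (AlgebraicClosure (ZMod p)))
    {τ₀ : AlgebraicClosure (ZMod p)} (h0 : τ₀ ≠ 0) :
    ∃ φ, AchS p φ ∧ aeval τ₀ φ = -1 ∧ ∀ τ ∈ T, aeval τ φ = 0 ∨ aeval τ φ = -1 := by
  classical
  have key : ∀ (n : ℕ) (φ : (ZMod p)[X]), AchS p φ → aeval τ₀ φ ≠ 0 →
      (T.filter fun τ => aeval τ φ ≠ 0).card < n →
      ∃ φ, AchS p φ ∧ aeval τ₀ φ = -1 ∧ ∀ τ ∈ T, aeval τ φ = 0 ∨ aeval τ φ = -1 := by
    intro n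
    induction n with
    | zero => exact fun φ _ _ h => absurd h (Nat.not_lt_zero _)
    | succ n ih =>
      intro φ hφ hne hc
      obtain ⟨ψ, hψ, hv⟩ := ach_norm' hp hne
      rw [← aeval_comp] at hv
      by_cases hall : ∀ τ ∈ T, aeval τ (ψ.comp φ) = 0 ∨ aeval τ (ψ.comp φ) = -1
      · exact ⟨_, hφ.step hψ, hv, hall⟩
      push Not at hall
      obtain ⟨τ, hτ, h1, h2⟩ := hall
      obtain ⟨χ, hχ, k1, k2⟩ := ach_kill' hp h1 h2
      refine ih (χ.comp (ψ.comp φ)) ((hφ.step hψ).step hχ) (by rwa [aeval_comp, hv]) ?_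
      refine lt_of_lt_of_le (Finset.card_lt_card ⟨fun σ hσ => ?_, fun hs => ?_⟩)
        (Nat.lt_succ_iff.1 hc)
      · rw [Finset.mem_filter] at hσ ⊢
        refine ⟨hσ.1, fun h => hσ.2 ?_⟩
        rw [aeval_comp, aeval_comp, h, ach_zero hψ, ach_zero hχ]
      · have h3 : τ ∈ T.filter fun τ => aeval τ φ ≠ 0 :=
          Finset.mem_filter.2 ⟨hτ, fun h => h1 (by rw [aeval_comp, h, ach_zero hψ])⟩
        exact (Finset.mem_filter.1 (hs h3)).2 (by rw [aeval_comp, k1])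
  exact key _ X AchS.base (by rwa [aeval_X]) (Nat.lt_succ_self _)

end Pool.Agent.Lib.MP_bf45aa_co
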