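import Pool.Agent.Lib.PSV.LPart0

set_option autoImplicit false
set_option linter.unusedSectionVars false

/-! Partners at finite radius. -/

namespace Pool.Agent.Lib.MP_bf45aa_co

open Subgroup Module Polynomial

theorem LPart1_ring {A : Type*} [Ring A] {x y : A} (hx : x * x = 0) (hy : y * y = 0)
    (ht : tau x y * tau x y = -tau x y) :
    (tau x y * y) * (tau x y * y) = 0 ∧ (tau x y * y) * x * (tau x y * y) = tau x y * y ∧
      1 - tau x y * x = 1 + x * (tau x y * y) * x ∧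
      tau x y = -(x * (tau x y * y) + (tau x y * y) * x) := by
  have c1 : tau x y * x = x * tau x y := (tau_comm_left hx).eq
  have c2 : tau x y * y = y * tau x y := (tau_comm_right hy).eq
  have e1 : y * x * y = tau x y * y := by
    rw [tau, add_mul, mul_assoc x y y, hy, mul_zero, zero_add]
  have e2 : x * y * x = tau x y * x := by
    rw [tau, add_mul, mul_assoc y x x, hx, mul_zero, add_zero]
  have e3 : x * y + y * x = tau x y := rfl
  generalize tau x y = t at *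
  refine ⟨?_, ?_, ?_, ?_⟩
  · calc t * y * (t * y) = t * (y * t) * y := by noncomm_ring
      _ = t * t * (y * y) := by rw [← c2]; noncomm_ring
      _ = 0 := by rw [hy, mul_zero]
  · calc t * y * x * (t * y) = t * y * (x * t) * y := by noncomm_ring
      _ = t * (y * t) * x * y := by rw [← c1]; noncomm_ring
      _ = t * t * (y * x * y) := by rw [← c2]; noncomm_ring
      _ = -(t * t) * y := by rw [e1, ht]; noncomm_ring; rw [← mul_assoc, ht]; noncomm_ring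
      _ = t * y := by rw [ht, neg_neg]
  · have : x * (t * y) * x = -(t * x) := by
      calc x * (t * y) * x = (x * t) * y * x := by noncomm_ring
        _ = t * (x * y * x) := by rw [← c1]; noncomm_ring
        _ = -(t * x) := by rw [e2, ← mul_assoc, ht, neg_mul]
    rw [this, sub_eq_add_neg]
  · have : x * (t * y) + t * y * x = -t := by
      calc x * (t * y) + t * y * x = (x * t) * y + t * y * x := by noncomm_ring
        _ = t * (x * y + y * x) := by rw [← c1]; noncomm_ring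
        _ = -t := by rw [e3, ht]
    rw [this, neg_neg]

section Rel

variable {F V : Type*} [Field F] [AddCommGroup V] [Module F V] {M : Submodule F V}

/-- `a` is the restriction of `b` to `M`. -/
def LPart1_R (M : Submodule F V) (a : End F M) (b : End F V) : Prop :=
  ∀ v : M, (a v : V) = b v

theorem LPart1_R.one : LPart1_R M 1 1 := fun _ => rfl

theorem LPart1_R.zero : LPart1_R M 0 0 := fun _ => rfl

theorem LPart1_R.mul {a a' : End F M} {b b' : End F V} (h : LPart1_R M a b)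
    (h' : LPart1_R M a' b') : LPart1_R M (a * a') (b * b') := fun v => by
  rw [End.mul_apply, End.mul_apply, h, h']

theorem LPart1_R.add {a a' : End F M} {b b' : End F V} (h : LPart1_R M a b)
    (h' : LPart1_R M a' b') : LPart1_R M (a + a') (b + b') := fun v => by
  rw [LinearMap.add_apply, LinearMap.add_apply, Submodule.coe_add, h, h']

theorem LPart1_R.sub {a a' : End F M} {b b' : End F V} (h : LPart1_R M a b)
    (h' : LPart1_R M a' b') : LPart1_R M (a - a') (b - b') := fun v => by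
  rw [LinearMap.sub_apply, LinearMap.sub_apply, Submodule.coe_sub, h, h']

theorem LPart1_R.neg {a : End F M} {b : End F V} (h : LPart1_R M a b) :
    LPart1_R M (-a) (-b) := fun v => by
  rw [LinearMap.neg_apply, LinearMap.neg_apply, Submodule.coe_neg, h]

theorem LPart1_R.tau {a a' : End F M} {b b' : End F V} (h : LPart1_R M a b)
    (h' : LPart1_R M a' b') : LPart1_R M (tau a a') (tau b b') := (h.mul h').add (h'.mul h)

theorem LPart1_R.eq_iff {a a' : End F M} {b b' : End F V} (h : LPart1_R M a b)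
    (h' : LPart1_R M a' b') : a = a' ↔ ∀ v ∈ M, b v = b' v := by
  constructor
  · rintro rfl v hv
    exact (h ⟨v, hv⟩).symm.trans (h' ⟨v, hv⟩)
  · intro e
    ext v
    rw [h, h', e v v.2]

end Rel

namespace LD

variable {p : ℕ} [Fact p.Prime] {H X V : Type} [Group H] [MulAction H X] [AddCommGroup V]
  [Module (ZMod p) V] (D : LD p H X V)

theorem LPart1_achS {y : X} {u g₀ : H} (h1 : u ∈ St H y) (hg : g₀ ∈ St H y)
    (hu : (D.ρ u - 1) * (D.ρ u - 1) = 0) {φ : (ZMod p)[X]} (h : AchS p φ) :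
    ∃ g ∈ St H y, D.tg u g = aeval (D.tg u g₀) φ := by
  obtain ⟨g, hg'⟩ := quad_achS (D.ρ.comp (St H y).subtype) (u := ⟨u, h1⟩) hu ⟨g₀, hg⟩ h
  exact ⟨g, g.2, hg'⟩

theorem LPart1_tg_mem {y : X} {u g : H} (h1 : u ∈ St H y) (hg : g ∈ St H y) :
    D.tg u g ∈ D.PA y := by
  have e1 := sub_mem (D.ρ_mem_PA h1) (one_mem (D.PA y))
  have e2 := sub_mem (D.ρ_mem_PA (mul_mem (mul_mem hg h1) (inv_mem hg))) (one_mem (D.PA y))
  exact add_mem (mul_mem e1 e2) (mul_mem e2 e1)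

theorem LPart1_aeval_mem {y : X} {a : End (ZMod p) V} (ha : a ∈ D.PA y) (φ : (ZMod p)[X]) :
    aeval a φ ∈ D.PA y :=
  Algebra.adjoin_le (Set.singleton_subset_iff.2 ha) (Polynomial.aeval_mem_adjoin_singleton _ a)

theorem LPart1_layer (hp : p ≠ 2) {y y' : X} (h : D.Γ.Adj y y') {u : H} (h1 : u • y = y)
    (h2 : u • y' = y') (h3 : u ∉ Kn H D.Γ 1 y) (hu : (D.ρ u - 1) * (D.ρ u - 1) = 0)
    {k r : ℕ} (hk : k + 2 ≤ r) {t : Finset H} (ht : ∀ a ∈ t, a ∈ St H y)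
    (ht' : ∀ g ∈ St H y, ∃ a ∈ t, a⁻¹ * g ∈ D.Q y) :
    ∃ b ∈ t, NilOn (aeval (D.tg u b) (Polynomial.X * (Polynomial.X + 1) : (ZMod p)[X]))
      (D.Vb y r) ⊥ ∧ ¬ NilOn (D.tg u b) (D.Vb y (k + 2)) (D.Vb y k) := by
  have hu1 : u ∈ St H y := mem_St.2 h1
  obtain ⟨g, hg, hn⟩ := D.bs_layer h h1 h2 h3 hu k
  have ha := D.LPart1_tg_mem hu1 hg
  obtain ⟨T, τ₀, h0, hT, hτ⟩ := exists_roots (D.tg u g) (M := D.Vb y r) (ha r)
    (D.Vb_mono y hk) (ha k) hn
  obtain ⟨φ, hφ, e1, e2⟩ := ach_sep' hp T h0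
  obtain ⟨g₁, hg₁, e3⟩ := D.LPart1_achS hu1 hg hu hφ
  have n1 : ¬ NilOn (D.tg u g₁) (D.Vb y (k + 2)) (D.Vb y k) := by
    intro hc
    rw [e3] at hc
    have := hτ φ hc
    rw [e1] at this
    exact one_ne_zero (neg_eq_zero.1 this)
  have n2 : NilOn (aeval (D.tg u g₁) (Polynomial.X * (Polynomial.X + 1) : (ZMod p)[X]))
      (D.Vb y r) ⊥ := by
    have := hT (φ * (φ + 1)) (by
      intro τ hτ'
      rcases e2 τ hτ' with e | e <;> simp [e])
    simpa [e3] using this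
  obtain ⟨b, hb, hq⟩ := ht' g₁ hg₁
  refine ⟨b, hb, ?_, ?_⟩
  · have := D.nilOn_Q hu1 hg₁ (inv_mem hq) _ r (B := ⊥)
      (fun a _ v hv => by rw [(Submodule.mem_bot _).1 hv, map_zero]; exact zero_mem _) n2
    rwa [show g₁ * (b⁻¹ * g₁)⁻¹ = b by group] at this
  · intro hc
    apply n1
    have := D.nilOn_Q hu1 (ht b hb) hq Polynomial.X (k + 2) (B := D.Vb y k)
      (fun a ha' v hv => D.ρ_mem_PA ha' k v hv) (by rwa [aeval_X])
    rwa [aeval_X, show b * (b⁻¹ * g₁) = g₁ by group] at this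

theorem LPart1_pigeon (hp : p ≠ 2) {y y' : X} (h : D.Γ.Adj y y') {u : H} (h1 : u • y = y)
    (h2 : u • y' = y') (h3 : u ∉ Kn H D.Γ 1 y) (hu : (D.ρ u - 1) * (D.ρ u - 1) = 0)
    {j r : ℕ} (hj : 0 < j) (hr : 2 * j ≤ r) :
    ∃ b ∈ St H y, NilOn (aeval (D.tg u b) (Polynomial.X * (Polynomial.X + 1) : (ZMod p)[X]))
      (D.Vb y r) ⊥ ∧ ∃ I : Finset ℕ, j ≤ D.β * I.card ∧
        ∀ i ∈ I, i < j ∧ ¬ NilOn (D.tg u b) (D.Vb y (2 * i + 2)) (D.Vb y (2 * i)) := by
  classical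
  obtain ⟨t, htc, ht, ht'⟩ := D.Q_idx y
  let I : H → Finset ℕ := fun b => (Finset.range j).filter fun i =>
    NilOn (aeval (D.tg u b) (Polynomial.X * (Polynomial.X + 1) : (ZMod p)[X]))
      (D.Vb y r) ⊥ ∧ ¬ NilOn (D.tg u b) (D.Vb y (2 * i + 2)) (D.Vb y (2 * i))
  have hne : t.Nonempty := by
    obtain ⟨a, ha, -⟩ := ht' 1 (one_mem _)
    exact ⟨a, ha⟩
  obtain ⟨b, hb, hmax⟩ := Finset.exists_max_image t (fun b => (I b).card) hne
  have hsub : Finset.range j ⊆ t.biUnion I := by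
    intro i hi
    have hi' := Finset.mem_range.1 hi
    obtain ⟨a, ha, e⟩ := D.LPart1_layer hp h h1 h2 h3 hu (k := 2 * i) (r := r) (by omega) ht ht'
    exact Finset.mem_biUnion.2 ⟨a, ha, Finset.mem_filter.2 ⟨hi, e⟩⟩
  have hc : j ≤ D.β * (I b).card := by
    have e1 := Finset.card_le_card hsub
    rw [Finset.card_range] at e1
    exact e1.trans ((Finset.card_biUnion_le_card_mul t I _ hmax).trans
      (Nat.mul_le_mul_right _ htc))
  have hI : (I b).Nonempty := by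
    rw [← Finset.card_pos]
    by_contra h0
    have : (I b).card = 0 := by omega
    rw [this] at hc
    omega
  obtain ⟨i, hi⟩ := hI
  refine ⟨b, ht b hb, (Finset.mem_filter.1 hi).2.1, I b, hc, fun i hi => ?_⟩
  exact ⟨Finset.mem_range.1 (Finset.mem_filter.1 hi).1, (Finset.mem_filter.1 hi).2.2⟩

theorem LPart1_newton {y : X} {u b : H} (h1 : u ∈ St H y) (hb : b ∈ St H y)
    (hu : (D.ρ u - 1) * (D.ρ u - 1) = 0) {r : ℕ}
    (hn : NilOn (aeval (D.tg u b) (Polynomial.X * (Polynomial.X + 1) : (ZMod p)[X]))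
      (D.Vb y r) ⊥) :
    ∃ g ∈ St H y, (∀ v ∈ D.Vb y r, (D.tg u g * D.tg u g) v = (-D.tg u g) v) ∧
      ∀ k l, k ≤ r → ¬ NilOn (D.tg u b) (D.Vb y k) (D.Vb y l) →
        ∃ v ∈ D.Vb y k, D.tg u g v ∉ D.Vb y l := by
  obtain ⟨n, hn⟩ := hn
  obtain ⟨φ, hφ, ⟨ψ, e1⟩, ⟨c, e2⟩⟩ := achS_newton (p := p) n
  obtain ⟨g, hg, e3⟩ := D.LPart1_achS h1 hb hu hφ
  have hz : ∀ (α : (ZMod p)[X]), ∀ v ∈ D.Vb y r,
      aeval (D.tg u b) (α * (Polynomial.X * (Polynomial.X + 1)) ^ n) v = 0 := by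
    intro α v hv
    rw [map_mul, map_pow, End.mul_apply, (Submodule.mem_bot _).1 (hn v hv), map_zero]
  refine ⟨g, hg, fun v hv => ?_, fun k l hk hnil => ?_⟩
  · have := hz ψ v hv
    rw [mul_comm, ← e1, map_mul, map_add, map_one, ← e3, mul_add, mul_one,
      LinearMap.add_apply] at this
    rw [LinearMap.neg_apply]
    exact eq_neg_of_add_eq_zero_left this
  · by_contra hc
    push Not at hc
    apply hnil
    have hcop : IsCoprime φ ((Polynomial.X + 1) ^ n) :=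
      IsCoprime.pow_right ⟨-1, c, by linear_combination -e2⟩
    obtain ⟨α, β, e4⟩ := hcop
    refine ⟨n, fun v hv => ?_⟩
    have e5 : (Polynomial.X : (ZMod p)[X]) ^ n = (α * Polynomial.X ^ n) * φ +
        β * (Polynomial.X * (Polynomial.X + 1)) ^ n := by
      rw [mul_pow]
      linear_combination (-Polynomial.X ^ n) * e4
    have e6 := congrArg (fun ψ => aeval (D.tg u b) ψ v) e5
    rw [map_pow, aeval_X, map_add, LinearMap.add_apply, hz β v (D.Vb_mono y hk hv), add_zero,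
      map_mul, ← e3, End.mul_apply] at e6
    rw [e6]
    exact D.LPart1_aeval_mem (D.LPart1_tg_mem h1 hb) _ l _ (hc v hv)

/-- The representation of the stabiliser on a ball space. -/
def LPart1_res (y : X) (r : ℕ) : St H y →* End (ZMod p) (D.Vb y r) where
  toFun g := (D.ρ g).restrict (D.ρ_mem_PA g.2 r)
  map_one' := by
    ext v
    simp
  map_mul' g h := by
    ext v
    simp

theorem LPart1_res_R (y : X) (r : ℕ) (g : St H y) :
    LPart1_R (D.Vb y r) (D.LPart1_res y r g) (D.ρ g) := fun _ => rfl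

/-- Let `ρ u = 1 + x`, `M = Vb y r`; use `quad_achS` with the group `St H y` and
`D.ρ.comp (St H y).subtype`. If `j = 0` take `g₁ = g₂ = 1`. For `i < j`, `bs_layer` gives `g` with
`a = tg u g` not nilpotent on the layer `(Vb y (2 i + 2), Vb y (2 i))`; `exists_roots`, `ach_sep`
and `quad_achS` give `g'` with `s = tg u g' = φ(a)` not nilpotent on the layer and `s (s + 1)`
nilpotent on `M`. By `nilOn_Q` (with `X (X + 1)` and with `X`, in the second case for `q⁻¹`) we may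
take `g'` in the set `t` of `Q_idx`, so one `g' ∈ t` works for all `i` in a set `I` with
`j ≤ β * card I`. Let `(s (s + 1)) ^ n = 0` on `M`, `φ` from `achS_newton n`, `τ = tg u g = φ(s)`
(`quad_achS`). Then `τ τ = - τ` on `M`, and `τ` is not nilpotent on the layers `i ∈ I`: `φ ^ m` and
`(X + 1) ^ n` are coprime, so `s ^ n = α(s) s ^ n τ ^ m` on `M`. Apply `quad_realise` to the
restricted representation `St H y →* End M` and `u`, `g u g⁻¹`: with `y₀ = ρ (g u g⁻¹) - 1`,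
`η = ρ g₁ - 1 = τ y₀` and `ρ g₂ = 1 - τ x` on `M`; `y₀ x y₀ = τ y₀`, `x y₀ x = τ x`. Rank on
`A = Vb y (2 j)`: `card I ≤ rk τ A` (`card_le_finrank`), `τ = - (x η + η x)` on `M`, and
`rk (η x) A ≤ rk η A = rk (η x η) A ≤ rk (x η) A`. -/
theorem partner_fin (hp : 5 ≤ p) {y : X} {x : End (ZMod p) V} (h : D.Bd y x) (hx : x * x = 0)
    (j r : ℕ) (hr : 2 * j ≤ r) :
    ∃ g₁ ∈ St H y, ∃ g₂ ∈ St H y,
      (∀ v ∈ D.Vb y r, ((D.ρ g₁ - 1) * (D.ρ g₁ - 1)) v = 0 ∧
        ((D.ρ g₁ - 1) * x * (D.ρ g₁ - 1)) v = (D.ρ g₁ - 1) v ∧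
        D.ρ g₂ v = (1 + x * (D.ρ g₁ - 1) * x) v) ∧
      j ≤ 2 * D.β * rk (x * (D.ρ g₁ - 1)) (D.Vb y (2 * j)) := by
  obtain ⟨u, y', hadj, h1, h2, h3, hρ⟩ := h
  have hxu : D.ρ u - 1 = x := by rw [hρ, add_sub_cancel_left]
  have hu : (D.ρ u - 1) * (D.ρ u - 1) = 0 := by rw [hxu, hx]
  have hu1 : u ∈ St H y := mem_St.2 h1
  rcases Nat.eq_zero_or_pos j with rfl | hj
  · exact ⟨1, one_mem _, 1, one_mem _, fun v _ => by simp, Nat.zero_le _⟩
  obtain ⟨b, hb, hn, I, hI, hI'⟩ := D.LPart1_pigeon (by omega) hadj h1 h2 h3 hu hj hr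
  obtain ⟨g, hg, e1, e2⟩ := D.LPart1_newton hu1 hb hu hn
  have hu2 : g * u * g⁻¹ ∈ St H y := mul_mem (mul_mem hg hu1) (inv_mem hg)
  have Rx := (D.LPart1_res_R y r ⟨u, hu1⟩).sub LPart1_R.one
  have Ry := (D.LPart1_res_R y r ⟨g * u * g⁻¹, hu2⟩).sub LPart1_R.one
  have Rt : LPart1_R _ _ (D.tg u g) := Rx.tau Ry
  have q1 := ((Rx.mul Rx).eq_iff LPart1_R.zero).2 fun v _ => congrArg (fun a => a v) hu
  have q2 := ((Ry.mul Ry).eq_iff LPart1_R.zero).2 fun v _ =>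
    congrArg (fun a => a v) (conj_sq D.ρ hu g)
  have q3 := ((Rt.mul Rt).eq_iff Rt.neg).2 e1
  obtain ⟨⟨g₁, -, f1⟩, g₂, -, f2⟩ := quad_realise hp (D.LPart1_res y r) q1 q2 q3
  obtain ⟨r1, r2, r3, r4⟩ := LPart1_ring q1 q2 q3
  have Rη := (D.LPart1_res_R y r g₁).sub LPart1_R.one
  rw [f1, add_sub_cancel_left] at Rη
  have R2 := D.LPart1_res_R y r g₂
  rw [f2] at R2
  have Rx' : LPart1_R _ _ x := hxu ▸ Rx
  have s1 := ((Rη.mul Rη).eq_iff LPart1_R.zero).1 r1
  have s2 := (((Rη.mul Rx').mul Rη).eq_iff Rη).1 r2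
  have s3 := (R2.eq_iff (LPart1_R.one.add ((Rx'.mul Rη).mul Rx'))).1 r3
  have s4 := (Rt.eq_iff ((Rx'.mul Rη).add (Rη.mul Rx')).neg).1 r4
  refine ⟨g₁, g₁.2, g₂, g₂.2, fun v hv => ⟨s1 v hv, s2 v hv, s3 v hv⟩, ?_⟩
  have hxP : x ∈ D.PA y := D.mem_PA_of_real hu1 hρ
  have hle : D.Vb y (2 * j) ≤ D.Vb y r := D.Vb_mono y hr
  have k1 : I.card ≤ rk (D.tg u g) (D.Vb y (2 * j)) :=
    card_le_finrank (A := (D.Vb y (2 * j)).map (D.tg u g)) (fun i => D.Vb y (2 * i))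
      (fun _ _ hi => D.Vb_mono y (by omega)) I fun i hi => by
        obtain ⟨hi1, hi2⟩ := hI' i hi
        obtain ⟨v, hv, h4⟩ := e2 _ _ (by omega) hi2
        exact ⟨_, ⟨v, D.Vb_mono y (by omega) hv, rfl⟩, D.LPart1_tg_mem hu1 hg _ v hv, h4⟩
  have k2 : rk (D.tg u g) (D.Vb y (2 * j)) ≤ rk (x * (D.ρ g₁ - 1)) (D.Vb y (2 * j)) +
      rk ((D.ρ g₁ - 1) * x) (D.Vb y (2 * j)) := by
    rw [rk_congr fun v hv => s4 v (hle hv), rk_neg]
    exact rk_add_le _ _ _
  have k3 : rk ((D.ρ g₁ - 1) * x) (D.Vb y (2 * j)) ≤ rk (D.ρ g₁ - 1) (D.Vb y (2 * j)) :=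
    rk_mul_le_left _ (hxP (2 * j))
  have k4 : rk (D.ρ g₁ - 1) (D.Vb y (2 * j)) ≤ rk (x * (D.ρ g₁ - 1)) (D.Vb y (2 * j)) := by
    rw [← rk_congr fun v hv => s2 v (hle hv), mul_assoc]
    exact rk_mul_le_right _ _ _
  calc j ≤ D.β * I.card := hI
    _ ≤ D.β * (2 * rk (x * (D.ρ g₁ - 1)) (D.Vb y (2 * j))) :=
        Nat.mul_le_mul_left _ (by omega)
    _ = _ := by ring

end LD

end Pool.Agent.Lib.MP_bf45aa_co
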