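import Pool.Agent.Lib.PSV.LP2

set_option autoImplicit false
set_option linter.unusedSectionVars false

/-! Two consecutive Peirce-2 steps lose dimension, for all odd primes. -/

namespace Pool.Agent.Lib.MP_bf45aa_co

open Subgroup Module Polynomial

section Ring

variable {A : Type*} [Ring A] {x η a ζ : A} (h : LP2_Rel x η a ζ)
include h

theorem NDrop_tx : tau a η * (x * η * x) = a := by
  simp only [tau, add_mul, mul_assoc, h.r3, h.r5', h.r7, mul_zero, add_zero]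

theorem NDrop_cx : Commute (x * η * x) (tau a η) := h.xt.trans (NDrop_tx h).symm

theorem NDrop_I1 {U B : A} (hU : Commute (x * η) U) (hB : Commute η B)
    (hB' : Commute (x * η) B) :
    x * η * x * (a * ζ + ζ * a) * (U * (x * η) + B * η) =
      x * η * x * ζ * (tau a η * B * (x * η)) := by
  rw [← hU.eq, ← hB.eq, mul_assoc (tau a η), ← hB'.eq]
  simp only [tau, mul_add, add_mul, mul_assoc, h.r3, h.r6, h.r7, mul_zero, zero_add, add_zero]

theorem NDrop_I2 {N U B : A} (hN : N * (x * η) = U * (x * η) + B * η)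
    (hU : Commute (x * η * x) U) (hB : Commute (x * η * x) B) :
    x * η * x * N * ((a * ζ + ζ * a) * (x * η)) = B * (a * ζ * (x * η)) := by
  have e1 : (a * ζ + ζ * a) * (x * η) = x * η * (a * ζ * (x * η)) := by
    simp only [add_mul, mul_assoc, h.r4, h.r7, mul_zero, add_zero]
  rw [e1, ← mul_assoc, mul_assoc _ N, hN, mul_add, ← mul_assoc _ U, hU.eq, ← mul_assoc _ B, hB.eq]
  simp only [add_mul, mul_assoc, h.r1, h.r3, h.r4, mul_zero, zero_add]

theorem NDrop_split {u m₀ m₁ m₂ m₃ : A} (hu : Commute (x * η) u) (hu' : Commute η u)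
    (h0 : Commute (x * η) m₀) (h1 : Commute (x * η) m₁) (h2 : Commute η m₂) (h3 : Commute η m₃) :
    u * (m₀ * (x * η) + m₁ * (x * η * x) + m₂ * η + m₃ * (η * x)) =
      u * (x * η) * (m₀ + m₁ * (x * η * x)) + η * (u * (x * η)) * (m₂ + m₃ * x) := by
  have e1 : η * (u * (x * η)) = u * η := by rw [← hu.eq, ← mul_assoc, h.r3', hu'.eq]
  have e2 : x * η * (m₁ * (x * η * x)) = m₁ * (x * η * x) := by
    rw [← mul_assoc, h1.eq, mul_assoc, ← h.ex']
  rw [e1, mul_assoc u, mul_assoc u, ← mul_add, mul_add (x * η), mul_add η, e2, h0.eq, h2.eq,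
    ← mul_assoc η, h3.eq, mul_assoc m₃, add_assoc, add_assoc]

theorem NDrop_cE {u m₀ m₁ m₂ m₃ : A} (hu : Commute (x * η + η * x) u)
    (h0 : Commute (x * η + η * x) m₀) (h1 : Commute (x * η + η * x) m₁)
    (h2 : Commute (x * η + η * x) m₂) (h3 : Commute (x * η + η * x) m₃) :
    Commute (x * η + η * x) (u * (m₀ * (x * η) + m₁ * (x * η * x) + m₂ * η + m₃ * (η * x))) := by
  refine hu.mul_right ((((h0.mul_right ?_).add_right (h1.mul_right ?_)).add_right
    (h2.mul_right ?_)).add_right (h3.mul_right ?_)) <;>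
  simp only [Commute, SemiconjBy, mul_add, add_mul, mul_assoc, h.r1, h.r2, h.r3, h.r3', h.sq,
    h.xx, mul_zero, add_zero, zero_add]

end Ring

section Lin

variable {F V : Type*} [Field F] [AddCommGroup V] [Module F V]

theorem NDrop_rk_smul (c : F) (b : End F V) (M : Submodule F V) [Module.Finite F M] :
    rk (c • b) M ≤ rk b M := by
  have := rk_mul_le_right (c • (1 : End F V)) b M
  rwa [smul_mul_assoc, one_mul] at this

theorem NDrop_conj {x η a ζ Z Z' : End F V} (h : LP2_Rel x η a ζ)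
    (hZ : Z = 1 - (2 : F) • (x * η + η * x)) (hZ' : Z' = 1 - (2 : F) • (a * ζ + ζ * a))
    (zz : Z * Z = 1) (zz' : Z' * Z' = 1) :
    LP2_Rel x η a (Z' * Z * ζ * (Z * Z')) ∧
      a * (Z' * Z * ζ * (Z * Z')) * (Z' * Z) = Z' * Z * (a * ζ) ∧
      (2 : F) • (a * (Z' * Z * ζ * (Z * Z')) + Z' * Z * ζ * (Z * Z') * a) =
        1 - Z * (Z * Z' * (Z * Z') * (Z * Z')) := by
  have c1 : Commute a Z := by
    rw [hZ]
    simp only [Commute, SemiconjBy, mul_add, add_mul, mul_sub, sub_mul, mul_one, one_mul, mul_assoc,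
      smul_mul_assoc, mul_smul_comm, h.r4', h.r5', h.r6', h.r7, mul_zero, add_zero, zero_add]
  have c2 : Commute a Z' := by
    rw [hZ']
    simp only [Commute, SemiconjBy, mul_add, add_mul, mul_sub, sub_mul, mul_one, one_mul, mul_assoc,
      smul_mul_assoc, mul_smul_comm, h.r8, h.r8', mul_zero, add_zero, zero_add]
  have z1 : ∀ t, Z * (Z * t) = t := fun t => by rw [← mul_assoc, zz, one_mul]
  have z2 : ∀ t, Z' * (Z' * t) = t := fun t => by rw [← mul_assoc, zz', one_mul]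
  have a1 : ∀ t, a * (Z * t) = Z * (a * t) := fun t => by rw [← mul_assoc, c1.eq, mul_assoc]
  have a2 : ∀ t, a * (Z' * t) = Z' * (a * t) := fun t => by rw [← mul_assoc, c2.eq, mul_assoc]
  refine ⟨⟨h.xx, h.sq, h.yxy, h.ha, ?_⟩, ?_, ?_⟩
  · have e : ∀ t, ζ * (a * (ζ * t)) = ζ * t := h.r9
    simp only [mul_assoc, a1, a2, z1, z2, e]
  · simp only [mul_assoc, a1, a2, z1, z2, zz, mul_one]
  · have e1 : a * (Z' * Z * ζ * (Z * Z')) + Z' * Z * ζ * (Z * Z') * a =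
        Z' * Z * (a * ζ + ζ * a) * (Z * Z') := by
      simp only [mul_add, add_mul, mul_assoc, a1, a2, ← c2.eq]
    have e2 : (2 : F) • (a * ζ + ζ * a) = 1 - Z' := by rw [hZ', sub_sub_cancel]
    rw [e1, ← smul_mul_assoc, ← mul_smul_comm, e2]
    simp only [mul_sub, sub_mul, mul_one, mul_assoc, z1, zz']

/-- Let `e = x η`, `f = η x`, `e' = a ζ`, `f' = ζ a`, `δ = z z' - 1`. Then `δ e = -2 (1 - e') e`,
`f δ = -2 f (1 - f')`, `(1 - e) δ (1 - f) = 0` (use `a a = 0`, `ζ ζ = 0` is not needed: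
`e' f' = a ζ ζ a` occurs only inside `z'`, check). Hence
`δ δ δ = δ (e δ (1 - f)) δ + δ δ f δ`. -/
theorem NDrop_cube {x η a ζ : End F V} (h : LP2_Rel x η a ζ) {δ : End F V}
    (hδ : δ = (1 - (2 : F) • (x * η + η * x)) * (1 - (2 : F) • (a * ζ + ζ * a)) - 1) :
    δ * δ * δ = -(2 : F) • ((1 - a * ζ) * (x * η) * (δ * (1 - η * x) * δ)) -
      (2 : F) • (δ * δ * (η * (x * η * x * (1 - ζ * a)))) := by
  have h1 : δ * (x * η) = -(2 : F) • ((1 - a * ζ) * (x * η)) := by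
    rw [hδ]
    simp only [mul_add, add_mul, mul_sub, sub_mul, mul_one, one_mul, mul_assoc, smul_mul_assoc,
      mul_smul_comm, h.r1, h.r2, h.r3, h.r3', h.r4, h.r5, h.r6, h.r7, h.sq, h.xx, mul_zero,
      smul_zero, add_zero, zero_add, sub_zero]
    module
  have h2 : η * x * δ = -(2 : F) • (η * (x * η * x * (1 - ζ * a))) := by
    rw [hδ]
    simp only [mul_add, add_mul, mul_sub, sub_mul, mul_one, one_mul, mul_assoc, smul_mul_assoc,
      mul_smul_comm, h.r1, h.r3, h.r6, mul_zero]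
    module
  have h3 : δ = x * η * δ * (1 - η * x) + δ * (η * x) := by
    rw [hδ]
    simp only [mul_add, add_mul, mul_sub, sub_mul, mul_one, one_mul, mul_assoc, smul_mul_assoc,
      mul_smul_comm, h.r1, h.r2, h.r3, h.r3', h.r4, h.r5, h.r5', h.r6, h.r7, h.sq, h.xx, mul_zero,
      smul_zero, add_zero, zero_add, sub_zero]
    module
  calc δ * δ * δ = δ * (x * η * δ * (1 - η * x) + δ * (η * x)) * δ := by rw [← h3]
    _ = δ * (x * η) * (δ * (1 - η * x) * δ) + δ * δ * (η * x * δ) := by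
      simp only [mul_add, add_mul, mul_assoc]
    _ = _ := by
      rw [h1, h2, smul_mul_assoc, mul_smul_comm, neg_smul (2 : F) (δ * δ * _), ← sub_eq_add_neg]

/-- Let `t = tau a η`, `κ = x' ζ e` (`x' = x η x`), `π = t κ = e' e`, `π' = κ t`. For `N` as in
`hc`: `x' ε' N e = π' q(t) e` and `x' N ε' e = q(t) π` with `q = X ^ n' * m₂`, `ε' = a ζ + ζ a`
(use `x' a = 0`, `a e = 0`, `x' η = e`, `a = x' t`). The polynomials `q` with
`π' q(t) e v = q(t) π v` for all `v ∈ M` form a subspace which contains `X ^ i` for large `i`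
(`hn`; `π v = a ζ e v ∈ M'`) and all `X ^ n' * m₂`, so by downward induction all `X ^ j`, `j ≥ n`.
Then `π' t ^ (j + 1) e v = t ^ (j + 1) π v = t π' t ^ j e v = π t ^ (j + 1) e v`, and
`π' t ^ j e v = κ t ^ (j + 1) e v = κ π t ^ (j + 1) e v` (`κ π = κ`). Downward induction on
`j ≥ n + 1` gives `π t ^ j e v = 0`. -/
theorem NDrop_kill {x η a ζ : End F V} (h : LP2_Rel x η a ζ) {M M' : Submodule F V} (hle : M ≤ M')
    (hx : ∀ v ∈ M, x v ∈ M) (hη : ∀ v ∈ M, η v ∈ M) (ht : ∀ v ∈ M, tau a η v ∈ M)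
    (hn : NilOn (tau a η) M' ⊥) (he : ∀ v ∈ M, (a * ζ) v ∈ M') {n : ℕ}
    (hc : ∀ n', n ≤ n' → ∃ m₀ m₁ m₂ m₃ : F[X], m₂.coeff 0 ≠ 0 ∧ ∀ N, N = tau a η ^ n' *
      (aeval (tau a η) m₀ * (x * η) + aeval (tau a η) m₁ * (x * η * x) +
        aeval (tau a η) m₂ * η + aeval (tau a η) m₃ * (η * x)) →
      ∀ v ∈ M, (a * ζ + ζ * a) (N v) = N ((a * ζ + ζ * a) v)) :
    ∀ v ∈ M, (a * ζ * tau a η ^ (n + 1) * (x * η)) v = 0 := by
  obtain ⟨L, hL⟩ := hn
  have hL' : ∀ i, L ≤ i → ∀ v ∈ M', (tau a η ^ i) v = 0 := fun i hi v hv => by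
    obtain ⟨k, rfl⟩ := Nat.exists_eq_add_of_le' hi
    rw [pow_add, End.mul_apply, (Submodule.mem_bot F).1 (hL v hv), map_zero]
  have hev : ∀ v ∈ M, (x * η) v ∈ M := fun v hv => hx _ (hη v hv)
  let S : Submodule F F[X] :=
    { carrier := {q | ∀ v ∈ M, (x * η * x * ζ * (tau a η * aeval (tau a η) q * (x * η))) v =
        (aeval (tau a η) q * (a * ζ * (x * η))) v}
      zero_mem' := fun v _ => by simp
      add_mem' := fun {q q'} hq hq' v hv => by
        rw [map_add, mul_add, add_mul, mul_add, add_mul, LinearMap.add_apply, LinearMap.add_apply,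
          hq v hv, hq' v hv]
      smul_mem' := fun c q hq v hv => by
        rw [map_smul, mul_smul_comm, smul_mul_assoc, mul_smul_comm, smul_mul_assoc,
          LinearMap.smul_apply, LinearMap.smul_apply, hq v hv] }
  have s1 : ∀ i, L ≤ i → (X ^ i : F[X]) ∈ S := fun i hi v hv => by
    rw [map_pow, aeval_X, mul_assoc (tau a η), End.mul_apply, End.mul_apply (tau a η),
      End.mul_apply (tau a η ^ i), hL' i hi _ (hle (hev v hv)), map_zero, map_zero,
      End.mul_apply (tau a η ^ i), End.mul_apply (a * ζ), hL' i hi _ (he _ (hev v hv))]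
  have s2 : ∀ j, n ≤ j → ∃ m : F[X], m.coeff 0 ≠ 0 ∧ X ^ j * m ∈ S := fun j hj => by
    obtain ⟨m₀, m₁, m₂, m₃, hm, hN⟩ := hc j hj
    refine ⟨m₂, hm, fun v hv => ?_⟩
    have e0 := hN _ rfl _ (hev v hv)
    have eB := h.Be (u := tau a η ^ j) (m₀ := aeval (tau a η) m₀) (m₁ := aeval (tau a η) m₁)
      (m₂ := aeval (tau a η) m₂) (m₃ := aeval (tau a η) m₃)
    have e1 := NDrop_I1 h ((h.ce.pow_right j).mul_right (LP2_comm h.ce m₀))
      ((h.cη.pow_right j).mul_right (LP2_comm h.cη m₂))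
      ((h.ce.pow_right j).mul_right (LP2_comm h.ce m₂))
    have e2 := NDrop_I2 h eB (((NDrop_cx h).pow_right j).mul_right (LP2_comm (NDrop_cx h) m₀))
      (((NDrop_cx h).pow_right j).mul_right (LP2_comm (NDrop_cx h) m₂))
    rw [map_mul, map_pow, aeval_X, ← e1, ← e2, ← eB]
    exact congrArg (x * η * x) e0
  have s3 : ∀ k j, n ≤ j → L ≤ j + k → ∀ i, j ≤ i → (X ^ i : F[X]) ∈ S := by
    intro k
    induction k with
    | zero => exact fun j _ hj i hi => s1 i (by omega)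
    | succ k ih =>
      intro j hj hk i hi
      have ih' := ih (j + 1) (by omega) (by omega)
      rcases hi.eq_or_lt with rfl | hi
      · obtain ⟨m, hm, hS⟩ := s2 j hj
        have s4 : ∀ r : F[X], X ^ (j + 1) * r ∈ S := fun r => by
          induction r using Polynomial.induction_on' with
          | add r r' hr hr' => rw [mul_add]; exact add_mem hr hr'
          | monomial l c =>
            rw [← smul_X_eq_monomial, mul_smul_comm, ← pow_add]
            exact S.smul_mem c (ih' _ (by omega))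
        have e : (X ^ j : F[X]) = (m.coeff 0)⁻¹ • (X ^ j * m - X ^ (j + 1) * m.divX) := by
          have e1 : X ^ j * m - X ^ (j + 1) * m.divX = m.coeff 0 • (X ^ j : F[X]) := by
            rw [smul_eq_C_mul]
            linear_combination (-(X ^ j : F[X])) * divX_mul_X_add m
          rw [e1, smul_smul, inv_mul_cancel₀ hm, one_smul]
        rw [e]
        exact S.smul_mem _ (sub_mem hS (s4 _))
      · exact ih' i hi
  have s5 : ∀ j, n ≤ j → ∀ v ∈ M, (x * η * x * ζ * (tau a η ^ (j + 1) * (x * η))) v =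
      (tau a η ^ j * (a * ζ * (x * η))) v := fun j hj v hv => by
    have := s3 L n le_rfl (by omega) j hj v hv
    rwa [map_pow, aeval_X, ← pow_succ'] at this
  have s6 : ∀ k j, n ≤ j → L ≤ j + k →
      ∀ v ∈ M, (a * ζ * tau a η ^ (j + 1) * (x * η)) v = 0 := by
    intro k
    induction k with
    | zero =>
      intro j _ hj v hv
      rw [End.mul_apply, End.mul_apply (a * ζ), hL' _ (by omega) _ (hle (hev v hv)), map_zero]
    | succ k ih =>
      intro j hj hk v hv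
      have e1 : a * ζ * tau a η ^ (j + 1) * (x * η) =
          tau a η * (x * η * x * ζ * (tau a η ^ (j + 1) * (x * η))) := by
        rw [← mul_assoc (tau a η), ← mul_assoc (tau a η), NDrop_tx h, mul_assoc (a * ζ)]
      have e2 : x * η * x * ζ * (tau a η ^ (j + 1 + 1) * (x * η)) =
          x * η * x * ζ * (a * ζ * tau a η ^ (j + 1 + 1) * (x * η)) := by
        simp only [mul_assoc, h.r9]
      rw [e1, End.mul_apply, s5 j hj v hv, ← End.mul_apply, ← mul_assoc, ← pow_succ',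
        ← s5 (j + 1) (by omega) v hv, e2, End.mul_apply, ih (j + 1) (by omega) (by omega) v hv,
        map_zero]
  exact s6 L n le_rfl (by omega)

theorem NDrop_sub {x η a ζ : End F V} (h : LP2_Rel x η a ζ) {U M₁ M : Submodule F V}
    [Module.Finite F M] (hle : M₁ ≤ M) (hx : ∀ v ∈ M₁, x v ∈ M₁) (hη : ∀ v ∈ M₁, η v ∈ M₁)
    (h1 : U ≤ M₁) (h2 : ∀ v ∈ U, tau a η v = 0) (h3 : ∀ v ∈ U, v = (x * η) v + (η * x) v) :
    finrank F U ≤ 2 * rk (x * η * x * (1 - ζ * a)) M := by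
  set S := M.map (η * (x * η * x * (1 - ζ * a))) with hS
  have k1 : ∀ u ∈ M₁, tau a η u = 0 → (η * x) u = u → u ∈ S := by
    intro u hu e1 e2
    refine ⟨u, hle hu, ?_⟩
    have e3 : a u = 0 := by rw [← h.xt, End.mul_apply, e1, map_zero]
    rw [← mul_assoc, h.ηx', End.mul_apply, LinearMap.sub_apply, End.mul_apply ζ, e3, map_zero,
      sub_zero, End.one_apply, e2]
  have k2 : finrank F U ≤ finrank F (S.map (x * η * x) ⊔ S : Submodule F V) := by
    refine finrank_mono' fun v hv => ?_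
    rw [h3 v hv]
    refine Submodule.add_mem_sup ⟨η v, k1 _ (hη _ (h1 hv)) ?_ ?_, ?_⟩
      (k1 _ (hη _ (hx _ (h1 hv))) ?_ ?_)
    · rw [← End.mul_apply, ← h.cη.eq, End.mul_apply, h2 v hv, map_zero]
    · rw [← End.mul_apply, h.fη]
    · rw [← End.mul_apply, h.x'η]
    · rw [← End.mul_apply, ← h.cf.eq, End.mul_apply, h2 v hv, map_zero]
    · rw [← End.mul_apply, h.ff]
  have k3 := Submodule.finrank_add_le_finrank_add_finrank (S.map (x * η * x)) S
  have k4 := Submodule.finrank_map_le (x * η * x) S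
  have k5 : finrank F S ≤ rk (x * η * x * (1 - ζ * a)) M := rk_mul_le_right _ _ _
  omega

/-- As `LP2_part4`, twice: `rk N M₁ ≤ rk (t N) M₁ + finrank (N M₁ ⊓ ker t)`, and a subspace of `M₁`
on which `t = 0` and `e + f = 1` has dimension at most `2 * rk (x' (1 - f')) M` (generalise the
proof of `LP2_part4`; `e + f` is idempotent and commutes with `t`). -/
theorem NDrop_part4 {x η a ζ : End F V} (h : LP2_Rel x η a ζ) {M₁ M : Submodule F V}
    [Module.Finite F M] (hle : M₁ ≤ M) (hx : ∀ v ∈ M₁, x v ∈ M₁) (hη : ∀ v ∈ M₁, η v ∈ M₁)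
    (ht : ∀ v ∈ M₁, tau a η v ∈ M₁) {N : End F V} (h1 : ∀ v ∈ M₁, N v ∈ M₁)
    (h2 : ∀ v ∈ M₁, tau a η (tau a η (N v)) = 0) (h3 : N = x * η * N + η * x * N) :
    rk N M₁ ≤ 4 * rk (x * η * x * (1 - ζ * a)) M := by
  have : Module.Finite F M₁ := Submodule.finiteDimensional_of_le hle
  have k1 := ((tau a η).domRestrict (M₁.map N)).finrank_range_add_finrank_ker
  rw [LinearMap.range_domRestrict, ← Submodule.finrank_map_subtype_eq (M₁.map N)] at k1
  have k2 := NDrop_sub h (U := (M₁.map N).map (tau a η)) hle hx hη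
    (by
      rintro _ ⟨_, ⟨v, hv, rfl⟩, rfl⟩
      exact ht _ (h1 v hv))
    (by
      rintro _ ⟨_, ⟨v, hv, rfl⟩, rfl⟩
      exact h2 v hv)
    (by
      rintro _ ⟨u, -, rfl⟩
      exact LinearMap.congr_fun h.eft u)
  have k3 := NDrop_sub h
    (U := (LinearMap.ker ((tau a η).domRestrict (M₁.map N))).map (M₁.map N).subtype) hle hx hη
    (by
      rintro _ ⟨⟨_, v, hv, rfl⟩, -, rfl⟩
      exact h1 v hv)
    (by
      rintro _ ⟨u, hu, rfl⟩
      exact hu)
    (by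
      rintro _ ⟨⟨_, v, hv, rfl⟩, -, rfl⟩
      exact LinearMap.congr_fun h3 v)
  unfold rk at k2 k3 ⊢
  omega

end Lin

namespace LD

variable {p : ℕ} [Fact p.Prime] {H X V : Type} [Group H] [MulAction H X] [AddCommGroup V]
  [Module (ZMod p) V] {D : LD p H X V}

theorem NDrop_comm (D : LD p H X V) {w : X} {g u : H} {s r j : ℕ} {c N : End (ZMod p) V}
    (hg : Near D.Γ s w (g • w)) (hu : u ∈ D.Q w) (eg : D.ρ g = 1 + c) (eu : D.ρ u = 1 + N)
    (h0 : ∀ v ∈ D.Vb w (s + 2), N v = 0) (hr : 2 * rk c (D.Vb w (r + 2 + 2 * j)) < j) :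
    ∀ v ∈ D.Vb w r, c (N v) = N (c v) := by
  obtain ⟨w', hw'⟩ := D.nbr w
  have u1 := mem_K1.1 (D.Q_le w hu)
  have u2 : u ∈ Kn H D.Γ (s + 1) w := D.deep hw' u1.1 (u1.2 w' hw') fun v hv => by
    rw [eu, LinearMap.add_apply, End.one_apply, h0 v hv, add_zero]
  have u3 : g⁻¹ * u⁻¹ * g⁻¹⁻¹ ∈ Kn H D.Γ 1 w := by
    have e := D.near_smul g⁻¹ hg
    rw [inv_smul_smul] at e
    exact Kn_near e (by rw [add_comm]; exact D.Kn_conj g⁻¹ (inv_mem u2))
  rw [inv_inv] at u3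
  have u4 := mem_K1.1 (mul_mem u3 (D.Q_le w hu))
  have e1 : D.ρ (g⁻¹ * u⁻¹ * g * u) - 1 = D.ρ (g⁻¹ * u⁻¹) * (c * D.ρ u - D.ρ u * c) := by
    have e2 : c * D.ρ u - D.ρ u * c = D.ρ g * D.ρ u - D.ρ u * D.ρ g := by
      rw [eg]; noncomm_ring
    rw [e2, mul_sub, ← map_mul, ← map_mul, ← map_mul, ← map_mul]
    congr 1
    · rw [mul_assoc (g⁻¹ * u⁻¹)]
    · rw [← map_one D.ρ]
      congr 1
      group
  have r1 : rk (D.ρ (g⁻¹ * u⁻¹ * g * u) - 1) (D.Vb w (r + 2 + 2 * j)) < j := by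
    have s1 := rk_mul_le_right (D.ρ (g⁻¹ * u⁻¹)) (c * D.ρ u - D.ρ u * c) (D.Vb w (r + 2 + 2 * j))
    have s2 := rk_sub_le (c * D.ρ u) (D.ρ u * c) (D.Vb w (r + 2 + 2 * j))
    have s3 : rk (c * D.ρ u) (D.Vb w (r + 2 + 2 * j)) ≤ rk c (D.Vb w (r + 2 + 2 * j)) :=
      rk_mul_le_left _ fun v hv => D.ρ_mem_PA (D.Q_le_St w hu) _ v hv
    have s4 := rk_mul_le_right (D.ρ u) c (D.Vb w (r + 2 + 2 * j))
    rw [e1]
    omega
  have r2 := D.thick hw' u4.1 (u4.2 w' hw') le_rfl r1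
  intro v hv
  have e3 : D.ρ (u * g) * D.ρ (g⁻¹ * u⁻¹ * g * u) = D.ρ g * D.ρ u := by
    rw [← map_mul, ← map_mul]
    congr 1
    group
  have e4 : (D.ρ g * D.ρ u) v = (D.ρ u * D.ρ g) v := by
    rw [← e3, End.mul_apply, r2 v hv, map_mul]
  rw [eg, eu] at e4
  simp only [End.mul_apply, LinearMap.add_apply, End.one_apply, map_add] at e4
  have e5 : c (N v) - N (c v) = 0 := by
    rw [← sub_eq_zero] at e4
    rw [← e4]
    abel
  exact sub_eq_zero.1 e5

namespace Partner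

variable {w : X} {x η : End (ZMod p) V} (P : D.Partner w x η)
include P

/-- Follow the proof of `drop5` (file `LP2`). Suppose the inequality fails; `W = range e ⊓ Vb o R`,
`W' = range e' ⊓ Vb o R'`, `M = Vb y (R' + σ)`; `LP2_part1` gives `rk (x' (1 - f')) M < θ`, and
`rk ((1 - e') e) (Vb w k) < θ` if `k + σ ≤ R` (`LPei1_rn`). Let `z`, `z'` be given by `P.zel`,
`P'.zel`, `d = z z'`, `ι = d ^ 3`; `d` moves `w` by at most `4 σ` and `o` by at most `4 σ`.
`ρ ι - 1 = δ δ δ` as `3 = 0`, so by `NDrop_cube` its rank on `Vb w r`, `r = 12 σ + 20 θ + 8`, is at most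
`2 θ - 2` (`ρ z'` shifts `Vb w k` into `Vb w (k + 4 σ)`, `PA_shift`). Let `n` be least with `t ^ n = 0`
on `M₀ = Vb w (12 σ + 2)`; `n ≥ 2`. For `n' ≥ n` the element `h` from `cong` is trivial on `M₀`, so
`h ∈ Kn (12 σ + 1) w` (`deep`), `k = ι⁻¹ h⁻¹ ι h ∈ Kn 1 w`, `ρ k - 1` has rank `< 4 θ` on `Vb w r`, and
by `thick` `ρ ι` and `ρ h` commute on `M₁ = Vb w (12 σ + 12 θ + 6)`. `ρ d` commutes with `a`; put
`ζ'' = ρ d⁻¹ ζ ρ d`, so `LP2_Rel x η a ζ''`, and
`1 - 2 (a ζ'' + ζ'' a) = ρ d⁻¹ ρ z' ρ d = ρ z ρ ι` (`ρ z ρ z = 1 = ρ z' ρ z'`). As `ρ z` commutes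
with `N = ρ h - 1`, `NDrop_kill` applies: `t ^ (n + 1) e M₁ ≤ W ⊓ ker e''`, `e'' = a ζ''`. Since
`ρ d⁻¹ W' ≤ W ⊓ range e''` (`e e'' = e''`, `equi`, `Vb_near`), `LPei1_indep` gives
`rk (t ^ (n + 1) e) M₁ < θ`. For `h` from `cong` for `n + 1`, `rk (ρ h - 1) M₁ < 2 θ`
(`x' = e x'`, `t ^ (n + 1) η = η t ^ (n + 1) e`, `f = η x`), so by `thick` and `LP2_part3`
`t ^ (n + 1) = 0` on `M₂ = Vb w (12 σ + 8 θ + 4)`. The element `h'` from `cong` for `n - 1` is
non-trivial on `M₀` (`LP2_part3`), so `4 θ ≤ rk (ρ h' - 1) M₂` by `thick`, against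
`NDrop_part4`. -/
theorem drop3 (hp : p = 3) {y : X} {a ζ : End (ZMod p) V} (P' : D.Partner y a ζ)
    (ha : x * η * a * (η * x) = a) (hQ : ∃ g ∈ D.Q w, D.ρ g = 1 + a) {σ θ R R' : ℕ}
    (hw : Near D.Γ σ D.o w) (hy : Near D.Γ σ D.o y) (h0 : ∃ v ∈ D.Vb D.o σ, a v ≠ 0)
    (hR' : 25 * σ + 20 * θ + 10 ≤ R') (hR : R' + 4 * σ ≤ R) :
    finrank (ZMod p) (LinearMap.range (a * ζ) ⊓ D.Vb D.o R' : Submodule (ZMod p) V) + θ ≤
      finrank (ZMod p) (LinearMap.range (x * η) ⊓ D.Vb D.o R : Submodule (ZMod p) V) := by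
  classical
  have h : LP2_Rel x η a ζ := ⟨P.xx, P.sq, P.yxy, ha, P'.yxy⟩
  by_contra hlt
  have hyw : Near D.Γ (σ + σ) y w := hy.symm.trans hw
  have xP := P.x_PA
  have ηP := P.η_PA
  have aP : a ∈ D.PA w := let ⟨_, hg, e⟩ := hQ; D.mem_PA_of_real (D.Q_le_St w hg) e
  have tP : tau a η ∈ D.PA w := add_mem (mul_mem aP ηP) (mul_mem ηP aP)
  have qP : ∀ q : (ZMod p)[X], aeval (tau a η) q ∈ D.PA w := fun q =>
    Algebra.adjoin_le (Set.singleton_subset_iff.2 tP) (aeval_mem_adjoin_singleton _ _)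
  have BP : ∀ m₀ m₁ m₂ m₃ : (ZMod p)[X], aeval (tau a η) m₀ * (x * η) +
      aeval (tau a η) m₁ * (x * η * x) + aeval (tau a η) m₂ * η + aeval (tau a η) m₃ * (η * x) ∈
        D.PA w := fun _ _ _ _ =>
    add_mem (add_mem (add_mem (mul_mem (qP _) (mul_mem xP ηP))
      (mul_mem (qP _) (mul_mem (mul_mem xP ηP) xP))) (mul_mem (qP _) ηP))
      (mul_mem (qP _) (mul_mem ηP xP))
  obtain ⟨W, hW⟩ : ∃ W : Submodule (ZMod p) V, W = LinearMap.range (x * η) ⊓ D.Vb D.o R := ⟨_, rfl⟩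
  obtain ⟨W', hW'⟩ : ∃ W' : Submodule (ZMod p) V, W' = LinearMap.range (a * ζ) ⊓ D.Vb D.o R' :=
    ⟨_, rfl⟩
  rw [← hW, ← hW', not_le] at hlt
  have : Module.Finite (ZMod p) W := Submodule.finiteDimensional_of_le (hW.le.trans inf_le_right)
  have : Module.Finite (ZMod p) W' := Submodule.finiteDimensional_of_le (hW'.le.trans inf_le_right)
  have w1 : ∀ k, k + σ ≤ R → ∀ v ∈ D.Vb w k, (x * η) v ∈ W := fun k hk v hv => by
    rw [hW]
    exact ⟨⟨v, rfl⟩, D.Vb_near hw.symm hk (mul_mem xP ηP _ v hv)⟩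
  have w2 : W' ≤ W := by
    rw [hW, hW']
    rintro _ ⟨⟨v, rfl⟩, hv⟩
    exact ⟨⟨(a * ζ) v, by rw [← End.mul_apply, h.ee']⟩, D.Vb_mono _ (by omega) hv⟩
  have w3 : ∀ v ∈ W', (a * ζ) v = v := by
    rw [hW']
    rintro _ ⟨⟨v, rfl⟩, -⟩
    rw [← End.mul_apply, h.e'e']
  have w4 : ∀ v ∈ W', v ∈ D.Vb D.o R' := fun v hv => (hW'.le hv).2
  obtain ⟨k1, -⟩ := LP2_part1 h (M := D.Vb y (R' + σ)) (W := W) (W' := W') (P'.x_PA _) (P'.η_PA _)
    (fun v hv => by
      rw [h.ex', End.mul_apply]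
      exact w1 (R' + 3 * σ) (by omega) _
        (mul_mem (mul_mem xP ηP) xP _ v (D.Vb_near hyw (by omega) hv)))
    (fun v hv => D.Vb_near hy le_rfl (w4 v hv)) w2 w3 hlt
  have k2 : rk (1 - a * ζ) W + finrank (ZMod p) W' ≤ finrank (ZMod p) W :=
    LP2_null _ W w2 fun v hv => by rw [LinearMap.sub_apply, w3 v hv, End.one_apply, sub_self]
  obtain ⟨z, hz, ez, -⟩ := P.zel
  obtain ⟨z', hz', ez', -⟩ := P'.zel
  have zz := P.z_sq
  have zz' := P'.z_sq
  rw [← ez] at zz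
  rw [← ez'] at zz'
  have zP := D.ρ_mem_PA hz
  have zP' := D.ρ_mem_PA hz'
  obtain ⟨δ, hδ⟩ : ∃ δ, δ = D.ρ z * D.ρ z' - 1 := ⟨_, rfl⟩
  have eι : D.ρ (z * z' * (z * z') * (z * z')) = 1 + δ * δ * δ := by
    have h3 : (3 : ZMod p) = 0 := by
      have e : ((3 : ℕ) : ZMod p) = 0 := (ZMod.natCast_eq_zero_iff 3 p).2 (by rw [hp])
      exact_mod_cast e
    have e : D.ρ (z * z') = 1 + δ := by rw [hδ, map_mul, add_sub_cancel]
    have e' : (1 + δ) * (1 + δ) * (1 + δ) = 1 + δ * δ * δ + (3 : ZMod p) • (δ + δ * δ) := by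
      simp only [mul_add, add_mul, mul_one, one_mul]
      module
    rw [map_mul, map_mul, e, e', h3, zero_smul, add_zero]
  have nι : Near D.Γ (12 * σ) w ((z * z' * (z * z') * (z * z')) • w) := by
    have n1 : Near D.Γ (σ + σ + (σ + σ)) w ((z * z') • w) := by
      have e := D.near_smul z (D.LP21_near (mem_St.1 hz') hyw.symm)
      rwa [mem_St.1 hz, ← mul_smul] at e
    rw [mul_smul, mul_smul (z * z') (z * z')]
    exact (n1.trans (D.near_smul _ (n1.trans (D.near_smul _ n1)))).mono (by omega)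
  have sh : ∀ {b : End (ZMod p) V}, b ∈ D.PA y → ∀ k, ∀ v ∈ D.Vb w k, b v ∈ D.Vb w (k + 4 * σ) :=
    fun hb k v hv => D.PA_shift hb hyw.symm (by omega) hv
  have δs : ∀ k, ∀ v ∈ D.Vb w k, δ v ∈ D.Vb w (k + 4 * σ) := fun k v hv => by
    rw [hδ]
    exact sub_mem (zP _ _ (sh zP' k v hv)) (D.Vb_mono w (by omega) hv)
  have k3 : 2 * rk (δ * δ * δ) (D.Vb w (12 * σ + 12 * θ + 6 + 2 + 2 * (4 * θ))) < 4 * θ := by
    have s1 := rk_sub_le (-(2 : ZMod p) • ((1 - a * ζ) * (x * η) * (δ * (1 - η * x) * δ)))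
      ((2 : ZMod p) • (δ * δ * (η * (x * η * x * (1 - ζ * a)))))
      (D.Vb w (12 * σ + 12 * θ + 6 + 2 + 2 * (4 * θ)))
    have s2 : rk (-(2 : ZMod p) • ((1 - a * ζ) * (x * η) * (δ * (1 - η * x) * δ)))
        (D.Vb w (12 * σ + 12 * θ + 6 + 2 + 2 * (4 * θ))) ≤ rk (1 - a * ζ) W := by
      refine (NDrop_rk_smul _ _ _).trans ?_
      rw [mul_assoc]
      exact rk_mul_le_left _ fun v hv => w1 _ (by omega) _
        (δs _ _ (sub_mem (one_mem (D.PA w)) (mul_mem ηP xP) _ _ (δs _ v hv)))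
    have s3 : rk ((2 : ZMod p) • (δ * δ * (η * (x * η * x * (1 - ζ * a)))))
        (D.Vb w (12 * σ + 12 * θ + 6 + 2 + 2 * (4 * θ))) ≤
          rk (x * η * x * (1 - ζ * a)) (D.Vb y (R' + σ)) :=
      (NDrop_rk_smul _ _ _).trans ((rk_mul_le_right _ _ _).trans ((rk_mul_le_right _ _ _).trans
        (rk_mono _ (D.Vb_near hyw.symm (by omega)))))
    rw [← NDrop_cube h (by rw [hδ, ez, ez'])] at s1
    omega
  obtain ⟨w', hw'⟩ := D.nbr w
  have hex : ∃ n : ℕ, ∀ v ∈ D.Vb w (12 * σ + 2), (tau a η ^ n) v = 0 := by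
    obtain ⟨n, hn⟩ := P.tau_nil hQ (12 * σ + 2)
    exact ⟨n, fun v hv => (Submodule.mem_bot _).1 (hn v hv)⟩
  obtain ⟨n, hn, hmin⟩ : ∃ n : ℕ, (∀ v ∈ D.Vb w (12 * σ + 2), (tau a η ^ n) v = 0) ∧
      ∀ m < n, ¬ ∀ v ∈ D.Vb w (12 * σ + 2), (tau a η ^ m) v = 0 :=
    ⟨Nat.find hex, Nat.find_spec hex, fun m hm => Nat.find_min hex hm⟩
  have hn2 : 2 ≤ n := by
    by_contra h2
    obtain ⟨v, hv, hv0⟩ := h0
    have e := hn v (D.Vb_near hw (by omega) hv)
    rcases (show n = 0 ∨ n = 1 by omega) with rfl | rfl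
    · rw [pow_zero, End.one_apply] at e
      exact hv0 (by rw [e, map_zero])
    · rw [pow_one] at e
      exact hv0 (by rw [← h.xt, End.mul_apply, e, map_zero])
  obtain ⟨h', c1, c2⟩ := NDrop_conj h ez ez' zz zz'
  obtain ⟨ζ', hζ'⟩ : ∃ ζ', ζ' = D.ρ z' * D.ρ z * ζ * (D.ρ z * D.ρ z') := ⟨_, rfl⟩
  rw [← hζ'] at h' c1 c2
  rw [← map_mul, ← map_mul, ← map_mul, eι] at c2
  have k4 := NDrop_kill h' (M := D.Vb w (12 * σ + 12 * θ + 6))
    (M' := D.Vb w (12 * σ + 12 * θ + 6 + 4 * σ + 4 * σ + 4 * σ)) (D.Vb_mono w (by omega)) (xP _)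
    (ηP _) (tP _) (P.tau_nil hQ _)
    (fun v hv => by
      rw [hζ']
      exact aP _ _ (sh zP' _ _ (zP _ _ (sh P'.η_PA _ _ (zP _ _ (sh zP' _ v hv)))))) (n := n)
    (fun n' hn' => by
      obtain ⟨u, hu, m₀, m₁, m₂, m₃, hm, eu⟩ := P.cong ha hQ n' (by omega)
      refine ⟨m₀, m₁, m₂, m₃, hm, fun N hN v hv => ?_⟩
      rw [← hN] at eu
      have c3 := D.NDrop_comm nι hu eι eu (fun v hv => by
        obtain ⟨k, rfl⟩ := Nat.exists_eq_add_of_le' hn'
        rw [hN, pow_add, End.mul_apply, End.mul_apply, hn _ (BP _ _ _ _ _ v hv), map_zero]) k3 v hv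
      have cE : Commute (x * η + η * x) (tau a η) := h.ce.add_left h.cf
      have c4 : Commute (D.ρ z) N := by
        rw [ez, hN]
        exact (Commute.one_left _).sub_left ((NDrop_cE h (cE.pow_right _) (LP2_comm cE _)
          (LP2_comm cE _) (LP2_comm cE _) (LP2_comm cE _)).smul_left _)
      refine smul_right_injective V P.two ?_
      change (2 : ZMod p) • _ = (2 : ZMod p) • _
      rw [← map_smul N, ← LinearMap.smul_apply, ← LinearMap.smul_apply, c2, LinearMap.sub_apply,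
        LinearMap.sub_apply, End.one_apply, End.one_apply, map_sub, End.mul_apply, End.mul_apply,
        ← End.mul_apply N, ← c4.eq, End.mul_apply, LinearMap.add_apply, LinearMap.add_apply,
        End.one_apply, End.one_apply, map_add N, c3])
  have k5 : rk (tau a η ^ (n + 1) * (x * η)) (D.Vb w (12 * σ + 12 * θ + 6)) < θ := by
    have hA : ∀ v ∈ W'.map (D.ρ z' * D.ρ z), (a * ζ') v = v := by
      rintro _ ⟨v, hv, rfl⟩
      rw [← End.mul_apply, c1, End.mul_apply, w3 v hv]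
    have s1 := LPei1_indep (A := W'.map (D.ρ z' * D.ρ z))
      (B := (D.Vb w (12 * σ + 12 * θ + 6)).map (tau a η ^ (n + 1) * (x * η))) (N := W) (a * ζ') hA
      (by
        rintro _ ⟨v, hv, rfl⟩
        rw [← End.mul_apply, ← mul_assoc, k4 v hv])
      (fun v hv => by
        rw [hW]
        refine ⟨⟨v, ?_⟩, ?_⟩
        · rw [← hA v hv, ← End.mul_apply, h'.ee']
        · obtain ⟨v, hv, rfl⟩ := hv
          exact D.PA_shift zP' hy (k := R' + 2 * σ) (by omega)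
            (D.PA_shift zP hw le_rfl (w4 v hv)))
      (by
        rintro _ ⟨v, hv, rfl⟩
        rw [← (h.ce.pow_right _).eq]
        exact w1 _ (by omega) _ (pow_mem tP _ _ v hv))
    have s2 : finrank (ZMod p) W' ≤
        finrank (ZMod p) ((W'.map (D.ρ z' * D.ρ z)).map (D.ρ z * D.ρ z')) :=
      finrank_mono' fun v hv => ⟨_, ⟨v, hv, rfl⟩, by
        rw [← End.mul_apply, mul_assoc, ← mul_assoc (D.ρ z'), zz', one_mul, zz, End.one_apply]⟩
    have s3 := Submodule.finrank_map_le (D.ρ z * D.ρ z') (W'.map (D.ρ z' * D.ρ z))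
    unfold rk
    omega
  have tn : ∀ v ∈ D.Vb w (12 * σ + 8 * θ + 4), (tau a η ^ (n + 1)) v = 0 := by
    obtain ⟨u, hu, m₀, m₁, m₂, m₃, hm, eu⟩ := P.cong ha hQ (n + 1) (by omega)
    have u1 := mem_K1.1 (D.Q_le w hu)
    have r4 := D.thick hw' u1.1 (u1.2 w' hw') (r := 12 * σ + 8 * θ + 4) (j := 2 * θ)
      (R := 12 * σ + 12 * θ + 6) (by omega) (by
        rw [eu, add_sub_cancel_left, NDrop_split h (h.ce.pow_right _) (h.cη.pow_right _)
          (LP2_comm h.ce _) (LP2_comm h.ce _) (LP2_comm h.cη _) (LP2_comm h.cη _)]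
        refine (rk_add_le _ _ _).trans_lt ?_
        have s1 := rk_mul_le_left (tau a η ^ (n + 1) * (x * η))
          (add_mem (qP m₀) (mul_mem (qP m₁) (mul_mem (mul_mem xP ηP) xP)) (12 * σ + 12 * θ + 6))
        have s2 := (rk_mul_le_left (η * (tau a η ^ (n + 1) * (x * η)))
          (add_mem (qP m₂) (mul_mem (qP m₃) xP) (12 * σ + 12 * θ + 6))).trans
            (rk_mul_le_right _ _ _)
        omega)
    refine LP2_part3 h (xP _) (ηP _) (P.tau_nil hQ _) (tP _) (fun q => qP q _) (by omega)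
      (m₀ := m₀) (m₁ := m₁) (m₃ := m₃) hm rfl fun v hv => ?_
    have e := r4 v hv
    rwa [eu, LinearMap.add_apply, End.one_apply, add_eq_left] at e
  obtain ⟨n, rfl⟩ := Nat.exists_eq_add_of_le' (show 1 ≤ n by omega)
  obtain ⟨u, hu, m₀, m₁, m₂, m₃, hm, eu⟩ := P.cong ha hQ n (by omega)
  obtain ⟨N, hN⟩ : ∃ N, N = tau a η ^ n * (aeval (tau a η) m₀ * (x * η) +
      aeval (tau a η) m₁ * (x * η * x) + aeval (tau a η) m₂ * η +
        aeval (tau a η) m₃ * (η * x)) := ⟨_, rfl⟩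
  rw [← hN] at eu
  have NP : N ∈ D.PA w := by rw [hN]; exact mul_mem (pow_mem tP n) (BP _ _ _ _)
  have r3 : rk N (D.Vb w (12 * σ + 8 * θ + 4)) ≤
      4 * rk (x * η * x * (1 - ζ * a)) (D.Vb y (R' + σ)) := by
    refine NDrop_part4 h (D.Vb_near hyw.symm (by omega)) (xP _) (ηP _) (tP _) (NP _)
      (fun v hv => ?_) ?_
    · rw [hN, End.mul_apply, ← End.mul_apply (tau a η) (tau a η ^ n), ← pow_succ',
        ← End.mul_apply (tau a η), ← pow_succ', tn _ (BP _ _ _ _ _ v hv)]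
    · obtain ⟨n, rfl⟩ := Nat.exists_eq_add_of_le' (show 1 ≤ n by omega)
      rw [hN, pow_succ', mul_assoc (tau a η), ← mul_assoc (x * η), ← mul_assoc (η * x), ← add_mul,
        ← h.eft]
  have u1 := mem_K1.1 (D.Q_le w hu)
  have r4 := D.thick hw' u1.1 (u1.2 w' hw') (r := 12 * σ + 2) (j := 4 * θ)
    (R := 12 * σ + 8 * θ + 4) (by omega) (by rw [eu, add_sub_cancel_left]; omega)
  refine hmin n (by omega) (LP2_part3 h (xP _) (ηP _) (P.tau_nil hQ _) (tP _) (fun q => qP q _)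
    (by omega) hm hN fun v hv => ?_)
  have e := r4 v hv
  rwa [eu, LinearMap.add_apply, End.one_apply, add_eq_left] at e

theorem drop2 {y : X} {a ζ : End (ZMod p) V} (P' : D.Partner y a ζ)
    (ha : x * η * a * (η * x) = a) (hQ : ∃ g ∈ D.Q w, D.ρ g = 1 + a) {σ θ R R' : ℕ}
    (hw : Near D.Γ σ D.o w) (hy : Near D.Γ σ D.o y) (h0 : ∃ v ∈ D.Vb D.o σ, a v ≠ 0)
    (hR' : 25 * σ + 20 * θ + 10 ≤ R') (hR : R' + 4 * σ ≤ R) :
    finrank (ZMod p) (LinearMap.range (a * ζ) ⊓ D.Vb D.o R' : Submodule (ZMod p) V) + θ ≤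
      finrank (ZMod p) (LinearMap.range (x * η) ⊓ D.Vb D.o R : Submodule (ZMod p) V) :=
  P.alt.elim (fun h => P.drop3 h P' ha hQ hw hy h0 hR' hR)
    fun h => P.drop5 h.1 P' ha hQ hw hy h0 (by omega) hR

end Partner

end LD

end Pool.Agent.Lib.MP_bf45aa_co
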