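import Mathlib

set_option autoImplicit false

/-! The choice of scales. -/

namespace Pool.Agent.Lib.MP_bf45aa_co

open Filter

/-- Let `U = hyperfilter ℕ` and `T τ l a` say `∀ᶠ s in U, ν τ (2 ^ (l s)) * 2 ^ (a s) ≤ 2 ^ (l s)`; it
is antitone in `a`. Call `τ` large if `∀ a l₀, ∃ l ≥ l₀, T τ l a`. Otherwise there are `a`, `l₀` with
`¬ T τ l a` for all `l ≥ l₀`; take `μ ≥ 1` above all these `a`, `l₀`. Define `Λ (j + 1)` as the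
maximum of `C * Λ j` and the numbers `l ≥ C * Λ j` with `T τ l (C * Λ j)` chosen for the large `τ`.
For `τ` not large take `l = C * Λ j ≥ μ` and `Ultrafilter.eventually_not`. Intersect the finitely
many sets in `U` (`eventually_all_finite`), and `∀ᶠ s in U, s₀ ≤ s`. -/
theorem exists_scales {ι : Type} [Fintype ι] (ν : ι → ℕ → ℕ) (C K : ℕ) (hC : 1 ≤ C) :
    ∃ (μ : ℕ) (Λ : ℕ → ℕ), 1 ≤ μ ∧ Λ 0 = C * μ ∧ (∀ j, C * Λ j ≤ Λ (j + 1)) ∧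
      ∀ s₀, ∃ s, s₀ ≤ s ∧ ∀ τ, ∀ j < K, ∃ l, C * Λ j ≤ l ∧ l ≤ Λ (j + 1) ∧
        (ν τ (2 ^ (l * s)) * 2 ^ (C * Λ j * s) ≤ 2 ^ (l * s) ∨
          2 ^ (l * s) < ν τ (2 ^ (l * s)) * 2 ^ (μ * s)) := by
  classical
  let U : Ultrafilter ℕ := hyperfilter ℕ
  let T : ι → ℕ → ℕ → Prop := fun τ l a =>
    ∀ᶠ s in (U : Filter ℕ), ν τ (2 ^ (l * s)) * 2 ^ (a * s) ≤ 2 ^ (l * s)
  have hanti : ∀ τ l a b, a ≤ b → T τ l b → T τ l a := by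
    intro τ l a b hab h
    refine Filter.Eventually.mono h fun s hs => le_trans ?_ hs
    exact Nat.mul_le_mul_left _ (Nat.pow_le_pow_right (by norm_num) (Nat.mul_le_mul_right _ hab))
  have h1 : ∀ τ, ∃ m : ℕ, (∀ a, ∃ l, a ≤ l ∧ T τ l a) ∨ ∀ l, m ≤ l → ¬ T τ l m := by
    intro τ
    by_cases h : ∀ a, ∃ l, a ≤ l ∧ T τ l a
    · exact ⟨0, Or.inl h⟩
    · push Not at h
      obtain ⟨a, ha⟩ := h
      exact ⟨a, Or.inr ha⟩
  choose m hm using h1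
  have h2 : ∀ τ a, ∃ l, a ≤ l ∧ ((∀ a, ∃ l, a ≤ l ∧ T τ l a) → T τ l a) := by
    intro τ a
    by_cases h : ∀ a, ∃ l, a ≤ l ∧ T τ l a
    · obtain ⟨l, hl, hT⟩ := h a
      exact ⟨l, hl, fun _ => hT⟩
    · exact ⟨a, le_rfl, fun h' => absurd h' h⟩
  choose f hf using h2
  let μ : ℕ := 1 + Finset.univ.sup m
  have hμ : ∀ τ, m τ ≤ μ := fun τ =>
    le_trans (Finset.le_sup (f := m) (Finset.mem_univ τ)) (Nat.le_add_left _ _)
  let Λ : ℕ → ℕ := fun j => Nat.rec (C * μ)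
    (fun _ x => C * x + Finset.univ.sup fun τ => f τ (C * x)) j
  have hΛs : ∀ j, Λ (j + 1) = C * Λ j + Finset.univ.sup fun τ => f τ (C * Λ j) := fun _ => rfl
  have hstep : ∀ j, C * Λ j ≤ Λ (j + 1) := fun j => by rw [hΛs]; exact Nat.le_add_right _ _
  have hμΛ : ∀ j, μ ≤ Λ j := by
    intro j
    induction j with
    | zero => exact Nat.le_mul_of_pos_left _ hC
    | succ j ih => exact le_trans (le_trans ih (Nat.le_mul_of_pos_left _ hC)) (hstep j)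
  refine ⟨μ, Λ, Nat.le_add_right _ _, rfl, hstep, fun s₀ => ?_⟩
  have h3 : ∀ τ j, ∃ l, C * Λ j ≤ l ∧ l ≤ Λ (j + 1) ∧ ∀ᶠ s in (U : Filter ℕ),
      (ν τ (2 ^ (l * s)) * 2 ^ (C * Λ j * s) ≤ 2 ^ (l * s) ∨
        2 ^ (l * s) < ν τ (2 ^ (l * s)) * 2 ^ (μ * s)) := by
    intro τ j
    rcases hm τ with h | h
    · refine ⟨f τ (C * Λ j), (hf τ _).1, ?_, Filter.Eventually.mono ((hf τ _).2 h) fun s hs => Or.inl hs⟩
      rw [hΛs]
      exact le_trans (Finset.le_sup (f := fun τ => f τ (C * Λ j)) (Finset.mem_univ τ))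
        (Nat.le_add_left _ _)
    · refine ⟨C * Λ j, le_rfl, hstep j, ?_⟩
      have h4 : m τ ≤ C * Λ j :=
        le_trans (hμ τ) (le_trans (hμΛ j) (Nat.le_mul_of_pos_left _ hC))
      have h5 : ¬ T τ (C * Λ j) μ := fun hT => h _ h4 (hanti _ _ _ _ (hμ τ) hT)
      exact Filter.Eventually.mono (Ultrafilter.eventually_not.2 h5) fun s hs => Or.inr (not_le.1 hs)
  choose g hg using h3
  have h6 : ∀ᶠ s in (U : Filter ℕ), ∀ x : ι × Fin K,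
      (ν x.1 (2 ^ (g x.1 x.2 * s)) * 2 ^ (C * Λ x.2 * s) ≤ 2 ^ (g x.1 x.2 * s) ∨
        2 ^ (g x.1 x.2 * s) < ν x.1 (2 ^ (g x.1 x.2 * s)) * 2 ^ (μ * s)) :=
    Filter.eventually_all.2 fun x => (hg x.1 x.2).2.2
  have h7 : ∀ᶠ s in (U : Filter ℕ), s₀ ≤ s :=
    Filter.Eventually.filter_mono Nat.hyperfilter_le_atTop (Filter.eventually_ge_atTop s₀)
  obtain ⟨s, hs1, hs2⟩ := (h7.and h6).exists
  exact ⟨s, hs1, fun τ j hj => ⟨g τ j, (hg τ j).1, (hg τ j).2.1, hs2 (τ, ⟨j, hj⟩)⟩⟩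

end Pool.Agent.Lib.MP_bf45aa_co
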