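import Pool.Agent.Lib.PSV.NChain
import Pool.Agent.Lib.PSV.NDrop
import Pool.Agent.Lib.PSV.NScale

set_option autoImplicit false
set_option linter.unusedSectionVars false

/-! There are no limit data for odd `p`. -/

namespace Pool.Agent.Lib.MP_bf45aa_co

open Subgroup Module

namespace LD

variable {p : ℕ} [hp' : Fact p.Prime] {H X V : Type} [Group H] [MulAction H X] [AddCommGroup V]
  [Module (ZMod p) V] (D : LD p H X V)

theorem exists_fam (s n : ℕ) (h : p * n ≤ s) : ∃ w Z C B, D.Fam (2 * s + 1) n w Z C B := by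
  obtain ⟨w, hw, B, hB, hq, v, hv, f, hf, hinj⟩ := D.fam s
  have hq' : ∀ {g g' : H} {a a' : End (ZMod p) V}, g ∈ B → g' ∈ B → D.ρ g = 1 + a →
      D.ρ g' = 1 + a' → a * a' = 0 := by
    intro g g' a a' hg hg' e e'
    have := hq g hg g' hg'
    rwa [e, e', add_sub_cancel_left, add_sub_cancel_left] at this
  let L : Submodule (ZMod p) (End (ZMod p) V) :=
    { carrier := {a | ∃ g ∈ B, D.ρ g = 1 + a}
      zero_mem' := ⟨1, one_mem _, by simp⟩
      add_mem' := by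
        rintro a b ⟨g, hg, e⟩ ⟨g', hg', e'⟩
        refine ⟨g * g', mul_mem hg hg', ?_⟩
        rw [map_mul, e, e', add_mul, one_mul, mul_add, mul_one, hq' hg hg' e e']
        abel
      smul_mem' := by
        rintro r a ⟨g, hg, e⟩
        refine ⟨g ^ r.val, pow_mem hg _, ?_⟩
        rw [ρ_pow e (hq' hg hg e e), ZMod.natCast_zmod_val] }
  rcases faithful_or_small (LinearMap.applyₗ v) L n with ⟨B', h1, h2, h3, h4⟩ | ⟨h1, h2⟩
  · refine ⟨w, ⨆ a ∈ L, LinearMap.range a, ⨅ a ∈ L, LinearMap.ker a, B', hw, ?_, ?_, ?_, h2, h3, ?_⟩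
    · refine iSup₂_le fun a ha => le_iInf₂ fun b hb => ?_
      rintro _ ⟨u, rfl⟩
      obtain ⟨g, hg, e⟩ := ha
      obtain ⟨g', hg', e'⟩ := hb
      exact LinearMap.congr_fun (hq' hg' hg e' e) u
    · intro a ha
      obtain ⟨g, hg, e⟩ := h1 ha
      exact ⟨g, hB hg, e⟩
    · intro a ha
      refine ⟨fun u => ?_, fun u hu => ?_⟩
      · exact (le_iSup₂_of_le (f := fun a (_ : a ∈ L) => LinearMap.range a) a (h1 ha) le_rfl) ⟨u, rfl⟩
      · exact (iInf₂_le (f := fun a (_ : a ∈ L) => LinearMap.ker a) a (h1 ha)) hu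
    · exact fun a ha h5 => h4 a ha (h5 v (D.Vb_mono _ (Nat.zero_le _) hv))
  · exfalso
    have h3 : Finite (L.map (LinearMap.applyₗ (R := ZMod p) v)) := Module.finite_of_finite (ZMod p)
    have h4 := Nat.card_le_card_of_injective
      (fun i => (⟨D.ρ (f i) v - v, D.ρ (f i) - 1, ⟨f i, hf i, by simp⟩, rfl⟩ :
        L.map (LinearMap.applyₗ (R := ZMod p) v)))
      fun i j e => hinj (sub_left_injective (congrArg Subtype.val e))
    rw [Nat.card_eq_fintype_card, Fintype.card_fin, Module.natCard_eq_pow_finrank (K := ZMod p),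
      Nat.card_zmod] at h4
    have h5 := h4.trans (Nat.pow_le_pow_left (Nat.lt_two_pow_self (n := p)).le _)
    rw [← pow_mul, Nat.pow_le_pow_iff_right (by norm_num)] at h5
    have h6 := Nat.mul_lt_mul_of_pos_left h2 hp'.out.pos
    omega

/-- The dimension of the trace of `Z` on a ball space. -/
noncomputable def Phi (Z : Submodule (ZMod p) V) (R : ℕ) : ℕ :=
  finrank (ZMod p) (Z ⊓ D.Vb D.o R : Submodule (ZMod p) V)

instance (Z : Submodule (ZMod p) V) (x : X) (R : ℕ) :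
    Module.Finite (ZMod p) (Z ⊓ D.Vb x R : Submodule (ZMod p) V) :=
  Submodule.finiteDimensional_of_le inf_le_right

theorem Phi_mono {Z Z' : Submodule (ZMod p) V} {R R' : ℕ} (h : Z ≤ Z') (h' : R ≤ R') :
    D.Phi Z R ≤ D.Phi Z' R' := finrank_mono' (inf_le_inf h (D.Vb_mono _ h'))

theorem Phi_le (Z : Submodule (ZMod p) V) (R : ℕ) : D.Phi Z R ≤ D.c * (R + 1) :=
  (finrank_mono' inf_le_right).trans (D.rank_le _ _)

theorem β_pos : 0 < D.β := by
  obtain ⟨t, h1, -, h2⟩ := D.Q_idx D.o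
  obtain ⟨a, ha, -⟩ := h2 1 (one_mem _)
  exact (Finset.card_pos.2 ⟨a, ha⟩).trans_le h1

variable {D}

theorem Fam.weaken {σ n n' : ℕ} {w : X} {Z C : Submodule (ZMod p) V}
    {B : Submodule (ZMod p) (End (ZMod p) V)} (h : D.Fam σ n w Z C B) (hn : n' ≤ n) :
    D.Fam σ n' w Z C B := { h with dim := hn.trans h.dim }

theorem Partner.drop0' {y : X} {x η : End (ZMod p) V} (P : D.Partner y x η)
    {Z C : Submodule (ZMod p) V} (hx : Fr Z C x) {σ θ r r' : ℕ} (hy : Near D.Γ σ D.o y)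
    (hθ : 2 * D.β * θ ≤ 2 * D.β * rk (x * η) (D.Vb y (2 * (2 * D.β * θ))))
    (h1 : 4 * D.β * θ + σ ≤ r) (hr : r + 2 * σ ≤ r') :
    D.Phi (Z.map (1 - x * η)) r + θ ≤ D.Phi Z r' := by
  have h2 := P.drop0 hx hy hr
  have h3 := Nat.le_of_mul_le_mul_left hθ (Nat.mul_pos two_pos D.β_pos)
  have h4 := rk_mono (x * η) (D.Vb_near hy.symm (k := 2 * (2 * D.β * θ)) (l := r) (by
    have : 2 * (2 * D.β * θ) = 4 * D.β * θ := by ring
    omega))
  unfold Phi
  omega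

theorem Fam.mono {σ σ' n : ℕ} {w : X} {Z C : Submodule (ZMod p) V}
    {B : Submodule (ZMod p) (End (ZMod p) V)} (h : D.Fam σ n w Z C B) (hσ : σ ≤ σ') :
    D.Fam σ' n w Z C B :=
  { h with
    near := h.near.mono hσ
    faith := fun a ha h0 => h.faith a ha fun v hv => h0 v (D.Vb_mono _ hσ hv) }

theorem one_step (hp : p ≠ 2) {M σ R k : ℕ} (hc : ∀ y x η, ¬ D.Chain (3 * σ + 2) R M y x η)
    (hR : 3 * σ + 2 ≤ R) (hk : 1 ≤ k) (j : ℕ) {w : X}
    {Z C' : Submodule (ZMod p) V} {B : Submodule (ZMod p) (End (ZMod p) V)}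
    (h : D.Fam σ (3 * M * (D.β + 1) * k) w Z C' B) :
    ∃ y, ∃ x ∈ B, ∃ η B', Near D.Γ R D.o y ∧ x ≠ 0 ∧ D.Partner y x η ∧
      j ≤ 2 * D.β * rk (x * η) (D.Vb y (2 * j)) ∧
      (D.Fam R k y (Z.map (1 - x * η)) C' B' ∨
        D.Fam R k y (LinearMap.range (x * η)) (LinearMap.ker (η * x)) B') := by
  rcases h.step hp M k R j (by
    calc _ = M * ((D.β + 1) * (2 * k + 1)) := by ring
      _ ≤ M * ((D.β + 1) * (3 * k)) := Nat.mul_le_mul_left _ (Nat.mul_le_mul_left _ (by omega))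
      _ = _ := by ring) hR with h5 | ⟨y, x, η, h5⟩
  · obtain ⟨y, x, hx, η, B', h6, h7⟩ := h5
    exact ⟨y, x, hx, η, B', h6.mono hR, h7⟩
  · exact absurd h5 (hc y x η)

theorem two_step (hp : p ≠ 2) {M σ₀ σ₁ σ₂ k θ R R' : ℕ}
    (hc : ∀ y x η, ¬ D.Chain (3 * σ₀ + 2) σ₁ M y x η)
    (hc' : ∀ y x η, ¬ D.Chain (3 * σ₁ + 2) σ₂ M y x η) (e1 : 3 * σ₀ + 2 ≤ σ₁)
    (e2 : 3 * σ₁ + 2 ≤ σ₂) (hM : 1 ≤ M) (hk : 1 ≤ k) {w : X}
    {Z C' : Submodule (ZMod p) V} {B : Submodule (ZMod p) (End (ZMod p) V)}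
    (h : D.Fam σ₀ (3 * M * (D.β + 1) * (3 * M * (D.β + 1) * k)) w Z C' B)
    (h1 : (4 * D.β + 20) * θ + 35 * σ₂ ≤ R') (h2 : R' + 4 * σ₂ ≤ R) :
    ∃ w' Z' C'' B', D.Fam σ₂ k w' Z' C'' B' ∧ D.Phi Z' R' + θ ≤ D.Phi Z R := by
  have e7 : (4 * D.β + 20) * θ = 4 * D.β * θ + 20 * θ := by ring
  have e8 : k ≤ 3 * M * (D.β + 1) * k := Nat.le_mul_of_pos_left _ (by positivity)
  obtain ⟨y, x, hx, η, B₁, k1, k2, P, k3, k4⟩ := one_step hp hc e1 (hk.trans e8) (2 * D.β * θ) h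
  rcases k4 with k4 | k4
  · exact ⟨_, _, _, _, (k4.weaken e8).mono (by omega),
      P.drop0' (h.fr x hx) k1 k3 (by omega) (by omega)⟩
  · obtain ⟨y', a, ha, ζ, B₂, l1, l2, P', l3, l4⟩ := one_step hp hc' e2 hk (2 * D.β * θ) k4
    have hZ : LinearMap.range (x * η) ≤ Z := by
      rintro _ ⟨v, rfl⟩
      exact (h.fr x hx).1 _
    rcases l4 with l4 | l4
    · exact ⟨_, _, _, _, l4, (P'.drop0' (k4.fr a ha) l1 l3 (r' := R) (by omega)
        (by omega)).trans (D.Phi_mono hZ le_rfl)⟩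
    · refine ⟨_, _, _, _, l4, le_trans ?_ (D.Phi_mono hZ le_rfl)⟩
      have ha' : x * η * a * (η * x) = a := by
        ext v
        obtain ⟨u, hu⟩ := (k4.fr a ha).1 ((η * x) v)
        have m1 : a (v - (η * x) v) = 0 := (k4.fr a ha).2 _ (by
          rw [LinearMap.mem_ker, map_sub, ← End.mul_apply (η * x) (η * x), P.f_idem, sub_self])
        rw [map_sub, sub_eq_zero] at m1
        rw [End.mul_apply, End.mul_apply, ← hu, ← End.mul_apply (x * η) (x * η), P.e_idem, hu, m1]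
      refine P.drop2 P' ha' (k4.real a ha) (σ := σ₂) (k1.mono (by omega)) l1 ?_ (by omega) (by omega)
      by_contra m2
      push Not at m2
      exact l2 (k4.faith a ha fun v hv => m2 v (D.Vb_mono _ (by omega) hv))

theorem iterate (hp : p ≠ 2) {M θ T : ℕ} (S : ℕ → ℕ) (hM : 1 ≤ M) (K : ℕ) :
    ∀ i R w Z C' B, (∀ j < i + 2 * K, 3 * S j + 2 ≤ S (j + 1) ∧ S (j + 1) ≤ T ∧
        ∀ y x η, ¬ D.Chain (3 * S j + 2) (S (j + 1)) M y x η) →
      D.Fam (S i) ((3 * M * (D.β + 1)) ^ (2 * K)) w Z C' B →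
      (4 * D.β + 20) * θ + (4 * K + 35) * T ≤ R → K * θ ≤ D.Phi Z R := by
  induction K with
  | zero => intros; simp
  | succ K ih =>
    intro i R w Z C' B hS h hR
    obtain ⟨a1, -, a2⟩ := hS i (by omega)
    obtain ⟨a3, a4, a5⟩ := hS (i + 1) (by omega)
    have e3 : (4 * (K + 1) + 35) * T = (4 * K + 35) * T + 4 * T := by ring
    have e4 : 35 * T ≤ (4 * K + 35) * T := Nat.mul_le_mul_right _ (by omega)
    obtain ⟨w', Z', C'', B', h2, h3⟩ := two_step hp a2 a5 a1 a3 hM (θ := θ)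
      (k := (3 * M * (D.β + 1)) ^ (2 * K)) (R := R) (R' := R - 4 * T)
      (Nat.one_le_pow _ _ (by positivity)) (h.weaken (le_of_eq (by ring))) (by omega) (by omega)
    have h4 := ih (i + 1 + 1) (R - 4 * T) w' Z' C'' B' (fun j hj => hS j (by omega)) h2 (by omega)
    rw [add_mul, one_mul]
    omega

theorem exists_large (A : ℕ) : ∃ s₀, ∀ s, s₀ ≤ s → A * s ≤ 2 ^ s := by
  refine ⟨A + 10, fun s hs => le_trans ?_ (LChain_cube (by omega))⟩
  calc A * s ≤ s * s := Nat.mul_le_mul_right _ (by omega)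
    _ ≤ s * s * s := Nat.le_mul_of_pos_right _ (by omega)
    _ = s ^ 3 := by ring

variable (D) in
include D in
theorem false (hp : p ≠ 2) : False := by
  obtain ⟨ι, _, ν, C, n₀, hC, hc⟩ := D.no_chain
  obtain ⟨K, hK⟩ : ∃ K, K = D.c * (4 * D.β + 22) + 1 := ⟨_, rfl⟩
  obtain ⟨μ, Λ, hμ, h0, hΛ, hs⟩ := exists_scales ν (2 * C + 6 * K + 1) (2 * K) (by omega)
  have mono : Monotone Λ := monotone_nat_of_le_succ fun j =>
    (Nat.le_mul_of_pos_left _ (by omega)).trans (hΛ j)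
  have l0 : μ ≤ Λ 0 := h0 ▸ Nat.le_mul_of_pos_left _ (by omega)
  obtain ⟨s₀, hs₀⟩ := exists_large (2 * Λ (2 * K))
  obtain ⟨s, s1, s2⟩ := hs (s₀ + n₀ + p + 3 * (D.β + 1) + 4)
  have m1 : s ≤ μ * s := Nat.le_mul_of_pos_left _ hμ
  have m2 : ∀ j, μ * s ≤ Λ j * s := fun j => Nat.mul_le_mul_right _ (l0.trans (mono (Nat.zero_le j)))
  have m3 : ∀ t, t ≤ μ * s → t ≤ 2 ^ (μ * s) := fun t ht => ht.trans Nat.lt_two_pow_self.le
  have key : ∀ j < 0 + 2 * K, 3 * 2 ^ (Λ j * s + 2) + 2 ≤ 2 ^ (Λ (j + 1) * s + 2) ∧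
      2 ^ (Λ (j + 1) * s + 2) ≤ 2 ^ (Λ (2 * K) * s + 2) ∧
      ∀ y x η, ¬ D.Chain (3 * 2 ^ (Λ j * s + 2) + 2) (2 ^ (Λ (j + 1) * s + 2)) (2 ^ (2 * (μ * s)))
        y x η := by
    intro j hj
    have a0 := m2 j
    have a1 : 3 * 2 ^ (Λ j * s + 2) + 2 ≤ 2 ^ (Λ j * s + 2 + 2) := by
      have : 2 ^ 1 ≤ 2 ^ (Λ j * s + 2) := Nat.pow_le_pow_right two_pos (by omega)
      rw [pow_add _ (_ + 2)]
      omega
    have a2 : 2 * (Λ j * s) ≤ Λ (j + 1) * s := by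
      rw [← mul_assoc]
      exact Nat.mul_le_mul_right _ ((Nat.mul_le_mul_right _ (by omega)).trans (hΛ j))
    refine ⟨a1.trans (Nat.pow_le_pow_right two_pos (by omega)), Nat.pow_le_pow_right two_pos
      (Nat.add_le_add_right (Nat.mul_le_mul_right _ (mono (by omega))) _), ?_⟩
    refine hc (2 * (Λ j * s)) (μ * s) _ (by omega) (by omega) ?_ (fun τ => ?_) _
      (a1.trans (Nat.pow_le_pow_right two_pos (by omega)))
    · calc 2 * (Λ j * s) ≤ 2 * Λ (2 * K) * s := by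
            rw [mul_assoc]
            exact Nat.mul_le_mul_left _ (Nat.mul_le_mul_right _ (mono (by omega)))
        _ ≤ 2 ^ s := hs₀ s (by omega)
        _ ≤ _ := Nat.pow_le_pow_right two_pos m1
    · obtain ⟨l, b1, b2, b3⟩ := s2 τ j (by omega)
      have b4 : C * (2 * (Λ j * s)) ≤ (2 * C + 6 * K + 1) * Λ j * s := by
        calc _ = 2 * C * Λ j * s := by ring
          _ ≤ _ := Nat.mul_le_mul_right _ (Nat.mul_le_mul_right _ (by omega))
      refine ⟨l * s, b4.trans (Nat.mul_le_mul_right _ b1), Nat.pow_le_pow_right two_pos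
        (Nat.add_le_add_right (Nat.mul_le_mul_right _ b2) _), b3.imp_left fun b5 => le_trans ?_ b5⟩
      exact Nat.mul_le_mul_left _ (Nat.pow_le_pow_right two_pos b4)
  obtain ⟨w, Z, C', B, hF⟩ := D.exists_fam (2 ^ (Λ 0 * s))
    ((3 * 2 ^ (2 * (μ * s)) * (D.β + 1)) ^ (2 * K)) (by
      have a1 : 3 * 2 ^ (2 * (μ * s)) * (D.β + 1) ≤ 2 ^ (3 * (μ * s)) := by
        calc _ = 3 * (D.β + 1) * 2 ^ (2 * (μ * s)) := by ring
          _ ≤ 2 ^ (μ * s) * 2 ^ (2 * (μ * s)) := Nat.mul_le_mul_right _ (m3 _ (by omega))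
          _ = _ := by ring
      calc _ ≤ 2 ^ (μ * s) * (2 ^ (3 * (μ * s))) ^ (2 * K) :=
            Nat.mul_le_mul (m3 _ (by omega)) (Nat.pow_le_pow_left a1 _)
        _ = 2 ^ ((6 * K + 1) * μ * s) := by ring
        _ ≤ _ := Nat.pow_le_pow_right two_pos (Nat.mul_le_mul_right _
            (h0 ▸ Nat.mul_le_mul_right _ (by omega))))
  set θ := (4 * K + 35) * 2 ^ (Λ (2 * K) * s + 2) with hθ
  have h2 : 0 < θ := by positivity
  have h3 := (iterate hp (θ := θ) (fun j => 2 ^ (Λ j * s + 2)) Nat.one_le_two_pow K 0 _ w Z C' B key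
    (hF.mono (by
      have : 1 ≤ 2 ^ (Λ 0 * s) := Nat.one_le_two_pow
      rw [pow_add]
      omega)) le_rfl).trans (D.Phi_le _ _)
  rw [← hθ] at h3
  have h4 : D.c * ((4 * D.β + 20) * θ + θ + 1) ≤ D.c * ((4 * D.β + 22) * θ) :=
    Nat.mul_le_mul_left _ (by nlinarith)
  rw [hK] at h3
  nlinarith

end LD

end Pool.Agent.Lib.MP_bf45aa_co
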