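import Pool.Agent.Lib.PSV.LID

set_option autoImplicit false
set_option linter.unusedSectionVars false

/-! Restriction to a connected component. -/

namespace Pool.Agent.Lib.MP_bf45aa_co

open Subgroup

section LU3

variable {p c β : ℕ} {G V : Type} [Group G] [MulAction G V]

/-- The component of the base vertex. -/
def LU3_X (D : ID p c β G V) : Type := {x : V // ∃ k, Near D.Γ k D.o x}

/-- The stabiliser of the component. -/
def LU3_H (D : ID p c β G V) : Subgroup G where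
  carrier := {g | ∃ k, Near D.Γ k D.o (g • D.o)}
  one_mem' := ⟨0, by rw [one_smul]; exact Near.refl _ _⟩
  mul_mem' := by
    rintro a b ⟨k, hk⟩ ⟨l, hl⟩
    exact ⟨k + l, by rw [mul_smul]; exact hk.trans (hl.smul D.adj a)⟩
  inv_mem' := by
    rintro a ⟨k, hk⟩
    have := hk.smul D.adj a⁻¹
    rw [inv_smul_smul] at this
    exact ⟨k, this.symm⟩

theorem LU3_smul_mem (D : ID p c β G V) {g : G} (hg : g ∈ LU3_H D) {x : V}
    (hx : ∃ k, Near D.Γ k D.o x) : ∃ k, Near D.Γ k D.o (g • x) := by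
  obtain ⟨k, hk⟩ := hg
  obtain ⟨l, hl⟩ := hx
  exact ⟨k + l, hk.trans (hl.smul D.adj g)⟩

instance LU3_act (D : ID p c β G V) : MulAction (LU3_H D) (LU3_X D) where
  smul g x := ⟨g.1 • x.1, LU3_smul_mem D g.2 x.2⟩
  one_smul x := Subtype.ext (one_smul G x.1)
  mul_smul a b x := Subtype.ext (mul_smul a.1 b.1 x.1)

theorem LU3_val (D : ID p c β G V) (g : LU3_H D) (x : LU3_X D) : (g • x).1 = g.1 • x.1 := rfl

theorem LU3_eq (D : ID p c β G V) {g : LU3_H D} {x y : LU3_X D} : g • x = y ↔ g.1 • x.1 = y.1 :=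
  Subtype.ext_iff

/-- The induced graph. -/
def LU3_Γ (D : ID p c β G V) : SimpleGraph (LU3_X D) := D.Γ.comap Subtype.val

theorem LU3_adj (D : ID p c β G V) {x y : LU3_X D} : (LU3_Γ D).Adj x y ↔ D.Γ.Adj x.1 y.1 := Iff.rfl

theorem LU3_near_mem (D : ID p c β G V) (x : LU3_X D) {k : ℕ} {y : V} (h : Near D.Γ k x.1 y) :
    ∃ l, Near D.Γ l D.o y :=
  let ⟨l, hl⟩ := x.2; ⟨l + k, hl.trans h⟩

theorem LU3_adj_mem (D : ID p c β G V) (x : LU3_X D) {y : V} (h : D.Γ.Adj x.1 y) :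
    ∃ l, Near D.Γ l D.o y := LU3_near_mem D x (Near.of_adj h)

theorem LU3_St_le (D : ID p c β G V) (x : LU3_X D) : St G x.1 ≤ LU3_H D := by
  intro g hg
  obtain ⟨k, hk⟩ := x.2
  have h1 := hk.smul D.adj g
  rw [mem_St.1 hg] at h1
  exact ⟨k + k, hk.trans h1.symm⟩

theorem LU3_W_le (D : ID p c β G V) (x : LU3_X D) (k : ℕ) : D.W x.1 k ≤ LU3_H D :=
  (D.W_le _ _).trans (LU3_St_le D x)

theorem LU3_Q_le (D : ID p c β G V) (x : LU3_X D) : D.Q x.1 ≤ LU3_H D :=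
  ((D.Q_le _).trans (Kn_le_St _ _)).trans (LU3_St_le D x)

theorem LU3_mem_St (D : ID p c β G V) {g : LU3_H D} {x : LU3_X D} :
    g ∈ St (LU3_H D) x ↔ g.1 ∈ St G x.1 := by
  rw [mem_St, mem_St, LU3_eq]

theorem LU3_near (D : ID p c β G V) {k : ℕ} {x y : LU3_X D} (h : Near D.Γ k x.1 y.1) :
    Near (LU3_Γ D) k x y := by
  induction k generalizing x with
  | zero => rw [show x = y from Subtype.ext (near_zero h)]; exact Near.refl _ _
  | succ k ih =>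
    rcases near_succ h with h1 | ⟨z, h1, h2⟩
    · rw [show x = y from Subtype.ext h1]; exact Near.refl _ _
    · have h3 : (LU3_Γ D).Adj x ⟨z, LU3_adj_mem D x h1⟩ := h1
      exact ((Near.of_adj h3).trans (ih h2)).mono (by omega)

theorem LU3_mem_Kn (D : ID p c β G V) {g : LU3_H D} {k : ℕ} {x : LU3_X D} :
    g ∈ Kn (LU3_H D) (LU3_Γ D) k x ↔ g.1 ∈ Kn G D.Γ k x.1 := by
  induction k generalizing x with
  | zero => exact LU3_mem_St D
  | succ k ih =>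
    rw [mem_Kn_succ, mem_Kn_succ, ih]
    refine and_congr_right fun _ => ⟨fun h y hy => ?_, fun h y hy => ih.2 (h y.1 hy)⟩
    exact (ih (x := ⟨y, LU3_adj_mem D x hy⟩)).1 (h _ hy)

theorem LU3_map_le (D : ID p c β G V) {x : LU3_X D} {N : Subgroup (LU3_H D)}
    (h : N ≤ St (LU3_H D) x) : N.map (LU3_H D).subtype ≤ St G x.1 := by
  rintro _ ⟨n, hn, rfl⟩
  exact (LU3_mem_St D).1 (h hn)

theorem LU3_map_Nm (D : ID p c β G V) {x : LU3_X D} {N : Subgroup (LU3_H D)}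
    (h : St (LU3_H D) x ≤ Nm N) : St G x.1 ≤ Nm (N.map (LU3_H D).subtype) := by
  refine le_Nm_of_conj ?_
  rintro g hg _ ⟨n, hn, rfl⟩
  have h1 : (⟨g, LU3_St_le D x hg⟩ : LU3_H D) ∈ St (LU3_H D) x := (LU3_mem_St D).2 hg
  exact ⟨_, conj_mem_of_Nm (h h1) hn, rfl⟩

theorem LU3_tr (D : ID p c β G V) {x : LU3_X D} {N : Subgroup (LU3_H D)} :
    Tr (LU3_Γ D) N x ↔ Tr D.Γ (N.map (LU3_H D).subtype) x.1 := by
  constructor
  · intro h y z hy hz
    obtain ⟨n, hn, e⟩ := h ⟨y, LU3_adj_mem D x hy⟩ ⟨z, LU3_adj_mem D x hz⟩ hy hz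
    exact ⟨n.1, ⟨n, hn, rfl⟩, (LU3_eq D).1 e⟩
  · intro h y z hy hz
    obtain ⟨_, ⟨n, hn, rfl⟩, e⟩ := h y.1 z.1 hy hz
    exact ⟨n, hn, (LU3_eq D).2 e⟩

/-- The restricted data. -/
def LU3_D (D : ID p c β G V) : ID p c β (LU3_H D) (LU3_X D) where
  Γ := LU3_Γ D
  W x k := (D.W x.1 k).subgroupOf (LU3_H D)
  Q x := (D.Q x.1).subgroupOf (LU3_H D)
  o := ⟨D.o, 0, Near.refl _ _⟩
  adj g _ _ h := D.adj g.1 h
  nbr x := let ⟨y, hy⟩ := D.nbr x.1; ⟨⟨y, LU3_adj_mem D x hy⟩, hy⟩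
  sp v N h1 h2 := by
    rcases D.sp v.1 _ (LU3_map_le D h1) (LU3_map_Nm D h2) with h | h
    · exact Or.inl ((LU3_tr D).2 h)
    · exact Or.inr fun n hn x hx e y hy =>
        (LU3_eq D).2 (h n.1 ⟨n, hn, rfl⟩ x.1 hx ((LU3_eq D).1 e) y.1 hy)
  vtx x y := by
    obtain ⟨g, hg⟩ := D.vtx x.1 y.1
    obtain ⟨k, hk⟩ := x.2
    obtain ⟨l, hl⟩ := y.2
    have h1 := hk.smul D.adj g
    rw [hg] at h1
    exact ⟨⟨g, l + k, hl.trans h1.symm⟩, (LU3_eq D).2 hg⟩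
  W_le x k _ h := (LU3_mem_St D).2 (D.W_le _ _ h)
  mono x k _ h := D.mono x.1 k h
  shift h k _ hg := D.shift h k hg
  equi g x k v hv := D.equi g.1 x.1 k v.1 hv
  comm x k u hu v hv := Subtype.ext (D.comm x.1 k u.1 hu v.1 hv)
  pow x k u hu := Subtype.ext (D.pow x.1 k u.1 hu)
  fin x k := by
    have := D.fin x.1 k
    exact Finite.of_equiv _ (subgroupOfEquivOfLe (LU3_W_le D x k)).toEquiv.symm
  card x k := by
    rw [Nat.card_congr (subgroupOfEquivOfLe (LU3_W_le D x k)).toEquiv]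
    exact D.card x.1 k
  cent x k g hg v hv := Subtype.ext (D.cent x.1 k g.1 ((LU3_mem_Kn D).1 hg) v.1 hv)
  layer x k N h1 h2 := by
    obtain ⟨_, ⟨g, hg, rfl⟩, v, hv, h⟩ := D.layer x.1 k _ (LU3_map_le D h1) ((LU3_tr D).1 h2)
    exact ⟨g, hg, ⟨v, LU3_W_le D x _ hv⟩, hv, h⟩
  Q_le x _ h := (LU3_mem_Kn D).2 (D.Q_le _ h)
  Q_conj g x q hq := D.Q_conj g.1 x.1 q.1 hq
  Q_adj h q hq h1 := D.Q_adj h q.1 hq ((LU3_mem_Kn D).1 h1)
  Q_idx x := by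
    classical
    obtain ⟨t, h1, h2, h3⟩ := D.Q_idx x.1
    refine ⟨t.attach.image fun a => (⟨a.1, LU3_St_le D x (h2 a.1 a.2)⟩ : LU3_H D), ?_, ?_, ?_⟩
    · exact Finset.card_image_le.trans (by rwa [Finset.card_attach])
    · intro a ha
      obtain ⟨b, _, rfl⟩ := Finset.mem_image.1 ha
      exact (LU3_mem_St D).2 (h2 b.1 b.2)
    · intro g hg
      obtain ⟨a, ha, h⟩ := h3 g.1 ((LU3_mem_St D).1 hg)
      exact ⟨_, Finset.mem_image.2 ⟨⟨a, ha⟩, Finset.mem_attach _ _, rfl⟩, h⟩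
  Q_unip x k q hq := by
    obtain ⟨n, hn⟩ := D.Q_unip x.1 k q.1 hq
    exact ⟨n, fun v hv => Subtype.ext (hn v.1 hv)⟩
  fam s := by
    obtain ⟨w, hw, B, hB, h1, v, hv, f, hf, h2⟩ := D.fam s
    have hBH : B ≤ LU3_H D := hB.trans (LU3_Q_le D ⟨w, _, hw⟩)
    refine ⟨⟨w, _, hw⟩, LU3_near D hw, B.subgroupOf (LU3_H D), fun b hb => hB hb,
      fun k a ha a' ha' u hu => Subtype.ext (h1 k a.1 ha a'.1 ha' u.1 hu),
      ⟨v, LU3_W_le D ⟨D.o, 0, Near.refl _ _⟩ 0 hv⟩, hv, fun i => ⟨f i, hBH (hf i)⟩, hf, ?_⟩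
    intro i j e
    exact h2 (congrArg Subtype.val e)
  clo x g h1 h2 := by
    obtain ⟨h, hh, h3⟩ := D.clo x.1 (fun r => (g r).1) (fun r => (LU3_mem_St D).1 (h1 r))
      fun r r' hr v hv => congrArg Subtype.val (h2 r r' hr ⟨v, LU3_W_le D x r hv⟩ hv)
    exact ⟨⟨h, LU3_St_le D x hh⟩, (LU3_mem_St D).2 hh, fun r v hv => Subtype.ext (h3 r v.1 hv)⟩
  cloQ x g h1 h2 := by
    obtain ⟨h, hh, h3⟩ := D.cloQ x.1 (fun r => (g r).1) h1
      fun r r' hr v hv => congrArg Subtype.val (h2 r r' hr ⟨v, LU3_W_le D x r hv⟩ hv)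
    exact ⟨⟨h, LU3_Q_le D x hh⟩, hh, fun r v hv => Subtype.ext (h3 r v.1 hv)⟩

end LU3

/-- Let `X = {x // D.Γ.Reachable D.o x}`, `H` the subgroup of all `g` with
`D.Γ.Reachable D.o (g • D.o)` (the action preserves `Reachable`; `Near.smul`, or `Walk.map`), acting
on `X` by `(g • x).1 = g.1 • x.1`; `Γ' = D.Γ.comap Subtype.val`, `W' x k = (D.W x.1 k).subgroupOf H`,
`Q' x = (D.Q x.1).subgroupOf H`. Facts: `St G x.1 ≤ H`; a neighbour of `x.1` is in `X`;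
`g ∈ Kn H Γ' k x ↔ g.1 ∈ Kn G D.Γ k x.1` (induction on `k`, `mem_Kn_succ`); a vertex `w` with
`Near D.Γ k x.1 w` is in `X` and `Near Γ' k x w` (induction, `near_succ`). For `sp`, `layer`
use `N.map H.subtype`. For `fin`, `card` use `subgroupOfEquivOfLe` and `W_le`. -/
theorem ID.connected {p c β : ℕ} {G V : Type} [Group G] [MulAction G V] (D : ID p c β G V) :
    ∃ (H X : Type) (_ : Group H) (_ : MulAction H X) (D' : ID p c β H X),
      ∀ x, ∃ k, Near D'.Γ k D'.o x := by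
  refine ⟨LU3_H D, LU3_X D, inferInstance, LU3_act D, LU3_D D, fun x => ?_⟩
  obtain ⟨k, hk⟩ := x.2
  exact ⟨k, LU3_near D hk⟩

end Pool.Agent.Lib.MP_bf45aa_co
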