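import Pool.Agent.Lib.PSV.LU2
import Pool.Agent.Lib.PSV.LU3
import Pool.Agent.Lib.PSV.LU4

set_option autoImplicit false
set_option linter.unusedSectionVars false

/-! Limit data from finite data. -/

namespace Pool.Agent.Lib.MP_bf45aa_co

theorem exists_LD {p c β d : ℕ} [Fact p.Prime] (G V : ℕ → Type) [∀ n, Group (G n)]
    [∀ n, MulAction (G n) (V n)] (D : ∀ n, FD p c β d n (G n) (V n)) :
    ∃ (H X M : Type) (_ : Group H) (_ : MulAction H X) (_ : AddCommGroup M)
      (_ : Module (ZMod p) M), Nonempty (LD p H X M) := by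
  obtain ⟨D₁⟩ := exists_ID D
  obtain ⟨H, X, i1, i2, D₂, h⟩ := D₁.connected
  obtain ⟨M, i3, i4, h'⟩ := D₂.linear h
  exact ⟨H, X, M, i1, i2, i3, i4, h'⟩

end Pool.Agent.Lib.MP_bf45aa_co
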