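import Pool.Agent.Lib.PSV.NType0

set_option autoImplicit false
set_option linter.unusedSectionVars false

/-! Finitely many types of defects. -/

namespace Pool.Agent.Lib.MP_bf45aa_co

open Subgroup Module

namespace LD

variable {p : ℕ} [Fact p.Prime] {H X V : Type} [Group H] [MulAction H X] [AddCommGroup V]
  [Module (ZMod p) V] {D : LD p H X V}

theorem NType_cmul (g : H) (a b : End (ZMod p) V) :
    D.ρ g * a * D.ρ g⁻¹ * (D.ρ g * b * D.ρ g⁻¹) = D.ρ g * (a * b) * D.ρ g⁻¹ := by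
  calc _ = D.ρ g * a * (D.ρ g⁻¹ * D.ρ g) * b * D.ρ g⁻¹ := by simp only [mul_assoc]
    _ = _ := by rw [D.ρ_inv_mul, mul_one]; simp only [mul_assoc]

theorem NType_St {y : X} {u : H} (g : H) (hu : u ∈ St H y) : g * u * g⁻¹ ∈ St H (g • y) := by
  rw [mem_St] at hu ⊢
  rw [mul_smul, mul_smul, inv_smul_smul, hu]

theorem NType_real {y : X} {a : End (ZMod p) V} (g : H) (h : ∃ u ∈ St H y, D.ρ u = 1 + a) :
    ∃ u ∈ St H (g • y), D.ρ u = 1 + D.ρ g * a * D.ρ g⁻¹ := by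
  obtain ⟨u, hu, e⟩ := h
  refine ⟨_, NType_St g hu, ?_⟩
  rw [map_mul, map_mul, e, mul_add, add_mul, mul_one, D.ρ_mul_inv]

theorem NType_def (g : H) (x η : End (ZMod p) V) :
    D.ρ g * x * D.ρ g⁻¹ - D.ρ g * x * D.ρ g⁻¹ * (D.ρ g * η * D.ρ g⁻¹) * (D.ρ g * x * D.ρ g⁻¹) =
      D.ρ g * (x - x * η * x) * D.ρ g⁻¹ := by
  rw [NType_cmul, NType_cmul, mul_sub, sub_mul]

/-- The type of a partner at the base vertex. -/
def NType_T (D : LD p H X V) (a b : H) (x η : End (ZMod p) V) : Prop :=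
  ∃ u ∈ St H D.o, ∃ w ∈ St H D.o, a⁻¹ * u ∈ D.Q D.o ∧ b⁻¹ * w ∈ D.Q D.o ∧
    ((p = 3 ∧ D.ρ u = 1 + x ∧ D.ρ w = 1 - x * η - η * x + x * η * x - η) ∨
      (p ≠ 3 ∧ D.ρ u = 1 + (x - x * η * x)))

theorem NType_has {t : Finset H} (ht : ∀ g ∈ St H D.o, ∃ a ∈ t, a⁻¹ * g ∈ D.Q D.o)
    {x η : End (ZMod p) V} (P : D.Partner D.o x η) : ∃ a ∈ t, ∃ b ∈ t, NType_T D a b x η := by
  obtain ⟨u, hu, eu⟩ := P.r0
  rcases P.alt with h3 | ⟨h5, P5⟩
  · obtain ⟨w, hw, ew⟩ := P.rw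
    obtain ⟨a, ha, h1⟩ := ht u hu
    obtain ⟨b, hb, h2⟩ := ht w hw
    exact ⟨a, ha, b, hb, u, hu, w, hw, h1, h2, Or.inl ⟨h3, eu, ew⟩⟩
  · obtain ⟨g, hg, eg⟩ := P5.r2
    have h0 : x * η * x * (x * η * x) = 0 := by
      calc _ = x * η * (x * x) * η * x := by simp only [mul_assoc]
        _ = 0 := by rw [P.xx, mul_zero, zero_mul, zero_mul]
    have h0' : x * (x * η * x) = 0 := by
      calc _ = (x * x) * η * x := by simp only [mul_assoc]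
        _ = 0 := by rw [P.xx, zero_mul, zero_mul]
    have hug : u * g⁻¹ ∈ St H D.o := mul_mem hu (inv_mem hg)
    obtain ⟨a, ha, h1⟩ := ht _ hug
    obtain ⟨b, hb, h2⟩ := ht 1 (one_mem _)
    refine ⟨a, ha, b, hb, _, hug, 1, one_mem _, h1, h2, Or.inr ⟨by omega, ?_⟩⟩
    rw [map_mul, eu, ρ_inv eg h0, add_mul, one_mul, mul_sub, mul_one, h0', sub_zero]
    abel

theorem NType_cmp {a b : H} {x η x' η' : End (ZMod p) V} (P : D.Partner D.o x η)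
    (P' : D.Partner D.o x' η') (T : NType_T D a b x η) (T' : NType_T D a b x' η') {ν r : ℕ}
    (ha : rk (x - x * η * x) (D.Vb D.o (2 * r)) ≤ ν)
    (hb : rk (x' - x' * η' * x') (D.Vb D.o (2 * r)) ≤ ν) (hr : 4 * ν + 4 ≤ r) :
    rk (x - x * η * x) (D.Vb D.o r) ≤ rk (x' - x' * η' * x') (D.Vb D.o r) := by
  obtain ⟨u, hu, w, hw, h1, h2, h3⟩ := T
  obtain ⟨u', hu', w', hw', h1', h2', h3'⟩ := T'
  have k1 : u⁻¹ * u' ∈ D.Q D.o := by
    have := mul_mem (inv_mem h1) h1'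
    rwa [mul_inv_rev, inv_inv, mul_assoc, mul_inv_cancel_left] at this
  have k2 : w⁻¹ * w' ∈ D.Q D.o := by
    have := mul_mem (inv_mem h2) h2'
    rwa [mul_inv_rev, inv_inv, mul_assoc, mul_inv_cancel_left] at this
  rcases h3 with ⟨hp, eu, ew⟩ | ⟨hp, eu⟩
  · rcases h3' with ⟨_, eu', ew'⟩ | ⟨hp', _⟩
    · exact uniq3 hp P P' hu hw eu ew eu' ew' k1 k2 ha hb hr
    · exact absurd hp hp'
  · rcases h3' with ⟨hp', _⟩ | ⟨_, eu'⟩
    · exact absurd hp' hp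
    · refine (rk_congr (thin_eq (g := u) k1 (fun v _ => ?_) ha hb hr)).le
      rw [mul_inv_cancel_left, eu, eu', LinearMap.add_apply, LinearMap.add_apply]
      abel

/-- Conjugation is a ring automorphism (`ρ_mul_inv`, `ρ_inv_mul`). -/
theorem Partner.conj {y : X} {x η : End (ZMod p) V} (P : D.Partner y x η) (g : H) :
    D.Partner (g • y) (D.ρ g * x * D.ρ g⁻¹) (D.ρ g * η * D.ρ g⁻¹) := by
  refine ⟨?_, ?_, ?_, NType_real g P.r0, ?_, ?_, P.two⟩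
  · rw [NType_cmul, P.xx, mul_zero, zero_mul]
  · rw [NType_cmul, P.sq, mul_zero, zero_mul]
  · rw [NType_cmul, NType_cmul, P.yxy]
  · obtain ⟨w, hw, ew⟩ := P.rw
    refine ⟨_, NType_St g hw, ?_⟩
    rw [map_mul, map_mul, ew, NType_cmul, NType_cmul, NType_cmul]
    simp only [mul_sub, sub_mul, mul_add, add_mul, mul_one, D.ρ_mul_inv]
  · rcases P.alt with h3 | ⟨h5, P5⟩
    · exact Or.inl h3
    · refine Or.inr ⟨h5, ?_, ?_, ?_, NType_real g P5.r0, NType_real g P5.r1, ?_⟩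
      · rw [NType_cmul, P.xx, mul_zero, zero_mul]
      · rw [NType_cmul, P.sq, mul_zero, zero_mul]
      · rw [NType_cmul, NType_cmul, P.yxy]
      · rw [NType_cmul, NType_cmul]
        exact NType_real g P5.r2

/-- `ρ g⁻¹` maps `Vb (g • y) r` onto `Vb y r` (`equi`), and `ρ g` is injective. -/
theorem rk_conj (g : H) (a : End (ZMod p) V) (y : X) (r : ℕ) :
    rk (D.ρ g * a * D.ρ g⁻¹) (D.Vb (g • y) r) = rk a (D.Vb y r) := by
  have key : ∀ (g : H) (a : End (ZMod p) V) (y : X),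
      rk (D.ρ g * a * D.ρ g⁻¹) (D.Vb (g • y) r) ≤ rk a (D.Vb y r) := by
    intro g a y
    rw [mul_assoc]
    refine (rk_mul_le_right _ _ _).trans (rk_mul_le_left _ fun v hv => ?_)
    have := D.equi g⁻¹ _ r v hv
    rwa [inv_smul_smul] at this
  refine le_antisymm (key g a y) ?_
  have h := key g⁻¹ (D.ρ g * a * D.ρ g⁻¹) (g • y)
  rw [inv_smul_smul, inv_inv] at h
  have e : D.ρ g⁻¹ * (D.ρ g * a * D.ρ g⁻¹) * D.ρ g = a := by
    calc _ = (D.ρ g⁻¹ * D.ρ g) * a * (D.ρ g⁻¹ * D.ρ g) := by simp only [mul_assoc]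
      _ = a := by rw [D.ρ_inv_mul, one_mul, mul_one]
  rwa [e] at h

variable (D) in
/-- Let `t` be given by `Q_idx` at `o`, `ι = t × t`. Say that `(x, η)` with `D.Partner o x η` has type
`(a, b)` if there are `u w ∈ St H o` with `a⁻¹ u ∈ Q o`, `b⁻¹ w ∈ Q o` and either `p = 3`,
`ρ u = 1 + x`, `ρ w = 1 - x η - η x + x η x - η`, or `ρ u = 1 + (x - x η x)` and `p ≠ 3`. Each partner
at `o` has a type (for `p ≥ 5` take `u = u₀ g₂⁻¹` with `u₀`, `g₂` from `r0`, `r2`, and `w = 1`). Let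
`ν τ r` be the `sInf` of the ranks of `x - x η x` on `Vb o r` over the partners of type `τ`. For the
second claim take a minimiser for the radius `2 r` (`Nat.sInf_mem`) and use `uniq3` or `thin_eq`,
then `rk_mono`. A partner at `y` is moved to `o` by `vtx`, `Partner.conj`, `rk_conj`. -/
theorem exists_types : ∃ (ι : Type) (_ : Fintype ι) (ν : ι → ℕ → ℕ), ∀ y x η, D.Partner y x η →
    ∃ τ, (∀ r, ν τ r ≤ rk (x - x * η * x) (D.Vb y r)) ∧
      ∀ r, 4 * rk (x - x * η * x) (D.Vb y (2 * r)) + 4 ≤ r →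
        rk (x - x * η * x) (D.Vb y r) ≤ ν τ (2 * r) := by
  classical
  obtain ⟨t, -, -, ht⟩ := D.Q_idx D.o
  let S : t × t → ℕ → Set ℕ := fun τ r => {n | ∃ x η, D.Partner D.o x η ∧
    NType_T D τ.1 τ.2 x η ∧ rk (x - x * η * x) (D.Vb D.o r) = n}
  refine ⟨t × t, inferInstance, fun τ r => sInf (S τ r), fun y x η P => ?_⟩
  obtain ⟨g, hg⟩ := D.vtx y D.o
  have P1 := P.conj g
  have hk : ∀ r, rk (D.ρ g * x * D.ρ g⁻¹ -
      D.ρ g * x * D.ρ g⁻¹ * (D.ρ g * η * D.ρ g⁻¹) * (D.ρ g * x * D.ρ g⁻¹)) (D.Vb D.o r) =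
      rk (x - x * η * x) (D.Vb y r) := fun r => by
    rw [NType_def, ← hg, rk_conj]
  rw [hg] at P1
  obtain ⟨a, ha, b, hb, T⟩ := NType_has ht P1
  have hm : ∀ r, rk (x - x * η * x) (D.Vb y r) ∈ S (⟨a, ha⟩, ⟨b, hb⟩) r := fun r =>
    ⟨_, _, P1, T, hk r⟩
  refine ⟨(⟨a, ha⟩, ⟨b, hb⟩), fun r => Nat.sInf_le (hm r), fun r hr => ?_⟩
  obtain ⟨x', η', P', T', e⟩ := Nat.sInf_mem ⟨_, hm (2 * r)⟩
  have h1 := Nat.sInf_le (hm (2 * r))
  have h2 := NType_cmp P1 P' T T' (hk (2 * r)).le (e.trans_le h1) hr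
  rw [hk] at h2
  exact h2.trans ((rk_mono _ (D.Vb_mono D.o (by omega))).trans e.le)

end LD

end Pool.Agent.Lib.MP_bf45aa_co
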