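import Pool.Agent.Lib.PSV.NWin
import Pool.Agent.Lib.PSV.NType

set_option autoImplicit false
set_option linter.unusedSectionVars false

/-! Long chains do not exist. -/

namespace Pool.Agent.Lib.MP_bf45aa_co

open Subgroup Module

theorem NChain_num {c C₁ n : ℕ} (hc : c + 1 ≤ C₁) (h10 : 10 ≤ n) (hn : 7168 * C₁ ^ 2 ≤ n) :
    16 * (c + 1) * 2 ^ n * (6 * (C₁ * n) + 8) ≤ 2 ^ (2 * n) ∧
    8 * (C₁ * n) * (2 * 2 ^ n * (2 ^ (C₁ * n + 5) * (6 * (C₁ * n) + 8))) ≤ 2 ^ ((C₁ + 5) * n) := by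
  have h1 := LChain_cube h10
  have h2 : 1 ≤ C₁ * n := Nat.mul_pos (by omega) (by omega)
  have h3 : 6 * (C₁ * n) + 8 ≤ 14 * (C₁ * n) := by omega
  have h4 : 7168 * C₁ ^ 2 * n ^ 2 ≤ 2 ^ n := by
    refine le_trans ?_ h1
    rw [pow_succ' n 2]
    exact Nat.mul_le_mul_right _ hn
  have h5 : n ≤ n ^ 2 := Nat.le_self_pow two_ne_zero n
  constructor
  · calc 16 * (c + 1) * 2 ^ n * (6 * (C₁ * n) + 8) ≤ 16 * C₁ * 2 ^ n * (14 * (C₁ * n ^ 2)) := by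
          gcongr
          exact h3.trans (by gcongr)
      _ = 224 * C₁ ^ 2 * n ^ 2 * 2 ^ n := by ring
      _ ≤ 7168 * C₁ ^ 2 * n ^ 2 * 2 ^ n := by gcongr; norm_num
      _ ≤ 2 ^ n * 2 ^ n := Nat.mul_le_mul_right _ h4
      _ = 2 ^ (2 * n) := by ring
  · calc 8 * (C₁ * n) * (2 * 2 ^ n * (2 ^ (C₁ * n + 5) * (6 * (C₁ * n) + 8)))
        ≤ 8 * (C₁ * n) * (2 * 2 ^ n * (2 ^ (C₁ * n + 5) * (14 * (C₁ * n)))) := by gcongr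
      _ = 7168 * C₁ ^ 2 * n ^ 2 * 2 ^ (C₁ * n + n) := by ring
      _ ≤ 2 ^ n * 2 ^ (C₁ * n + n) := Nat.mul_le_mul_right _ h4
      _ = 2 ^ (C₁ * n + 2 * n) := by ring
      _ ≤ 2 ^ ((C₁ + 5) * n) := Nat.pow_le_pow_right two_pos (by rw [add_mul]; omega)

namespace LD

variable {p : ℕ} [Fact p.Prime] {H X V : Type} [Group H] [MulAction H X] [AddCommGroup V]
  [Module (ZMod p) V]

/-- Take `ι`, `ν` from `exists_types`, `B = card ι`, `C₁ = 256 (c + 1) + 1`, `C = C₁ + 5`, `m = C₁ n`,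
`M = 2 ^ (2 μ)`, and `σ = 2 ^ n` (`Chain.mono`). Choose a type `τ t` for each `t < M`; some type `τ` has a
fibre `I₀` with `M ≤ B * card I₀` (`Finset.exists_le_card_fiber_of_mul_le_card_of_maps_to` or
`card_le_mul_card_image`). Take `κ` for `τ`, `2 ^ κ = 2 r`, `ν₀ = 2 ^ (κ - μ)`. By `Chain.few` with
`a = 2 ^ κ`, `r₀ = 2 ^ (κ + 1)` at most `4 c 2 ^ μ` members have rank `> ν₀` on `Vb (y t) (2 ^ κ)`. If
`B (4 c + C₁ + 1) ≤ 2 ^ μ` the set `I` of the other members of `I₀` has more than `C₁ 2 ^ μ ≥ m`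
elements. A member of `I` gives `ν τ (2 ^ κ) * 2 ^ μ ≤ 2 ^ κ`, so the first alternative holds. For
`t ∈ I`, `4 ν₀ + 4 ≤ r` (`μ ≥ 4`), so the rank on `Vb (y t) r` is at most `ν₁ = ν τ (2 r)`. Apply
`Chain.window` with `N = 2 n`: for large `n`, `16 (c + 1) (6 m + 8) ≤ 2 ^ n` and, with
`Λ = 2 ^ (n + 1) 2 ^ (m + 5) (6 m + 8)`, `8 m Λ ≤ 2 ^ (C n)` (use `LChain_cube`), so
`2 m ν₁ Λ ≤ 2 ^ κ / 4` and `2 Λ ≤ 2 ^ κ / 4`. Then `C₁ n ≤ 64 (c + 1) (2 n + 2) ≤ 256 (c + 1) n`. -/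
theorem no_chain (D : LD p H X V) : ∃ (ι : Type) (_ : Fintype ι) (ν : ι → ℕ → ℕ) (C n₀ : ℕ),
    1 ≤ C ∧ ∀ n μ R, n₀ ≤ μ → μ ≤ n → n ≤ 2 ^ μ →
      (∀ τ, ∃ κ, C * n ≤ κ ∧ 2 ^ (κ + 2) ≤ R ∧
        (ν τ (2 ^ κ) * 2 ^ (C * n) ≤ 2 ^ κ ∨ 2 ^ κ < ν τ (2 ^ κ) * 2 ^ μ)) →
      ∀ σ ≤ 2 ^ n, ∀ y x η, ¬ D.Chain σ R (2 ^ (2 * μ)) y x η := by
  classical
  obtain ⟨ι, inst, ν, hν⟩ := D.exists_types
  obtain ⟨C₁, hC₁⟩ : ∃ C₁, C₁ = 256 * (D.c + 1) + 1 := ⟨_, rfl⟩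
  refine ⟨ι, inst, ν, C₁ + 5, 10 + 7168 * C₁ ^ 2 + Fintype.card ι * (4 * D.c + C₁ + 1), by omega,
    fun n μ R h0 hμn hnμ hκ σ hσ y x η hch => ?_⟩
  have h := hch.mono hσ
  obtain ⟨hN, hΛ⟩ := NChain_num (c := D.c) (C₁ := C₁) (n := n) (by omega) (by omega) (by omega)
  have hM : 0 < 2 ^ (2 * μ) := by positivity
  obtain ⟨τ₀, -⟩ := hν _ _ _ (h.par 0 hM)
  have hex : ∀ t, ∃ τ, t < 2 ^ (2 * μ) →
      (∀ r, ν τ r ≤ rk (x t - x t * η t * x t) (D.Vb (y t) r)) ∧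
      ∀ r, 4 * rk (x t - x t * η t * x t) (D.Vb (y t) (2 * r)) + 4 ≤ r →
        rk (x t - x t * η t * x t) (D.Vb (y t) r) ≤ ν τ (2 * r) := fun t => by
    by_cases ht : t < 2 ^ (2 * μ)
    · exact (hν _ _ _ (h.par t ht)).imp fun _ h _ => h
    · exact ⟨τ₀, fun h => absurd h ht⟩
  choose τ hτ using hex
  have hB : Fintype.card ι * (4 * D.c + C₁ + 1) ≤ 2 ^ μ :=
    le_trans (by omega) (Nat.lt_two_pow_self (n := μ)).le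
  obtain ⟨τ₁, -, hI₀⟩ := Finset.exists_le_card_fiber_of_mul_le_card_of_maps_to
    (s := Finset.range (2 ^ (2 * μ))) (t := Finset.univ) (f := τ)
    (n := (4 * D.c + C₁ + 1) * 2 ^ μ) (fun _ _ => Finset.mem_univ _) ⟨τ₀, Finset.mem_univ _⟩ (by
      rw [Finset.card_univ, Finset.card_range, ← mul_assoc, two_mul, pow_add]
      exact Nat.mul_le_mul_right _ hB)
  obtain ⟨κ, hκ1, hκ2, hκ3⟩ := hκ τ₁
  have hCn : 6 * n ≤ (C₁ + 5) * n := Nat.mul_le_mul_right _ (by omega)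
  obtain ⟨ν₀, hν₀⟩ : ∃ ν₀, ν₀ = 2 ^ (κ - μ) := ⟨_, rfl⟩
  obtain ⟨r, hr⟩ : ∃ r, r = 2 ^ (κ - 1) := ⟨_, rfl⟩
  have e1 : 2 ^ κ = 2 ^ μ * ν₀ := by rw [hν₀, ← pow_add]; congr 1; omega
  have e2 : 2 ^ κ = 2 * r := by rw [hr, ← pow_succ']; congr 1; omega
  have e3 : 0 < ν₀ := by rw [hν₀]; positivity
  have e4 : 16 ≤ 2 ^ μ := Nat.pow_le_pow_right two_pos (show 4 ≤ μ by omega)
  have e5 : 16 * ν₀ ≤ 2 * r := by rw [← e2, e1]; exact Nat.mul_le_mul_right _ e4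
  have e6 : 2 ^ (κ + 2) = 8 * r := by rw [pow_add, e2]; ring
  have e7 : 2 ^ (κ + 1) = 4 * r := by rw [pow_add, e2]; ring
  have e8 : 2 * 2 ^ n * 2 ^ (2 * μ) ≤ 2 ^ κ := by
    rw [← pow_succ', ← pow_add]
    exact Nat.pow_le_pow_right two_pos (by omega)
  have e9 : 2 ^ n ≤ 2 ^ κ := Nat.pow_le_pow_right two_pos (by omega)
  have hfew := h.few (ν := ν₀) (a := 2 ^ κ) (r₀ := 2 ^ (κ + 1)) (by omega) (by omega)
  obtain ⟨b, hb⟩ : ∃ b, b = ((Finset.range (2 ^ (2 * μ))).filter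
    fun t => ν₀ < rk (x t - x t * η t * x t) (D.Vb (y t) (2 ^ κ))) := ⟨_, rfl⟩
  rw [← hb] at hfew
  have hbc : b.card ≤ 4 * D.c * 2 ^ μ := by
    refine Nat.le_of_mul_le_mul_right ?_ e3
    calc b.card * ν₀ ≤ b.card * (ν₀ + 1) := Nat.mul_le_mul_left _ (Nat.le_succ _)
      _ ≤ D.c * (2 ^ (κ + 1) + 1) := hfew
      _ ≤ D.c * (4 * 2 ^ κ) := Nat.mul_le_mul_left _ (by omega)
      _ = _ := by rw [e1]; ring
  obtain ⟨I, hI⟩ : ∃ I, I = ((Finset.range (2 ^ (2 * μ))).filter fun t => τ t = τ₁) \ b := ⟨_, rfl⟩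
  have hIc : (C₁ + 1) * 2 ^ μ ≤ I.card := by
    have a1 := Finset.le_card_sdiff b ((Finset.range (2 ^ (2 * μ))).filter fun t => τ t = τ₁)
    rw [← hI] at a1
    have a2 : (4 * D.c + C₁ + 1) * 2 ^ μ = 4 * D.c * 2 ^ μ + (C₁ + 1) * 2 ^ μ := by ring
    omega
  have hmem : ∀ t ∈ I, t < 2 ^ (2 * μ) ∧ τ t = τ₁ ∧
      rk (x t - x t * η t * x t) (D.Vb (y t) (2 ^ κ)) ≤ ν₀ := fun t ht => by
    rw [hI, Finset.mem_sdiff, Finset.mem_filter, hb, Finset.mem_filter] at ht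
    exact ⟨Finset.mem_range.1 ht.1.1, ht.1.2, not_lt.1 fun a => ht.2 ⟨ht.1.1, a⟩⟩
  have hm : C₁ * n ≤ I.card :=
    (Nat.mul_le_mul (Nat.le_succ _) hnμ).trans hIc
  have hm1 : 1 ≤ C₁ * n := Nat.mul_pos (by omega) (by omega)
  obtain ⟨t₀, ht₀⟩ := Finset.card_pos.1 (hm1.trans hm)
  obtain ⟨a1, a2, a3⟩ := hmem t₀ ht₀
  have hν₁ : ν τ₁ (2 ^ κ) * 2 ^ ((C₁ + 5) * n) ≤ 2 ^ κ := by
    refine hκ3.resolve_right (not_lt.2 ?_)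
    have a4 := ((hτ t₀ a1).1 (2 ^ κ)).trans a3
    rw [a2] at a4
    calc ν τ₁ (2 ^ κ) * 2 ^ μ ≤ ν₀ * 2 ^ μ := Nat.mul_le_mul_right _ a4
      _ = 2 ^ κ := by rw [e1, mul_comm]
  have hw := h.window (I := I) (fun t ht => Finset.mem_range.2 (hmem t ht).1) (m := C₁ * n)
    (ν := ν τ₁ (2 ^ κ)) (r := r) (N := 2 * n) hm (by positivity) (fun t ht => by
      obtain ⟨b1, b2, b3⟩ := hmem t ht
      have b4 := (hτ t b1).2 r (by rw [← e2]; omega)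
      rwa [← e2, b2] at b4) ?_ (by omega) hN
  · have a4 : 64 * (D.c + 1) * (2 * n + 2) ≤ 64 * (D.c + 1) * (4 * n) :=
      Nat.mul_le_mul_left _ (by omega)
    have a5 : C₁ * n = 64 * (D.c + 1) * (4 * n) + n := by rw [hC₁]; ring
    omega
  · generalize 2 * 2 ^ n * (2 ^ (C₁ * n + 5) * (6 * (C₁ * n) + 8)) = Λ at hΛ ⊢
    generalize C₁ * n = m at hΛ hm1 ⊢
    generalize ν τ₁ (2 ^ κ) = ν₁ at hν₁ ⊢
    have a4 : ν₁ * (8 * m * Λ) ≤ 2 * r := by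
      rw [← e2]
      exact (Nat.mul_le_mul_left _ hΛ).trans hν₁
    have a5 : 8 * 1 * Λ ≤ 2 * r := by
      rw [← e2]
      exact ((Nat.mul_le_mul_right _ (Nat.mul_le_mul_left _ hm1)).trans hΛ).trans
        (Nat.pow_le_pow_right two_pos hκ1)
    have a6 : 4 * ((2 * m * ν₁ + 2) * Λ) = ν₁ * (8 * m * Λ) + 8 * 1 * Λ := by ring
    omega

end LD

end Pool.Agent.Lib.MP_bf45aa_co
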