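import Pool.Agent.Lib.PSV.NEnt1

set_option autoImplicit false

/-! The entropy inequality in a window. -/

namespace Pool.Agent.Lib.MP_bf45aa_co

open Module

variable {F V : Type*} [Field F] [AddCommGroup V] [Module F V]

theorem NEnt_mono {M M' U U' : Submodule F V} [Module.Finite F M] [Module.Finite F M']
    (h : M ≤ M') (hU : U' ≤ U) : dm M' U' - dm M U' ≤ dm M' U - dm M U := by
  have := dm_le (M := M) (M' := M') (1 : End F V) hU hU (fun v hv h1 => ⟨h hv, h1⟩)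
    fun v _ _ h1 => h1
  omega

theorem NEnt_tot {M M' U U' : Submodule F V} [Module.Finite F M] [Module.Finite F M']
    (h : M ≤ M') : dm M' U - dm M U - (dm M' U' - dm M U') ≤ finrank F M' - finrank F M := by
  have h1 := NEnt_mono (U := ⊤) (U' := U) h le_top
  have h2 := NEnt_mono (U := U') (U' := ⊥) h bot_le
  have h3 : ∀ P : Submodule F V, dm P ⊤ = finrank F P := fun P => by rw [dm, inf_top_eq]
  have h4 : ∀ P : Submodule F V, dm P ⊥ = 0 := fun P => by rw [dm, inf_bot_eq]; simp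
  rw [h3, h3] at h1
  rw [h4, h4] at h2
  omega

theorem NEnt_rank (x : End F V) (M N : Submodule F V) [Module.Finite F M] [Module.Finite F N]
    {r : ℕ} (h : r + finrank F N ≤ finrank F (N ⊔ M.map x : Submodule F V)) :
    (r : ℤ) ≤ finrank F M - dm M (N.comap x) := by
  have h1 := Submodule.finrank_sup_add_finrank_inf_eq N (M.map x)
  have h2 := LEnt0_rn x M
  have : Module.Finite F (M ⊓ N.comap x : Submodule F V) :=
    Submodule.finiteDimensional_of_le inf_le_left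
  have h3 := LEnt0_rn x (M ⊓ N.comap x)
  have h4 : M ⊓ N.comap x ⊓ LinearMap.ker x = M ⊓ LinearMap.ker x := by
    rw [inf_assoc, inf_eq_right.2 (LinearMap.ker_le_comap x)]
  rw [h4, ← Submodule.map_inf_eq_map_inf_comap, inf_comm (M.map x)] at h3
  rw [dm]
  omega

/-- Put `π i = y i * x i`, `π' i = 1 - x i * y i`, `b = a + 4 m + 4`. Hypothesis `tri` of
`approx_hull` holds at level `T - 3`. For `π`: if `π i v = 0` then `x i v = x i u` with
`u = v₀ - π i v₀ ∈ Fil 2` (`dfc`); `rel` gives `x i (π k w) = π' k (x i w)`, so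
`π i (π k v - π k u) = 0`. For `π'`: if `v = x i (y i v)` then `π' k v = x i u`, `u = π k (y i v)`, and
`π' i (x i u) = x i u - x i (y i (x i u)) = x i v₀ - x i (y i (x i v₀)) ∈ Fil 3` is fixed by `π' i`.
Take hulls `L` of `Fil 4`, `L'` of `Fil (2 ^ (m + 1) + 5)`, `E` of `Fil (b + 2 m)`, `E'` of
`Fil (b + 2 m + 2 ^ (m + 1) + 1)`, and `sys_of_approx`. Apply `cube_ineq` to `ν j l`, the `Int.toNat` of
`g (Ph K j l E) - g (Ph K j l L) + (g' (Ph K' j l E') - g' (Ph K' j l L'))`, where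
`g U = dm (Fil (b + 2 m)) U - dm (Fil a) U`, `g' U = dm (Fil (b + 2 m + 1)) U - dm (Fil (a + 1)) U` are
monotone (`dm_le`, `φ = 1`, `Ph_mono`); use `Sys.sum`, `Sys.true_E` etc. (the marginals are exact),
`match_ineq`, and rank-nullity for `hr`. -/
theorem wentropy (Fil : ℕ → Submodule F V) (hF : Monotone Fil) (fd : ∀ k, Module.Finite F (Fil k))
    (m T a N r D : ℕ) (x y : ℕ → End F V)
    (hx : ∀ i < m, ∀ k, ∀ v ∈ Fil k, x i v ∈ Fil (k + 1))
    (hy : ∀ i < m, ∀ k, ∀ v ∈ Fil k, y i v ∈ Fil (k + 1))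
    (yxy : ∀ i < m, y i * x i * y i = y i)
    (rel : ∀ i k, i < k → k < m → ∀ v ∈ Fil T, x i (y k (x k v)) + x k (y k (x i v)) = x i v)
    (dfc : ∀ i < m, ∀ v ∈ Fil T, ∃ v₀ ∈ Fil 0,
      x i v - x i (y i (x i v)) = x i v₀ - x i (y i (x i v₀)))
    (ha : 2 ^ (m + 4) ≤ a) (hT : a + 8 * m + 8 + 2 ^ (m + 4) ≤ T)
    (hD : 2 * finrank F (Fil (a + 6 * m + 6)) ≤ 2 * finrank F (Fil a) + D) (hN : D ≤ 2 ^ N)
    (hr : ∀ i < m, r + finrank F (Fil (a + 2 * m + 1)) ≤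
      finrank F (Fil (a + 2 * m + 1) ⊔ (Fil (a + 4 * m + 4)).map (x i) : Submodule F V)) :
    m * r ≤ D * (N + 2) := by
  obtain ⟨π, hπe⟩ : ∃ π : ℕ → End F V, ∀ i v, π i v = y i (x i v) := ⟨fun i => y i * x i, fun _ _ => rfl⟩
  obtain ⟨π', hπe'⟩ : ∃ π' : ℕ → End F V, ∀ i v, π' i v = v - x i (y i v) :=
    ⟨fun i => 1 - x i * y i, fun _ _ => rfl⟩
  have yx : ∀ i < m, ∀ v, y i (x i (y i v)) = y i v := fun i hi v =>
    LinearMap.congr_fun (yxy i hi) v
  have hπ : ∀ i < m, ∀ k, ∀ v ∈ Fil k, π i v ∈ Fil (k + 2) := fun i hi k v hv => by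
    rw [hπe]
    exact hy i hi _ _ (hx i hi k v hv)
  have hπ' : ∀ i < m, ∀ k, ∀ v ∈ Fil k, π' i v ∈ Fil (k + 2) := fun i hi k v hv => by
    rw [hπe']
    exact sub_mem (hF (by omega) hv) (hx i hi _ _ (hy i hi k v hv))
  have idem : ∀ i < m, π i * π i = π i := fun i hi => LinearMap.ext fun v => by
    rw [End.mul_apply, hπe, hπe, yx i hi]
  have idem' : ∀ i < m, π' i * π' i = π' i := fun i hi => LinearMap.ext fun v => by
    rw [End.mul_apply, hπe', hπe', map_sub, yx i hi, sub_self, map_zero, sub_zero]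
  have hI : ∀ i k, i < k → k < m → ∀ v ∈ Fil T, x i (π k v) = π' k (x i v) :=
    fun i k h1 h2 v hv => by rw [hπe, hπe', eq_sub_iff_add_eq, rel i k h1 h2 v hv]
  have hd : ∀ i < m, ∀ v ∈ Fil T, ∃ v₀ ∈ Fil 0, π' i (x i v) = π' i (x i v₀) := fun i hi v hv => by
    simpa only [hπe'] using dfc i hi v hv
  have hd3 : ∀ i < m, ∀ v ∈ Fil T, π' i (x i v) ∈ Fil 3 := fun i hi v hv => by
    obtain ⟨v₀, h0, e⟩ := hd i hi v hv
    rw [e]
    exact hπ' i hi _ _ (hx i hi _ _ h0)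
  have e4 : 2 ^ (m + 4) = 8 * 2 ^ (m + 1) := by ring
  have e1 : 2 ≤ 2 ^ (m + 1) := Nat.le_pow (by omega)
  obtain ⟨T', rfl⟩ : ∃ T', T = T' + 3 := ⟨T - 3, by omega⟩
  have tri : ∀ i k, i < k → k < m → ∀ v ∈ Fil T', π i v = 0 →
      ∃ v₀ ∈ Fil 4, π i (π k v - v₀) = 0 := fun i k h1 h2 v hv h3 => by
    have hi : i < m := by omega
    have hv' : v ∈ Fil (T' + 3) := hF (by omega) hv
    obtain ⟨v₀, h0, e⟩ := dfc i hi v hv'
    have h4 : v₀ - π i v₀ ∈ Fil 2 := sub_mem (hF (by omega) h0) (hπ i hi _ _ h0)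
    rw [← hπe, h3, map_zero, sub_zero, ← hπe, ← map_sub] at e
    refine ⟨_, hπ k h2 _ _ h4, ?_⟩
    rw [hπe, map_sub, hI i k h1 h2 v hv', hI i k h1 h2 _ (hF (by omega) h4), e, sub_self, map_zero]
  have tri' : ∀ i k, i < k → k < m → ∀ v ∈ Fil T', π' i v = 0 →
      ∃ v₀ ∈ Fil 4, π' i (π' k v - v₀) = 0 := fun i k h1 h2 v hv h3 => by
    have hi : i < m := by omega
    have h4 := hy i hi _ _ hv
    obtain ⟨v₀, h0, e⟩ := hd i hi _ (hπ k h2 _ _ h4)
    rw [hπe', sub_eq_zero] at h3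
    rw [hI i k h1 h2 _ (hF (by omega) h4), ← h3] at e
    exact ⟨x i v₀, hF (by omega) (hx i hi _ _ h0), by rw [map_sub, e, sub_self]⟩
  obtain ⟨b, hb⟩ : ∃ b, b = a + 4 * m + 4 := ⟨_, rfl⟩
  rw [← hb] at hr
  obtain ⟨L, L1, L2, L3⟩ := approx_hull Fil hF π m T' hπ idem tri (s := 4) le_rfl (by omega)
  obtain ⟨L', L1', L2', L3'⟩ := approx_hull Fil hF π' m T' hπ' idem' tri'
    (s := 4 + 2 ^ (m + 1) + 1) (by omega) (by omega)
  obtain ⟨E, E1, E2, E3⟩ := approx_hull Fil hF π m T' hπ idem tri (s := b + 2 * m) (by omega)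
    (by omega)
  obtain ⟨E', E1', E2', E3'⟩ := approx_hull Fil hF π' m T' hπ' idem' tri'
    (s := b + 2 * m + 2 ^ (m + 1) + 1) (by omega) (by omega)
  have ET : E ≤ Fil (T' + 3) := E2.trans (hF (by omega))
  have S := sys_of_approx Fil π m T' idem tri L1 (L2.trans ((hF (by omega)).trans E1))
    (E2.trans (hF (by omega))) L3 E3
  have S' := sys_of_approx Fil π' m T' idem' tri' ((hF (by omega)).trans L1')
    (L2'.trans ((hF (by omega)).trans E1')) (E2'.trans (hF (by omega))) L3' E3'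
  have h3L : Fil 3 ≤ L' := (hF (by omega)).trans L1'
  obtain ⟨K, hK⟩ : ∃ K : ℕ → Submodule F V, (fun i => LinearMap.ker (π i) ⊓ E ⊔ L) = K := ⟨_, rfl⟩
  obtain ⟨K', hK'⟩ : ∃ K : ℕ → Submodule F V, (fun i => LinearMap.ker (π' i) ⊓ E' ⊔ L') = K :=
    ⟨_, rfl⟩
  rw [hK] at S
  rw [hK'] at S'
  have M := fun j (hj : j < m) => match_ineq S S' hF fd hπ hπ' hj (hx j hj) (hy j hj)
    (fun v => by rw [hπe', sub_sub_cancel]) (fun k h1 h2 v hv => hI j k h1 h2 v (ET hv))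
    (fun k h1 h2 v hv => by
      rw [← hK] at hv
      obtain ⟨w, hw, l, hl, rfl⟩ := Submodule.mem_sup.1 hv
      rw [map_add, ← hK']
      refine Submodule.add_mem_sup ⟨?_, E1' (hx j hj _ _ (E2 hw.2))⟩ (L1' (hx j hj _ _ (L2 hl)))
      change π' k (x j w) = 0
      rw [← hI j k h1 h2 w (ET hw.2), show π k w = 0 from hw.1, map_zero])
    (fun v hv => by
      have h1 := add_mem (S'.cK j hj _ (E1' (hx j hj _ _ (E2 hv))))
        (S'.LK j hj (h3L (hd3 j hj v (ET hv))))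
      rwa [sub_add_cancel] at h1)
    (fun v hv => by
      rw [← hK] at hv
      obtain ⟨w, hw, l, hl, rfl⟩ := Submodule.mem_sup.1 hv
      rw [map_add]
      refine add_mem (h3L ?_) (L1' (hx j hj _ _ (L2 hl)))
      have h1 := hd3 j hj w (ET hw.2)
      rwa [hπe', ← hπe, show π j w = 0 from hw.1, map_zero, sub_zero] at h1)
    (a := a) (b := b) (L2'.trans (hF (by omega))) (by omega) E1
  obtain ⟨g, hg⟩ : ∃ g : Submodule F V → ℤ, ∀ U, g U = dm (Fil (b + 2 * m)) U - dm (Fil a) U :=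
    ⟨_, fun _ => rfl⟩
  obtain ⟨g', hg'⟩ : ∃ g : Submodule F V → ℤ,
      ∀ U, g U = dm (Fil (b + 2 * m + 1)) U - dm (Fil (a + 1)) U := ⟨_, fun _ => rfl⟩
  have gm : ∀ j l {U U'}, U' ≤ U → g (Ph K j l U') ≤ g (Ph K j l U) := fun j l U U' h => by
    rw [hg, hg]
    exact NEnt_mono (hF (by omega)) (Ph_mono K l j h)
  have gm' : ∀ j l {U U'}, U' ≤ U → g' (Ph K' j l U') ≤ g' (Ph K' j l U) := fun j l U U' h => by
    rw [hg', hg']
    exact NEnt_mono (hF (by omega)) (Ph_mono K' l j h)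
  refine cube_ineq m D N r (fun j l => (g (Ph K j l E) - g (Ph K j l L) +
    (g' (Ph K' j l E') - g' (Ph K' j l L'))).toNat) hN (fun j hj => ?_) (fun j hj l _ => ?_)
    fun j hj => ?_
  · have h1 := S.sum g (m - j) j (by omega)
    have h2 := S'.sum g' (m - j) j (by omega)
    have h3 : g E - g L ≤ finrank F (Fil (b + 2 * m)) - finrank F (Fil a) := by
      rw [hg, hg]
      exact NEnt_tot (hF (by omega))
    have h4 : g' E' - g' L' ≤ finrank F (Fil (b + 2 * m + 1)) - finrank F (Fil (a + 1)) := by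
      rw [hg', hg']
      exact NEnt_tot (hF (by omega))
    have h5 := finrank_mono' (hF (show b + 2 * m ≤ a + 6 * m + 6 by omega))
    have h6 := finrank_mono' (hF (show b + 2 * m + 1 ≤ a + 6 * m + 6 by omega))
    have h7 := finrank_mono' (hF (show a ≤ a + 1 by omega))
    rw [← Nat.cast_le (α := ℤ), Nat.cast_sum, Finset.sum_congr rfl fun l _ =>
      Int.toNat_of_nonneg (add_nonneg (sub_nonneg.2 (gm j l S.LE)) (sub_nonneg.2 (gm' j l S'.LE))),
      Finset.sum_add_distrib, h1, h2]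
    omega
  · rw [S.true_E hj, S.true_L hj, S.false_E hj, S.false_L hj, S'.true_E hj, S'.true_L hj,
      S'.false_E hj, S'.false_L hj]
    omega
  · rw [← Nat.cast_le (α := ℤ), Nat.cast_sum]
    refine ((NEnt_rank (x j) _ _ (hr j hj)).trans (M j hj)).trans (Finset.sum_le_sum fun l _ => ?_)
    have h1 := gm (j + 1) l (S.LK j hj)
    have h2 := gm' (j + 1) l (S'.KE j hj)
    rw [S.true_E hj, S.true_L hj, S.false_E hj, S.false_L hj, S'.true_E hj, S'.true_L hj,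
      S'.false_E hj, S'.false_L hj]
    simp only [hg, hg'] at h1 h2 ⊢
    omega

end Pool.Agent.Lib.MP_bf45aa_co
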