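import Pool.Agent.Lib.PSV.LEnt2

set_option autoImplicit false

/-! Triangular systems of subspaces and invariant hulls. -/

namespace Pool.Agent.Lib.MP_bf45aa_co

open Module

variable {F V : Type*} [Field F] [AddCommGroup V] [Module F V]

/-- The lattice word of the list `l`, starting at position `j`, applied to `B`. -/
def Ph (K : ℕ → Submodule F V) : ℕ → List Bool → Submodule F V → Submodule F V
  | _, [], B => B
  | j, true :: l, B => Ph K (j + 1) l (K j ⊔ B)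
  | j, false :: l, B => Ph K (j + 1) l (K j ⊓ B)

/-- A triangular system between `L` and `E`. -/
structure Sys (π : ℕ → End F V) (K : ℕ → Submodule F V) (m : ℕ) (L E : Submodule F V) : Prop where
  LE : L ≤ E
  LK : ∀ i < m, L ≤ K i
  KE : ∀ i < m, K i ≤ E
  πE : ∀ i < m, ∀ v ∈ E, π i v ∈ E
  πL : ∀ i < m, ∀ v ∈ L, π i v ∈ L
  πK : ∀ i < m, ∀ v ∈ K i, π i v ∈ L
  cK : ∀ i < m, ∀ v ∈ E, v - π i v ∈ K i
  tri : ∀ i k, i < k → k < m → ∀ v ∈ K i, π k v ∈ K i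

theorem Ph_mono (K : ℕ → Submodule F V) (l : List Bool) :
    ∀ (j : ℕ) {B B' : Submodule F V}, B ≤ B' → Ph K j l B ≤ Ph K j l B' := by
  induction l with
  | nil => exact fun _ _ _ h => h
  | cons b l ih =>
    intro j B B' h
    cases b
    · exact ih _ (inf_le_inf_left _ h)
    · exact ih _ (sup_le_sup_left h _)

variable {π : ℕ → End F V} {K : ℕ → Submodule F V} {m : ℕ} {L E : Submodule F V}

theorem Sys.true_E (h : Sys π K m L E) {j : ℕ} (hj : j < m) (l : List Bool) :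
    Ph K j (true :: l) E = Ph K (j + 1) l E := by rw [Ph, sup_eq_right.2 (h.KE j hj)]

theorem Sys.true_L (h : Sys π K m L E) {j : ℕ} (hj : j < m) (l : List Bool) :
    Ph K j (true :: l) L = Ph K (j + 1) l (K j) := by rw [Ph, sup_eq_left.2 (h.LK j hj)]

theorem Sys.false_E (h : Sys π K m L E) {j : ℕ} (hj : j < m) (l : List Bool) :
    Ph K j (false :: l) E = Ph K (j + 1) l (K j) := by rw [Ph, inf_eq_left.2 (h.KE j hj)]

theorem Sys.false_L (h : Sys π K m L E) {j : ℕ} (hj : j < m) (l : List Bool) :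
    Ph K j (false :: l) L = Ph K (j + 1) l L := by rw [Ph, inf_eq_right.2 (h.LK j hj)]

theorem Sys.sum (h : Sys π K m L E) (g : Submodule F V → ℤ) (n : ℕ) :
    ∀ j, j + n ≤ m → ∑ l ∈ LL' n, (g (Ph K j l E) - g (Ph K j l L)) = g E - g L := by
  induction n with
  | zero => intro j _; simp [LL', Ph]
  | succ n ih =>
    intro j hj
    rw [LEnt2_sum, ← ih (j + 1) (by omega)]
    refine Finset.sum_congr rfl fun l _ => ?_
    rw [h.true_E (by omega), h.true_L (by omega), h.false_E (by omega), h.false_L (by omega)]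
    ring

theorem NEnt0_hull (Fil : ℕ → Submodule F V) (hF : Monotone Fil) (π : ℕ → End F V) (m T : ℕ)
    (hπ : ∀ i < m, ∀ k, ∀ v ∈ Fil k, π i v ∈ Fil (k + 2)) (idem : ∀ i < m, π i * π i = π i)
    (tri : ∀ i k, i < k → k < m → ∀ v ∈ Fil T, π i v = 0 → ∃ v₀ ∈ Fil 4, π i (π k v - v₀) = 0)
    (d : ℕ) :
    ∀ j, j + d = m → ∀ s u (M : Submodule F V), Fil 4 ≤ M → M ≤ Fil s →
      s + 2 ^ (d + 1) ≤ u + 2 → u ≤ T →
      ∃ G, M ≤ G ∧ G ≤ Fil u ∧ ∀ k, j ≤ k → k < m → ∀ v ∈ G, π k v ∈ G := by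
  induction d with
  | zero =>
    intro j hj s u M _ hM hs _
    exact ⟨M, le_rfl, hM.trans (hF (by omega)), fun k h1 h2 => by omega⟩
  | succ d ih =>
    intro j hj s u M h4M hM hs hu
    have h2 : 2 ≤ 2 ^ (d + 1) := Nat.le_self_pow (by omega) 2
    have h3 : 2 ^ (d + 1 + 1) = 2 * 2 ^ (d + 1) := by ring
    obtain ⟨G₁, a1, a2, a3⟩ := ih (j + 1) (by omega) s (s + 2 ^ (d + 1) - 2) M h4M hM (by omega)
      (by omega)
    obtain ⟨G₂, b1, b2, b3⟩ := ih (j + 1) (by omega) (s + 2 ^ (d + 1) - 2 + 2) u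
      (G₁ ⊔ G₁.map (π j)) ((h4M.trans a1).trans le_sup_left) (by
        refine sup_le (a2.trans (hF (by omega))) ?_
        rintro _ ⟨v, hv, rfl⟩
        exact hπ j (by omega) _ v (a2 hv)) (by omega) hu
    have h12 : G₁ ≤ G₂ := le_sup_left.trans b1
    refine ⟨G₁ ⊔ (G₂ ⊓ LinearMap.ker (π j)), a1.trans le_sup_left,
      sup_le (a2.trans (hF (by omega))) (inf_le_left.trans b2), fun k h4 h5 v hv => ?_⟩
    obtain ⟨v₁, c1, v₂, ⟨c2, c3⟩, rfl⟩ := Submodule.mem_sup.1 hv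
    rw [map_add]
    rcases h4.eq_or_lt with rfl | h4
    · have e : π j v₁ = v₁ - (v₁ - π j v₁) := by simp
      rw [show π j v₂ = 0 from c3, add_zero, e]
      refine sub_mem (Submodule.mem_sup_left c1) (Submodule.mem_sup_right
        ⟨sub_mem (h12 c1) (b1 (Submodule.mem_sup_right ⟨v₁, c1, rfl⟩)), ?_⟩)
      show π j (v₁ - π j v₁) = 0
      rw [map_sub, ← End.mul_apply (π j) (π j), idem j h5, sub_self]
    · obtain ⟨v₀, d1, d2⟩ := tri j k h4 h5 _ (hF hu (b2 c2)) c3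
      have d3 : v₀ ∈ G₁ := a1 (h4M d1)
      have e : π k v₁ + π k v₂ = (π k v₁ + v₀) + (π k v₂ - v₀) := by abel
      rw [e]
      exact Submodule.add_mem_sup (add_mem (a3 k h4 h5 _ c1) d3)
        ⟨sub_mem (b3 k h4 h5 _ c2) (h12 d3), d2⟩

/-- The approximate hull. Downward induction on `j` as in `LEnt0_hull` (old directory
`MP_bf45aa_co`, file `LEnt0`): each `M` with `Fil 4 ≤ M ≤ Fil s` lies in some
`G ≤ Fil (s + 2 ^ (m - j + 1) - 2)` invariant under `π k`, `j ≤ k < m`. Step: `G₁` for `M`, `G₃` for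
`G₁ ⊔ G₁.map (π j)`, `G = G₁ ⊔ (G₃ ⊓ ker (π j))`. For `g ∈ G₁`, `π j g = g - (g - π j g)`; for
`v ∈ G₃ ⊓ ker (π j)`, `π k v = (π k v - v₀) + v₀` with `v₀ ∈ Fil 4 ≤ G₁ ≤ G₃`. -/
theorem approx_hull (Fil : ℕ → Submodule F V) (hF : Monotone Fil) (π : ℕ → End F V) (m T : ℕ)
    (hπ : ∀ i < m, ∀ k, ∀ v ∈ Fil k, π i v ∈ Fil (k + 2)) (idem : ∀ i < m, π i * π i = π i)
    (tri : ∀ i k, i < k → k < m → ∀ v ∈ Fil T, π i v = 0 → ∃ v₀ ∈ Fil 4, π i (π k v - v₀) = 0)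
    {s : ℕ} (hs : 4 ≤ s) (hT : s + 2 ^ (m + 1) ≤ T) :
    ∃ G, Fil s ≤ G ∧ G ≤ Fil (s + 2 ^ (m + 1)) ∧ ∀ k < m, ∀ v ∈ G, π k v ∈ G := by
  obtain ⟨G, h1, h2, h3⟩ := NEnt0_hull Fil hF π m T hπ idem tri m 0 (zero_add m) s
    (s + 2 ^ (m + 1)) (Fil s) (hF hs) le_rfl (by omega) hT
  exact ⟨G, h1, h2, fun i hi => h3 i (Nat.zero_le _) hi⟩

/-- Direct verification. -/
theorem sys_of_approx (Fil : ℕ → Submodule F V) (π : ℕ → End F V) (m T : ℕ)
    (idem : ∀ i < m, π i * π i = π i)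
    (tri : ∀ i k, i < k → k < m → ∀ v ∈ Fil T, π i v = 0 → ∃ v₀ ∈ Fil 4, π i (π k v - v₀) = 0)
    {L E : Submodule F V} (h1 : Fil 4 ≤ L) (h2 : L ≤ E) (h3 : E ≤ Fil T)
    (hL : ∀ k < m, ∀ v ∈ L, π k v ∈ L) (hE : ∀ k < m, ∀ v ∈ E, π k v ∈ E) :
    Sys π (fun i => (LinearMap.ker (π i) ⊓ E) ⊔ L) m L E := by
  refine ⟨h2, fun i _ => le_sup_right, fun i _ => sup_le inf_le_right h2, hE, hL,
    fun i hi v hv => ?_, fun i hi v hv => ?_, fun i k hik hk v hv => ?_⟩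
  · obtain ⟨v₁, ⟨c1, -⟩, v₂, c2, rfl⟩ := Submodule.mem_sup.1 hv
    rw [map_add, show π i v₁ = 0 from c1, zero_add]
    exact hL i hi _ c2
  · refine Submodule.mem_sup_left ⟨?_, sub_mem hv (hE i hi v hv)⟩
    show π i (v - π i v) = 0
    rw [map_sub, ← End.mul_apply (π i) (π i), idem i hi, sub_self]
  · obtain ⟨v₁, ⟨c1, c3⟩, v₂, c2, rfl⟩ := Submodule.mem_sup.1 hv
    obtain ⟨v₀, d1, d2⟩ := tri i k hik hk v₁ (h3 c3) c1
    have e : π k (v₁ + v₂) = (π k v₁ - v₀) + (v₀ + π k v₂) := by rw [map_add]; abel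
    rw [e]
    exact Submodule.add_mem_sup ⟨d2, sub_mem (hE k hk _ c3) (h2 (h1 d1))⟩
      (add_mem (h1 d1) (hL k hk _ c2))

end Pool.Agent.Lib.MP_bf45aa_co
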