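import Pool.Agent.Lib.PSV.NEnt0

set_option autoImplicit false

/-! The matching inequality. -/

namespace Pool.Agent.Lib.MP_bf45aa_co

open Module

variable {F V : Type*} [Field F] [AddCommGroup V] [Module F V]

/-- The projection attached to the list `l`. -/
def Rp (π : ℕ → End F V) : ℕ → List Bool → End F V → End F V
  | _, [], R => R
  | j, true :: l, R => Rp π (j + 1) l (1 - π j + R * π j)
  | j, false :: l, R => Rp π (j + 1) l ((1 - π j) * R)

/-- The dimension of the trace of `U` on `M`. -/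
noncomputable def dm (M U : Submodule F V) : ℤ := finrank F (M ⊓ U : Submodule F V)

theorem NEnt1_rn {W : Type*} [AddCommGroup W] [Module F W] (T : V →ₗ[F] W) (M : Submodule F V)
    [Module.Finite F M] :
    finrank F (M.map T) + finrank F (M ⊓ LinearMap.ker T : Submodule F V) = finrank F M := by
  have h := LinearMap.finrank_range_add_finrank_ker (T.domRestrict M)
  rw [LinearMap.range_domRestrict, LinearMap.ker_domRestrict,
    ← Submodule.finrank_map_subtype_eq, Submodule.map_comap_subtype] at h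
  exact h

theorem NEnt1_sup' {T : End F V} {A B C : Submodule F V} (hA : ∀ v ∈ A, T v ∈ C)
    (hB : ∀ v ∈ B, T v ∈ C) : ∀ v ∈ A ⊔ B, T v ∈ C :=
  fun _ hv => (sup_le (show A ≤ C.comap T from hA) (show B ≤ C.comap T from hB)) hv

theorem NEnt1_sup {T : End F V} {A B A' B' : Submodule F V} (hA : ∀ v ∈ A, T v ∈ A')
    (hB : ∀ v ∈ B, T v ∈ B') : ∀ v ∈ A ⊔ B, T v ∈ A' ⊔ B' :=
  NEnt1_sup' (fun v hv => Submodule.mem_sup_left (hA v hv))
    fun v hv => Submodule.mem_sup_right (hB v hv)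

/-- Comparison: `φ` induces an injection of `(M ⊓ U) ⧸ (M ⊓ U')` into `(M' ⊓ W) ⧸ (M' ⊓ W')`. Use
rank-nullity for `W'.mkQ ∘ φ` on `M ⊓ U` and for `W'.mkQ` on `M' ⊓ W` (`LEnt0_rn`). -/
theorem dm_le (φ : End F V) {M M' U U' W W' : Submodule F V} [Module.Finite F M]
    [Module.Finite F M'] (hU : U' ≤ U) (hW : W' ≤ W) (h1 : ∀ v ∈ M, v ∈ U → φ v ∈ M' ∧ φ v ∈ W)
    (h2 : ∀ v ∈ M, v ∈ U → φ v ∈ W' → v ∈ U') : dm M U - dm M U' ≤ dm M' W - dm M' W' := by
  have f1 : Module.Finite F (M ⊓ U : Submodule F V) := Submodule.finiteDimensional_of_le inf_le_left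
  have f2 : Module.Finite F (M ⊓ U' : Submodule F V) := Submodule.finiteDimensional_of_le inf_le_left
  have f3 : Module.Finite F (M' ⊓ W : Submodule F V) := Submodule.finiteDimensional_of_le inf_le_left
  have a1 := NEnt1_rn (W'.mkQ ∘ₗ φ) (M ⊓ U)
  have a2 := NEnt1_rn W'.mkQ (M' ⊓ W)
  have a3 : finrank F ((M ⊓ U) ⊓ LinearMap.ker (W'.mkQ ∘ₗ φ) : Submodule F V) ≤
      finrank F (M ⊓ U' : Submodule F V) := by
    refine Submodule.finrank_mono fun v hv => ⟨hv.1.1, h2 v hv.1.1 hv.1.2 ?_⟩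
    have := hv.2
    simpa using this
  have a4 : finrank F ((M ⊓ U).map (W'.mkQ ∘ₗ φ)) ≤ finrank F ((M' ⊓ W).map W'.mkQ) := by
    refine Submodule.finrank_mono ?_
    rintro _ ⟨v, hv, rfl⟩
    exact ⟨φ v, h1 v hv.1 hv.2, rfl⟩
  rw [Submodule.ker_mkQ, inf_assoc, inf_eq_right.2 hW] at a2
  unfold dm
  omega

variable {π : ℕ → End F V} {K : ℕ → Submodule F V} {m : ℕ} {L E : Submodule F V}

/-- Induction on `l`, for all `j`, `B`, `R`. -/
theorem Sys.proj (h : Sys π K m L E) (l : List Bool) : ∀ (j : ℕ) (B : Submodule F V) (R : End F V),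
    j + l.length ≤ m → L ≤ B → B ≤ E → (∀ k, j ≤ k → k < m → ∀ v ∈ B, π k v ∈ B) →
    (∀ v ∈ E, R v ∈ B) → (∀ v ∈ B, R v - v ∈ L) →
    L ≤ Ph K j l B ∧ Ph K j l B ≤ E ∧ (∀ v ∈ E, Rp π j l R v ∈ Ph K j l B) ∧
      ∀ v ∈ Ph K j l B, Rp π j l R v - v ∈ L := by
  induction l with
  | nil => exact fun j B R _ h1 h2 _ h4 h5 => ⟨h1, h2, h4, h5⟩
  | cons b l ih =>
    intro j B R hj h1 h2 h3 h4 h5
    rw [List.length_cons] at hj
    have hjm : j < m := by omega
    cases b
    · refine ih (j + 1) (K j ⊓ B) ((1 - π j) * R) (by omega) (le_inf (h.LK j hjm) h1)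
        (inf_le_right.trans h2)
        (fun k hk hkm v hv => ⟨h.tri j k hk hkm v hv.1, h3 k (by omega) hkm v hv.2⟩)
        (fun v hv => ?_) fun v hv => ?_
      · exact ⟨h.cK j hjm _ (h2 (h4 v hv)), sub_mem (h4 v hv) (h3 j le_rfl hjm _ (h4 v hv))⟩
      · have e : ((1 - π j) * R) v - v = (R v - v) - π j (R v - v) - π j v := by
          simp only [End.mul_apply, LinearMap.sub_apply, End.one_apply, map_sub]
          abel
        rw [e]
        exact sub_mem (sub_mem (h5 v hv.2) (h.πL j hjm _ (h5 v hv.2))) (h.πK j hjm v hv.1)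
    · refine ih (j + 1) (K j ⊔ B) (1 - π j + R * π j) (by omega) (h1.trans le_sup_right)
        (sup_le (h.KE j hjm) h2)
        (fun k hk hkm => NEnt1_sup (h.tri j k hk hkm) (h3 k (by omega) hkm))
        (fun v hv => ?_) fun v hv => ?_
      · exact Submodule.add_mem_sup (h.cK j hjm v hv) (h4 _ (h.πE j hjm v hv))
      · have e : (1 - π j + R * π j) v - v = R (π j v) - π j v := by
          simp only [End.mul_apply, LinearMap.sub_apply, LinearMap.add_apply, End.one_apply]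
          abel
        rw [e]
        exact h5 _ (NEnt1_sup' (fun v hv => h1 (h.πK j hjm v hv)) (h3 j le_rfl hjm) v hv)

/-- Induction on `l`. Case `true`: `1 - (1 - π + R π) = (1 - R) π` and `π (K j ⊔ B) ≤ B`. Case
`false`: `v - (1 - π) R v = (1 - π) (v - R v) + π v`. -/
theorem Sys.split (h : Sys π K m L E) {C : Submodule F V} (hL : L ≤ C) (l : List Bool) :
    ∀ (j : ℕ) (B : Submodule F V) (R : End F V), j + l.length ≤ m → L ≤ B →
    (∀ k, j ≤ k → k < m → ∀ v ∈ B, π k v ∈ B) → (∀ k, j ≤ k → k < m → ∀ v ∈ C, π k v ∈ C) →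
    (∀ v ∈ B, v - R v ∈ C) → ∀ v ∈ Ph K j l B, v - Rp π j l R v ∈ C := by
  induction l with
  | nil => exact fun j B R _ _ _ _ h5 => h5
  | cons b l ih =>
    intro j B R hj h1 h3 h4 h5
    rw [List.length_cons] at hj
    have hjm : j < m := by omega
    cases b
    · refine ih (j + 1) (K j ⊓ B) ((1 - π j) * R) (by omega) (le_inf (h.LK j hjm) h1)
        (fun k hk hkm v hv => ⟨h.tri j k hk hkm v hv.1, h3 k (by omega) hkm v hv.2⟩)
        (fun k hk => h4 k (by omega)) fun v hv => ?_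
      have e : v - ((1 - π j) * R) v = (v - R v) - π j (v - R v) + π j v := by
        simp only [End.mul_apply, LinearMap.sub_apply, End.one_apply, map_sub]
        abel
      rw [e]
      exact add_mem (sub_mem (h5 v hv.2) (h4 j le_rfl hjm _ (h5 v hv.2))) (hL (h.πK j hjm v hv.1))
    · refine ih (j + 1) (K j ⊔ B) (1 - π j + R * π j) (by omega) (h1.trans le_sup_right)
        (fun k hk hkm => NEnt1_sup (h.tri j k hk hkm) (h3 k (by omega) hkm))
        (fun k hk => h4 k (by omega)) fun v hv => ?_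
      have e : v - (1 - π j + R * π j) v = π j v - R (π j v) := by
        simp only [End.mul_apply, LinearMap.sub_apply, LinearMap.add_apply, End.one_apply]
        abel
      rw [e]
      exact h5 _ (NEnt1_sup' (fun v hv => h1 (h.πK j hjm v hv)) (h3 j le_rfl hjm) v hv)

/-- Induction on `l`. -/
theorem Rp_shift {Fil : ℕ → Submodule F V} (hF : Monotone Fil)
    (hπ : ∀ i < m, ∀ k, ∀ v ∈ Fil k, π i v ∈ Fil (k + 2)) (l : List Bool) :
    ∀ (j s : ℕ) (R : End F V), j + l.length ≤ m → (∀ k, ∀ v ∈ Fil k, R v ∈ Fil (k + s)) →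
      ∀ k, ∀ v ∈ Fil k, Rp π j l R v ∈ Fil (k + s + 2 * l.length) := by
  induction l with
  | nil => exact fun j s R _ h => h
  | cons b l ih =>
    intro j s R hj h k v hv
    rw [List.length_cons] at hj ⊢
    have hjm : j < m := by omega
    have e : k + s + 2 * (l.length + 1) = k + (s + 2) + 2 * l.length := by ring
    rw [e]
    cases b
    · refine ih (j + 1) (s + 2) ((1 - π j) * R) (by omega) (fun k v hv => ?_) k v hv
      exact sub_mem (hF (by omega) (h k v hv)) (hπ j hjm _ _ (h k v hv))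
    · refine ih (j + 1) (s + 2) (1 - π j + R * π j) (by omega) (fun k v hv => ?_) k v hv
      exact add_mem (sub_mem (hF (by omega) hv) (hF (by omega) (hπ j hjm k v hv)))
        (hF (by omega) (h _ _ (hπ j hjm k v hv)))

theorem NEnt1_map {K' : ℕ → Submodule F V} {x : End F V} {j : ℕ}
    (hK : ∀ k, j < k → k < m → ∀ v ∈ K k, x v ∈ K' k) (l : List Bool) :
    ∀ (i : ℕ) (B B' : Submodule F V), j < i → i + l.length ≤ m → (∀ v ∈ B, x v ∈ B') →
      ∀ v ∈ Ph K i l B, x v ∈ Ph K' i l B' := by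
  induction l with
  | nil => exact fun i B B' _ _ h => h
  | cons b l ih =>
    intro i B B' hi hl h
    rw [List.length_cons] at hl
    cases b
    · exact ih (i + 1) (K i ⊓ B) (K' i ⊓ B') (by omega) (by omega)
        fun v hv => ⟨hK i hi (by omega) v hv.1, h v hv.2⟩
    · exact ih (i + 1) (K i ⊔ B) (K' i ⊔ B') (by omega) (by omega)
        (NEnt1_sup (hK i hi (by omega)) h)

theorem NEnt1_comm (h : Sys π K m L E) {π' : ℕ → End F V} {x : End F V} {j : ℕ}
    (hI : ∀ k, j < k → k < m → ∀ v ∈ E, x (π k v) = π' k (x v)) (l : List Bool) :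
    ∀ (i : ℕ) (R R' : End F V), j < i → i + l.length ≤ m → (∀ v ∈ E, R v ∈ E) →
      (∀ v ∈ E, x (R v) = R' (x v)) → ∀ v ∈ E, x (Rp π i l R v) = Rp π' i l R' (x v) := by
  induction l with
  | nil => exact fun i R R' _ _ _ h2 => h2
  | cons b l ih =>
    intro i R R' hi hl h1 h2
    rw [List.length_cons] at hl
    have him : i < m := by omega
    cases b
    · refine ih (i + 1) ((1 - π i) * R) ((1 - π' i) * R') (by omega) (by omega)
        (fun v hv => sub_mem (h1 v hv) (h.πE i him _ (h1 v hv))) fun v hv => ?_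
      simp only [End.mul_apply, LinearMap.sub_apply, End.one_apply, map_sub]
      rw [hI i hi him _ (h1 v hv), h2 v hv]
    · refine ih (i + 1) (1 - π i + R * π i) (1 - π' i + R' * π' i) (by omega) (by omega)
        (fun v hv => add_mem (sub_mem hv (h.πE i him v hv)) (h1 _ (h.πE i him v hv)))
        fun v hv => ?_
      simp only [End.mul_apply, LinearMap.sub_apply, LinearMap.add_apply, End.one_apply, map_sub,
        map_add]
      rw [h2 _ (h.πE i him v hv), hI i hi him v hv]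

/-- The matching inequality. Fix `l`; write `up`, `mid`, `lo` for `Ph K (j + 1) l` applied to `E`,
`K j`, `L`, and the same with primes. `x` maps `up` into `mid'` and `mid` into `lo'` (induction on
lists, `hK`, `hE`, `hJ`). With `U = up ⊓ lo'.comap x` put `α M = dm M up - dm M U`. Then (`dm_le`)
`α (Fil c) ≤ dm (Fil (c + 1)) mid' - dm (Fil (c + 1)) lo'` (`φ = x`), and
`dm M U - dm M mid` is monotone in `M` (`φ = 1`); so both entries of the minimum are at least
`α (Fil (b + 2 m)) - β`, `β = dm (Fil (a + 1)) mid' - dm (Fil (a + 1)) lo'`. Lower bound: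
`dm (Fil b) (up'.comap x) - dm (Fil b) (lo'.comap x) ≤ α (Fil (b + 2 m))` with `φ = Rp π (j + 1) l 1`
(`x (Rp π .. 1 v) = Rp π' .. 1 (x v)` on `E` by induction, `Sys.proj`, `Rp_shift`). Upper bound:
`β ≤ dm N up' - dm N lo'` with `N = K' j ⊓ Fil (a + 2 m + 1)`, `φ = 1 - Rp π' (j + 1) l 0`
(`Sys.proj` for `B = L'`, `Sys.split` for `B = C = K' j`). Sum over `l` with `Sys.sum`. Finally
`dm N E' - dm N L' ≤ dm (Fil b) ((Fil (a + 2 m + 1)).comap x) - dm (Fil b) (L'.comap x)` with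
`φ = y` (`x (y v) = v - π' j v`, `h'.πK`). -/
theorem match_ineq {π' : ℕ → End F V} {K' : ℕ → Submodule F V} {L' E' : Submodule F V}
    (h : Sys π K m L E) (h' : Sys π' K' m L' E') {Fil : ℕ → Submodule F V} (hF : Monotone Fil)
    (fd : ∀ k, Module.Finite F (Fil k)) (hπ : ∀ i < m, ∀ k, ∀ v ∈ Fil k, π i v ∈ Fil (k + 2))
    (hπ' : ∀ i < m, ∀ k, ∀ v ∈ Fil k, π' i v ∈ Fil (k + 2)) {j : ℕ} (hj : j < m) {x y : End F V}
    (hx : ∀ k, ∀ v ∈ Fil k, x v ∈ Fil (k + 1)) (hy : ∀ k, ∀ v ∈ Fil k, y v ∈ Fil (k + 1))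
    (hxy : ∀ v, x (y v) = v - π' j v)
    (hI : ∀ k, j < k → k < m → ∀ v ∈ E, x (π k v) = π' k (x v))
    (hK : ∀ k, j < k → k < m → ∀ v ∈ K k, x v ∈ K' k) (hE : ∀ v ∈ E, x v ∈ K' j)
    (hJ : ∀ v ∈ K j, x v ∈ L') {a b : ℕ} (hL : L' ≤ Fil a) (hb : a + 2 * m + 2 ≤ b)
    (hb' : Fil (b + 2 * m) ≤ E) :
    (finrank F (Fil b) : ℤ) - dm (Fil b) ((Fil (a + 2 * m + 1)).comap x) ≤
      ∑ l ∈ LL' (m - (j + 1)),
        min (dm (Fil (b + 2 * m)) (Ph K (j + 1) l E) - dm (Fil (b + 2 * m)) (Ph K (j + 1) l (K j)) -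
            (dm (Fil a) (Ph K (j + 1) l E) - dm (Fil a) (Ph K (j + 1) l (K j))))
          (dm (Fil (b + 2 * m + 1)) (Ph K' (j + 1) l (K' j)) -
            dm (Fil (b + 2 * m + 1)) (Ph K' (j + 1) l L') -
            (dm (Fil (a + 1)) (Ph K' (j + 1) l (K' j)) - dm (Fil (a + 1)) (Ph K' (j + 1) l L'))) := by
  obtain ⟨N, hN⟩ : ∃ N, N = K' j ⊓ Fil (a + 2 * m + 1) := ⟨_, rfl⟩
  have fN : Module.Finite F N := hN ▸ Submodule.finiteDimensional_of_le inf_le_right
  have hbE : Fil b ≤ E := (hF (by omega)).trans hb'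
  have s1 := h'.sum (fun U => dm (Fil b) (U.comap x)) (m - (j + 1)) (j + 1) (by omega)
  have s2 := h'.sum (fun U => dm N U) (m - (j + 1)) (j + 1) (by omega)
  have e1 : dm (Fil b) (E'.comap x) = finrank F (Fil b) := by
    have : Fil b ≤ E'.comap x := fun v hv => h'.KE j hj (hE v (hbE hv))
    rw [dm, inf_eq_left.2 this]
  have e2 : dm N E' - dm N L' ≤
      dm (Fil b) ((Fil (a + 2 * m + 1)).comap x) - dm (Fil b) (L'.comap x) := by
    refine dm_le y h'.LE (Submodule.comap_mono (hL.trans (hF (by omega)))) (fun v hv _ => ?_)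
      fun v hv _ h2 => ?_
    · rw [hN] at hv
      refine ⟨hF (by omega) (hy _ v hv.2), ?_⟩
      rw [Submodule.mem_comap, hxy]
      exact sub_mem hv.2 (hF (by omega) (hL (h'.πK j hj v hv.1)))
    · rw [hN] at hv
      rw [Submodule.mem_comap, hxy] at h2
      simpa using add_mem h2 (h'.πK j hj v hv.1)
  refine le_trans ?_ (Finset.sum_le_sum (f := fun l =>
    (dm (Fil b) ((Ph K' (j + 1) l E').comap x) - dm (Fil b) ((Ph K' (j + 1) l L').comap x)) -
      (dm N (Ph K' (j + 1) l E') - dm N (Ph K' (j + 1) l L'))) fun l hl => ?_)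
  · rw [Finset.sum_sub_distrib, s1, s2]
    omega
  have hlen : j + 1 + l.length ≤ m := by
    rw [LEnt0_length hl]
    omega
  have m1 := NEnt1_map hK l (j + 1) E (K' j) (by omega) hlen hE
  have m2 := NEnt1_map hK l (j + 1) (K j) L' (by omega) hlen hJ
  have p1 := h.proj l (j + 1) E 1 hlen h.LE le_rfl (fun k _ hk => h.πE k hk) (fun v hv => hv)
    fun v _ => by simp
  have p2 := h'.proj l (j + 1) E' 1 hlen h'.LE le_rfl (fun k _ hk => h'.πE k hk) (fun v hv => hv)
    fun v _ => by simp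
  have p3 := h'.proj l (j + 1) L' 0 hlen le_rfl h'.LE (fun k _ hk => h'.πL k hk)
    (fun v _ => by simp) fun v hv => by simpa using hv
  have p4 := h'.split (h'.LK j hj) l (j + 1) (K' j) 0 hlen (h'.LK j hj)
    (fun k hk hkm => h'.tri j k hk hkm) (fun k hk hkm => h'.tri j k hk hkm)
    fun v hv => by simpa using hv
  have c1 := NEnt1_comm h hI l (j + 1) 1 1 (by omega) hlen (fun v hv => hv) fun v _ => rfl
  have r1 := Rp_shift hF hπ l (j + 1) 0 1 hlen fun k v hv => hv
  have r2 := Rp_shift hF hπ' l (j + 1) 0 0 hlen fun k v _ => by simp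
  have o1 := Ph_mono K l (j + 1) (h.KE j hj)
  have o2 := Ph_mono K' l (j + 1) (h'.KE j hj)
  have o3 := Ph_mono K' l (j + 1) (h'.LK j hj)
  generalize Ph K (j + 1) l E = up at *
  generalize Ph K (j + 1) l (K j) = mid at *
  generalize Ph K' (j + 1) l E' = up' at *
  generalize Ph K' (j + 1) l (K' j) = mid' at *
  generalize Ph K' (j + 1) l L' = lo' at *
  generalize Rp π (j + 1) l 1 = φ at *
  generalize Rp π' (j + 1) l 1 = φ' at *
  generalize Rp π' (j + 1) l 0 = ψ at *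
  have A : ∀ c, dm (Fil c) up - dm (Fil c) (up ⊓ lo'.comap x) ≤
      dm (Fil (c + 1)) mid' - dm (Fil (c + 1)) lo' := fun c =>
    dm_le x inf_le_left o3 (fun v hv hu => ⟨hx c v hv, m1 v hu⟩) fun v _ hu hw => ⟨hu, hw⟩
  have hmid : mid ≤ up ⊓ lo'.comap x := fun v hv => ⟨o1 hv, m2 v hv⟩
  have B : dm (Fil a) (up ⊓ lo'.comap x) - dm (Fil a) mid ≤
      dm (Fil (b + 2 * m)) (up ⊓ lo'.comap x) - dm (Fil (b + 2 * m)) mid :=
    dm_le 1 hmid hmid (fun v hv hu => ⟨hF (by omega) hv, hu⟩) fun v _ _ hw => hw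
  have C : dm (Fil b) (up'.comap x) - dm (Fil b) (lo'.comap x) ≤
      dm (Fil (b + 2 * m)) up - dm (Fil (b + 2 * m)) (up ⊓ lo'.comap x) := by
    refine dm_le φ (Submodule.comap_mono (o3.trans o2)) inf_le_left
      (fun v hv _ => ⟨hF (by omega) (r1 b v hv), p1.2.2.1 v (hbE hv)⟩) fun v hv hu hw => ?_
    have h1 : x (φ v) ∈ lo' := hw.2
    rw [c1 v (hbE hv)] at h1
    simpa using sub_mem h1 (p3.1 (p2.2.2.2 _ hu))
  have D : dm (Fil (a + 1)) mid' - dm (Fil (a + 1)) lo' ≤ dm N up' - dm N lo' := by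
    refine dm_le (1 - ψ) o3 (o3.trans o2) (fun v hv hu => ⟨?_, ?_⟩) fun v _ hu hw => ?_
    · rw [hN]
      exact ⟨p4 v hu, sub_mem (hF (by omega) hv) (hF (by omega) (r2 _ v hv))⟩
    · exact sub_mem (o2 hu) (o2 (o3 (p3.2.2.1 v (p2.2.1 (o2 hu)))))
    · simpa using add_mem hw (p3.2.2.1 v (p2.2.1 (o2 hu)))
  have A1 := A a
  have A2 := A (b + 2 * m)
  exact le_min (by omega) (by omega)

end Pool.Agent.Lib.MP_bf45aa_co
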