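import Pool.Agent.Lib.PSV.LP21

set_option autoImplicit false
set_option linter.unusedSectionVars false

/-! The Peirce-0 part is realised. -/

namespace Pool.Agent.Lib.MP_bf45aa_co

open Subgroup Module Polynomial
open scoped MatrixGroups

section Lead

variable {F : Type*} [Field F]

/-- The leading term of a congruence element. -/
def NP0_lead (n : ℕ) (m : SL(2, F[X])) (N : Matrix (Fin 2) (Fin 2) F) : Prop :=
  ∃ M : Matrix (Fin 2) (Fin 2) F[X], (m : Matrix (Fin 2) (Fin 2) F[X]) = 1 + (X ^ n : F[X]) • M ∧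
    (constantCoeff : F[X] →+* F).mapMatrix M = N

theorem NP0_mul {n : ℕ} (hn : 1 ≤ n) {m m' : SL(2, F[X])} {N N' : Matrix (Fin 2) (Fin 2) F}
    (h : NP0_lead n m N) (h' : NP0_lead n m' N') : NP0_lead n (m * m') (N + N') := by
  obtain ⟨M, e, rfl⟩ := h
  obtain ⟨M', e', rfl⟩ := h'
  refine ⟨M + M' + (X ^ n : F[X]) • (M * M'), ?_, ?_⟩
  · rw [Matrix.SpecialLinearGroup.coe_mul, e, e']
    simp only [mul_add, add_mul, mul_one, one_mul, Matrix.mul_smul, Matrix.smul_mul, smul_add]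
    abel
  · rw [map_add, map_add, add_eq_left]
    ext i j
    simp [coeff_X_pow, show 0 ≠ n by omega]

theorem NP0_conj {n : ℕ} {m : SL(2, F[X])} {N : Matrix (Fin 2) (Fin 2) F} (h : NP0_lead n m N)
    (g : SL(2, F[X])) {A B : Matrix (Fin 2) (Fin 2) F}
    (hA : (constantCoeff : F[X] →+* F).mapMatrix (g : Matrix (Fin 2) (Fin 2) F[X]) = A)
    (hB : (constantCoeff : F[X] →+* F).mapMatrix
      ((g⁻¹ : SL(2, F[X])) : Matrix (Fin 2) (Fin 2) F[X]) = B) :
    NP0_lead n (g * m * g⁻¹) (A * N * B) := by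
  obtain ⟨M, e, rfl⟩ := h
  exact ⟨_, LP20_conj e g, by rw [map_mul, map_mul, hA, hB]⟩

theorem NP0_tr {n : ℕ} (hn : 1 ≤ n) {m : SL(2, F[X])} {N : Matrix (Fin 2) (Fin 2) F}
    (h : NP0_lead n m N) : N 0 0 + N 1 1 = 0 := by
  obtain ⟨M, e, rfl⟩ := h
  have h1 := m.det_coe
  rw [e, Matrix.det_fin_two] at h1
  simp only [Matrix.add_apply, Matrix.smul_apply, smul_eq_mul, Matrix.one_apply_eq, ne_eq,
    zero_ne_one, one_ne_zero, not_false_eq_true, Matrix.one_apply_ne] at h1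
  have h2 : (X ^ n : F[X]) * (M 0 0 + M 1 1 + X ^ n * (M 0 0 * M 1 1 - M 0 1 * M 1 0)) = 0 := by
    linear_combination h1
  have h3 := congrArg (fun q : F[X] => q.coeff 0)
    ((mul_eq_zero.1 h2).resolve_left (pow_ne_zero _ X_ne_zero))
  simpa [coeff_X_pow, show 0 ≠ n by omega] using h3

theorem NP0_lift {n : ℕ} {m : SL(2, F[X])} (h : NP0_lead n m 0) :
    ∃ N, NP0_lead (n + 1) m N := by
  obtain ⟨M, e, h0⟩ := h
  refine ⟨_, M.map divX, ?_, rfl⟩
  rw [e, pow_succ, mul_smul]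
  congr 2
  ext1 i j
  have h1 : (M i j).coeff 0 = 0 := congrFun (congrFun h0 i) j
  have h2 := X_mul_divX_add (M i j)
  rw [h1, map_zero, add_zero] at h2
  exact h2.symm

end Lead

/-- Averaging over the quaternion group in characteristic three. Let `I = !![0, 1; -1, 0]`,
`J = xU 1 * I * (xU 1)⁻¹`, `K = xU 1 * J * (xU 1)⁻¹`. If `m = 1 + X ^ n M` (`n ≥ 1`) then `M(0)` has
trace zero (`det m = 1`), and `M(0) + I M(0) I⁻¹ + J M(0) J⁻¹ + K M(0) K⁻¹ = 0` as `3 = 0`. So the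
product of `m` and its three conjugates is `1 + X ^ (n + 1) M'`. -/
theorem NP0_avg {F : Type*} [Field F] (h3 : (3 : F) = 0) (T : Set SL(2, F[X])) {I : SL(2, F[X])}
    (hI : (I : Matrix (Fin 2) (Fin 2) F[X]) = !![0, 1; -1, 0]) (h1 : xU X ∈ T)
    (h4 : ∀ a ∈ T, ∀ b ∈ T, ∀ c ∈ T, ∀ d ∈ T, a * b * c * d ∈ T)
    (hc : ∀ m ∈ T, I * m * I⁻¹ ∈ T) (hu : ∀ m ∈ T, xU 1 * m * (xU 1)⁻¹ ∈ T)
    (hu' : ∀ m ∈ T, (xU 1)⁻¹ * m * xU 1 ∈ T) (n : ℕ) :
    ∃ m ∈ T, ∃ M : Matrix (Fin 2) (Fin 2) F[X],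
      (m : Matrix (Fin 2) (Fin 2) F[X]) = 1 + (X ^ n : F[X]) • M := by
  have key : ∀ n, 1 ≤ n → ∃ m ∈ T, ∃ N, NP0_lead n m N := by
    intro n hn
    induction n, hn using Nat.le_induction with
    | base => exact ⟨_, h1, _, _, LP20_xU, rfl⟩
    | succ n hn ih =>
      obtain ⟨m, hm, N, hN⟩ := ih
      obtain ⟨a, b, c, d, rfl⟩ : ∃ a b c d, N = !![a, b; c, d] := ⟨_, _, _, _, Matrix.eta_fin_two N⟩
      have i1 : (constantCoeff : F[X] →+* F).mapMatrix (I : Matrix (Fin 2) (Fin 2) F[X]) =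
          !![0, 1; -1, 0] := by
        rw [hI]
        ext i j
        fin_cases i <;> fin_cases j <;> simp
      have i2 : (constantCoeff : F[X] →+* F).mapMatrix
          ((I⁻¹ : SL(2, F[X])) : Matrix (Fin 2) (Fin 2) F[X]) = !![0, -1; 1, 0] := by
        rw [Matrix.SpecialLinearGroup.coe_inv, hI, Matrix.adjugate_fin_two_of]
        ext i j
        fin_cases i <;> fin_cases j <;> simp
      have u1 : (constantCoeff : F[X] →+* F).mapMatrix
          ((xU 1 : SL(2, F[X])) : Matrix (Fin 2) (Fin 2) F[X]) = !![1, 1; 0, 1] := by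
        ext i j
        fin_cases i <;> fin_cases j <;> simp [xU]
      have u2 : (constantCoeff : F[X] →+* F).mapMatrix
          (((xU 1)⁻¹ : SL(2, F[X])) : Matrix (Fin 2) (Fin 2) F[X]) = !![1, -1; 0, 1] := by
        rw [Matrix.SpecialLinearGroup.coe_inv]
        ext i j
        fin_cases i <;> fin_cases j <;> simp [xU, Matrix.adjugate_fin_two]
      have c1 : ∀ {m : SL(2, F[X])} {N : Matrix (Fin 2) (Fin 2) F}, NP0_lead n m N →
          NP0_lead n (I * m * I⁻¹) (!![0, 1; -1, 0] * N * !![0, -1; 1, 0]) :=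
        fun h => NP0_conj h I i1 i2
      have c2 : ∀ {m : SL(2, F[X])} {N : Matrix (Fin 2) (Fin 2) F}, NP0_lead n m N →
          NP0_lead n (xU 1 * m * (xU 1)⁻¹) (!![1, 1; 0, 1] * N * !![1, -1; 0, 1]) :=
        fun h => NP0_conj h (xU (1 : F[X])) u1 u2
      have c3 : ∀ {m : SL(2, F[X])} {N : Matrix (Fin 2) (Fin 2) F}, NP0_lead n m N →
          NP0_lead n ((xU 1)⁻¹ * m * xU 1) (!![1, -1; 0, 1] * N * !![1, 1; 0, 1]) := fun h => by
        have := NP0_conj h (xU (1 : F[X]))⁻¹ u2 ((congrArg _ (congrArg _ (inv_inv _))).trans u1)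
        rwa [inv_inv] at this
      refine ⟨_, h4 _ hm _ (hc _ hm) _ (hu _ (hc _ (hu' _ hm))) _
        (hu _ (hu _ (hc _ (hu' _ (hu' _ hm))))), NP0_lift ?_⟩
      have tr : a + d = 0 := NP0_tr hn hN
      convert NP0_mul hn (NP0_mul hn (NP0_mul hn hN (c1 hN)) (c2 (c1 (c3 hN))))
        (c2 (c2 (c1 (c3 (c3 hN))))) using 1
      simp only [Matrix.mul_fin_two]
      ext i j
      fin_cases i <;> fin_cases j <;> simp only [Matrix.add_apply, Matrix.zero_apply, Matrix.of_apply,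
        Fin.zero_eta, Fin.mk_one, Matrix.cons_val', Matrix.cons_val_zero, Matrix.cons_val_one,
        Matrix.cons_val_fin_one]
      · linear_combination (-8) * tr - (-4 * a - b + 4 * c) * h3
      · linear_combination (-(4 * a + 2 * b - 10 * c - 4 * d)) * h3
      · linear_combination (-(-a - b + 2 * c + d)) * h3
      · linear_combination (-8) * tr - (b - 4 * c - 4 * d) * h3
  rcases Nat.eq_zero_or_pos n with rfl | hn
  · exact ⟨_, h1, (xU X : SL(2, F[X])).1 - 1, by simp⟩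
  · obtain ⟨m, hm, N, M, e, -⟩ := key n hn
    exact ⟨m, hm, M, e⟩

namespace LD

variable {p : ℕ} [Fact p.Prime] {H X V : Type} [Group H] [MulAction H X] [AddCommGroup V]
  [Module (ZMod p) V] {D : LD p H X V}

namespace Partner

variable {y : X} {x η : End (ZMod p) V} (P : D.Partner y x η)
include P

variable {Z C : Submodule (ZMod p) V} {h : Z ≤ C}

/-- For `p ≥ 5` use `Partner5.P0_mem` (`P.alt`). Let `p = 3`, `e = x η`, `f = η x`, `a₂ = e a f`,
`a₀ = (1 - e) a (1 - f)`; `b = a₀ + a₂` is realised in `Q y` (`P02_mem`). As in the proof of `cong`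
(file `LP20`) let `t = tau a₂ η` and `φ = LP20_phi hu ht`; `tau b η = t` since `a₀ η = η a₀ = 0`, so
`t` is nilpotent on each `Vb y r` (`tau_nil`). `a₀` annihilates the matrix units on both sides and
`a₀ a₀ = 0`, `a₀ x = x a₀ = 0`, so `1 + a₀` commutes with all `φ m` (`LP20_phi_conj`), with `ρ u` and
`ρ w`. Let `T` be the set of `m` with `ρ g = (1 + a₀) * φ m` for some `g ∈ Q y`. It contains `xU X`
(`φ (xU X) = 1 + a₂`), `(1 + a₀) ^ 4 = 1 + a₀`, `ρ w = φ I`, `ρ u = φ (xU 1) * (1 + x'')` with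
`x'' = x - x η x` (`LP20_phi_conj`). `NP0_avg` and `LP20_phi_apply` give `g r ∈ Q y` acting as
`1 + a₀` on `Vb y r` (`t ^ n` commutes with `LP20_psi t u M`, or this operator lies in `PA y`).
Apply `cloQ` and `ext_Vb`. -/
theorem P0_mem (hx : Fr Z C x) {a : End (ZMod p) V} (ha : a ∈ D.RL y h) :
    (1 - x * η) * a * (1 - η * x) ∈ D.RL y h := by
  rcases P.alt with hp | ⟨hp, P5⟩
  swap
  · exact P5.P0_mem hp hx ha
  have h30 : (3 : ZMod p) = 0 := by
    exact_mod_cast (ZMod.natCast_eq_zero_iff 3 p).2 (hp ▸ dvd_rfl)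
  refine ⟨⟨fun v => sub_mem (ha.1.1 _) (hx.1 _), fun v hv => by simp [hx.2 v hv, ha.1.2 v hv]⟩, ?_⟩
  obtain ⟨-, g₀, hg₀, eg₀⟩ := P.P02_mem hx ha
  have ax := ha.1.mul h hx
  have xa := hx.mul h ha.1
  have aa := ha.1.mul h ha.1
  have haP : a ∈ D.PA y := let ⟨_, _, hg, e⟩ := ha; D.mem_PA_of_real (D.Q_le_St y hg) e
  have hu := LP20_units P.xx P.sq P.yxy
  have sq := P.sq
  have h1 : ∀ z, x * (x * z) = 0 := fun z => by rw [← mul_assoc, P.xx, zero_mul]
  have h2 : ∀ z, η * (η * z) = 0 := fun z => by rw [← mul_assoc, P.sq, zero_mul]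
  have h3 : ∀ z, η * (x * (η * z)) = η * z := fun z => by rw [← mul_assoc, ← mul_assoc, P.yxy]
  have h4 : η * (x * η) = η := by rw [← mul_assoc, P.yxy]
  have k1 : (1 - x * η) * a * (1 - η * x) * η = 0 := by
    rw [mul_assoc, sub_mul 1 (η * x), one_mul, P.yxy, sub_self, mul_zero]
  have k2 : η * ((1 - x * η) * a * (1 - η * x)) = 0 := by
    rw [← mul_assoc, ← mul_assoc, mul_sub η, mul_one, h4, sub_self, zero_mul, zero_mul]
  have k3 : (1 - x * η) * a * (1 - η * x) * x = 0 := by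
    rw [mul_assoc, sub_mul 1 (η * x), one_mul, mul_assoc η, P.xx, mul_zero, sub_zero, mul_assoc, ax,
      mul_zero]
  have k4 : x * ((1 - x * η) * a * (1 - η * x)) = 0 := by
    rw [← mul_assoc, ← mul_assoc, mul_sub x, mul_one, h1, sub_zero, xa, zero_mul]
  have k5 : (1 - x * η) * a * (1 - η * x) * ((1 - x * η) * a * (1 - η * x)) = 0 := by
    simp only [mul_sub, sub_mul, mul_one, one_mul, mul_assoc, h1, LPei0_r ax, LPei0_r xa,
      LPei0_r aa, xa, aa, zero_mul, mul_zero, sub_self]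
  have k6 : (1 - x * η) * a * (1 - η * x) * (x * η * a * (η * x)) = 0 := by
    rw [mul_assoc x, mul_assoc x, ← mul_assoc, k3, zero_mul]
  have ha₂ : x * η * (x * η * a * (η * x)) * (η * x) = x * η * a * (η * x) := by
    simp only [mul_assoc, h3]
  have ha₂P : x * η * a * (η * x) ∈ D.PA y :=
    mul_mem (mul_mem (mul_mem P.x_PA P.η_PA) haP) (mul_mem P.η_PA P.x_PA)
  generalize (1 - x * η) * a * (1 - η * x) = a₀ at *
  generalize x * η * a * (η * x) = a₂ at *
  have c1 : tau a₂ η * (x * η * x) = a₂ := by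
    rw [← ha₂]
    simp [tau, add_mul, mul_assoc, h1, h3, h4]
  have c2 : x * η * x * tau a₂ η = a₂ := by
    rw [← ha₂]
    simp [tau, mul_add, mul_assoc, h1, h3, h4]
  have c3 : Commute (tau a₂ η) (x * η * x) := c1.trans c2.symm
  have c4 : Commute (tau a₂ η) η := by
    change tau a₂ η * η = η * tau a₂ η
    simp [tau, mul_add, add_mul, mul_assoc, h2, sq]
  have ht : ∀ i j, Commute (tau a₂ η) (![![x * η, x * η * x], ![η, η * x]] i j) := by
    intro i j
    have c5 := c3.mul_right c4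
    have c6 := c4.mul_right c3
    rw [mul_assoc (x * η), P.e_idem] at c5
    rw [← mul_assoc, h4] at c6
    fin_cases i <;> fin_cases j
    exacts [c5, c3, c4, c6]
  have hN : ∀ m : SL(2, (ZMod p)[X]),
      (1 - (x - x * η * x)) * LP20_phi hu ht m * (1 + (x - x * η * x)) = LP20_phi hu ht m :=
    LP20_phi_conj hu ht (fun i j => by
      fin_cases i <;> fin_cases j <;> simp [sub_mul, mul_assoc, h1, h3, h4, P.xx])
      (fun i j => by fin_cases i <;> fin_cases j <;> simp [mul_sub, mul_assoc, h1, h3, h4, P.xx])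
      (by simp [mul_sub, sub_mul, mul_assoc, h1, P.xx])
  have hN' : ∀ m : SL(2, (ZMod p)[X]),
      (1 + (x - x * η * x)) * LP20_phi hu ht m * (1 - (x - x * η * x)) = LP20_phi hu ht m :=
    fun m => by
      have e1 : (1 + (x - x * η * x)) * (1 - (x - x * η * x)) = 1 := by
        simp [mul_sub, sub_mul, add_mul, mul_assoc, h1, P.xx]
      conv_lhs => rw [← hN m]
      rw [← mul_assoc, ← mul_assoc, e1, one_mul, mul_assoc, e1, mul_one]
  have hb : ∀ (m : SL(2, (ZMod p)[X])) (z : End (ZMod p) V),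
      LP20_phi hu ht m * ((1 + a₀) * z) = (1 + a₀) * (LP20_phi hu ht m * z) := fun m z => by
    have e0 := LP20_phi_conj hu ht (N := a₀) (fun i j => by
      fin_cases i <;> fin_cases j <;> simp [← mul_assoc, k1, k3])
      (fun i j => by fin_cases i <;> fin_cases j <;> simp [mul_assoc, k2, k4]) k5 m
    have e1 : (1 + a₀) * (1 - a₀) = 1 := by
      rw [add_mul, one_mul, mul_sub, mul_one, k5, sub_zero, sub_add_cancel]
    conv_rhs => rw [← e0]
    rw [← mul_assoc, ← mul_assoc, ← mul_assoc, ← mul_assoc, e1, one_mul]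
  have hb3 : ∀ z : End (ZMod p) V, (1 + a₀) * ((1 + a₀) * ((1 + a₀) * z)) = z := fun z => by
    have e1 : (1 + a₀) * (1 + a₀) * (1 + a₀) = 1 + (3 : ZMod p) • a₀ := by
      simp only [mul_add, add_mul, mul_one, one_mul, k5, zero_mul]
      module
    rw [← mul_assoc, ← mul_assoc, e1, h30, zero_smul, add_zero, one_mul]
  have hb1 : ∀ z : End (ZMod p) V, (1 + x) * ((1 + a₀) * z) = (1 + a₀) * ((1 + x) * z) := fun z => by
    rw [← mul_assoc, ← mul_assoc]
    simp only [mul_add, add_mul, mul_one, one_mul, k3, k4]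
    abel
  have hb2 : ∀ z : End (ZMod p) V, (1 - x) * ((1 + a₀) * z) = (1 + a₀) * ((1 - x) * z) := fun z => by
    rw [← mul_assoc, ← mul_assoc]
    simp only [mul_add, add_mul, mul_sub, sub_mul, mul_one, one_mul, k3, k4]
    abel
  obtain ⟨u₀, hu₀, e₀⟩ := P.r0
  have e₀' := ρ_inv e₀ P.xx
  obtain ⟨w₀, hw₀, ew⟩ := P.rw
  let I : SL(2, (ZMod p)[X]) := ⟨!![0, 1; -1, 0], by simp [Matrix.det_fin_two]⟩
  have eI : D.ρ w₀ = LP20_phi hu ht I := by
    rw [ew, LP20_phi_apply hu ht (q := 1) (M := !![-1, 1; -1, -1])]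
    · simp [LP20_psi, Fin.sum_univ_two]
      abel
    · ext i j
      fin_cases i <;> fin_cases j <;> simp [I]
  have eI' : D.ρ w₀⁻¹ = LP20_phi hu ht I⁻¹ :=
    LPei0_inv eI (by rw [← map_mul, mul_inv_cancel, map_one])
  have eu : LP20_phi hu ht (xU 1 : SL(2, (ZMod p)[X])) = 1 + x * η * x := by
    rw [LP20_phi_apply hu ht (q := 1) (M := !![0, 1; 0, 0])]
    · simp [LP20_psi, Fin.sum_univ_two]
    · ext i j
      fin_cases i <;> fin_cases j <;> simp [xU]
  have eu' : LP20_phi hu ht ((xU 1)⁻¹ : SL(2, (ZMod p)[X])) = 1 - x * η * x := by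
    rw [LP20_phi_apply hu ht (q := 1) (M := !![0, -1; 0, 0])]
    · simp [LP20_psi, Fin.sum_univ_two, sub_eq_add_neg]
    · rw [Matrix.SpecialLinearGroup.coe_inv]
      ext i j
      fin_cases i <;> fin_cases j <;> simp [xU, Matrix.adjugate_fin_two]
  have f1 : 1 + x = (1 + x * η * x) * (1 + (x - x * η * x)) := by
    simp only [mul_add, add_mul, mul_sub, mul_one, one_mul, mul_assoc, h1, P.xx, mul_zero]
    abel
  have f2 : 1 - x = (1 - (x - x * η * x)) * (1 - x * η * x) := by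
    simp only [mul_sub, sub_mul, mul_one, one_mul, mul_assoc, h1, mul_zero]
    abel
  have f3 : 1 - x = (1 - x * η * x) * (1 - (x - x * η * x)) := by
    simp only [mul_sub, sub_mul, mul_one, one_mul, mul_assoc, h1, P.xx, mul_zero]
    abel
  have f4 : 1 + x = (1 + (x - x * η * x)) * (1 + x * η * x) := by
    simp only [mul_add, add_mul, sub_mul, mul_one, one_mul, mul_assoc, h1, mul_zero]
    abel
  have key := NP0_avg h30 {m | ∃ g ∈ D.Q y, D.ρ g = (1 + a₀) * LP20_phi hu ht m} (I := I) rfl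
    ⟨g₀, hg₀, by
      rw [eg₀, LP20_phi_apply hu ht LP20_xU]
      simp [LP20_psi, Fin.sum_univ_two, c1, mul_add, add_mul, k6]
      abel⟩
    (fun m₁ ⟨g₁, q₁, e₁⟩ m₂ ⟨g₂, q₂, e₂⟩ m₃ ⟨g₃, q₃, e₃⟩ m₄ ⟨g₄, q₄, e₄⟩ =>
      ⟨_, mul_mem (mul_mem (mul_mem q₁ q₂) q₃) q₄, by
        simp only [map_mul, e₁, e₂, e₃, e₄, mul_assoc, hb, hb3]⟩)
    (fun m ⟨g, q, e⟩ => ⟨_, D.Q_conj_St hw₀ q, by
      simp only [map_mul, e, eI, eI', mul_assoc, hb]⟩)
    (fun m ⟨g, q, e⟩ => ⟨_, D.Q_conj_St hu₀ q, by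
      rw [map_mul, map_mul, e, e₀, e₀', hb1, map_mul, map_mul, eu, eu', f1, f2]
      conv_rhs => rw [← hN' m]
      simp only [mul_assoc]⟩)
    (fun m ⟨g, q, e⟩ => ⟨_, D.Q_conj_St (inv_mem hu₀) q, by
      rw [inv_inv, map_mul, map_mul, e, e₀, e₀', hb2, map_mul, map_mul, eu, eu', f3, f4]
      conv_rhs => rw [← hN m]
      simp only [mul_assoc]⟩)
  have htP : tau a₂ η ∈ D.PA y := add_mem (mul_mem ha₂P P.η_PA) (mul_mem P.η_PA ha₂P)
  have hψ : ∀ M : Matrix (Fin 2) (Fin 2) (ZMod p)[X],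
      LP20_psi (tau a₂ η) ![![x * η, x * η * x], ![η, η * x]] M ∈ D.PA y := fun M => by
    refine sum_mem fun i _ => sum_mem fun j _ => mul_mem
      (Algebra.adjoin_le (Set.singleton_subset_iff.2 htP) (aeval_mem_adjoin_singleton _ _)) ?_
    fin_cases i <;> fin_cases j
    exacts [mul_mem P.x_PA P.η_PA, mul_mem (mul_mem P.x_PA P.η_PA) P.x_PA, P.η_PA,
      mul_mem P.η_PA P.x_PA]
  have hr : ∀ r, ∃ g ∈ D.Q y, ∀ v ∈ D.Vb y r, D.ρ g v = (1 + a₀) v := fun r => by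
    obtain ⟨n, hn⟩ := P.tau_nil ⟨g₀, hg₀, eg₀⟩ r
    have e1 : tau (a₂ + a₀) η = tau a₂ η := by
      rw [tau, tau, add_mul, mul_add, k1, k2, add_zero, add_zero]
    rw [e1] at hn
    obtain ⟨m, ⟨g, q, e⟩, M, eM⟩ := key n
    refine ⟨g, q, fun v hv => ?_⟩
    rw [e, LP20_phi_apply hu ht eM, map_pow, aeval_X, End.mul_apply, LinearMap.add_apply _ (_ * _),
      End.mul_apply, (Submodule.mem_bot _).1 (hn _ (hψ M r v hv)), add_zero, End.one_apply]
  choose g hg eg using hr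
  obtain ⟨g', hg', eg'⟩ := D.cloQ y g hg fun r r' hr v hv => by
    rw [eg r v hv, eg r' v (D.Vb_mono y hr hv)]
  exact ⟨g', hg', D.ext_Vb y fun k v hv => by rw [eg' k v hv, eg k v hv]⟩

theorem P2_mem (hx : Fr Z C x) {a : End (ZMod p) V} (ha : a ∈ D.RL y h) :
    x * η * a * (η * x) ∈ D.RL y h := by
  simpa using sub_mem (P.P02_mem hx ha) (P.P0_mem hx ha)

end Partner

end LD

end Pool.Agent.Lib.MP_bf45aa_co
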