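import Pool.Agent.Lib.PSV.LPart1
import Pool.Agent.Lib.PSV.LPei1

set_option autoImplicit false
set_option linter.unusedSectionVars false

/-! Thin defects of the same type are conjugate. -/

namespace Pool.Agent.Lib.MP_bf45aa_co

open Subgroup Module

/-- `a s a⁻¹ = s⁻¹` for `s = a⁻¹ b`; take `m = k + 1`. -/
theorem dihedral_conj {G : Type*} [Group G] {a b : G} (h : a * a = b * b) {k : ℕ}
    (hk : (a⁻¹ * b) ^ (2 * k + 1) = 1) :
    (a⁻¹ * b) ^ (k + 1) * b * ((a⁻¹ * b) ^ (k + 1))⁻¹ = a := by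
  have h1 : SemiconjBy a (a⁻¹ * b)⁻¹ (a⁻¹ * b) := by
    calc a * (a⁻¹ * b)⁻¹ = a * (b⁻¹ * a) := by group
      _ = a⁻¹ * (a * a) * (b⁻¹ * a) := by group
      _ = a⁻¹ * b * a := by rw [h]; group
  have h2 := (h1.pow_right (k + 1)).eq
  generalize hs : a⁻¹ * b = s at *
  have hb : b = a * s := by rw [← hs, mul_inv_cancel_left]
  calc s ^ (k + 1) * b * (s ^ (k + 1))⁻¹ = s ^ (k + 1) * a * (s * (s ^ (k + 1))⁻¹) := by
        rw [hb]; simp only [mul_assoc]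
    _ = a * (s ^ (2 * k + 1))⁻¹ := by rw [← h2]; group
    _ = a := by rw [hk, inv_one, mul_one]

theorem NType0_step {G : Type*} [Group G] (Q : Subgroup G) [Q.Normal]
    (hQ : ∀ q ∈ Q, ∃ k : ℕ, q ^ (2 * k + 1) = 1) {a b : G} (h : a * a = b * b)
    (hab : QuotientGroup.mk' Q a = QuotientGroup.mk' Q b) :
    ∃ q ∈ Q, q * b * q⁻¹ = a ∧ ∀ c, Commute (a⁻¹ * b) c → q * c * q⁻¹ = c := by
  have h1 : a⁻¹ * b ∈ Q := QuotientGroup.eq.1 hab
  obtain ⟨k, hk⟩ := hQ _ h1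
  exact ⟨_, pow_mem h1 (k + 1), dihedral_conj h hk, fun c hc => by
    rw [(hc.pow_left (k + 1)).eq, mul_inv_cancel_right]⟩

theorem NType0_mk {G : Type*} [Group G] (Q : Subgroup G) [Q.Normal] {q : G} (hq : q ∈ Q) (a : G) :
    QuotientGroup.mk' Q (q * a * q⁻¹) = QuotientGroup.mk' Q a := by
  have h : QuotientGroup.mk' Q q = 1 := (QuotientGroup.eq_one_iff q).2 hq
  rw [map_mul, map_mul, map_inv, h, inv_one, one_mul, mul_one]

/-- Three applications of `dihedral_conj`: to `i i`, `i' i'` (squares `1`); then to `i` and the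
conjugate of `i'` (same squares); then to `j` and the conjugate of `j'` (squares `i i`), where
`s = j⁻¹ j'` commutes with `i` since both invert `i`. All `s` lie in `Q`. -/
theorem quat_conj {G : Type*} [Group G] (Q : Subgroup G) [Q.Normal]
    (hQ : ∀ q ∈ Q, ∃ k : ℕ, q ^ (2 * k + 1) = 1) {i j i' j' : G} (h1 : i * i * (i * i) = 1)
    (h2 : j * j = i * i) (h3 : i * j * i = j) (h1' : i' * i' * (i' * i') = 1)
    (h2' : j' * j' = i' * i') (h3' : i' * j' * i' = j') (hi : i⁻¹ * i' ∈ Q) (hj : j⁻¹ * j' ∈ Q) :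
    ∃ q ∈ Q, q * i' * q⁻¹ = i ∧ q * j' * q⁻¹ = j := by
  have c : ∀ q a b : G, q * a * q⁻¹ * (q * b * q⁻¹) = q * (a * b) * q⁻¹ := fun q a b => by group
  have s3 : ∀ j' : G, j' * j' = i * i → i * j' * i = j' →
      QuotientGroup.mk' Q j = QuotientGroup.mk' Q j' →
      ∃ q ∈ Q, q * i * q⁻¹ = i ∧ q * j' * q⁻¹ = j := fun j' a2 a3 aj => by
    obtain ⟨q, hq, e1, e2⟩ := NType0_step Q hQ (h2.trans a2.symm) aj
    refine ⟨q, hq, e2 i ?_, e1⟩
    calc j⁻¹ * j' * i = j⁻¹ * i⁻¹ * (i * j' * i) := by group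
      _ = i * (i * j * i)⁻¹ * j' := by rw [a3]; group
      _ = i * (j⁻¹ * j') := by rw [h3, mul_assoc]
  have s2 : ∀ i' j' : G, i * i = i' * i' → j' * j' = i' * i' → i' * j' * i' = j' →
      QuotientGroup.mk' Q i = QuotientGroup.mk' Q i' →
      QuotientGroup.mk' Q j = QuotientGroup.mk' Q j' →
      ∃ q ∈ Q, q * i' * q⁻¹ = i ∧ q * j' * q⁻¹ = j := fun i' j' a1 a2 a3 ai aj => by
    obtain ⟨q, hq, e1, -⟩ := NType0_step Q hQ a1 ai
    obtain ⟨q', hq', e2, e3⟩ := s3 (q * j' * q⁻¹) (by rw [← e1, c, c, a2])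
      (by rw [← e1, c, c, a3]) (by rw [NType0_mk Q hq, aj])
    refine ⟨q' * q, mul_mem hq' hq, ?_, ?_⟩
    · rw [← e2, ← e1]; group
    · rw [← e3]; group
  have ai : QuotientGroup.mk' Q i = QuotientGroup.mk' Q i' := QuotientGroup.eq.2 hi
  have aj : QuotientGroup.mk' Q j = QuotientGroup.mk' Q j' := QuotientGroup.eq.2 hj
  obtain ⟨q, hq, e1, -⟩ := NType0_step Q hQ (h1.trans h1'.symm) (by rw [map_mul, map_mul, ai])
  obtain ⟨q', hq', e2, e3⟩ := s2 (q * i' * q⁻¹) (q * j' * q⁻¹) (by rw [c, e1])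
    (by rw [c, c, h2']) (by rw [c, c, h3']) (by rw [NType0_mk Q hq, ai])
    (by rw [NType0_mk Q hq, aj])
  refine ⟨q' * q, mul_mem hq' hq, ?_, ?_⟩
  · rw [← e2]; group
  · rw [← e3]; group

set_option linter.unusedSimpArgs false in
/-- The quaternion relations in characteristic three. -/
theorem quat_ring {A : Type*} [Ring A] (h3 : (3 : A) = 0) {x η I J : A} (xx : x * x = 0)
    (sq : η * η = 0) (yxy : η * x * η = η) (hI : I = 1 - x * η - η * x + x * η * x - η)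
    (hJ : J = (1 + x) * I * (1 - x)) :
    I * I * (I * I) = 1 ∧ J * J = I * I ∧ I * J * I = J ∧ x * η * x = -(J * I + J + I) := by
  have t3 : ∀ a : A, a + a + a = 0 := fun a => by
    rw [← zero_mul a, ← h3]
    noncomm_ring
  have r1 : ∀ a, x * (x * a) = 0 := fun a => by rw [← mul_assoc, xx, zero_mul]
  have r2 : ∀ a, η * (η * a) = 0 := fun a => by rw [← mul_assoc, sq, zero_mul]
  have r3 : ∀ a, η * (x * (η * a)) = η * a := fun a => by rw [← mul_assoc, ← mul_assoc, yxy]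
  have r4 : η * (x * η) = η := by rw [← mul_assoc, yxy]
  have eJ : J = 1 - x * η - x * η + x * η * x + x * η * x - η := by
    rw [hJ, hI]
    simp only [mul_add, add_mul, mul_sub, sub_mul, mul_one, one_mul, mul_assoc, r1, r2, r3, r4, sq,
      xx, mul_zero]
    abel
  have eI : I * I = 1 - x * η - x * η - η * x - η * x := by
    rw [hI]
    simp only [mul_add, add_mul, mul_sub, sub_mul, mul_one, one_mul, mul_assoc, r1, r2, r3, r4, sq,
      xx, mul_zero]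
    abel
  have eJI : J * I = 1 - x * η - x * η - x * η - η * x - η * x - x * η * x - η := by
    rw [eJ, hI]
    simp only [mul_add, add_mul, mul_sub, sub_mul, mul_one, one_mul, mul_assoc, r1, r2, r3, r4, sq,
      xx, mul_zero]
    abel
  refine ⟨?_, ?_, ?_, ?_⟩
  · rw [eI]
    simp only [mul_add, add_mul, mul_sub, sub_mul, mul_one, one_mul, mul_assoc, r1, r2, r3, r4, sq,
      xx, mul_zero]
    abel
  · rw [eI, eJ]
    simp only [mul_add, add_mul, mul_sub, sub_mul, mul_one, one_mul, mul_assoc, r1, r2, r3, r4, sq,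
      xx, mul_zero]
    abel
  · rw [mul_assoc, eJI, ← add_zero J, ← t3 (η - x * η * x), eJ, hI]
    simp only [mul_add, add_mul, mul_sub, sub_mul, mul_one, one_mul, mul_assoc, r1, r2, r3, r4, sq,
      xx, mul_zero]
    abel
  · rw [eJI, ← add_zero (-_), ← t3 (1 - x * η - x * η - η * x + x * η * x - η), eJ, hI]
    abel

namespace LD

variable {p : ℕ} [Fact p.Prime] {H X V : Type} [Group H] [MulAction H X] [AddCommGroup V]
  [Module (ZMod p) V] {D : LD p H X V}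

/-- `ρ q - 1` has rank at most `2 ν` on `Vb y (2 r)`; `q ∈ Q y ≤ Kn 1 y` (`Q_le`, `nbr`); `thick`. -/
theorem thin_eq {y : X} {g q : H} (hq : q ∈ D.Q y) {a b : End (ZMod p) V} {ν r : ℕ}
    (h : ∀ v ∈ D.Vb y (2 * r), D.ρ (g * q) v - D.ρ g v = b v - a v)
    (ha : rk a (D.Vb y (2 * r)) ≤ ν) (hb : rk b (D.Vb y (2 * r)) ≤ ν) (hr : 4 * ν + 4 ≤ r) :
    ∀ v ∈ D.Vb y r, a v = b v := by
  have h1 : rk (D.ρ q - 1) (D.Vb y (2 * r)) = rk (D.ρ g⁻¹ * (b - a)) (D.Vb y (2 * r)) :=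
    rk_congr fun v hv => by
      rw [End.mul_apply, LinearMap.sub_apply b, ← h v hv, map_sub, ← End.mul_apply,
        ← End.mul_apply, ← map_mul, ← map_mul, inv_mul_cancel_left, inv_mul_cancel, map_one,
        LinearMap.sub_apply]
  have h2 := (rk_mul_le_right (D.ρ g⁻¹) (b - a) (D.Vb y (2 * r))).trans (rk_sub_le b a _)
  obtain ⟨y', hy'⟩ := D.nbr y
  have h3 := D.thick hy' (D.Q_le_St y hq) ((mem_K1.1 (D.Q_le y hq)).2 y' hy') (r := r)
    (j := 2 * ν + 1) (R := 2 * r) (by omega) (by omega)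
  intro v hv
  have h4 := h v (D.Vb_mono y (by omega) hv)
  rw [map_mul, End.mul_apply, h3 v hv, sub_self] at h4
  exact (sub_eq_zero.1 h4.symm).symm

/-- Let `φ` be the homomorphism `(D.LPart1_res y (2 r)).toHomUnits` from `St H y` onto its range
`G`, and `Q̄` the image of `Q y` (normal by `Q_conj_St`, elements of order a power of `3` by
`Q_unip`). Apply `quat_conj` to the images of `w`, `u w u⁻¹`, `w'`, `u' w' u'⁻¹` (`quat_ring`,
`ρ_inv`): there is `q ∈ Q y` such that on `M = Vb y (2 r)` conjugation by `ρ q` takes `I'`, `J'` to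
`I`, `J`, hence `x' η' x'` to `x η x`. Now `q u' q⁻¹ = u q₁` with `q₁ ∈ Q y`, and
`ρ (u q₁) - ρ u = b - a` on `M` with `a = x - x η x`, `b = ρ q (x' - x' η' x') ρ q⁻¹`. By `thin_eq`
`a = b` on `Vb y r`, and `rk b (Vb y r) ≤ rk (x' - x' η' x') (Vb y r)` (`rk_mul_le_right`,
`rk_mul_le_left`). -/
theorem uniq3 (hp : p = 3) {y : X} {x η x' η' : End (ZMod p) V} (P : D.Partner y x η)
    (P' : D.Partner y x' η') {u w u' w' : H} (hu : u ∈ St H y) (hw : w ∈ St H y)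
    (eu : D.ρ u = 1 + x) (ew : D.ρ w = 1 - x * η - η * x + x * η * x - η)
    (eu' : D.ρ u' = 1 + x') (ew' : D.ρ w' = 1 - x' * η' - η' * x' + x' * η' * x' - η')
    (h1 : u⁻¹ * u' ∈ D.Q y) (h2 : w⁻¹ * w' ∈ D.Q y) {ν r : ℕ}
    (ha : rk (x - x * η * x) (D.Vb y (2 * r)) ≤ ν) (hb : rk (x' - x' * η' * x') (D.Vb y (2 * r)) ≤ ν)
    (hr : 4 * ν + 4 ≤ r) :
    rk (x - x * η * x) (D.Vb y r) ≤ rk (x' - x' * η' * x') (D.Vb y r) := by
  have hu' : u' ∈ St H y := by simpa using mul_mem hu (D.Q_le_St y h1)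
  have hw' : w' ∈ St H y := by simpa using mul_mem hw (D.Q_le_St y h2)
  have h3 : (3 : End (ZMod p) V) = 0 := by
    subst hp
    rw [← map_ofNat (algebraMap (ZMod 3) (End (ZMod 3) V)) 3, show (3 : ZMod 3) = 0 from rfl,
      map_zero]
  have ej : D.ρ (u * w * u⁻¹) = (1 + x) * D.ρ w * (1 - x) := by
    rw [map_mul, map_mul, ρ_inv eu P.xx, eu]
  have ej' : D.ρ (u' * w' * u'⁻¹) = (1 + x') * D.ρ w' * (1 - x') := by
    rw [map_mul, map_mul, ρ_inv eu' P'.xx, eu']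
  obtain ⟨a1, a2, a3, a4⟩ := quat_ring h3 P.xx P.sq P.yxy ew ej
  obtain ⟨b1, b2, b3, b4⟩ := quat_ring h3 P'.xx P'.sq P'.yxy ew' ej'
  obtain ⟨G, _, ψ, hs, hψ⟩ : ∃ (G : Type) (_ : Group G) (ψ : St H y →* G), Function.Surjective ψ ∧
      ∀ a b : St H y, ψ a = ψ b ↔ ∀ v ∈ D.Vb y (2 * r), D.ρ a v = D.ρ b v := by
    refine ⟨_, _, (D.LPart1_res y (2 * r)).toHomUnits.rangeRestrict,
      MonoidHom.rangeRestrict_surjective _, fun a b => ?_⟩
    rw [Subtype.ext_iff, Units.ext_iff, LinearMap.ext_iff]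
    exact ⟨fun h v hv => congrArg Subtype.val (h ⟨v, hv⟩), fun h v => Subtype.ext (h v v.2)⟩
  have hρ : ∀ a b : St H y, D.ρ a = D.ρ b → ψ a = ψ b := fun a b h =>
    (hψ a b).2 fun v _ => by rw [h]
  have hN : ((D.Q y).subgroupOf (St H y)).Normal :=
    ⟨fun q hq g => mem_subgroupOf.2 (D.Q_conj_St g.2 (mem_subgroupOf.1 hq))⟩
  have hN' := hN.map ψ hs
  have hj : u * w * u⁻¹ ∈ St H y := mul_mem (mul_mem hu hw) (inv_mem hu)
  have hj' : u' * w' * u'⁻¹ ∈ St H y := mul_mem (mul_mem hu' hw') (inv_mem hu')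
  have hjj : (u * w * u⁻¹)⁻¹ * (u' * w' * u'⁻¹) ∈ D.Q y := by
    have := D.Q_conj_St hu (mul_mem (mul_mem (D.Q_conj_St (inv_mem hw) h1) h2) (inv_mem h1))
    convert this using 1
    group
  obtain ⟨_, ⟨q, hq, rfl⟩, e1, e2⟩ := quat_conj (((D.Q y).subgroupOf (St H y)).map ψ)
    (i := ψ ⟨w, hw⟩) (j := ψ ⟨_, hj⟩) (i' := ψ ⟨w', hw'⟩) (j' := ψ ⟨_, hj'⟩)
    (by
      rintro _ ⟨q, hq, rfl⟩
      obtain ⟨n, hn⟩ := D.Q_unip y (2 * r) q (mem_subgroupOf.1 hq)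
      obtain ⟨k, hk⟩ : Odd (p ^ n) := Odd.pow (by rw [hp]; decide)
      refine ⟨k, ?_⟩
      rw [← hk, ← map_pow, ← map_one ψ, hψ]
      intro v hv
      simpa using hn v hv)
    (by rw [← map_one ψ]; simp only [← map_mul]; exact hρ _ _ (by simpa using a1))
    (by simp only [← map_mul]; exact hρ _ _ (by simpa only [coe_mul, map_mul D.ρ] using a2))
    (by simp only [← map_mul]; exact hρ _ _ (by simpa only [coe_mul, map_mul D.ρ] using a3))
    (by rw [← map_one ψ]; simp only [← map_mul]; exact hρ _ _ (by simpa using b1))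
    (by simp only [← map_mul]; exact hρ _ _ (by simpa only [coe_mul, map_mul D.ρ] using b2))
    (by simp only [← map_mul]; exact hρ _ _ (by simpa only [coe_mul, map_mul D.ρ] using b3))
    ⟨⟨w, hw⟩⁻¹ * ⟨w', hw'⟩, mem_subgroupOf.2 h2, by rw [map_mul, map_inv]⟩
    ⟨⟨_, hj⟩⁻¹ * ⟨_, hj'⟩, mem_subgroupOf.2 hjj, by rw [map_mul, map_inv]⟩
  have e3 : ψ q * (ψ ⟨_, hj'⟩ * ψ ⟨w', hw'⟩) * (ψ q)⁻¹ = ψ ⟨_, hj⟩ * ψ ⟨w, hw⟩ := by
    rw [← e1, ← e2]
    group
  simp only [← map_inv, ← map_mul, hψ, coe_mul, coe_inv] at e1 e2 e3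
  have hq' : (q : H) ∈ D.Q y := mem_subgroupOf.1 hq
  have e4 : ∀ v ∈ D.Vb y (2 * r), (D.ρ q * (x' * η' * x' * D.ρ (q : H)⁻¹)) v = (x * η * x) v := by
    intro v hv
    have c1 := e1 v hv
    have c2 := e2 v hv
    have c3 := e3 v hv
    rw [map_mul, map_mul] at c1 c2
    rw [map_mul, map_mul, map_mul, map_mul D.ρ (u * w * u⁻¹)] at c3
    rw [a4, b4]
    simp only [End.mul_apply, LinearMap.neg_apply, LinearMap.add_apply, map_neg, map_add] at c1 c2 c3 ⊢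
    rw [c1, c2, c3]
  have hb' : ∀ R, rk (D.ρ q * ((x' - x' * η' * x') * D.ρ (q : H)⁻¹)) (D.Vb y R) ≤
      rk (x' - x' * η' * x') (D.Vb y R) := fun R =>
    (rk_mul_le_right _ _ _).trans (rk_mul_le_left _ (D.ρ_mem_PA (inv_mem q.2) R))
  have hq₁ : u⁻¹ * q * u⁻¹⁻¹ * (u⁻¹ * u') * (q : H)⁻¹ ∈ D.Q y :=
    mul_mem (mul_mem (D.Q_conj_St (inv_mem hu) hq') h1) (inv_mem hq')
  refine (rk_congr (thin_eq (g := u) hq₁ (fun v hv => ?_) ha ((hb' _).trans hb) hr)).le.trans (hb' r)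
  rw [show u * (u⁻¹ * q * u⁻¹⁻¹ * (u⁻¹ * u') * (q : H)⁻¹) = q * (u' * (q : H)⁻¹) by group,
    map_mul, map_mul, eu, eu', add_mul, mul_add, one_mul, D.ρ_mul_inv, sub_mul, mul_sub]
  simp only [LinearMap.add_apply, LinearMap.sub_apply, e4 v hv]
  abel

end LD

end Pool.Agent.Lib.MP_bf45aa_co
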