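import Pool.Agent.Lib.PSV.LChain
import Pool.Agent.Lib.PSV.NEnt

set_option autoImplicit false
set_option linter.unusedSectionVars false

/-! The entropy inequality applied to a chain with thin defects. -/

namespace Pool.Agent.Lib.MP_bf45aa_co

open Subgroup Module

/-- Otherwise `Z * G ≤ ψ Z - ψ 0`. -/
theorem exists_small_step (ψ : ℕ → ℕ) {Z G : ℕ} (h : ψ Z < ψ 0 + Z * G) :
    ∃ i < Z, ψ (i + 1) < ψ i + G := by
  by_contra hc
  push Not at hc
  have key : ∀ n ≤ Z, ψ 0 + n * G ≤ ψ n := by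
    intro n
    induction n with
    | zero => simp
    | succ n ih =>
      intro hn
      have h1 := ih (by omega)
      have h2 := hc n (by omega)
      rw [add_mul, one_mul]
      omega
  exact absurd (key Z le_rfl) (not_le.2 h)

namespace LD

variable {p : ℕ} [Fact p.Prime] {H X V : Type} [Group H] [MulAction H X] [AddCommGroup V]
  [Module (ZMod p) V] {D : LD p H X V}

/-- Induction on `j` with `layer_ne`: `A ⊔ (Vb y (k + 2 j)).map x ≤ Vb y (k + 2 j)`, and some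
`v ∈ Vb y (k + 2 j + 2)` has `x v ∉ Vb y (k + 2 j)`. -/
theorem Bd.layers {y : X} {x : End (ZMod p) V} (h : D.Bd y x) {A : Submodule (ZMod p) V} {k : ℕ}
    (hA : A ≤ D.Vb y k) (j : ℕ) : j + finrank (ZMod p) A ≤
      finrank (ZMod p) (A ⊔ (D.Vb y (k + 2 * j)).map x : Submodule (ZMod p) V) := by
  obtain ⟨u, y', b1, b2, b3, b4, b5⟩ := h
  have hx : x ∈ D.PA y := D.mem_PA_of_real (mem_St.2 b2) b5
  have hle : ∀ j, A ⊔ (D.Vb y (k + 2 * j)).map x ≤ D.Vb y (k + 2 * j) := fun j =>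
    sup_le (hA.trans (D.Vb_mono y (by omega))) (Submodule.map_le_iff_le_comap.2 (hx _))
  have hfin : ∀ j, Module.Finite (ZMod p) (A ⊔ (D.Vb y (k + 2 * j)).map x : Submodule (ZMod p) V) :=
    fun j => Submodule.finiteDimensional_of_le (hle j)
  induction j with
  | zero =>
    have := hfin 0
    rw [zero_add]
    exact finrank_mono' le_sup_left
  | succ j ih =>
    have := hfin (j + 1)
    obtain ⟨v, hv, h4⟩ := D.layer_ne b1 b2 b3 b4 (k + 2 * j)
    rw [b5, LinearMap.add_apply, End.one_apply, add_sub_cancel_left] at h4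
    have hlt : A ⊔ (D.Vb y (k + 2 * j)).map x < A ⊔ (D.Vb y (k + 2 * (j + 1))).map x :=
      lt_of_le_of_ne (sup_le_sup_left (Submodule.map_mono (D.Vb_mono y (by omega))) _) fun e =>
        h4 (hle j (e.ge (Submodule.mem_sup_right ⟨v, hv, rfl⟩)))
    have h5 := Submodule.finrank_lt_finrank_of_lt hlt
    omega

variable {σ R M : ℕ} {y : ℕ → X} {x η : ℕ → End (ZMod p) V}

/-- Take `g` from `LChain_rev`. Let `ℓ = 6 m + 6`, `W = 2 ^ (m + 5)`, `T = W (6 m + 8)`, `Λ = 2 σ T`,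
`G = 4 (c + 1) Λ`, `Z = 2 m ν + 1`, `d i = x (g i) - x (g i) * η (g i) * x (g i)`. Apply
`exists_small_step` to `ψ z = finrank (Vb o (z Λ)) + G * ∑ i < m, rk (d i) (Vb o (z Λ))`
(`rank_le`; `Vb o (Z Λ) ≤ Vb (y t) r`; `c (Z Λ + 1) + G m ν < Z G`). For the resulting `z` the ranks of
all `d i` on `Vb o (z Λ)` and `Vb o ((z + 1) Λ)` agree, so the images agree
(`Submodule.eq_of_le_of_finrank_le`), and the dimension grows by less than `G`. Put
`Fil k = Vb o (z Λ + 2 σ k)`. Apply `exists_small_step` to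
`s ↦ W * finrank (Fil (2 ^ (m + 4) + s ℓ))`, `s ≤ W`, with step `G`: there is `a = 2 ^ (m + 4) + s ℓ`,
`s < W`, with `W * (finrank (Fil (a + ℓ)) - finrank (Fil a)) < G = W * 8 (c + 1) σ (6 m + 8)`. Then
`wentropy` with `D = 16 (c + 1) σ (6 m + 8)`, `r = σ (2 m + 2)` (`Bd.layers` with
`k = z Λ + 2 σ (a + 2 m + 1) + σ`, `Vb_near`); `hx`, `hy`, `rel` as in `Chain.bound` (old directory
`MP_bf45aa_co`, file `LChain`). Finally `6 m + 8 ≤ 4 (2 m + 2)`. -/
theorem Chain.window (h : D.Chain σ R M y x η) {I : Finset ℕ} (hI : I ⊆ Finset.range M)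
    {m ν r N : ℕ} (hm : m ≤ I.card) (hσ : 0 < σ)
    (hν : ∀ t ∈ I, rk (x t - x t * η t * x t) (D.Vb (y t) r) ≤ ν)
    (hr : (2 * m * ν + 2) * (2 * σ * (2 ^ (m + 5) * (6 * m + 8))) ≤ r) (hR : r ≤ R)
    (hN : 16 * (D.c + 1) * σ * (6 * m + 8) ≤ 2 ^ N) : m ≤ 64 * (D.c + 1) * (N + 2) := by
  obtain ⟨g, hg1, hg2⟩ := LChain_rev hm
  have hgm : ∀ i < m, g i < M := fun i hi => Finset.mem_range.1 (hI (hg1 i hi))
  obtain ⟨U, hU⟩ : ∃ U, U = 2 ^ (m + 4) := ⟨_, rfl⟩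
  have hW : 2 ^ (m + 5) = 2 * U := by rw [hU]; ring
  have hmU : m + 1 ≤ U := by
    have := Nat.lt_two_pow_self (n := m + 4)
    omega
  rw [hW] at hr
  obtain ⟨T, hT⟩ : ∃ T, T = 2 * U * (6 * m + 8) := ⟨_, rfl⟩
  obtain ⟨Λ, hΛ⟩ : ∃ Λ, Λ = 2 * σ * T := ⟨_, rfl⟩
  obtain ⟨G, hG⟩ : ∃ G, G = 4 * (D.c + 1) * Λ := ⟨_, rfl⟩
  rw [← hT, ← hΛ] at hr
  have hT0 : 1 ≤ T := by
    rw [hT]
    exact Nat.mul_pos (by omega) (by omega)
  have hΛ0 : 2 * σ ≤ Λ := by
    rw [hΛ]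
    exact Nat.le_mul_of_pos_right _ hT0
  have hr' : (2 * m * ν + 1) * Λ + Λ ≤ r := by
    rw [← add_one_mul]
    exact hr
  obtain ⟨d, hd⟩ : ∃ d : ℕ → End (ZMod p) V, ∀ i, d i = x (g i) - x (g i) * η (g i) * x (g i) :=
    ⟨_, fun _ => rfl⟩
  obtain ⟨z, hz, h1⟩ := exists_small_step (fun z => finrank (ZMod p) (D.Vb D.o (z * Λ)) +
      G * ∑ i ∈ Finset.range m, rk (d i) (D.Vb D.o (z * Λ))) (Z := 2 * m * ν + 1) (G := G) (by
    have a1 := D.rank_le D.o ((2 * m * ν + 1) * Λ)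
    have a2 : ∑ i ∈ Finset.range m, rk (d i) (D.Vb D.o ((2 * m * ν + 1) * Λ)) ≤ m * ν := by
      have := Finset.sum_le_card_nsmul (Finset.range m)
        (fun i => rk (d i) (D.Vb D.o ((2 * m * ν + 1) * Λ))) ν fun i hi => by
          have hi := Finset.mem_range.1 hi
          rw [hd]
          exact (rk_mono _ (D.Vb_near (h.near _ (hgm i hi)) (by omega))).trans (hν _ (hg1 i hi))
      rwa [Finset.card_range, smul_eq_mul] at this
    have a3 := Nat.mul_le_mul_left G a2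
    have a4 : (2 * m * ν + 1) * G = D.c * ((2 * m * ν + 1) * Λ) + G * (m * ν) +
        (D.c * ((2 * m * ν + 3) * Λ) + 4 * (m * ν * Λ) + 4 * Λ) := by
      rw [hG]
      ring
    have a5 : D.c * 1 ≤ D.c * ((2 * m * ν + 3) * Λ) :=
      Nat.mul_le_mul_left _ (Nat.mul_pos (by omega) (by omega))
    rw [mul_add] at a1
    omega)
  have hz1 : D.Vb D.o (z * Λ) ≤ D.Vb D.o ((z + 1) * Λ) :=
    D.Vb_mono _ (Nat.mul_le_mul_right _ (Nat.le_succ z))
  have h2 : ∀ i ∈ Finset.range m, rk (d i) (D.Vb D.o (z * Λ)) ≤ rk (d i) (D.Vb D.o ((z + 1) * Λ)) :=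
    fun i _ => rk_mono _ hz1
  have h3 := finrank_mono' hz1
  have h4 : ∑ i ∈ Finset.range m, rk (d i) (D.Vb D.o (z * Λ)) =
      ∑ i ∈ Finset.range m, rk (d i) (D.Vb D.o ((z + 1) * Λ)) := by
    refine le_antisymm (Finset.sum_le_sum h2) (not_lt.1 fun a1 => ?_)
    have a2 := Nat.mul_le_mul_left G (Nat.succ_le_of_lt a1)
    rw [Nat.mul_succ] at a2
    omega
  rw [← h4] at h1
  have h5 := (Finset.sum_eq_sum_iff_of_le h2).1 h4
  obtain ⟨Fil, hFil⟩ : ∃ Fil : ℕ → Submodule (ZMod p) V, ∀ k, Fil k = D.Vb D.o (z * Λ + 2 * σ * k) :=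
    ⟨_, fun _ => rfl⟩
  have hF : Monotone Fil := fun k k' hk => by
    rw [hFil, hFil]
    exact D.Vb_mono _ (Nat.add_le_add_left (Nat.mul_le_mul_left _ hk) _)
  have fd : ∀ k, Module.Finite (ZMod p) (Fil k) := fun k => by
    rw [hFil]
    exact D.fd _ _
  have hF0 : Fil 0 = D.Vb D.o (z * Λ) := by rw [hFil, mul_zero, add_zero]
  have hFT : Fil T = D.Vb D.o ((z + 1) * Λ) := by rw [hFil, ← hΛ, add_one_mul]
  have hT' : T = 2 * U * (6 * m + 6) + 4 * U := by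
    rw [hT]
    ring
  obtain ⟨s, hs, h6⟩ := exists_small_step
      (fun s => 2 * U * finrank (ZMod p) (Fil (U + s * (6 * m + 6)))) (Z := 2 * U) (G := G) (by
    rw [← mul_add]
    refine Nat.mul_lt_mul_of_pos_left ?_ (by omega)
    have a1 := finrank_mono' (hF (show U + 2 * U * (6 * m + 6) ≤ T by omega))
    have a2 := finrank_mono' (hF (Nat.zero_le (U + 0 * (6 * m + 6))))
    rw [hFT] at a1
    rw [hF0] at a2
    omega)
  obtain ⟨a, ha⟩ : ∃ a, a = U + s * (6 * m + 6) := ⟨_, rfl⟩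
  have hG' : G = 2 * U * (8 * (D.c + 1) * σ * (6 * m + 8)) := by
    rw [hG, hΛ, hT]
    ring
  rw [show U + (s + 1) * (6 * m + 6) = a + 6 * m + 6 by rw [ha]; ring, ← ha, hG', ← mul_add] at h6
  have h7 := Nat.lt_of_mul_lt_mul_left h6
  have h8 : (s + 1) * (6 * m + 6) ≤ 2 * U * (6 * m + 6) := Nat.mul_le_mul_right _ hs
  rw [add_one_mul] at h8
  have hsh : ∀ k, z * Λ + 2 * σ * k + 2 * σ ≤ z * Λ + 2 * σ * (k + 1) := fun k => by
    rw [mul_add, mul_one, add_assoc]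
  have hzR : (z + 1) * Λ ≤ R := (Nat.mul_le_mul_right _ hz).trans (by omega)
  have key := wentropy Fil hF fd m T a N (σ * (2 * m + 2)) (16 * (D.c + 1) * σ * (6 * m + 8))
    (fun i => x (g i)) (fun i => η (g i))
    (fun i hi k v hv => by
      rw [hFil] at hv ⊢
      exact D.PA_shift (h.par _ (hgm i hi)).x_PA (h.near _ (hgm i hi)) (hsh k) hv)
    (fun i hi k v hv => by
      rw [hFil] at hv ⊢
      exact D.PA_shift (h.par _ (hgm i hi)).η_PA (h.near _ (hgm i hi)) (hsh k) hv)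
    (fun i hi => (h.par _ (hgm i hi)).yxy)
    (fun i k hik hk v hv => by
      rw [hFT] at hv
      have hv' : v ∈ D.Vb D.o R := D.Vb_mono _ hzR hv
      have a1 := h.p2 _ _ (hg2 i k hik hk) (hgm i (hik.trans hk)) v hv'
      have a2 := h.p0 _ _ (hg2 i k hik hk) (hgm i (hik.trans hk)) v hv'
      simp only [End.mul_apply, LinearMap.sub_apply, End.one_apply, map_sub] at a1 a2
      rw [a1, sub_zero, sub_sub, sub_eq_zero] at a2
      exact (add_comm _ _).trans a2.symm)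
    (fun i hi v hv => by
      rw [hFT] at hv
      have a1 := Submodule.eq_of_le_of_finrank_le (Submodule.map_mono (f := d i) hz1)
        (h5 i (Finset.mem_range.2 hi)).ge
      obtain ⟨v₀, a2, a3⟩ := a1.ge ⟨v, hv, rfl⟩
      rw [hd] at a3
      exact ⟨v₀, hF0 ▸ a2, a3.symm⟩)
    (by omega) (by omega)
    (by
      have : 16 * (D.c + 1) * σ * (6 * m + 8) = 2 * (8 * (D.c + 1) * σ * (6 * m + 8)) := by ring
      omega)
    hN
    (fun i hi => by
      have := fd (a + 2 * m + 1)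
      have := fd (a + 4 * m + 4)
      have a1 := (h.bd _ (hgm i hi)).layers (A := Fil (a + 2 * m + 1))
        (k := z * Λ + 2 * σ * (a + 2 * m + 1) + σ)
        (by rw [hFil]; exact D.Vb_near (h.near _ (hgm i hi)) le_rfl) (σ * (2 * m + 2))
      refine a1.trans (finrank_mono' (sup_le_sup_left (Submodule.map_mono ?_) _))
      rw [hFil]
      exact D.Vb_near (h.near _ (hgm i hi)).symm (le_of_eq (by ring)))
  refine Nat.le_of_mul_le_mul_right (key.trans ?_) (Nat.mul_pos hσ (by omega))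
  calc 16 * (D.c + 1) * σ * (6 * m + 8) * (N + 2)
      ≤ 16 * (D.c + 1) * σ * (4 * (2 * m + 2)) * (N + 2) :=
        Nat.mul_le_mul_right _ (Nat.mul_le_mul_left _ (by omega))
    _ = 64 * (D.c + 1) * (N + 2) * (σ * (2 * m + 2)) := by ring

end LD

end Pool.Agent.Lib.MP_bf45aa_co
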