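import Pool.Agent.Lib.PSV.LTW

set_option autoImplicit false

namespace Pool.Agent.Results.MP_bf45aa_co.OddPrime

open Pool.Agent.Lib.MP_bf45aa_co

/-- The local action `L = G_v^{Γ(v)}`: the permutations of the neighbourhood of `v` induced by
elements of `G` fixing `v`. -/
def localGroup {V : Type} (Γ : SimpleGraph V) (G : Subgroup (Γ ≃g Γ)) (v : V) :
    Subgroup (Equiv.Perm (Γ.neighborSet v)) where
  carrier := {σ | ∃ g ∈ G, g v = v ∧ ∀ y : Γ.neighborSet v, (σ y : V) = g y}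
  one_mem' := ⟨1, G.one_mem, rfl, fun _ => rfl⟩
  mul_mem' := by
    rintro σ τ ⟨g, hg, hv, h⟩ ⟨k, hk, kv, h'⟩
    exact ⟨g * k, G.mul_mem hg hk, by rw [RelIso.mul_apply, kv, hv],
      fun y => by rw [Equiv.Perm.mul_apply, h, h', RelIso.mul_apply]⟩
  inv_mem' := by
    rintro σ ⟨g, hg, hv, h⟩
    refine ⟨g⁻¹, G.inv_mem hg, g.injective (by rw [hv]; simp), fun y => g.injective ?_⟩
    rw [← h]; simp

/-- `K` is `p`-soluble: it has a subnormal series `K = N 0 ≥ N 1 ≥ ... ≥ N n = 1` each of whose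
factors is a `p`-group, has order prime to `p`, or is abelian. -/
def IsPSoluble {H : Type} [Group H] (p : ℕ) (K : Subgroup H) : Prop :=
  ∃ (N : ℕ → Subgroup H) (n : ℕ), N 0 = K ∧ N n = ⊥ ∧ ∀ i < n, N (i + 1) ≤ N i ∧
    (∀ g ∈ N i, ∀ a ∈ N (i + 1), g * a * g⁻¹ ∈ N (i + 1)) ∧
    ((∃ k : ℕ, (N (i + 1)).relIndex (N i) = p ^ k) ∨ ¬ p ∣ (N (i + 1)).relIndex (N i) ∨
      ∀ g ∈ N i, ∀ h ∈ N i, g * h * g⁻¹ * h⁻¹ ∈ N (i + 1))

/-- Some point stabiliser `L_ω` has a normal `p`-subgroup containing two different subgroups of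
order `p`, that is, `O_p(L_ω)` has at least two subgroups of order `p`. -/
def TwoSubgroupsOfOrderP {Ω : Type} (p : ℕ) (L : Subgroup (Equiv.Perm Ω)) : Prop :=
  ∃ (ω : Ω) (S : Subgroup (Equiv.Perm Ω)), (∀ s ∈ S, s ∈ L ∧ s ω = ω) ∧
    (∀ g ∈ L, g ω = ω → ∀ s ∈ S, g * s * g⁻¹ ∈ S) ∧ IsPGroup p S ∧
    ∃ A B : Subgroup (Equiv.Perm Ω), A ≤ S ∧ B ≤ S ∧ Nat.card A = p ∧ Nat.card B = p ∧ A ≠ B

/-- `L` has a transitive normal subgroup which is `p`-soluble. -/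
def HasPSolubleTransitiveNormal {Ω : Type} (p : ℕ) (L : Subgroup (Equiv.Perm Ω)) : Prop :=
  ∃ K : Subgroup (Equiv.Perm Ω), K ≤ L ∧ (∀ g ∈ L, ∀ k ∈ K, g * k * g⁻¹ ∈ K) ∧
    (∀ x y : Ω, ∃ k ∈ K, k x = y) ∧ IsPSoluble p K

section Aux

variable {V : Type} {Γ : SimpleGraph V} {G : Subgroup (Γ ≃g Γ)}

/-- The homomorphism from the vertex stabiliser onto the local action. -/
def loc (G : Subgroup (Γ ≃g Γ)) (v : V) : St G v →* Equiv.Perm (Γ.neighborSet v) where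
  toFun g :=
    { toFun := fun y => ⟨(g : G) • (y : V), by
        have := (g.1.1).map_rel_iff.2 y.2
        have h2 : g.1.1 v = v := g.2
        rw [h2] at this
        exact this⟩
      invFun := fun y => ⟨(g⁻¹ : St G v).1 • (y : V), by
        have := ((g⁻¹).1.1).map_rel_iff.2 y.2
        have h2 : (g⁻¹).1.1 v = v := (g⁻¹).2
        rw [h2] at this
        exact this⟩
      left_inv := fun y => Subtype.ext (inv_smul_smul (g : G) (y : V))
      right_inv := fun y => Subtype.ext (smul_inv_smul (g : G) (y : V)) }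
  map_one' := Equiv.ext fun _ => rfl
  map_mul' := fun _ _ => Equiv.ext fun _ => rfl

theorem loc_mem (v : V) (g : St G v) : loc G v g ∈ localGroup Γ G v :=
  ⟨g.1.1, g.1.2, g.2, fun _ => rfl⟩

theorem loc_surj {v : V} {σ : Equiv.Perm (Γ.neighborSet v)} (h : σ ∈ localGroup Γ G v) :
    ∃ g, loc G v g = σ := by
  obtain ⟨g, hg, hv, h⟩ := h
  exact ⟨⟨⟨g, hg⟩, hv⟩, Equiv.ext fun y => Subtype.ext (h y).symm⟩

theorem loc_eq_one {v : V} {g : St G v} : loc G v g = 1 ↔ (g : G) ∈ Kn G Γ 1 v := by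
  rw [mem_K1]
  exact ⟨fun h => ⟨g.2, fun y hy => congrArg Subtype.val (Equiv.congr_fun h ⟨y, hy⟩)⟩,
    fun h => Equiv.ext fun y => Subtype.ext (h.2 y y.2)⟩

/-- Preimage of a subgroup of the local action. -/
def pull (G : Subgroup (Γ ≃g Γ)) (v : V) (K : Subgroup (Equiv.Perm (Γ.neighborSet v))) :
    Subgroup G := (K.comap (loc G v)).map (St G v).subtype

theorem mem_pull {v : V} {K : Subgroup (Equiv.Perm (Γ.neighborSet v))} {g : G} :
    g ∈ pull G v K ↔ ∃ h : g ∈ St G v, loc G v ⟨g, h⟩ ∈ K :=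
  ⟨by rintro ⟨k, hk, rfl⟩; exact ⟨k.2, hk⟩, fun ⟨h, hk⟩ => ⟨⟨g, h⟩, hk, rfl⟩⟩

theorem hypA_of [Finite G] {v : V} {p : ℕ} (hp : p.Prime)
    (h : HasPSolubleTransitiveNormal p (localGroup Γ G v)) : HypA G Γ p v := by
  obtain ⟨K, k1, k2, k3, N, n, rfl, n2, n3⟩ := h
  have hconj : ∀ {A B : Subgroup (Equiv.Perm (Γ.neighborSet v))},
      (∀ g ∈ A, ∀ a ∈ B, g * a * g⁻¹ ∈ B) → pull G v A ≤ Nm (pull G v B) := by
    intro A B hAB
    refine le_Nm_of_conj fun g hg a ha => ?_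
    obtain ⟨g1, g2⟩ := mem_pull.1 hg
    obtain ⟨a1, a2⟩ := mem_pull.1 ha
    exact ⟨⟨g, g1⟩ * ⟨a, a1⟩ * ⟨g, g1⟩⁻¹, by
      rw [Subgroup.coe_comap, Set.mem_preimage, map_mul, map_mul, map_inv]
      exact hAB _ g2 _ a2, rfl⟩
  refine ⟨fun i => pull G v (N i), n, fun g hg => (mem_pull.1 hg).1,
    le_trans (fun g hg => mem_pull.2 ⟨hg, loc_mem v _⟩) (hconj k2), fun x y hx hy => ?_,
    fun i hi => ?_, fun g hg => ?_⟩
  · obtain ⟨k, hk, e⟩ := k3 ⟨x, hx⟩ ⟨y, hy⟩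
    obtain ⟨g, rfl⟩ := loc_surj (k1 hk)
    exact ⟨g, ⟨g, hk, rfl⟩, congrArg Subtype.val e⟩
  · obtain ⟨m1, m2, m3⟩ := n3 i hi
    have hpow : ∀ g ∈ pull G v (N i), g ^ (N (i + 1)).relIndex (N i) ∈ pull G v (N (i + 1)) := by
      intro g hg
      obtain ⟨g1, g2⟩ := mem_pull.1 hg
      have : ((N (i + 1)).subgroupOf (N i)).Normal := ⟨fun a ha g => m2 g g.2 a ha⟩
      have h1 := Subgroup.pow_index_mem ((N (i + 1)).subgroupOf (N i)) ⟨_, g2⟩
      exact ⟨⟨g, g1⟩ ^ (N (i + 1)).relIndex (N i), by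
        rw [Subgroup.coe_comap, Set.mem_preimage, map_pow]; exact h1, rfl⟩
    refine ⟨Subgroup.map_mono (Subgroup.comap_mono m1), hconj m2, ?_⟩
    rcases m3 with ⟨k, hk⟩ | m3 | m3
    · exact Or.inl fun g hg => ⟨k, hk ▸ hpow g hg⟩
    · exact Or.inr (Or.inl fun g hg =>
        ⟨_, ((Nat.Prime.coprime_iff_not_dvd hp).2 m3).symm, hpow g hg⟩)
    · refine Or.inr (Or.inr fun g hg a ha => ?_)
      obtain ⟨g1, g2⟩ := mem_pull.1 hg
      obtain ⟨a1, a2⟩ := mem_pull.1 ha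
      exact ⟨⟨g, g1⟩ * ⟨a, a1⟩ * ⟨g, g1⟩⁻¹ * ⟨a, a1⟩⁻¹, by
        rw [Subgroup.coe_comap, Set.mem_preimage, map_mul, map_mul, map_mul, map_inv, map_inv]
        exact m3 _ g2 _ a2, rfl⟩
  · obtain ⟨g1, g2⟩ := mem_pull.1 hg
    rw [n2, Subgroup.mem_bot] at g2
    exact loc_eq_one.1 g2

theorem rank_of [Finite G] (c : Ctx G Γ) {v w : V} (hw : Γ.Adj v w) {p : ℕ} [hp : Fact p.Prime]
    (h : ¬ TwoSubgroupsOfOrderP p (localGroup Γ G v)) :
    ∀ a ∈ RR G Γ p v w, ∀ b ∈ RR G Γ p v w, a ^ p ∈ Kn G Γ 1 v → b ^ p ∈ Kn G Γ 1 v →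
      a ∉ Kn G Γ 1 v → ∃ k : ℕ, (a ^ k)⁻¹ * b ∈ Kn G Γ 1 v := by
  intro a ha b hb h1 h2 h3
  by_cases h4 : b ∈ Kn G Γ 1 v
  · exact ⟨0, by simpa using h4⟩
  let a' : St G v := ⟨a, RR_le_St hw ha⟩
  let b' : St G v := ⟨b, RR_le_St hw hb⟩
  have oa : orderOf (loc G v a') = p := orderOf_eq_prime
    (by rw [← map_pow]; exact loc_eq_one.2 h1) fun e => h3 (loc_eq_one.1 e)
  have ob : orderOf (loc G v b') = p := orderOf_eq_prime
    (by rw [← map_pow]; exact loc_eq_one.2 h2) fun e => h4 (loc_eq_one.1 e)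
  have e : Subgroup.zpowers (loc G v a') = Subgroup.zpowers (loc G v b') := by
    by_contra hne
    refine h ⟨⟨w, hw⟩, ((RR G Γ p v w).subgroupOf (St G v)).map (loc G v), ?_, ?_,
      (c.RR_pg hw).comap_subtype.map _, _, _, Subgroup.zpowers_le.2 ⟨a', ha, rfl⟩,
      Subgroup.zpowers_le.2 ⟨b', hb, rfl⟩, by rw [Nat.card_zpowers, oa],
      by rw [Nat.card_zpowers, ob], hne⟩
    · rintro _ ⟨r, hr, rfl⟩
      exact ⟨loc_mem v r, Subtype.ext (RR_le_St' hw hr)⟩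
    · rintro σ hσ e _ ⟨r, hr, rfl⟩
      obtain ⟨g, rfl⟩ := loc_surj hσ
      have h5 : (g : G) * r * (g : G)⁻¹ ∈ RR G Γ p v w :=
        conj_mem_of_Nm (c.Nm_RR g.2 (congrArg Subtype.val e)) hr
      exact ⟨g * r * g⁻¹, h5, by simp⟩
  have h5 : loc G v b' ∈ Submonoid.powers (loc G v a') :=
    (isOfFinOrder_iff_pow_eq_one.2 ⟨p, hp.out.pos, by rw [← oa, pow_orderOf_eq_one]⟩
      ).mem_powers_iff_mem_zpowers.2 (e ▸ Subgroup.mem_zpowers _)
  obtain ⟨k, hk⟩ := h5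
  refine ⟨k, loc_eq_one (g := (a' ^ k)⁻¹ * b').1 ?_⟩
  rw [map_mul, map_inv, map_pow]
  exact inv_mul_eq_one.2 hk

theorem invol_of [Finite G] {v w : V} (h : QQ G Γ 2 v ⊓ QQ G Γ 2 w ≠ ⊥) :
    ∃ g ∈ G, g ≠ 1 ∧ g * g = 1 ∧ ∀ y : V, Γ.Adj v y ∨ Γ.Adj w y → g y = y := by
  have hp : IsPGroup 2 (QQ G Γ 2 v ⊓ QQ G Γ 2 w : Subgroup G) := (QQ_pg v).to_inf_left
  obtain ⟨n, hn⟩ := hp.exists_card_eq
  have hd : 2 ∣ Nat.card (QQ G Γ 2 v ⊓ QQ G Γ 2 w : Subgroup G) := by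
    rw [hn]
    refine dvd_pow_self 2 fun h0 => h ?_
    rw [h0, pow_zero] at hn
    exact Subgroup.card_eq_one.1 hn
  obtain ⟨g, hg⟩ := exists_prime_orderOf_dvd_card' 2 hd
  refine ⟨g.1.1, g.1.2, fun e => ?_, ?_, fun y hy => ?_⟩
  · have : g = 1 := Subtype.ext (Subtype.ext e)
    rw [this, orderOf_one] at hg
    exact absurd hg (by norm_num)
  · have := pow_orderOf_eq_one g
    rw [hg, pow_two] at this
    exact congrArg (fun x => x.1.1) this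
  · rcases hy with hy | hy
    · exact (mem_K1.1 (QQ_le_K v g.2.1)).2 y hy
    · exact (mem_K1.1 (QQ_le_K w g.2.2)).2 y hy

end Aux

/-- The bound on vertex stabilisers for locally semiprimitive pairs whose local action `L` satisfies:
if an involution fixes all neighbours of both ends of an edge and `O_2(L_ω)` has at least two
subgroups of order `2`, then `L` has a `2`-soluble transitive normal subgroup. -/
theorem result :
  ∃ f : ℕ → ℕ, ∀ (V : Type) [Fintype V] (Γ : SimpleGraph V) (G : Subgroup (Γ ≃g Γ)) (d : ℕ),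
    Γ.Connected →
    (∀ v : V, (Γ.neighborSet v).ncard = d) →
    (∀ u v x y : V, Γ.Adj u v → Γ.Adj x y → ∃ g ∈ G, g u = x ∧ g v = y) →
    (∀ v : V, ∀ N : Subgroup (Γ ≃g Γ),
        (∀ n ∈ N, n ∈ G ∧ n v = v) →
        (∀ h ∈ G, h v = v → ∀ n ∈ N, h * n * h⁻¹ ∈ N) →
        ((∀ x y : V, Γ.Adj v x → Γ.Adj v y → ∃ n ∈ N, n x = y) ∨
         (∀ n ∈ N, ∀ x : V, Γ.Adj v x → n x = x → ∀ y : V, Γ.Adj v y → n y = y))) →
    (∀ v w : V, Γ.Adj v w →
        (∃ g ∈ G, g ≠ 1 ∧ g * g = 1 ∧ ∀ y : V, Γ.Adj v y ∨ Γ.Adj w y → g y = y) →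
        TwoSubgroupsOfOrderP 2 (localGroup Γ G v) →
        HasPSolubleTransitiveNormal 2 (localGroup Γ G v)) →
    ∀ v : V, Nat.card {g : Γ ≃g Γ // g ∈ G ∧ g v = v} ≤ f d := by
  choose m hm1 hm using crit_bound_all
  refine ⟨fun d => cb d (m d + 2), fun V _ Γ G d hconn hd harc hsp hloc v => ?_⟩
  have : Finite (Γ ≃g Γ) := Finite.of_injective _ (DFunLike.coe_injective (F := Γ ≃g Γ))
  have c : Ctx G Γ :=
    { adj := fun g _ _ h => g.1.map_rel_iff.2 h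
      faithful := fun g h => Subtype.ext (RelIso.ext h)
      conn := hconn.preconnected
      arc := fun {u v x y} h1 h2 => by
        obtain ⟨g, hg, e⟩ := harc u v x y h1 h2
        exact ⟨⟨g, hg⟩, e⟩
      sp := fun v N h1 h2 => by
        rcases hsp v (N.map G.subtype) (by
          rintro _ ⟨n, hn, rfl⟩; exact ⟨n.2, h1 hn⟩) (by
          rintro h hh hv _ ⟨n, hn, rfl⟩
          exact ⟨_, conj_mem_of_Nm (h2 (show (⟨h, hh⟩ : G) ∈ St G v from hv)) hn, rfl⟩) with t | t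
        · refine Or.inl fun x y hx hy => ?_
          obtain ⟨_, ⟨n, hn, rfl⟩, e⟩ := t x y hx hy
          exact ⟨n, hn, e⟩
        · exact Or.inr fun n hn => t n ⟨n, hn, rfl⟩ }
  have hd' := fun v => (hd v).le
  have h := c.card_bound2 (m := m d) hd' (fun α β hab p hp h0 => by
    have := Fact.mk hp
    by_cases h2 : p = 2
    · subst h2
      by_cases h1 : TwoSubgroupsOfOrderP 2 (localGroup Γ G α)
      · exact (c.short_of_dat hd' hab (c.soluble hab h0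
          (hypA_of hp (hloc α β hab (invol_of h0) h1)))).mono (hm1 d)
      · exact (c.short_of_dat hd' hab (c.rankOne hab h0 (rank_of c hab h1))).mono (hm1 d)
    · exact hm d p (c.prime_le hd' hab h0) hp h2 V G Γ c hd' α β hab h0) v
  refine le_trans (le_of_eq (Nat.card_congr ?_)) h
  exact
    { toFun := fun g => ⟨⟨g.1, g.2.1⟩, g.2.2⟩
      invFun := fun g => ⟨g.1.1, g.1.2, g.2⟩
      left_inv := fun _ => rfl
      right_inv := fun _ => rfl }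

end Pool.Agent.Results.MP_bf45aa_co.OddPrime
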